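import Pool.Agent.JL.B3

/-!
# [JL-G1] the action of `Aut(ℂ / ℚ(ω))` on `√D` and on the cube root of `4 D`

`σ : ℂ ≃+* ℂ` with `σ w = w`; `GalU σ M g` (CUL/Defs): `g` is primary, coprime to `M`, and describes the action on the points of order `M`. `24 D ∣ M`, `M ≠ 0`.
PROOF of `gal_s`: `g` is odd (coprime to `M`), `g = z g'` (`Q3L.exists_dec`), `Dec g z g'`. `s = ± ω^i r` with `r² = emb (Dd c T)` (`D = ω^(2i) Dd c T`). `Q3L.gal_sqrt` (in Q3L/G4.lean; see the variables of that file: `σ`, `hσ`, `M`, `hM`, `h : GalU σ M g`, `hd : Dec g z g'`; it needs `8 * pr T ∣ M`, `24 D = unit · 24 c pr T`): `σ r = fQ c T g' r`; `q2_dec`.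
`gal_t`: `4 D = η (-2)^(2+j) ∏_{p ∈ S} p`. Choose cube roots `s_p` of `emb p` for `p ∈ S ∪ {-2}`: `CUL.gal_cbrt_prime`: `σ s_p = cr p g s_p` (`p ∣ M`). `t³ = emb (4 D) = (η s_{-2}^(2+j) ∏ s_p)³`, so `t = ζ η s_{-2}^(2+j) ∏ s_p` with `ζ³ = 1`, `σ ζ = ζ` (`CUL.g3_root`).
-/

set_option autoImplicit false

open scoped Classical ComplexConjugate

namespace JL

open CM27 JZ
open CU (la eE)
open CUL (Nl ez si ta DS Cont LV IsRep rp cr mn zw OT GalU)
open Q3L (fQ Dec)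

variable {D : Eis}

theorem gal_s (d : Dat D) (σ : ℂ ≃+* ℂ) (hσ : σ w = w) {M g : Eis} (hM : M ≠ 0) (hd : 24 * D ∣ M)
    (h : GalU σ M g) {s : ℂ} (hs : s ^ 2 = emb D) : σ s = (q2 d g : ℂ) * s := by
  have ho : CU.om ^ 3 = 1 := CU.om_cube
  have hodd : ¬ (2 : Eis) ∣ g := by
    intro h2
    have h3 : (2 : Eis) ∣ M := (Dvd.intro (12 * D) (by ring)).trans hd
    exact Q3.prime_two.not_isUnit (h.2.1.isUnit_of_dvd' h2 h3)
  obtain ⟨z, g', hdec⟩ := Q3L.exists_dec hodd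
  have h8 : 8 * CUL.pr d.T ∣ M := by
    refine Dvd.dvd.trans ⟨3 * (CU.om ^ (2 * d.i) * d.c), ?_⟩ hd
    conv_lhs => rw [d.hD']
    unfold Q3.Dd CUL.pr
    ring
  have e1 : CU.om ^ (2 * d.i) * CU.om ^ (4 * d.i) = 1 := by
    rw [← pow_add, show 2 * d.i + 4 * d.i = 3 * (2 * d.i) by ring, pow_mul, ho, one_pow]
  have hDd : Q3.Dd d.c d.T = CU.om ^ (4 * d.i) * D := by
    have h3 := d.hD'
    calc Q3.Dd d.c d.T = (CU.om ^ (2 * d.i) * CU.om ^ (4 * d.i)) * Q3.Dd d.c d.T := by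
          rw [e1, one_mul]
      _ = CU.om ^ (4 * d.i) * (CU.om ^ (2 * d.i) * Q3.Dd d.c d.T) := by ring
      _ = CU.om ^ (4 * d.i) * D := by rw [← h3]
  have hr : (emb (CU.om ^ (2 * d.i)) * s) ^ 2 = emb (Q3.Dd d.c d.T) := by
    rw [hDd, mul_pow, hs, map_mul, ← map_pow, ← pow_mul, show 2 * d.i * 2 = 4 * d.i by ring]
  have h1 := Q3L.gal_sqrt hσ hM h hdec d.hT h8 hr
  rw [map_mul, CUL.sigma_emb σ hσ] at h1
  have hne : emb (CU.om ^ (2 * d.i)) ≠ 0 := by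
    intro h0
    have h5 := congrArg emb e1
    rw [map_mul, h0, zero_mul, map_one] at h5
    exact zero_ne_one h5
  rw [q2_dec d hdec]
  apply mul_left_cancel₀ hne
  rw [h1]
  ring

theorem gal_t (d : Dat D) (σ : ℂ ≃+* ℂ) (hσ : σ w = w) {M g : Eis} (hM : M ≠ 0) (hd : 24 * D ∣ M)
    (h : GalU σ M g) {t : ℂ} (ht : t ^ 3 = emb (4 * D)) : σ t = c3 d g * t := by
  have hex : ∀ p : Eis, ∃ s : ℂ, s ^ 3 = emb p :=
    fun p => IsAlgClosed.exists_pow_nat_eq (emb p) (by norm_num)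
  choose s hs using hex
  have h2p : Prime (-2 : Eis) := Q3.prime_two.neg
  have h2P : Primary (-2 : Eis) := ⟨-1, by ring⟩
  have h2M : (-2 : Eis) ∣ M := (Dvd.intro (-12 * D) (by ring)).trans hd
  have hDM : D ∣ M := (Dvd.intro_left 24 rfl).trans hd
  have hpM : ∀ p ∈ d.S, p ∣ M := by
    intro p hp
    refine Dvd.dvd.trans ?_ hDM
    conv_rhs => rw [d.hD]
    exact (Finset.dvd_prod_of_mem (fun p => p) hp).mul_left _
  have hσ2 : σ (s (-2)) = cr (-2) g * s (-2) :=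
    CUL.gal_cbrt_prime σ hσ hM h h2p h2P h2M (hs (-2))
  have hσp : ∀ p ∈ d.S, σ (s p) = cr p g * s p := fun p hp =>
    CUL.gal_cbrt_prime σ hσ hM h (d.hS p hp).1 (d.hS p hp).2.1 (hpM p hp) (hs p)
  obtain ⟨t0, ht0⟩ : ∃ t0 : ℂ, t0 = emb d.η * s (-2) ^ (2 + d.j) * ∏ p ∈ d.S, s p := ⟨_, rfl⟩
  have hη3 : emb d.η ^ 3 = emb d.η := by
    rcases d.hη with h1 | h1
    · rw [h1, map_one, one_pow]
    · rw [h1, map_neg, map_one]
      norm_num
  have ht03 : t0 ^ 3 = emb (4 * D) := by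
    have e1 : 4 * D = d.η * (-2) ^ (2 + d.j) * ∏ p ∈ d.S, p := by
      conv_lhs => rw [d.hD]
      rw [pow_add]
      norm_num
      ring
    rw [ht0, e1, mul_pow, mul_pow, hη3, ← pow_mul, mul_comm (2 + d.j) 3, pow_mul, hs (-2),
      ← Finset.prod_pow, Finset.prod_congr rfl (fun p _ => hs p), map_mul, map_mul, map_pow,
      map_prod]
  have hD0 : emb (4 * D) ≠ 0 := by
    intro h0
    have h4 : (4 : Eis) * D = 0 := emb_injective (by rw [h0, map_zero])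
    apply hM
    obtain ⟨k, hk⟩ := hd
    rw [hk]
    have h5 : (24 : Eis) * D = 6 * (4 * D) := by ring
    rw [h5, h4, mul_zero, zero_mul]
  have ht0ne : t0 ≠ 0 := by
    intro h0
    rw [h0, zero_pow (by norm_num)] at ht03
    exact hD0 ht03.symm
  have hζ : σ (t / t0) = t / t0 := by
    apply CUL.g3_root _ σ hσ
    have h1 : (t / t0) ^ 3 = 1 := by
      rw [div_pow, ht, ht03, div_self hD0]
    calc (t / t0) ^ 6 = ((t / t0) ^ 3) ^ 2 := by ring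
      _ = 1 := by rw [h1, one_pow]
  have hσt0 : σ t0 = c3 d g * t0 := by
    have h1 : σ (∏ p ∈ d.S, s p) = (∏ p ∈ d.S, cr p g) * ∏ p ∈ d.S, s p := by
      rw [map_prod, ← Finset.prod_mul_distrib]
      exact Finset.prod_congr rfl hσp
    rw [ht0, map_mul, map_mul, map_pow, CUL.sigma_emb σ hσ, hσ2, h1, mul_pow]
    unfold c3
    ring
  have h6 : t = (t / t0) * t0 := (div_mul_cancel₀ t ht0ne).symm
  calc σ t = σ (t / t0) * σ t0 := by rw [← map_mul, ← h6]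
    _ = (t / t0) * (c3 d g * t0) := by rw [hζ, hσt0]
    _ = c3 d g * ((t / t0) * t0) := by ring
    _ = c3 d g * t := by rw [← h6]

end JL
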