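import Pool.Agent.JL.B4
import Pool.Agent.JL.G1

/-!
# [JL-G2] `b = V s / t` is in `ℚ(ω)`

PROOF. `s² = emb D`, `t³ = emb (4 D)`. Let `σ` with `σ w = w`, `M = 24 D · la²`, `g` with `GalU σ M g` (`CUL.exists_galU`). `CUL.ez_gal`: `σ (ez (c / M)) = ez (g c / M)` for all `c : Eis`.
The point `α / (4 D) + si` is `c / M` with `c = (6 la² α + 24 D)` (`M / (4D) = 6 la²`, `M si = 24 D`): `σ` maps `ez` of it to `ez (g α / (4 D) + g si)`, and `g si = si + lattice` (`g ≡ 1 mod 3`, `3 si = 3 / la² ∈ ℤ[ω]`).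
`σ (conj χ(α)) = conj χ(α)` (`c3_sigma`). So `σ VV = ∑_α conj χ(α) ez (g α / (4 D) + si)`; re-index `α → g α` (`IsRep.sum_mul`: `g` is coprime to `4 D`; the summand `F(β) = conj χ(β) ez(β/f + si)` is periodic; `conj χ(α) = χ(g) conj χ(g α)`, `chi_mul`, `chi_conj`): `σ VV = χ(g) VV`.
`gal_s`, `gal_t`: `σ (VV s / t) = χ(g) q2(g) / c3(g) · VV s / t = q2(g)² VV s / t = VV s / t`. `CUL.fixed_KK`.
-/

set_option autoImplicit false

open scoped Classical ComplexConjugate

namespace JL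

open CM27 JZ
open CU (la eE)
open CUL (Nl ez si ta DS Cont LV IsRep rp cr mn zw OT GalU)
open Q3L (fQ Dec)

variable {D : Eis}

/-- `g / λ² = 1 / λ²` modulo the lattice, for `g ≡ 1 mod 3` -/
theorem g2_si {g : Eis} (hg : Primary g) : ∃ a : Eis, emb g * si = si + emb a := by
  obtain ⟨t, ht⟩ := hg
  have h1 : g = 1 + 3 * t := by linear_combination ht
  have hw : w ≠ 0 := a1_w_ne
  refine ⟨-(CU.om ^ 2 * t), ?_⟩
  rw [h1, map_add, map_mul, map_one, map_neg, map_mul, map_pow, CUL.emb_om, si, CUL.la_sq, map_ofNat]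
  have h3 := CUL.w3
  field_simp
  linear_combination (3 * emb t) * h3

theorem g2_sigma_chi (d : Dat D) (σ : ℂ ≃+* ℂ) (hσ : σ w = w) (x : Eis) :
    σ (conj (chi d x)) = conj (chi d x) := by
  rw [chi, map_mul, map_mul, (c3_sigma d σ hσ x).2, map_intCast (starRingEnd ℂ), map_intCast]

/-- the summand of `VV` -/
noncomputable def g2F (d : Dat D) (b : Eis) : ℂ := conj (chi d b) * ez (emb b / emb (4 * D) + si)

theorem g2F_congr (h : Cl0 D) (d : Dat D) {a b : Eis} (hab : 4 * D ∣ a - b) : g2F d a = g2F d b := by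
  have hf : emb (4 * D) ≠ 0 := by
    intro h0
    have := eis_isDomain
    have h1 : (4 : Eis) * D = 0 := emb_injective (by rw [h0, map_zero])
    rcases mul_eq_zero.1 h1 with h2 | h2
    · have h3 := congrArg emb h2
      rw [map_ofNat, map_zero] at h3
      norm_num at h3
    · exact cl_ne h h2
  unfold g2F
  rw [chi_congr d hab]
  obtain ⟨k, hk⟩ := hab
  have h2 : emb a / emb (4 * D) + si = emb b / emb (4 * D) + si + emb k := by
    have h3 : a = b + 4 * D * k := by linear_combination hk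
    rw [h3, map_add emb b, map_mul emb (4 * D) k]
    field_simp
    ring
  rw [h2, CUL.ez_add_emb]

theorem g2_gal (σ : ℂ ≃+* ℂ) (hσ : σ w = w) {g : Eis}
    (hM : 24 * D * la ^ 2 ≠ 0) (hg : GalU σ (24 * D * la ^ 2) g) (α : Eis) :
    σ (ez (emb α / emb (4 * D) + si)) = ez (emb (g * α) / emb (4 * D) + si) := by
  have hM0 : emb (24 * D * la ^ 2) ≠ 0 := fun h0 => hM (emb_injective (by rw [h0, map_zero]))
  rw [map_mul, map_mul, map_ofNat, map_pow] at hM0
  have hD0 : emb D ≠ 0 := right_ne_zero_of_mul (left_ne_zero_of_mul hM0)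
  have hl0 : emb la ≠ 0 := fun h0 => right_ne_zero_of_mul hM0 (by rw [h0]; norm_num)
  have e1 : ∀ β : Eis, emb (6 * la ^ 2 * β) / emb (24 * D * la ^ 2) = emb β / emb (4 * D) := by
    intro β
    rw [map_mul, map_mul, map_mul, map_mul, map_mul, map_ofNat, map_ofNat, map_ofNat, map_pow]
    field_simp
    ring
  have e4 : emb (24 * D * la ^ 2) = 24 * emb D * emb la ^ 2 := by
    rw [map_mul, map_mul, map_ofNat, map_pow]
  have e2 : emb α / emb (4 * D) + si = emb (6 * la ^ 2 * α + 24 * D) / emb (24 * D * la ^ 2) := by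
    have h2 : emb (24 * D) = 24 * emb D := by rw [map_mul, map_ofNat]
    rw [map_add, add_div, e1, si, h2, e4]
    congr 1
    field_simp
  have e3 : emb (g * (6 * la ^ 2 * α + 24 * D)) / emb (24 * D * la ^ 2) =
      emb (g * α) / emb (4 * D) + emb g * si := by
    have h1 : g * (6 * la ^ 2 * α + 24 * D) = 6 * la ^ 2 * (g * α) + 24 * D * g := by ring
    have h2 : emb (24 * D * g) = 24 * emb D * emb g := by rw [map_mul, map_mul, map_ofNat]
    rw [h1, map_add, add_div, e1, si, h2, e4]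
    congr 1
    field_simp
  obtain ⟨a, ha⟩ := g2_si hg.1
  rw [e2, CUL.ez_gal σ hσ hM hg, e3, ha, ← add_assoc, CUL.ez_add_emb]

theorem g2_VV (h : Cl0 D) (d : Dat D) (σ : ℂ ≃+* ℂ) (hσ : σ w = w) {g : Eis}
    (hM : 24 * D * la ^ 2 ≠ 0) (hg : GalU σ (24 * D * la ^ 2) g) (hc : IsCoprime g (4 * D)) :
    σ (VV d) = chi d g * VV d := by
  have hD : (4 : Eis) * D ≠ 0 := by
    intro h0
    apply hM
    have h1 : (24 : Eis) * D * la ^ 2 = 6 * (4 * D) * la ^ 2 := by ring
    rw [h1, h0, mul_zero, zero_mul]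
  have hR := CUL.rp_spec hD
  have h1 : VV d = ∑ α ∈ rp (4 * D), g2F d α := rfl
  have h2 : ∑ α ∈ rp (4 * D), g2F d (g * α) = ∑ α ∈ rp (4 * D), g2F d α :=
    hR.sum_mul hc _ fun a b hab => g2F_congr h d hab
  have h3 : ∀ α, σ (g2F d α) = chi d g * g2F d (g * α) := by
    intro α
    unfold g2F
    rw [map_mul, g2_sigma_chi d σ hσ, g2_gal σ hσ hM hg, chi_mul, map_mul (starRingEnd ℂ)]
    have h4 := chi_conj d hc
    calc conj (chi d α) * ez (emb (g * α) / emb (4 * D) + si)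
        = 1 * (conj (chi d α) * ez (emb (g * α) / emb (4 * D) + si)) := (one_mul _).symm
      _ = (chi d g * conj (chi d g)) * (conj (chi d α) * ez (emb (g * α) / emb (4 * D) + si)) := by
          rw [h4]
      _ = chi d g * (conj (chi d g) * conj (chi d α) * ez (emb (g * α) / emb (4 * D) + si)) := by
          ring
  rw [h1, map_sum, Finset.sum_congr rfl fun α _ => h3 α, ← Finset.mul_sum, h2]

theorem b_mem (h : Cl0 D) (d : Dat D) {s t : ℂ} (hs : s ^ 2 = emb D) (ht : t ^ 3 = emb (4 * D)) :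
    VV d * s / t ∈ CF.KK := by
  refine CUL.fixed_KK _ fun σ hσ => ?_
  have := eis_isDomain
  have hD0 := cl_ne h
  have h24 : (24 : Eis) ≠ 0 := by
    intro h0
    have h3 := congrArg emb h0
    rw [map_ofNat, map_zero] at h3
    norm_num at h3
  have hM : 24 * D * la ^ 2 ≠ 0 :=
    mul_ne_zero (mul_ne_zero h24 hD0) (pow_ne_zero _ CU.la_prime.ne_zero)
  obtain ⟨g, hg⟩ := CUL.exists_galU σ hσ (24 * D * la ^ 2) hM
  have hc : IsCoprime g (4 * D) := by
    refine hg.2.1.of_isCoprime_of_dvd_right ⟨6 * la ^ 2, by ring⟩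
  have hs' := gal_s d σ hσ hM (dvd_mul_right _ _) hg hs
  have ht' := gal_t d σ hσ hM (dvd_mul_right _ _) hg ht
  have hV := g2_VV h d σ hσ hM hg hc
  have hq : ((q2 d g : ℤ) : ℂ) * ((q2 d g : ℤ) : ℂ) = 1 := by
    have h5 := (q2_ne_zero_iff d g).2 hc
    rcases q2_cases d g with h6 | h6 | h6
    · exact absurd h6 h5
    · rw [h6]
      norm_num
    · rw [h6]
      norm_num
  have hc3 := (c3_ne_zero_iff d g).2 hc
  rw [map_div₀, map_mul, hV, hs', ht', chi]
  have h7 : ((q2 d g : ℤ) : ℂ) * c3 d g * VV d * (((q2 d g : ℤ) : ℂ) * s) =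
      c3 d g * (VV d * s) := by
    calc ((q2 d g : ℤ) : ℂ) * c3 d g * VV d * (((q2 d g : ℤ) : ℂ) * s)
        = (((q2 d g : ℤ) : ℂ) * ((q2 d g : ℤ) : ℂ)) * (c3 d g * (VV d * s)) := by ring
      _ = c3 d g * (VV d * s) := by rw [hq, one_mul]
  rw [h7, mul_div_mul_left _ _ hc3]

end JL
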