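import Pool.Agent.JL.B5

/-!
# [JL-H1] the `L`-function of the Hecke character is entire, its value at 1

PROOF. Port of CUL/L6.lean (`IL_eq_DS`, `L_entire`) with `Psi6` for `Psi` and `Ff d` for `fch u a S`: the ideals prime to `3` are `(b)` with a unique primary `b` (`l6_prim`, `l6_inj`), the others contribute `0` (`Psi6_la`). For `I = (b)`: `conj (emb (Psi6 I)) = conj (chi b) conj (emb b)` and
`N(I)^(-s) = |b|^(-2s)`, so the term is `Ff d b · gs s (emb b)`. `Ff d` is periodic modulo `la² · 4 D · la` (say modulo `12 D`: `Primary` depends on `b mod 3`, `chi_congr`): `cont_of_periodic` (CUL/L2) gives the entire continuation; bounded by `1` (`chi_norm`).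
`Φ 1 = LV (Ff d)`: `LV_eq`.
-/

set_option autoImplicit false

open NumberField IsDedekindDomain
open scoped Classical ComplexConjugate

namespace JL

open CM27 JZ
open CU (la eE)
open CUL (Nl ez si ta DS Cont LV IsRep rp cr mn zw OT GalU)
open Q3L (fQ Dec)

variable {D : Eis}

theorem h1_primary {a b : Eis} (h : (3 : Eis) ∣ a - b) : Primary a ↔ Primary b := by
  unfold Primary
  constructor
  · intro h1
    have h2 : b - 1 = (a - 1) - (a - b) := by ring
    rw [h2]
    exact dvd_sub h1 h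
  · intro h1
    have h2 : a - 1 = (b - 1) + (a - b) := by ring
    rw [h2]
    exact dvd_add h1 h

theorem h1_per (d : Dat D) {a b : Eis} (h : 3 * (4 * D) ∣ a - b) : Ff d a = Ff d b := by
  have h3 : (3 : Eis) ∣ a - b := (Dvd.intro _ rfl).trans h
  have h4 : 4 * D ∣ a - b := (Dvd.intro_left _ rfl).trans h
  unfold Ff
  rw [chi_congr d h4]
  simp only [h1_primary h3]

theorem h1_norm (d : Dat D) (b : Eis) : ‖Ff d b‖ ≤ 1 := by
  unfold Ff
  split_ifs
  · rw [Complex.norm_conj]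
    exact chi_norm d b
  · rw [norm_zero]
    exact zero_le_one

theorem h1_Psi_norm (d : Dat D) (I : Ideal (𝓞 CF.KK)) (_ : I ≠ 0) :
    ‖conj (emb (Psi6 (eE D) I))‖ ^ 2 ≤ Ideal.absNorm I := by
  rcases CUL.l6_cases I with ⟨b, hb, rfl⟩ | ⟨b, hb, rfl⟩
  · rw [Psi6_la _ hb, map_zero, map_zero, norm_zero, zero_pow two_ne_zero]
    exact Nat.cast_nonneg _
  · rw [Psi6_span d hb, Complex.norm_conj, norm_mul, mul_pow, CUL.l6_absNorm, CUL.l6_norm]
    have h1 := chi_norm d b
    have h2 : ‖chi d b‖ ^ 2 ≤ 1 := pow_le_one₀ (norm_nonneg _) h1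
    calc ‖chi d b‖ ^ 2 * ((b.norm.natAbs : ℕ) : ℝ) ≤ 1 * ((b.norm.natAbs : ℕ) : ℝ) :=
          mul_le_mul_of_nonneg_right h2 (Nat.cast_nonneg _)
      _ = _ := one_mul _

theorem h1_IL (d : Dat D) (s : ℂ) (hs : 3 / 2 < s.re) :
    LSeries (fun n => NAB.IL CF.KK (fun I => conj (emb (Psi6 (eE D) I))) n) s = DS (Ff d) s := by
  rw [NAB.LSeries_IL CF.KK _ (h1_Psi_norm d) s hs, DS]
  have hinj : Function.Injective
      (fun b : {b : Eis // Primary b} => (Ideal.span {eE (b : Eis)} : Ideal (𝓞 CF.KK))) := by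
    intro b c hbc
    exact Subtype.ext (CUL.l6_inj b.2 c.2 hbc)
  have h1 := hinj.tsum_eq
    (f := NAB.itm CF.KK (fun I => conj (emb (Psi6 (eE D) I))) s) (by
    intro I hI
    rcases CUL.l6_cases I with ⟨b, hb, rfl⟩ | ⟨b, hb, rfl⟩
    · exfalso
      apply hI
      rw [NAB.itm]
      split_ifs
      · rfl
      · rw [Psi6_la _ hb, map_zero, map_zero, zero_mul]
    · exact ⟨⟨b, hb⟩, rfl⟩)
  have h2 := (Subtype.val_injective (p := fun b : Eis => Primary b)).tsum_eq
    (f := fun c : Eis => Ff d c * gs s (emb c)) (by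
      intro c hc
      by_cases hp : Primary c
      · exact ⟨⟨c, hp⟩, rfl⟩
      · exfalso
        apply hc
        simp only [Ff, if_neg hp, zero_mul])
  rw [← h1, ← h2]
  refine tsum_congr fun b => ?_
  have hb := b.2
  have hpos : 0 < ‖emb (b : Eis)‖ := by
    rw [norm_pos_iff]
    intro h0
    exact CUL.primary_ne hb (emb_injective (by rw [h0, map_zero]))
  have hF : Ff d (b : Eis) = conj (chi d b) := by
    unfold Ff
    rw [if_pos hb]
  rw [NAB.itm, if_neg (CUL.l6_span_ne hb), Psi6_span d hb, map_mul, CUL.l6_absNorm, gs,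
    ← CUL.l6_pow hpos, CUL.l6_norm, hF]
  push_cast
  ring

theorem L_entire6 (h : Cl0 D) (d : Dat D) : ∃ Φ : ℂ → ℂ, Differentiable ℂ Φ ∧ (∀ s : ℂ, 3 / 2 < s.re →
    Φ s = LSeries (fun n => NAB.IL CF.KK (fun I => conj (emb (Psi6 (eE D) I))) n) s) ∧ Φ 1 = LV (Ff d) := by
  have := eis_isDomain
  have hD := cl_ne h
  have hM : (3 : Eis) * (4 * D) ≠ 0 := by
    refine mul_ne_zero ?_ (mul_ne_zero ?_ hD)
    · decide
    · decide
  obtain ⟨Φ, h1, -⟩ := CUL.cont_of_periodic hM (Ff d) (fun a b hab => h1_per d hab) (CUL.rp_spec hM)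
  exact ⟨Φ, h1.1, fun s hs => by rw [h1.2 s hs, h1_IL d s hs], (CUL.LV_eq h1).symm⟩

end JL
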