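import Pool.Agent.JL.B4

/-!
# [JL-H2] the value at 1 as a sum over the points of order `4 D`

PROOF. `Ff d` is periodic modulo `la² f`, `f = 4 D` (`la² = -3 ω`; `Primary` depends on the class modulo `3`, `chi_congr`). `LV_periodic`: `LV (Ff d) = (la² f)⁻¹ ∑_{x mod la² f} Ff x E1(x / (la² f))`. Chinese remainder theorem (`IsRep.crt` with the moduli `f` and `la²`, coprime because `la ∤ f`): `x = α la² + β f`, `α` modulo `f`, `β` modulo `la²`.
`x / (la² f) = α / f + β si` (`si = 1 / la²`). `Primary x` iff `3 ∣ β f - 1` (`3 ∣ la²`); `f = 4 D ≡ η mod 3`, so iff `3 ∣ β - η`; this is exactly one class `β ≡ η` modulo `la²` (`3` and `la²` are associated), and then `β si ≡ η si` modulo the lattice, `E1_per`.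
`Ff x = conj χ(la² α) = conj χ(la)² conj χ(α)`, `|χ(la)| = 1` (`la` is coprime to `4 D`). So `LV (Ff d) = (la² f)⁻¹ conj χ(la)² ∑_α conj χ(α) E1(α/f + η si)`.
Replace `α` by `η α` (`η = ± 1`: `chi_neg`, `IsRep.sum_mul`), `E1(η z) = η E1(z)` (`NAB.E1_neg`): the sum is `η OmC VV`. `u := conj χ(la)² η`, `|u| = 1` (`chi_conj`).
-/

set_option autoImplicit false

open scoped Classical ComplexConjugate

namespace JL

open CM27 JZ
open CU (la eE)
open CUL (Nl ez si ta DS Cont LV IsRep rp cr mn zw OT GalU)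
open Q3L (fQ Dec)

variable {D : Eis}

theorem h2_eta (d : Dat D) : d.η * d.η = 1 := by
  rcases d.hη with h | h
  · rw [h]; ring
  · rw [h]; ring

/-- `4 D ≡ η mod 3` -/
theorem h2_mod (d : Dat D) : (3 : Eis) ∣ 4 * D - d.η := by
  have h1 : ∀ S : Finset Eis, (∀ p ∈ S, Primary p) → Primary (∏ p ∈ S, p) := by
    intro S
    induction S using Finset.induction_on with
    | empty => intro _; rw [Finset.prod_empty]; exact CUL.primary_one
    | insert a s has ih =>
      intro hS
      rw [Finset.prod_insert has]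
      exact CUL.primary_mul (hS a (Finset.mem_insert_self a s))
        (ih fun p hp => hS p (Finset.mem_insert_of_mem hp))
  have h2 : Primary (-2 : Eis) := by
    rw [Primary]
    exact ⟨-1, by ring⟩
  have h3 : ∀ j : ℕ, Primary ((-2 : Eis) ^ j) := by
    intro j
    induction j with
    | zero => rw [pow_zero]; exact CUL.primary_one
    | succ n ih => rw [pow_succ]; exact CUL.primary_mul ih h2
  have h4 : Primary ((-2 : Eis) ^ d.j * ∏ p ∈ d.S, p) :=
    CUL.primary_mul (h3 d.j) (h1 d.S fun p hp => (d.hS p hp).2.1)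
  rw [Primary] at h4
  obtain ⟨k, hk⟩ := h4
  refine ⟨D + d.η * k, ?_⟩
  have h5 : D = d.η * ((-2 : Eis) ^ d.j * ∏ p ∈ d.S, p) := by
    rw [← mul_assoc]; exact d.hD
  have h6 : D - d.η = 3 * (d.η * k) := by
    have h7 : D - d.η = d.η * ((-2 : Eis) ^ d.j * ∏ p ∈ d.S, p) - d.η := by rw [← h5]
    rw [h7]
    linear_combination d.η * hk
  linear_combination h6

/-- `la` is coprime to `4 D` -/
theorem h2_cop (d : Dat D) : IsCoprime la (4 * D) := by
  obtain ⟨k, hk⟩ := h2_mod d
  refine ⟨CU.om ^ 2 * la * k * d.η, d.η, ?_⟩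
  have h3 : (3 : Eis) = -CU.om ^ 2 * la ^ 2 := CU.three_eq
  have h4 := h2_eta d
  rw [h3] at hk
  linear_combination d.η * hk + h4

theorem h2_cop2 (d : Dat D) : IsCoprime (4 * D) (la ^ 2) := (h2_cop d).symm.pow_right

theorem h2_la2 {x : Eis} : la ^ 2 ∣ x ↔ (3 : Eis) ∣ x := by
  constructor
  · rintro ⟨k, rfl⟩
    rw [CUL.x1_la_sq]
    exact ⟨-CU.om * k, by ring⟩
  · rintro ⟨k, rfl⟩
    rw [CU.three_eq]
    exact ⟨-CU.om ^ 2 * k, by ring⟩

theorem h2_D_ne (h : Cl0 D) : (4 * D : Eis) ≠ 0 := by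
  have := eis_isDomain
  have h4 : (4 : Eis) ≠ 0 := by
    intro h0
    have := congrArg emb h0
    rw [map_ofNat, map_zero] at this
    norm_num at this
  exact mul_ne_zero h4 h.1.ne_zero

theorem h2_la_ne : (la ^ 2 : Eis) ≠ 0 := by
  have := eis_isDomain
  exact pow_ne_zero _ CU.la_prime.ne_zero

theorem h2_prim (d : Dat D) (α β : Eis) : Primary (α * la ^ 2 + β * (4 * D)) ↔ la ^ 2 ∣ β - d.η := by
  obtain ⟨k, hk⟩ := h2_mod d
  have h4 := h2_eta d
  have hla : la ^ 2 = 3 * (-CU.om) := CUL.x1_la_sq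
  rw [h2_la2, Primary]
  constructor
  · rintro ⟨m, hm⟩
    refine ⟨d.η * (m - α * (-CU.om) - β * k), ?_⟩
    rw [hla] at hm
    linear_combination d.η * hm - d.η * β * hk - β * h4
  · rintro ⟨m, hm⟩
    refine ⟨α * (-CU.om) + β * k + d.η * m, ?_⟩
    rw [hla]
    linear_combination β * hk + d.η * hm + h4

theorem h2_per (d : Dat D) (a b : Eis) (hab : 4 * D * la ^ 2 ∣ a - b) : Ff d a = Ff d b := by
  have h3 : (3 : Eis) ∣ a - b := h2_la2.1 (dvd_trans (Dvd.intro_left _ rfl) hab)
  have h4 : 4 * D ∣ a - b := dvd_trans (Dvd.intro _ rfl) hab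
  have hp : Primary a ↔ Primary b := by
    rw [Primary, Primary]
    constructor
    · intro h
      have := dvd_sub h h3
      have e : a - 1 - (a - b) = b - 1 := by ring
      rwa [e] at this
    · intro h
      have := dvd_add h h3
      have e : b - 1 + (a - b) = a - 1 := by ring
      rwa [e] at this
  rw [Ff, Ff]
  by_cases hb : Primary b
  · rw [if_pos hb, if_pos (hp.2 hb), chi_congr d h4]
  · rw [if_neg hb, if_neg (fun h => hb (hp.1 h))]

theorem h2_chi (d : Dat D) (α β : Eis) : chi d (α * la ^ 2 + β * (4 * D)) = chi d α * chi d la ^ 2 := by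
  have e1 : chi d (α * la ^ 2 + β * (4 * D)) = chi d (α * la ^ 2) := by
    apply chi_congr
    exact ⟨β, by ring⟩
  rw [e1, chi_mul, pow_two la, chi_mul, pow_two]

theorem LV_Ff (h : Cl0 D) (d : Dat D) : ∃ u : ℂ, ‖u‖ = 1 ∧
    LV (Ff d) = u * OmC / (emb la ^ 2 * emb (4 * D)) * VV d := by
  have hdom := eis_isDomain
  have hD := h2_D_ne h
  have hL := h2_la_ne
  have hDL : 4 * D * la ^ 2 ≠ 0 := mul_ne_zero hD hL
  have hemD : emb (4 * D) ≠ 0 := CUL.l2_emb_ne hD
  have hemla : emb la ≠ 0 := CUL.l2_emb_ne CU.la_prime.ne_zero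
  have hOm : OmC ≠ 0 := OmC_ne
  have hη1 : ‖emb d.η‖ = 1 := by
    rcases d.hη with h1 | h1
    · rw [h1, map_one, norm_one]
    · rw [h1, map_neg, map_one, norm_neg, norm_one]
  have hch : ‖chi d la‖ = 1 := by
    have h1 := chi_conj d (h2_cop d)
    rw [Complex.mul_conj, Complex.normSq_eq_norm_sq] at h1
    have h2 : ‖chi d la‖ ^ 2 = 1 := by exact_mod_cast h1
    exact (pow_eq_one_iff_of_nonneg (norm_nonneg _) two_ne_zero).1 h2
  refine ⟨conj (chi d la) ^ 2 * emb d.η, ?_, ?_⟩
  · rw [norm_mul, norm_pow, Complex.norm_conj, hch, hη1, one_pow, one_mul]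
  · set g : Eis → ℂ := fun c => Ff d c * NAB.E1 (emb c / emb (4 * D * la ^ 2)) with hg
    have hgper : ∀ x y, 4 * D * la ^ 2 ∣ x - y → g x = g y := by
      intro x y hab
      show Ff d x * NAB.E1 (emb x / emb (4 * D * la ^ 2)) = Ff d y * NAB.E1 (emb y / emb (4 * D * la ^ 2))
      rw [h2_per d x y hab]
      obtain ⟨k, hk⟩ := hab
      have e2 : emb x / emb (4 * D * la ^ 2) = emb y / emb (4 * D * la ^ 2) + emb k := by
        have e3 : x = y + 4 * D * la ^ 2 * k := by rw [← hk]; ring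
        have e4 : emb (4 * D * la ^ 2) ≠ 0 := CUL.l2_emb_ne hDL
        rw [e3, map_add, map_mul emb (4 * D * la ^ 2) k]
        field_simp
      rw [e2, NAB.E1_per]
    have key : ∀ α β : Eis, g (α * la ^ 2 + β * (4 * D)) =
        if la ^ 2 ∣ β - d.η then
          conj (chi d α) * conj (chi d la) ^ 2 * NAB.E1 (emb α / emb (4 * D) + emb d.η * si) else 0 := by
      intro α β
      show Ff d _ * NAB.E1 _ = _
      rw [Ff]
      by_cases hb : la ^ 2 ∣ β - d.η
      · rw [if_pos ((h2_prim d α β).2 hb), if_pos hb, h2_chi, map_mul, map_pow]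
        congr 1
        obtain ⟨k, hk⟩ := hb
        have e1 : β = d.η + la ^ 2 * k := by rw [← hk]; ring
        have e2 : emb (α * la ^ 2 + β * (4 * D)) / emb (4 * D * la ^ 2) =
            emb α / emb (4 * D) + emb d.η * si + emb k := by
          rw [e1, CUL.si, map_mul emb (4 * D) (la ^ 2), map_add emb (α * la ^ 2), map_mul emb α,
            map_mul emb _ (4 * D), map_add emb d.η, map_mul emb (la ^ 2) k, map_pow]
          field_simp
          ring
        rw [e2, NAB.E1_per]
      · rw [if_neg (fun h' => hb ((h2_prim d α β).1 h')), if_neg hb, zero_mul]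
    have hsum : ∀ α : Eis, ∑ β ∈ rp (la ^ 2), g (α * la ^ 2 + β * (4 * D)) =
        conj (chi d α) * conj (chi d la) ^ 2 * NAB.E1 (emb α / emb (4 * D) + emb d.η * si) := by
      intro α
      obtain ⟨β₀, ⟨hβ₀, hd₀⟩, huniq⟩ := CUL.rp_spec hL d.η
      rw [Finset.sum_congr rfl (fun β _ => key α β), Finset.sum_eq_single β₀]
      · rw [if_pos]
        obtain ⟨k, hk⟩ := hd₀
        exact ⟨-k, by linear_combination -hk⟩
      · intro β hβ hne
        rw [if_neg]
        rintro ⟨k, hk⟩
        exact hne (huniq β ⟨hβ, ⟨-k, by linear_combination -hk⟩⟩)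
      · intro hn
        exact absurd hβ₀ hn
    rw [CUL.LV_periodic hDL (Ff d) (h2_per d) (CUL.rp_spec hDL)]
    have h1 := IsRep.crt (h2_cop2 d) (CUL.rp_spec hD) (CUL.rp_spec hL) g (CUL.rp_spec hDL) hgper
    have h2 : ∑ c ∈ rp (4 * D * la ^ 2), Ff d c * NAB.E1 (emb c / emb (4 * D * la ^ 2)) =
        ∑ c ∈ rp (4 * D * la ^ 2), g c := rfl
    rw [h2, h1, Finset.sum_congr rfl (fun α _ => hsum α)]
    have h3 : ∑ α ∈ rp (4 * D), conj (chi d α) * conj (chi d la) ^ 2 *
        NAB.E1 (emb α / emb (4 * D) + emb d.η * si) = conj (chi d la) ^ 2 * (emb d.η * (OmC * VV d)) := by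
      have hE : ∀ z : ℂ, NAB.E1 z = OmC * ez z := by
        intro z
        rw [CUL.ez]
        field_simp
      rw [VV, Finset.mul_sum, Finset.mul_sum, Finset.mul_sum]
      rcases d.hη with h5 | h5
      · rw [h5, map_one]
        refine Finset.sum_congr rfl fun α _ => ?_
        rw [one_mul, hE]
        ring
      · rw [h5, map_neg, map_one]
        rw [← CUL.IsRep.sum_neg (CUL.rp_spec hD)]
        · refine Finset.sum_congr rfl fun α _ => ?_
          rw [chi_neg]
          have e1 : emb (-α) / emb (4 * D) + -1 * si = -(emb α / emb (4 * D) + si) := by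
            rw [map_neg]
            ring
          rw [e1, NAB.E1_neg, hE]
          ring
        · intro x y hxy
          rw [chi_congr d hxy]
          congr 1
          obtain ⟨k, hk⟩ := hxy
          have e3 : x = y + 4 * D * k := by rw [← hk]; ring
          have e2 : emb x / emb (4 * D) + -1 * si = emb y / emb (4 * D) + -1 * si + emb k := by
            rw [e3, map_add, map_mul emb (4 * D) k]
            field_simp
            ring
          rw [e2, NAB.E1_per]
    rw [h3, map_mul emb (4 * D), map_pow]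
    field_simp

end JL
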