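import Pool.Agent.JL.H3
import Pool.Agent.JZ.LA4

/-!
# [JL-A4] the valuation of `T` and of `V`

`kk_res`: residue field of `ℚ(ω)` (`JZ.a4_KK`). `TT_val`: application of `JZ.A_main` (JZ/LA4.lean). `VV_val`: `VV_eq` (H3) and
`v(xw si) = 1`, `v(yw si)² = v(3) = v(la)²`.
-/

set_option autoImplicit false

open scoped Classical ComplexConjugate

namespace JL

open CM27 JZ
open CU (la eE)
open CUL (Nl ez si ta DS Cont LV IsRep rp cr mn zw OT GalU)

variable {D : Eis}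

theorem kk_res (A : ValuationSubring ℂ) (hA : A.valuation 3 < 1) {b : ℂ} (hb : b ∈ CF.KK)
    (hv : A.valuation b ≤ 1) : A.valuation (b ^ 3 - b) < 1 := by
  have hbA : b ∈ A := (ValuationSubring.valuation_le_one_iff A _).1 hv
  have h1 := JZ.a4_KK A hA (z := ⟨b, hbA⟩) hb
  have h2 : JZ.rsd A ((⟨b, hbA⟩ : A) ^ 3 - ⟨b, hbA⟩) = 0 := by
    rw [map_sub, map_pow, h1, sub_self]
  have h3 := (JZ.rsd_eq_zero A _).1 h2
  exact h3

theorem a4_exists_r : ∃ r : ℂ, 4 * r ^ 3 = -1 := by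
  obtain ⟨r, hr⟩ := IsAlgClosed.exists_pow_nat_eq (-1 / 4 : ℂ) (n := 3) (by norm_num)
  exact ⟨r, by rw [hr]; norm_num⟩

theorem TT_val (h : Cl D) (d : Dat D) {R : Finset Eis} (hR : IsR d R) (A : ValuationSubring ℂ)
    (hA : A.valuation 3 < 1) {s : ℂ} (hs : s ^ 2 = emb D) {m : ZMod 3} (hm : kk d ≠ 0 → m = 0)
    (hN : N1 s (zw m * ee d R)) :
    A.valuation (emb la * TT d R) ≤ 1 ∧ A.valuation (zw m * ee d R - 1) ≤ A.valuation (emb la) ∧
      (A.valuation (emb la * TT d R) = 1 ↔ A.valuation (zw m * ee d R - 1) = A.valuation (emb la)) := by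
  obtain ⟨r, hr⟩ := a4_exists_r
  have hrv := JZ.a1_r A hA hr
  have hrA : r ∈ A := (ValuationSubring.valuation_le_one_iff A _).1 hrv.le
  have hXv : ∀ c ∈ R, A.valuation ((xc D c - r) / emb la) ≤ 1 := by
    intro c hc
    have h1 := JZ.x_sub_r A hA hr (OT_c (cl0 h) d (hR.1 c hc))
    have h2 : A.valuation (emb la) ≠ 0 := (CUL.v2_wla A)
    rw [map_div₀]
    exact div_le_one_of_le₀ h1 zero_le
  let X : Eis → A := fun c => if hc : A.valuation ((xc D c - r) / emb la) ≤ 1 then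
    ⟨(xc D c - r) / emb la, (ValuationSubring.valuation_le_one_iff A _).1 hc⟩ else 0
  have hX : ∀ c ∈ R, xc D c = ((⟨r, hrA⟩ : A) : ℂ) + emb la * (X c : ℂ) := by
    intro c hc
    have h1 : (X c : ℂ) = (xc D c - r) / emb la := by
      simp only [X, dif_pos (hXv c hc)]
    rw [h1]
    have h2 := CUL.la_ne
    field_simp
    ring
  -- the character
  have hcz : ∀ c ∈ R, ∃ l : ZMod 3, c3 d c = zw l ∧ (kk d ≠ 0 → l = 0) := by
    intro c hc
    by_cases hk : kk d = 0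
    · obtain ⟨l, hl⟩ := c3_zw d (hR.1 c hc)
      exact ⟨l, hl, fun h1 => absurd hk h1⟩
    · exact ⟨0, by rw [hR.2.2 hk c hc, CUL.zw_zero], fun _ => rfl⟩
  choose! l hl1 hl2 using hcz
  let ψ : Eis → A := fun c => (q2 d c : A) * JZ.wA A ^ (-(l c)).val
  have hψc : ∀ c ∈ R, (ψ c : ℂ) = conj (chi d c) := by
    intro c hc
    have h1 : ((JZ.wA A : A) : ℂ) = w := rfl
    have h2 : (ψ c : ℂ) = (q2 d c : ℂ) * w ^ (-(l c)).val := by
      simp only [ψ]
      push_cast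
      rw [h1]
    rw [h2, chi, map_mul, hl1 c hc, CUL.zw_conj, map_intCast]
    rfl
  have hq : ∀ c ∈ R, q2 d c = 1 ∨ q2 d c = -1 := by
    intro c hc
    have h1 := (q2_ne_zero_iff d c).2 (hR.1 c hc)
    rcases q2_cases d c with h2 | h2 | h2
    · exact absurd h2 h1
    · exact Or.inl h2
    · exact Or.inr h2
  have hψ0 : ∑ c ∈ R, ψ c = 0 := by
    apply Subtype.ext
    have h1 : ((∑ c ∈ R, ψ c : A) : ℂ) = ∑ c ∈ R, conj (chi d c) := by
      rw [← Finset.sum_congr rfl hψc]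
      push_cast
      rfl
    rw [h1]
    by_cases hk : kk d = 0
    · rw [sum_R_chi (cl0 h) d hR hk]; rfl
    · have h2 : ∀ c ∈ R, conj (chi d c) = ((q2 d c : ℤ) : ℂ) := by
        intro c hc
        rw [chi, hR.2.2 hk c hc, mul_one, map_intCast]
      rw [Finset.sum_congr rfl h2, ← Int.cast_sum, sum_R_q2 (cl0 h) d hR]
      simp
  have hψn : ∀ c ∈ R, JZ.rsd A (ψ c) = (q2 d c : IsLocalRing.ResidueField A) := by
    intro c hc
    simp only [ψ]
    rw [map_mul, map_pow, JZ.rsd_w A hA, one_pow, mul_one, map_intCast]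
  -- the sign
  obtain ⟨η, hη, hη'⟩ : ∃ η : ℤ, (η : Eis) = d.η ∧ (η = 1 ∨ η = -1) := by
    rcases d.hη with h1 | h1
    · exact ⟨1, by rw [h1]; simp, Or.inl rfl⟩
    · exact ⟨-1, by rw [h1]; simp, Or.inr rfl⟩
  have hη1 : d.η = 1 → η = 1 := by
    intro h1
    rcases hη' with h2 | h2
    · exact h2
    · exfalso
      rw [h2, h1] at hη
      revert hη
      decide
  have hη2 : d.η = -1 → η = -1 := by
    intro h1
    rcases hη' with h2 | h2
    · exfalso
      rw [h2, h1] at hη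
      revert hη
      decide
    · exact h2
  have hDη : (3 : Eis) ∣ D - (η : Eis) := by rw [hη]; exact d.congr
  obtain ⟨u₁, u₂, hu1, hu2, e1, e2, e3⟩ := hN
  have hnorm : u₁ ^ 2 - u₂ ^ 2 * emb D = 1 := by
    have h1 : (u₁ + u₂ * s) * (u₁ - u₂ * s) = 1 := by
      rw [← e1, ← e2, mul_inv_cancel₀ e3]
    rw [← hs, ← h1]; ring
  have hcase : (η = -1 ∧ (kk d).val = 0) ∨ (η = -1 ∧ (kk d).val = 2 ∧ m.val = 0) ∨
      (η = 1 ∧ (kk d).val = 1 ∧ m.val = 0) ∨ (η = 1 ∧ (kk d).val = 2 ∧ m.val = 0) := by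
    have hm' : kk d ≠ 0 → m.val = 0 := fun h1 => by rw [hm h1]; rfl
    rcases d.kk_cases h with ⟨h1, h2 | h2⟩ | ⟨h1, h2 | h2⟩
    · exact Or.inl ⟨hη2 h1, by rw [h2]; rfl⟩
    · exact Or.inr (Or.inl ⟨hη2 h1, by rw [h2]; rfl, hm' (by rw [h2]; decide)⟩)
    · exact Or.inr (Or.inr (Or.inl ⟨hη1 h1, by rw [h2]; rfl, hm' (by rw [h2]; decide)⟩))
    · exact Or.inr (Or.inr (Or.inr ⟨hη1 h1, by rw [h2]; rfl, hm' (by rw [h2]; decide)⟩))
  have hmain := JZ.A_main A hA (r := ⟨r, hrA⟩) (by apply Subtype.ext; push_cast; exact hr) R X ψ (q2 d) (xc D)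
    hX hq (sum_R_q2 (cl0 h) d hR) hψ0 hψn hcase hDη hs hu1 hu2 hnorm e1
  rw [← e1] at hmain
  have hT : ∑ c ∈ R, (ψ c : ℂ) * (xc D c ^ (kk d).val / (1 + xc D c ^ 3)) = TT d R := by
    rw [TT]
    refine Finset.sum_congr rfl fun c hc => ?_
    rw [hψc c hc, mul_div_assoc]
  rw [hT] at hmain
  exact hmain

theorem VV_val (h : Cl D) (d : Dat D) {R : Finset Eis} (hR : IsR d R) (A : ValuationSubring ℂ)
    (hA : A.valuation 3 < 1) {s : ℂ} (hs : s ^ 2 = emb D) {m : ZMod 3} (hm : kk d ≠ 0 → m = 0)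
    (hN : N1 s (zw m * ee d R)) :
    A.valuation (VV d) ≤ A.valuation 3 ∧
      (A.valuation (VV d) = A.valuation 3 ↔ A.valuation (zw m * ee d R - 1) = A.valuation (emb la)) := by
  obtain ⟨h1, -, h2⟩ := TT_val h d hR A hA hs hm hN
  have h3 : A.valuation (yw si) = A.valuation (emb la) := by
    have h4 : A.valuation (yw si) ^ 2 = A.valuation (emb la) ^ 2 := by rw [CUL.v2_y_si A, CUL.w_la A hA]
    exact (pow_left_inj₀ zero_le zero_le (by norm_num)).1 h4
  have h5 : A.valuation (VV d) = A.valuation 3 * A.valuation (emb la * TT d R) := by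
    rw [VV_eq (cl0 h) d hR, map_mul, map_mul, map_mul, map_pow, map_mul, CUL.v2_x_si A, one_pow, mul_one, h3,
      Valuation.map_neg, mul_assoc]
  have h6 := CUL.v2_w3 A
  rw [← h2, h5]
  refine ⟨?_, ?_, ?_⟩
  · calc A.valuation 3 * A.valuation (emb la * TT d R) ≤ A.valuation 3 * 1 := mul_le_mul_right h1 _
      _ = A.valuation 3 := mul_one _
  · intro h7
    exact mul_left_cancel₀ h6 (by rw [h7, mul_one])
  · intro h7
    rw [h7, mul_one]

end JL
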