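import Pool.Agent.JL.F0
import Pool.Agent.JL.A4

/-!
# [JL-N6] the valuation of `e' - 1` and the condition `UC`

`A` a valuation ring of `ℂ` with `v(3) < 1`, `L = emb la`, `v(L)² = v(3)`. For an element `x = a + b s` of `KD D`: `x̄ = a - b s`.
`unit_E`: for a unit `u = u₁ + u₂ s` of `𝓞 (KD D)` (`u, u⁻¹` integral; then `ū`, `ū⁻¹` are), `E = (u / ū)^8` is `1 + la a' ... `: precisely there are `a, b ∈ ℤ[ω]` with `E = 1 + 3 emb a + emb (la b) s` (as complex numbers, `s = sD D`), and `E⁻¹ = 1 + 3 emb a - emb (la b) s`.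
PROOF. `E` is integral, in `KD`: `E = emb a₀ + emb b₀ s` (`KD_int`), `E⁻¹ = Ē = emb a₀ - emb b₀ s` (`E Ē = 1`). `u ≡ c + d s mod la` with `c, d ∈ ℤ[ω]`, `s² ≡ η mod la`. The ring `ℤ[ω][s]/(la) = F₃[s]/(s² - η)` : for `η = -1` it is `F₉`, a unit satisfies `x^8 = 1`; for `η = 1` it is `F₃ × F₃` (`s = ± 1`): a unit satisfies `x² = 1`. So `u^8 ≡ 1`, `ū^8 ≡ 1`, `E ≡ 1 mod la 𝓞`. Elementary: `x = c + d s`; `x³ ≡ c + d η s` (mod `la`; `c³ ≡ c`, `s³ ≡ η s`), `x^9 ≡ x`; `x` a unit: `x^8 ≡ 1`. So (`KD_int` for `(E - 1)/L`, or comparing coefficients) `la ∣ a₀ - 1`, `la ∣ b₀`.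
Then `2 (a₀ - 1) = E + E⁻¹ - 2 = (E - 1)² E⁻¹` is divisible by `la²` in `𝓞 (KD)`: `la² ∣ a₀ - 1`, i.e. `3 ∣ a₀ - 1` (`3` is associated to `la²`).
`uc_iff`: `e' = z ε^n` with `N1 (sD D) e'`: `e'⁻¹ = ē'`, so `e'² = e'/ē' = (ε/ε̄)^n` (`z̄ = z`: `z^6 = 1` implies `z ∈ KK`), `e'^16 = E^n`, `E = (ε/ε̄)^8 = 1 + 3 a + la b s`.
`v(e' - 1) ≤ v(L)`. `e'^16 - 1 = (e' - 1)(16 + O(e' - 1))`: `v(e'^16 - 1) = v(e' - 1)` (if `v(e' - 1) < 1`, `v(∑_{i<16} e'^i) = v(16) = 1`). `E^n = 1 + n L b s + O(3)` for `n ∈ ℤ`: `v(E^n - 1 - n L b s) ≤ v(3) < v(L)`. `v(s) = 1`, `v(b) = 1` iff `la ∤ b`, `v(n) = 1` iff `3 ∤ n`. So `v(e' - 1) = v(L)` iff `3 ∤ n` and `la ∤ b`; `3 ∣ n` iff `3 ∣ classNumber`.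
`UC D`: `(⟸)` take `u = ε` (`ε = u₁ + u₂ s`): `(E - 1)/3 = a + (la b / 3) s` is not integral as `3 ∤ la b` (`KD_int`, uniqueness). `(⟹)` if `u = y ε^j` and `la ∣ b`: `3 ∣ E - 1` in `𝓞 (KD)`, so `3 ∣ E^j - 1` and `(u/ū)^8 = E^j` (`ȳ = y`), contradiction to `UC`. (A unit `u` given by `u₁, u₂` as in `UC` is an element of `(𝓞 (KD D))ˣ`.)
-/

set_option autoImplicit false

open NumberField IsDedekindDomain
open scoped Classical ComplexConjugate

namespace JL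

open CM27 JZ
open CU (la eE)
open CUL (zw)

variable {D : Eis}

/-! ### arithmetic of `ℤ[ω]` modulo `la` -/

theorem n6_la_sq : la ^ 2 = 3 * (-CU.om) := by decide

theorem n6_res (a : Eis) : la ∣ a ∨ la ∣ a - 1 ∨ la ∣ a + 1 := by
  rw [CU.la_dvd_iff, CU.la_dvd_iff, CU.la_dvd_iff]
  have h1 : (a - 1 : Eis).re + (a - 1 : Eis).im = a.re + a.im - 1 := by
    change (a.re - 1) + (a.im - 0) = a.re + a.im - 1
    ring
  have h2 : (a + 1 : Eis).re + (a + 1 : Eis).im = a.re + a.im + 1 := by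
    change (a.re + 1) + (a.im + 0) = a.re + a.im + 1
    ring
  rw [h1, h2]
  omega

theorem n6_sq1 {a : Eis} (h : ¬ la ∣ a) : la ∣ a ^ 2 - 1 := by
  have e : a ^ 2 - 1 = (a - 1) * (a + 1) := by ring
  rw [e]
  rcases n6_res a with h1 | h1 | h1
  · exact absurd h1 h
  · exact Dvd.dvd.mul_right h1 _
  · exact Dvd.dvd.mul_left h1 _

theorem n6_eta (h : Cl0 D) : ∃ η : Eis, (η = 1 ∨ η = -1) ∧ la ∣ D - η := by
  obtain ⟨η, h1, h2⟩ := h.2.1
  refine ⟨η, h1, dvd_trans ?_ h2⟩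
  rw [CU.three_eq, pow_two la, ← mul_assoc]
  exact Dvd.intro_left _ rfl

theorem n6_one : ¬ la ∣ (1 : Eis) := fun h => CU.la_prime.not_isUnit (isUnit_of_dvd_one h)

theorem n6_laD (h : Cl0 D) : ¬ la ∣ D := by
  intro hd
  obtain ⟨η, h1, h2⟩ := n6_eta h
  have h3 : la ∣ η := by
    have h4 := dvd_sub hd h2
    rwa [sub_sub_cancel] at h4
  rcases h1 with rfl | rfl
  · exact n6_one h3
  · exact n6_one ((dvd_neg).1 h3)

theorem n6_la_dvd (h : Cl0 D) {p q : Eis} (hpq : p ^ 2 - D * q ^ 2 = 1) : la ∣ p * q := by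
  by_contra hc
  have hp : ¬ la ∣ p := fun h1 => hc (Dvd.dvd.mul_right h1 _)
  have hq : ¬ la ∣ q := fun h1 => hc (Dvd.dvd.mul_left h1 _)
  have h1 := n6_sq1 hp
  have h2 := n6_sq1 hq
  apply n6_laD h
  have h3 : D = (p ^ 2 - 1) - D * (q ^ 2 - 1) := by linear_combination -hpq
  rw [h3]
  exact dvd_sub h1 (Dvd.dvd.mul_left h2 _)

/-! ### powers -/

theorem n6_step {P Q d s : ℂ} (hs : s ^ 2 = d) (hN : P ^ 2 - d * Q ^ 2 = 1) :
    (P + Q * s) ^ 2 = (1 + 2 * d * Q ^ 2) + (2 * P * Q) * s ∧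
      (1 + 2 * d * Q ^ 2) ^ 2 - d * (2 * P * Q) ^ 2 = 1 := by
  constructor
  · linear_combination Q ^ 2 * hs + hN
  · linear_combination (-4 * d * Q ^ 2) * hN

theorem n6_pow8 {p q : Eis} (hpq : p ^ 2 - D * q ^ 2 = 1) (hl : la ∣ p * q) :
    ∃ a b : Eis, ∀ s : ℂ, s ^ 2 = emb D →
      (emb p + emb q * s) ^ 8 = 1 + 3 * emb a + emb la * emb b * s := by
  obtain ⟨t, ht⟩ := hl
  refine ⟨32 * D * (1 + 2 * D * q ^ 2) ^ 2 * t ^ 2 * (-CU.om),
    8 * (1 + 2 * D * q ^ 2) * (1 + 2 * D * (2 * p * q) ^ 2) * t, ?_⟩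
  intro s hs
  have hN : emb p ^ 2 - emb D * emb q ^ 2 = 1 := by
    rw [← map_pow, ← map_pow, ← map_mul, ← map_sub, hpq, map_one]
  have hT : emb p * emb q = emb la * emb t := by rw [← map_mul, ht, map_mul]
  have hL : emb la ^ 2 = 3 * emb (-CU.om) := by
    rw [← map_pow, n6_la_sq, map_mul, map_ofNat]
  obtain ⟨h1, h2⟩ := n6_step hs hN
  obtain ⟨h3, h4⟩ := n6_step hs h2
  obtain ⟨h5, -⟩ := n6_step hs h4
  have h6 : (emb p + emb q * s) ^ 8 = (((emb p + emb q * s) ^ 2) ^ 2) ^ 2 := by ring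
  rw [h6, h1, h3, h5]
  simp only [map_mul, map_add, map_pow, map_one, map_ofNat]
  generalize emb (-CU.om) = c at *
  generalize emb p = P at *
  generalize emb q = Q at *
  generalize emb D = d at *
  generalize emb t = T at *
  generalize emb la = L at *
  have h7 : (2 * (1 + 2 * d * Q ^ 2) * (2 * P * Q)) ^ 2 =
      16 * (1 + 2 * d * Q ^ 2) ^ 2 * T ^ 2 * (3 * c) := by
    rw [← hL]
    have h8 : (2 * (1 + 2 * d * Q ^ 2) * (2 * P * Q)) ^ 2 = 16 * (1 + 2 * d * Q ^ 2) ^ 2 * (P * Q) ^ 2 := by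
      ring
    rw [h8, hT]
    ring
  have h9 : 2 * (1 + 2 * d * (2 * P * Q) ^ 2) * (2 * (1 + 2 * d * Q ^ 2) * (2 * P * Q)) =
      L * (8 * (1 + 2 * d * Q ^ 2) * (1 + 2 * d * (2 * P * Q) ^ 2) * T) := by
    have h10 : 2 * (1 + 2 * d * (2 * P * Q) ^ 2) * (2 * (1 + 2 * d * Q ^ 2) * (2 * P * Q)) =
        8 * (1 + 2 * d * (2 * P * Q) ^ 2) * (1 + 2 * d * Q ^ 2) * (P * Q) := by ring
    rw [h10, hT]
    ring
  rw [h7, h9]
  ring

/-! ### the field -/

theorem n6_emb_mem (a : Eis) : emb a ∈ CF.KK := by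
  rw [CUL.mem_KK]
  refine ⟨a.re, a.im, ?_⟩
  rw [emb_apply]
  push_cast
  rfl

theorem n6_uniq (h : Cl0 D) {a b c d : Eis} (he : emb a + emb b * sD D = emb c + emb d * sD D) :
    a = c ∧ b = d := by
  obtain ⟨h1, h2⟩ := rep_unique h (n6_emb_mem a) (n6_emb_mem b) (n6_emb_mem c) (n6_emb_mem d) he
  exact ⟨emb_injective h1, emb_injective h2⟩

theorem n6_root {z : ℂ} (hz : z ^ 6 = 1) : z ∈ CF.KK := by
  have hw : w ^ 2 = -1 - w := CUL.w2
  have h1 : (z - 1) * (z + 1) * ((z - w) * (z + 1 + w)) * ((z + w) * (z - 1 - w)) = 0 := by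
    have e1 : (z - w) * (z + 1 + w) = z ^ 2 + z + 1 := by linear_combination -hw
    have e2 : (z + w) * (z - 1 - w) = z ^ 2 - z + 1 := by linear_combination -hw
    rw [e1, e2]
    linear_combination hz
  rw [CUL.mem_KK]
  rcases mul_eq_zero.1 h1 with h2 | h2
  · rcases mul_eq_zero.1 h2 with h3 | h3
    · rcases mul_eq_zero.1 h3 with h4 | h4
      · exact ⟨1, 0, by push_cast; linear_combination h4⟩
      · exact ⟨-1, 0, by push_cast; linear_combination h4⟩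
    · rcases mul_eq_zero.1 h3 with h4 | h4
      · exact ⟨0, 1, by push_cast; linear_combination h4⟩
      · exact ⟨-1, -1, by push_cast; linear_combination h4⟩
  · rcases mul_eq_zero.1 h2 with h4 | h4
    · exact ⟨0, -1, by push_cast; linear_combination h4⟩
    · exact ⟨1, 1, by push_cast; linear_combination h4⟩

theorem n6_conj (h : Cl0 D) {u₁ u₂ v₁ v₂ z : ℂ} (h1 : u₁ ∈ CF.KK) (h2 : u₂ ∈ CF.KK) (h3 : v₁ ∈ CF.KK)
    (h4 : v₂ ∈ CF.KK) (hz : z ∈ CF.KK) {n : ℤ}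
    (he : u₁ + u₂ * sD D = z * (v₁ + v₂ * sD D) ^ n) :
    u₁ - u₂ * sD D = z * (v₁ - v₂ * sD D) ^ n := by
  obtain ⟨τ, hτ⟩ := exists_tau h
  have hx : v₁ + v₂ * sD D ∈ KD D := (mem_KD _).2 ⟨v₁, v₂, h3, h4, rfl⟩
  have hy : u₁ + u₂ * sD D ∈ KD D := (mem_KD _).2 ⟨u₁, u₂, h1, h2, rfl⟩
  have hz0 : z = z + 0 * sD D := by rw [zero_mul, add_zero]
  have h0 : (0 : ℂ) ∈ CF.KK := zero_mem _
  have hzz : z ∈ KD D := (mem_KD _).2 ⟨z, 0, hz, h0, hz0⟩
  have e1 : (⟨_, hy⟩ : KD D) = ⟨_, hzz⟩ * (⟨_, hx⟩ : KD D) ^ n := by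
    apply (algebraMap (KD D) ℂ).injective
    rw [map_mul, map_zpow₀]
    exact he
  have e2 := congrArg (fun x : KD D => algebraMap (KD D) ℂ (τ x)) e1
  rw [map_mul, map_zpow₀, map_mul, map_zpow₀] at e2
  have f1 := hτ u₁ u₂ h1 h2 ⟨_, hy⟩ rfl
  have f2 := hτ v₁ v₂ h3 h4 ⟨_, hx⟩ rfl
  have f3 := hτ z 0 hz h0 ⟨_, hzz⟩ hz0
  rw [zero_mul, sub_zero] at f3
  have g1 : algebraMap (KD D) ℂ (τ ⟨_, hy⟩) = u₁ - u₂ * sD D := f1
  have g2 : algebraMap (KD D) ℂ (τ ⟨_, hx⟩) = v₁ - v₂ * sD D := f2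
  have g3 : algebraMap (KD D) ℂ (τ ⟨_, hzz⟩) = z := f3
  rw [g1, g2, g3] at e2
  exact e2

theorem unit_E (h : Cl0 D) {u₁ u₂ : ℂ} (h1 : u₁ ∈ CF.KK) (h2 : u₂ ∈ CF.KK) (h0 : u₁ + u₂ * sD D ≠ 0)
    (hi : IsIntegral ℤ (u₁ + u₂ * sD D)) (hi' : IsIntegral ℤ (u₁ + u₂ * sD D)⁻¹) :
    ∃ a b : Eis, ((u₁ + u₂ * sD D) / (u₁ - u₂ * sD D)) ^ 8 = 1 + 3 * emb a + emb la * emb b * sD D ∧
      (((u₁ + u₂ * sD D) / (u₁ - u₂ * sD D)) ^ 8)⁻¹ = 1 + 3 * emb a - emb la * emb b * sD D := by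
  have hs := sD_sq D
  have hx : u₁ + u₂ * sD D ∈ KD D := (mem_KD _).2 ⟨u₁, u₂, h1, h2, rfl⟩
  obtain ⟨c, d, hcd⟩ := (KD_int h hx).1 hi
  obtain ⟨c', d', hcd'⟩ := (KD_int h (inv_mem hx)).1 hi'
  obtain ⟨e1, e2⟩ := rep_unique h h1 h2 (n6_emb_mem c) (n6_emb_mem d) hcd
  subst e1 e2
  have h3 : (emb c + emb d * sD D) * (emb c' + emb d' * sD D) = 1 := by
    rw [← hcd', mul_inv_cancel₀ h0]
  have h4 : emb (c * c' + D * (d * d')) + emb (c * d' + d * c') * sD D = emb 1 + emb 0 * sD D := by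
    simp only [map_add, map_mul, map_one, map_zero]
    linear_combination h3 - emb d * emb d' * hs
  obtain ⟨h5, h6⟩ := n6_uniq h h4
  have h5' : emb c * emb c' + emb D * (emb d * emb d') = 1 := by
    rw [← map_mul, ← map_mul, ← map_mul, ← map_add, h5, map_one]
  have h6' : emb c * emb d' + emb d * emb c' = 0 := by
    rw [← map_mul, ← map_mul, ← map_add, h6, map_zero]
  have hpq : (c * c' - D * (d * d')) ^ 2 - D * (d * c' - c * d') ^ 2 = 1 := by
    linear_combination (c * c' + D * (d * d') + 1) * h5 - D * (c * d' + d * c') * h6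
  obtain ⟨a, b, hab⟩ := n6_pow8 hpq (n6_la_dvd h hpq)
  have h7 : (emb c - emb d * sD D) * (emb c' - emb d' * sD D) = 1 := by
    linear_combination h5' - sD D * h6' + emb d * emb d' * hs
  have h8 : emb c - emb d * sD D ≠ 0 := by
    intro h9
    rw [h9, zero_mul] at h7
    exact zero_ne_one h7
  have h9 : (emb c + emb d * sD D) / (emb c - emb d * sD D) =
      emb (c * c' - D * (d * d')) + emb (d * c' - c * d') * sD D := by
    rw [div_eq_iff h8]
    simp only [map_sub, map_mul]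
    linear_combination (-(emb c + emb d * sD D)) * h7 -
      (emb d * emb d' * (emb c - emb d * sD D)) * hs
  have h10 : ((emb c + emb d * sD D) / (emb c - emb d * sD D))⁻¹ =
      emb (c * c' - D * (d * d')) + emb (d * c' - c * d') * (-sD D) := by
    rw [inv_div, div_eq_iff h0]
    simp only [map_sub, map_mul]
    linear_combination (-(emb c - emb d * sD D)) * h3 -
      (emb d * emb d' * (emb c + emb d * sD D)) * hs
  refine ⟨a, b, ?_, ?_⟩
  · rw [h9, hab _ hs]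
  · rw [← inv_pow, h10, hab (-sD D) (by rw [neg_sq, hs])]
    ring

/-! ### valuations -/

section val

variable (A : ValuationSubring ℂ)

theorem n6_sq_val (hA : A.valuation 3 < 1) {x : ℂ} (hx : A.valuation (x - 1) < 1) :
    A.valuation (x ^ 2 - 1) = A.valuation (x - 1) := by
  have h2 : A.valuation (2 : ℂ) = 1 := by
    have h3 := CUL.w_int_unit A hA 2 (by omega)
    rwa [Int.cast_ofNat] at h3
  have h1 : A.valuation (x + 1) = 1 := by
    have e : x + 1 = 2 + (x - 1) := by ring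
    rw [e, Valuation.map_add_eq_of_lt_left _ (by rw [h2]; exact hx), h2]
  have e : x ^ 2 - 1 = (x - 1) * (x + 1) := by ring
  rw [e, map_mul, h1, mul_one]

theorem n6_val16 (hA : A.valuation 3 < 1) {x : ℂ} (hx : A.valuation (x - 1) < 1) :
    A.valuation (x ^ 16 - 1) = A.valuation (x - 1) := by
  have h1 := n6_sq_val A hA hx
  have h2 := n6_sq_val A hA (x := x ^ 2) (by rw [h1]; exact hx)
  have h3 := n6_sq_val A hA (x := (x ^ 2) ^ 2) (by rw [h2, h1]; exact hx)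
  have h4 := n6_sq_val A hA (x := ((x ^ 2) ^ 2) ^ 2) (by rw [h3, h2, h1]; exact hx)
  have e : x ^ 16 = (((x ^ 2) ^ 2) ^ 2) ^ 2 := by ring
  rw [e, h4, h3, h2, h1]

theorem n6_val_s (h : Cl0 D) (hA : A.valuation 3 < 1) : A.valuation (sD D) = 1 := by
  have h1 : A.valuation (sD D) ^ 2 = 1 := by
    rw [← map_pow, sD_sq, CUL.w_emb_unit A hA D (n6_laD h)]
  exact (pow_eq_one_iff.1 h1).resolve_right (by norm_num)

theorem n6_L3 (hA : A.valuation 3 < 1) : A.valuation 3 < A.valuation (emb la) := by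
  have h1 := CUL.w_la A hA
  have h2 := CUL.w_la_lt A hA
  have h3 : 0 < A.valuation (emb la) := by
    rw [zero_lt_iff]
    intro h0
    rw [h0, zero_pow (by norm_num)] at h1
    have h4 : (3 : ℂ) = 0 := (map_eq_zero A.valuation).1 h1.symm
    norm_num at h4
  rw [← h1, pow_two]
  calc A.valuation (emb la) * A.valuation (emb la) < A.valuation (emb la) * 1 :=
        mul_lt_mul_of_pos_left h2 h3
    _ = A.valuation (emb la) := mul_one _

theorem n6_npow (hA : A.valuation 3 < 1) {E X : ℂ} (hE : A.valuation (E - 1 - X) ≤ A.valuation 3)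
    (hX : A.valuation X ≤ A.valuation (emb la)) (k : ℕ) :
    A.valuation (E ^ k - 1 - k * X) ≤ A.valuation 3 := by
  have hL := CUL.w_la_lt A hA
  have h3L := n6_L3 A hA
  have hE1 : A.valuation (E - 1) ≤ A.valuation (emb la) := by
    have e : E - 1 = (E - 1 - X) + X := by ring
    rw [e]
    exact Valuation.map_add_le _ (hE.trans h3L.le) hX
  have hEv : A.valuation E ≤ 1 := by
    have e : E = (E - 1) + 1 := by ring
    rw [e]
    exact Valuation.map_add_le _ (hE1.trans hL.le) (by rw [map_one])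
  induction k with
  | zero =>
    have e : E ^ 0 - 1 - ((0 : ℕ) : ℂ) * X = 0 := by
      push_cast
      ring
    rw [e, map_zero]
    exact zero_le
  | succ k ih =>
    have e : E ^ (k + 1) - 1 - ((k + 1 : ℕ) : ℂ) * X =
        E * (E ^ k - 1 - k * X) + (E - 1 - X) + k * (X * (E - 1)) := by
      push_cast
      ring
    rw [e]
    have h1 : A.valuation (E * (E ^ k - 1 - k * X)) ≤ A.valuation 3 := by
      rw [map_mul]
      calc A.valuation E * A.valuation (E ^ k - 1 - k * X) ≤ 1 * A.valuation 3 :=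
            mul_le_mul' hEv ih
        _ = A.valuation 3 := one_mul _
    have h2 : A.valuation ((k : ℂ) * (X * (E - 1))) ≤ A.valuation 3 := by
      rw [map_mul, map_mul]
      have h4 : A.valuation ((k : ℕ) : ℂ) ≤ 1 := by
        have h5 := CUL.w_int_le A (k : ℤ)
        rwa [Int.cast_natCast] at h5
      calc A.valuation (k : ℂ) * (A.valuation X * A.valuation (E - 1)) ≤
            1 * (A.valuation (emb la) * A.valuation (emb la)) :=
            mul_le_mul' h4 (mul_le_mul' hX hE1)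
        _ = A.valuation 3 := by rw [one_mul, ← pow_two, CUL.w_la A hA]
    exact Valuation.map_add_le _ (Valuation.map_add_le _ h1 hE) h2

theorem n6_zpow (hA : A.valuation 3 < 1) {E X : ℂ} (hE : A.valuation (E - 1 - X) ≤ A.valuation 3)
    (hE' : A.valuation (E⁻¹ - 1 + X) ≤ A.valuation 3)
    (hX : A.valuation X ≤ A.valuation (emb la)) (n : ℤ) :
    A.valuation (E ^ n - 1 - n * X) ≤ A.valuation 3 := by
  cases n with
  | ofNat k =>
    have h1 := n6_npow A hA hE hX k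
    rw [Int.ofNat_eq_natCast, zpow_natCast, Int.cast_natCast]
    exact h1
  | negSucc k =>
    have h1 := n6_npow A hA (E := E⁻¹) (X := -X) (by rw [sub_neg_eq_add]; exact hE')
      (by rw [Valuation.map_neg]; exact hX) (k + 1)
    have e : E ^ (Int.negSucc k) - 1 - ((Int.negSucc k : ℤ) : ℂ) * X =
        E⁻¹ ^ (k + 1) - 1 - ((k + 1 : ℕ) : ℂ) * -X := by
      rw [zpow_negSucc, ← inv_pow, Int.cast_negSucc]
      ring
    rw [e]
    exact h1

theorem n6_val_iff (h : Cl0 D) (hA : A.valuation 3 < 1) {E : ℂ} {a b : Eis}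
    (hE : E = 1 + 3 * emb a + emb la * emb b * sD D)
    (hE' : E⁻¹ = 1 + 3 * emb a - emb la * emb b * sD D) (n : ℤ) :
    A.valuation (E ^ n - 1) = A.valuation (emb la) ↔ ¬ (3 : ℤ) ∣ n ∧ ¬ la ∣ b := by
  have hs := n6_val_s A h hA
  have h3L := n6_L3 A hA
  have hvX : A.valuation (emb la * emb b * sD D) = A.valuation (emb la) * A.valuation (emb b) := by
    rw [map_mul, map_mul, hs, mul_one]
  have hX : A.valuation (emb la * emb b * sD D) ≤ A.valuation (emb la) := by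
    rw [hvX]
    calc A.valuation (emb la) * A.valuation (emb b) ≤ A.valuation (emb la) * 1 :=
          mul_le_mul' le_rfl (CUL.w_emb_le A b)
      _ = A.valuation (emb la) := mul_one _
  have h3a : A.valuation (3 * emb a) ≤ A.valuation 3 := by
    rw [map_mul]
    calc A.valuation 3 * A.valuation (emb a) ≤ A.valuation 3 * 1 :=
          mul_le_mul' le_rfl (CUL.w_emb_le A a)
      _ = A.valuation 3 := mul_one _
  have h1 : A.valuation (E - 1 - emb la * emb b * sD D) ≤ A.valuation 3 := by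
    have e : E - 1 - emb la * emb b * sD D = 3 * emb a := by rw [hE]; ring
    rw [e]
    exact h3a
  have h2 : A.valuation (E⁻¹ - 1 + emb la * emb b * sD D) ≤ A.valuation 3 := by
    have e : E⁻¹ - 1 + emb la * emb b * sD D = 3 * emb a := by rw [hE']; ring
    rw [e]
    exact h3a
  have h4 := n6_zpow A hA h1 h2 hX n
  have e : E ^ n - 1 = (n : ℂ) * (emb la * emb b * sD D) +
      (E ^ n - 1 - n * (emb la * emb b * sD D)) := by ring
  have hL0 : 0 < A.valuation (emb la) := lt_of_le_of_lt zero_le h3L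
  constructor
  · intro h5
    by_contra hcon
    have h6 : A.valuation ((n : ℂ) * (emb la * emb b * sD D)) < A.valuation (emb la) := by
      rw [map_mul, hvX]
      by_cases hn : (3 : ℤ) ∣ n
      · obtain ⟨m, rfl⟩ := hn
        have h7 : A.valuation ((3 * m : ℤ) : ℂ) < 1 := by
          push_cast
          rw [map_mul]
          calc A.valuation 3 * A.valuation (m : ℂ) ≤ A.valuation 3 * 1 :=
                mul_le_mul' le_rfl (CUL.w_int_le A m)
            _ < 1 := by rw [mul_one]; exact hA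
        calc A.valuation ((3 * m : ℤ) : ℂ) * (A.valuation (emb la) * A.valuation (emb b)) ≤
              A.valuation ((3 * m : ℤ) : ℂ) * (A.valuation (emb la) * 1) :=
              mul_le_mul' le_rfl (mul_le_mul' le_rfl (CUL.w_emb_le A b))
          _ = A.valuation ((3 * m : ℤ) : ℂ) * A.valuation (emb la) := by rw [mul_one]
          _ < 1 * A.valuation (emb la) := mul_lt_mul_of_pos_right h7 hL0
          _ = A.valuation (emb la) := one_mul _
      · have hb : la ∣ b := by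
          by_contra hb
          exact hcon ⟨hn, hb⟩
        have h7 := CUL.w_emb_lt A hA hb
        calc A.valuation (n : ℂ) * (A.valuation (emb la) * A.valuation (emb b)) ≤
              1 * (A.valuation (emb la) * A.valuation (emb b)) :=
              mul_le_mul' (CUL.w_int_le A n) le_rfl
          _ = A.valuation (emb la) * A.valuation (emb b) := one_mul _
          _ < A.valuation (emb la) * 1 := mul_lt_mul_of_pos_left h7 hL0
          _ = A.valuation (emb la) := mul_one _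
    have h8 : A.valuation (E ^ n - 1) < A.valuation (emb la) := by
      rw [e]
      exact Valuation.map_add_lt _ h6 (lt_of_le_of_lt h4 h3L)
    rw [h5] at h8
    exact lt_irrefl _ h8
  · rintro ⟨hn, hb⟩
    have h6 : A.valuation ((n : ℂ) * (emb la * emb b * sD D)) = A.valuation (emb la) := by
      rw [map_mul, hvX, CUL.w_int_unit A hA n hn, CUL.w_emb_unit A hA b hb, one_mul, mul_one]
    rw [e, Valuation.map_add_eq_of_lt_left _ (by rw [h6]; exact lt_of_le_of_lt h4 h3L), h6]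

end val

/-! ### integrality -/

theorem n6_mem (a b : Eis) : emb a + emb b * sD D ∈ KD D :=
  (mem_KD _).2 ⟨_, _, n6_emb_mem a, n6_emb_mem b, rfl⟩

theorem n6_isInt (a b : Eis) : IsIntegral ℤ (emb a + emb b * sD D) :=
  (isIntegral_emb a).add ((isIntegral_emb b).mul (isIntegral_sD D))

theorem n6_int1 (h : Cl0 D) {E : ℂ} {a b : Eis} (hE : E = 1 + 3 * emb a + emb la * emb b * sD D)
    (hi : IsIntegral ℤ ((E - 1) / 3)) : la ∣ b := by
  have e1 : (E - 1) / 3 = emb a + (emb la * emb b / 3) * sD D := by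
    rw [hE]
    ring
  have hk : emb la * emb b / 3 ∈ CF.KK :=
    div_mem (mul_mem (n6_emb_mem _) (n6_emb_mem _)) (by
      have := n6_emb_mem (3 : Eis)
      rwa [map_ofNat] at this)
  have hm : (E - 1) / 3 ∈ KD D := (mem_KD _).2 ⟨_, _, n6_emb_mem a, hk, e1⟩
  obtain ⟨p, q, hpq⟩ := (KD_int h hm).1 hi
  rw [e1] at hpq
  obtain ⟨-, h2⟩ := rep_unique h (n6_emb_mem a) hk (n6_emb_mem p) (n6_emb_mem q) hpq
  have h3 : la * b = 3 * q := by
    apply emb_injective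
    rw [map_mul, map_mul, map_ofNat, ← h2]
    ring
  have h4 : la * b = la * (-CU.om ^ 2 * la * q) := by
    rw [h3, CU.three_eq]
    ring
  have hdom : IsDomain Eis := emb_injective.isDomain emb
  have h5 : b = -CU.om ^ 2 * la * q := mul_left_cancel₀ CU.la_prime.ne_zero h4
  rw [h5]
  exact Dvd.intro_left (-CU.om ^ 2 * q) (by ring)

theorem n6_pow_int {E θ : ℂ} (hθ : E - 1 = 3 * θ) (hi : IsIntegral ℤ θ) (k : ℕ) :
    IsIntegral ℤ ((E ^ k - 1) / 3) := by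
  have hE : IsIntegral ℤ E := by
    have e : E = 1 + (3 : ℕ) * θ := by
      push_cast
      linear_combination hθ
    rw [e]
    exact isIntegral_one.add ((isIntegral_natCast 3).mul hi)
  have e : (E ^ k - 1) / 3 = θ * ∑ i ∈ Finset.range k, E ^ i := by
    rw [← mul_geom_sum, hθ]
    ring
  rw [e]
  exact hi.mul (IsIntegral.sum _ (fun i _ => hE.pow i))

theorem n6_int2 {E : ℂ} {a b : Eis} (hE : E = 1 + 3 * emb a + emb la * emb b * sD D)
    (hE' : E⁻¹ = 1 + 3 * emb a - emb la * emb b * sD D) (hb : la ∣ b) (n : ℤ) :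
    IsIntegral ℤ ((E ^ n - 1) / 3) := by
  obtain ⟨t, rfl⟩ := hb
  have hL : emb la * emb la = 3 * emb (-CU.om) := by
    rw [← pow_two, ← map_pow, n6_la_sq, map_mul, map_ofNat]
  cases n with
  | ofNat k =>
    rw [Int.ofNat_eq_natCast, zpow_natCast]
    apply n6_pow_int (θ := emb a + emb (-CU.om * t) * sD D) _ (n6_isInt _ _)
    rw [hE, map_mul, map_mul]
    linear_combination emb t * sD D * hL
  | negSucc k =>
    rw [zpow_negSucc, ← inv_pow]
    apply n6_pow_int (θ := emb a + emb (-(-CU.om * t)) * sD D) _ (n6_isInt _ _)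
    rw [hE', map_neg, map_mul, map_mul]
    linear_combination (-(emb t * sD D)) * hL

theorem n6_zpow_comm (x : ℂ) (k : ℕ) (n : ℤ) : (x ^ n) ^ k = (x ^ k) ^ n := by
  rw [← zpow_natCast, ← zpow_natCast, ← zpow_mul, ← zpow_mul, mul_comm]

theorem n6_unit_int (u : (𝓞 (KD D))ˣ) : IsIntegral ℤ (((u : 𝓞 (KD D)) : KD D) : ℂ) ∧
    IsIntegral ℤ ((((u : 𝓞 (KD D)) : KD D) : ℂ))⁻¹ ∧ (((u : 𝓞 (KD D)) : KD D) : ℂ) ≠ 0 := by
  have h1 : ∀ x : 𝓞 (KD D), IsIntegral ℤ (((x : KD D)) : ℂ) := by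
    intro x
    have h2 : IsIntegral ℤ (x : KD D) := RingOfIntegers.isIntegral_coe x
    exact map_isIntegral_int (algebraMap (KD D) ℂ) h2
  have h3 : (((u : 𝓞 (KD D)) : KD D) : ℂ) * ((((u⁻¹ : (𝓞 (KD D))ˣ) : 𝓞 (KD D)) : KD D) : ℂ) = 1 := by
    have h4 : (u : 𝓞 (KD D)) * ((u⁻¹ : (𝓞 (KD D))ˣ) : 𝓞 (KD D)) = 1 := u.mul_inv
    have h5 := congrArg (fun x : 𝓞 (KD D) => algebraMap (KD D) ℂ (algebraMap (𝓞 (KD D)) (KD D) x)) h4
    rw [map_mul, map_mul, map_one, map_one] at h5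
    exact h5
  have h0 : (((u : 𝓞 (KD D)) : KD D) : ℂ) ≠ 0 := left_ne_zero_of_mul_eq_one h3
  refine ⟨h1 _, ?_, h0⟩
  rw [← eq_inv_of_mul_eq_one_right h3]
  exact h1 _

theorem n6_mk_unit {x : ℂ} (hx : x ∈ KD D) (hx0 : x ≠ 0) (hi : IsIntegral ℤ x) (hi' : IsIntegral ℤ x⁻¹) :
    ∃ u : (𝓞 (KD D))ˣ, (((u : 𝓞 (KD D)) : KD D) : ℂ) = x := by
  have hinj : Function.Injective (algebraMap (KD D) ℂ) := (algebraMap (KD D) ℂ).injective
  have h1 : IsIntegral ℤ (⟨x, hx⟩ : KD D) := (isIntegral_algebraMap_iff hinj).1 hi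
  have h2 : IsIntegral ℤ (⟨x⁻¹, inv_mem hx⟩ : KD D) := (isIntegral_algebraMap_iff hinj).1 hi'
  have e1 : (⟨x, hx⟩ : KD D) * ⟨x⁻¹, inv_mem hx⟩ = 1 := by
    apply hinj
    rw [map_mul, map_one]
    exact mul_inv_cancel₀ hx0
  refine ⟨⟨⟨_, h1⟩, ⟨_, h2⟩, RingOfIntegers.ext e1, RingOfIntegers.ext (by rw [mul_comm] at e1; exact e1)⟩, rfl⟩

theorem uc_iff (h : Cl0 D) (A : ValuationSubring ℂ) (hA : A.valuation 3 < 1) {e' z : ℂ} {ε : (𝓞 (KD D))ˣ} {n : ℤ}
    (hN : N1 (sD D) e') (h1 : A.valuation (e' - 1) ≤ A.valuation (emb la)) (hz : z ^ 6 = 1)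
    (he : e' = z * (((ε : 𝓞 (KD D)) : KD D) : ℂ) ^ n)
    (hn : n.natAbs = 2 * classNumber (KD D) ∨ n.natAbs = 4 * classNumber (KD D))
    (hu : ∀ u : (𝓞 (KD D))ˣ, ∃ (y : ℂ) (j : ℤ), y ^ 6 = 1 ∧
        (((u : 𝓞 (KD D)) : KD D) : ℂ) = y * (((ε : 𝓞 (KD D)) : KD D) : ℂ) ^ j) :
    A.valuation (e' - 1) = A.valuation (emb la) ↔ UC D := by
  obtain ⟨hεi, hεi', hε0⟩ := n6_unit_int ε
  obtain ⟨v₁, v₂, hv1, hv2, hε⟩ := (mem_KD _).1 ((ε : 𝓞 (KD D)) : KD D).2
  rw [hε] at hεi hεi' hε0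
  obtain ⟨a, b, hE, hE'⟩ := unit_E h hv1 hv2 hε0 hεi hεi'
  obtain ⟨u₁, u₂, hu1, hu2, he1, he2, he0⟩ := hN
  have hzK := n6_root hz
  have hz0 : z ≠ 0 := by
    rintro rfl
    norm_num at hz
  -- the power
  have hconj : ∀ (x₁ x₂ y : ℂ) (j : ℤ), x₁ ∈ CF.KK → x₂ ∈ CF.KK → y ^ 6 = 1 →
      x₁ + x₂ * sD D = y * (v₁ + v₂ * sD D) ^ j →
      (x₁ + x₂ * sD D) / (x₁ - x₂ * sD D) = ((v₁ + v₂ * sD D) / (v₁ - v₂ * sD D)) ^ j := by
    intro x₁ x₂ y j hx1 hx2 hy hxy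
    have hy0 : y ≠ 0 := by
      rintro rfl
      norm_num at hy
    have h1 := n6_conj h hx1 hx2 hv1 hv2 (n6_root hy) hxy
    rw [h1, hxy, mul_div_mul_left _ _ hy0, div_zpow]
  have h16 : e' ^ 16 = (((v₁ + v₂ * sD D) / (v₁ - v₂ * sD D)) ^ 8) ^ n := by
    have h1 := hconj u₁ u₂ z n hu1 hu2 hz (by rw [← he1, he, hε])
    rw [← he1, ← he2, div_inv_eq_mul] at h1
    have h2 : e' ^ 16 = (e' * e') ^ 8 := by ring
    rw [h2, h1, n6_zpow_comm]
  have hv : A.valuation (e' - 1) = A.valuation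
      ((((v₁ + v₂ * sD D) / (v₁ - v₂ * sD D)) ^ 8) ^ n - 1) := by
    rw [← h16, n6_val16 A hA (lt_of_le_of_lt h1 (CUL.w_la_lt A hA))]
  rw [hv, n6_val_iff A h hA hE hE' n]
  unfold UC
  apply and_congr
  · rcases hn with hn | hn
    · constructor
      · intro h2 h3
        apply h2
        omega
      · intro h2 h3
        apply h2
        omega
    · constructor
      · intro h2 h3
        apply h2
        omega
      · intro h2 h3
        apply h2
        omega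
  · constructor
    · intro hb
      exact ⟨v₁, v₂, hv1, hv2, hε0, hεi, hεi', fun hi => hb (n6_int1 h hE hi)⟩
    · rintro ⟨x₁, x₂, hx1, hx2, hx0, hxi, hxi', hx⟩ hb
      apply hx
      have hxm : x₁ + x₂ * sD D ∈ KD D := (mem_KD _).2 ⟨x₁, x₂, hx1, hx2, rfl⟩
      obtain ⟨U, hU⟩ := n6_mk_unit hxm hx0 hxi hxi'
      obtain ⟨y, j, hy, hyj⟩ := hu U
      rw [hU, hε] at hyj
      rw [hconj x₁ x₂ y j hx1 hx2 hy hyj]
      have h2 : (((v₁ + v₂ * sD D) / (v₁ - v₂ * sD D)) ^ j) ^ 8 =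
          (((v₁ + v₂ * sD D) / (v₁ - v₂ * sD D)) ^ 8) ^ j := n6_zpow_comm _ _ _
      rw [h2]
      exact n6_int2 hE hE' hb j

end JL
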