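import Pool.Agent.JL.N5
import Pool.Agent.JL.N6
import Pool.Agent.JL.G2
import Pool.Agent.JL.H1
import Pool.Agent.JL.H2

/-!
# [JL-Z] the central value of `y² = x³ + D` over `ℚ(ω)`
-/

set_option autoImplicit false

open NumberField IsDedekindDomain
open scoped Classical ComplexConjugate

namespace JL

open CM27 JZ
open CU (la eE)
open CUL (LV zw)

variable {D : Eis}

theorem z_norm_u {u : ℂ} (hu : ‖u‖ = 1) {s t V L f : ℂ} (ht0 : t ≠ 0) {N : ℝ} (hN : 0 < N)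
    (hs : ‖s‖ ^ 2 = N) (ht : ‖t‖ ^ 3 = 4 * N) (hL : ‖L‖ ^ 2 = 3) (hf : ‖f‖ = 4 * N) (O : ℂ) :
    ‖u * O / (L ^ 2 * f) * V‖ ^ 2 =
      ‖V * s / t‖ ^ 2 * (4 * N) ^ ((2 : ℝ) / 3) / (144 * N ^ 3) * ‖O‖ ^ 2 := by
  have ht2 : (4 * N) ^ ((2 : ℝ) / 3) = ‖t‖ ^ 2 := by
    rw [← ht, ← Real.rpow_natCast, ← Real.rpow_mul (norm_nonneg _), ← Real.rpow_natCast]
    norm_num
  have ht' : ‖t‖ ≠ 0 := norm_ne_zero_iff.2 ht0
  rw [ht2, norm_mul, norm_div, norm_mul, norm_mul, norm_pow, norm_div, norm_mul, hu, hf, hL]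
  field_simp
  rw [hs]
  ring

theorem L_main (h : Cl D) (hu : ¬ IsUnit D) : ∃ Φ : ℂ → ℂ, Differentiable ℂ Φ ∧ (∀ s : ℂ, 3 / 2 < s.re →
      Φ s = LSeries (fun n => NAB.IL CF.KK (fun I => conj (emb (Psi6 (eE D) I))) n) s) ∧
    ∃ q : ℚ, 0 ≤ q ∧
      Φ 1 * conj (Φ 1) = (((q : ℝ) * ‖emb (4 * D)‖ ^ ((2 : ℝ) / 3) / (144 * ‖emb D‖ ^ 3) : ℝ) : ℂ) * (Om : ℂ) ^ 2 ∧
      (q = 0 ∨ 2 ≤ padicValRat 3 q) ∧ ((q ≠ 0 ∧ padicValRat 3 q = 2) ↔ UC D) := by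
  obtain ⟨d⟩ := exists_dat (cl0 h)
  obtain ⟨R, hR⟩ := exists_R (cl0 h) d
  obtain ⟨Φ, h1, h2, h3⟩ := L_entire6 (cl0 h) d
  obtain ⟨u, hun, hLV⟩ := LV_Ff (cl0 h) d
  obtain ⟨m, ε, n, z, hm, hz, hN, he, hn, hgen⟩ := ee_pow (cl0 h) hu d hR
  obtain ⟨A, hA⟩ := CUL.exists_A
  have hs : sD D ^ 2 = emb D := sD_sq D
  obtain ⟨t, ht⟩ : ∃ t : ℂ, t ^ 3 = emb (4 * D) := IsAlgClosed.exists_pow_nat_eq _ (by norm_num)
  have hb := b_mem (cl0 h) d hs ht
  obtain ⟨hV1, hV2⟩ := VV_val h d hR A hA hs hm hN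
  obtain ⟨-, hT2, -⟩ := TT_val h d hR A hA hs hm hN
  have hUC := uc_iff (cl0 h) A hA hN hT2 hz he hn hgen
  have hla : ¬ la ∣ D := cl_not_la (cl0 h)
  have hvD : A.valuation (emb D) = 1 := CUL.w_emb_unit A hA D hla
  have hla4 : ¬ la ∣ 4 * D := by
    intro h4
    rcases CUL.la_prime.dvd_or_dvd h4 with h5 | h5
    · rw [CUL.la_dvd_iff] at h5
      revert h5
      decide
    · exact hla h5
  have hv4 : A.valuation (emb (4 * D)) = 1 := CUL.w_emb_unit A hA _ hla4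
  have hD0 : emb D ≠ 0 := by
    intro h0
    rw [h0, map_zero] at hvD
    exact zero_ne_one hvD
  have h40 : emb (4 * D) ≠ 0 := by
    intro h0
    rw [h0, map_zero] at hv4
    exact zero_ne_one hv4
  have hs0 : sD D ≠ 0 := by
    intro h0
    rw [h0, zero_pow two_ne_zero] at hs
    exact hD0 hs.symm
  have ht0 : t ≠ 0 := by
    intro h0
    rw [h0, zero_pow three_ne_zero] at ht
    exact h40 ht.symm
  have hvs : A.valuation (sD D) = 1 := by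
    refine CUL.z_pow_one two_ne_zero ?_
    rw [← map_pow, hs, hvD]
  have hvt : A.valuation t = 1 := by
    refine CUL.z_pow_one three_ne_zero ?_
    rw [← map_pow, ht, hv4]
  have hvb : A.valuation (VV d * sD D / t) = A.valuation (VV d) := by
    rw [map_div₀, map_mul, hvs, hvt, mul_one, div_one]
  have h30 : A.valuation (3 : ℂ) ≠ 0 := (map_ne_zero _).2 three_ne_zero
  have hN0 : 0 < ‖emb D‖ := norm_pos_iff.2 hD0
  have hnorm : ‖Φ 1‖ ^ 2 = ‖VV d * sD D / t‖ ^ 2 * ‖emb (4 * D)‖ ^ ((2 : ℝ) / 3) / (144 * ‖emb D‖ ^ 3) * Om ^ 2 := by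
    have e4 : ‖emb (4 * D)‖ = 4 * ‖emb D‖ := by
      rw [map_mul, norm_mul, map_ofNat]
      norm_num
    rw [h3, hLV, z_norm_u hun ht0 hN0 (by rw [← norm_pow, hs]) (by rw [← norm_pow, ht, e4]) ?_ e4, CUL.z_norm_OmC, e4]
    rw [norm_emb_sq, CUL.g6_norm_la]
    norm_num
  have hcon : Φ 1 * conj (Φ 1) = ((‖Φ 1‖ ^ 2 : ℝ) : ℂ) := by
    rw [Complex.mul_conj, Complex.normSq_eq_norm_sq]
  refine ⟨Φ, h1, h2, ?_⟩
  by_cases hb0 : VV d * sD D / t = 0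
  · refine ⟨0, le_rfl, ?_, Or.inl rfl, ?_⟩
    · rw [hcon, hnorm, hb0]
      simp
    · rw [← hUC, ← hV2]
      constructor
      · rintro ⟨h0, -⟩
        exact absurd rfl h0
      · intro hv
        rw [← hvb, hb0, map_zero] at hv
        exact absurd hv.symm h30
  · obtain ⟨q, hq, hqq, hval⟩ := CUL.val_KK A hA hb hb0
    have hq2 : ‖VV d * sD D / t‖ ^ 2 = (q : ℝ) := by
      rw [Complex.mul_conj, Complex.normSq_eq_norm_sq] at hqq
      exact_mod_cast hqq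
    have h3pos : 0 < A.valuation (3 : ℂ) := zero_lt_iff.2 h30
    rw [hvb] at hval
    refine ⟨q, hq.le, ?_, Or.inr ?_, ?_⟩
    · rw [hcon, hnorm, hq2]
      push_cast
      ring
    · by_contra hlt
      rw [not_le] at hlt
      have h5 : A.valuation (3 : ℂ) ^ padicValRat 3 q ≤ A.valuation (3 : ℂ) ^ (2 : ℤ) := by
        rw [← hval, zpow_ofNat]
        exact pow_le_pow_left' hV1 2
      have h6 := zpow_lt_zpow_right_of_lt_one₀ h3pos hA hlt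
      exact absurd h5 (not_le.2 h6)
    · rw [← hUC, ← hV2]
      constructor
      · rintro ⟨-, h5⟩
        rw [h5] at hval
        rw [zpow_ofNat] at hval
        exact (pow_left_inj₀ zero_le zero_le two_ne_zero).1 hval
      · intro h5
        refine ⟨hq.ne', ?_⟩
        rw [h5] at hval
        have h6 : A.valuation (3 : ℂ) ^ (padicValRat 3 q) = A.valuation (3 : ℂ) ^ (2 : ℤ) := by
          rw [← hval, zpow_ofNat]
        exact CUL.z_zpow_inj h30 hA h6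

end JL
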