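import Pool.Agent.JL.Defs

/-!
# [JL] the field `ℚ(ω, √D)` and its units: definitions
-/

set_option autoImplicit false

open NumberField IsDedekindDomain
open scoped Classical ComplexConjugate

namespace JL

open CM27 JZ

/-- A square root of `D`. -/
noncomputable def sD (D : Eis) : ℂ := emb D ^ ((1 : ℂ) / 2)

theorem sD_sq (D : Eis) : sD D ^ 2 = emb D := by
  unfold sD
  rw [← Complex.cpow_nat_mul]
  norm_num

/-- The field `ℚ(ω, √D)`. -/
noncomputable def KD (D : Eis) : IntermediateField ℚ ℂ := IntermediateField.adjoin ℚ {w, sD D}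

theorem isIntegral_w : IsIntegral ℤ w := by
  refine ⟨Polynomial.X ^ 2 + Polynomial.X + 1, by monicity!, ?_⟩
  simp only [Polynomial.eval₂_add, Polynomial.eval₂_X_pow, Polynomial.eval₂_X, Polynomial.eval₂_one]
  rw [CUL.w2]; ring

theorem isIntegral_emb (a : Eis) : IsIntegral ℤ (emb a) := by
  rw [emb_apply]
  exact (isIntegral_algebraMap (A := ℂ) (x := a.re)).add
    ((isIntegral_algebraMap (A := ℂ) (x := a.im)).mul isIntegral_w)

theorem isIntegral_sD (D : Eis) : IsIntegral ℤ (sD D) := by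
  refine IsIntegral.of_pow (n := 2) two_pos ?_
  rw [sD_sq]; exact isIntegral_emb D

instance (D : Eis) : NumberField (KD D) := by
  have h : FiniteDimensional ℚ (KD D) := by
    unfold KD
    refine IntermediateField.finiteDimensional_adjoin fun x hx => ?_
    rcases hx with rfl | hx
    · exact isIntegral_w.tower_top
    · rw [Set.mem_singleton_iff] at hx
      rw [hx]; exact (isIntegral_sD D).tower_top
  exact { to_charZero := inferInstance, to_finiteDimensional := h }

/-- The condition on the class group and the units of `ℚ(ω, √D)`: the class number is prime to `3`, and there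
is a unit `u = u₁ + u₂ √D` such that `(u / ū) ^ 8` is not `≡ 1 mod 3`, `ū = u₁ - u₂ √D`. -/
def UC (D : Eis) : Prop :=
  ¬ 3 ∣ classNumber (KD D) ∧
  ∃ u₁ u₂ : ℂ, u₁ ∈ CF.KK ∧ u₂ ∈ CF.KK ∧ u₁ + u₂ * sD D ≠ 0 ∧ IsIntegral ℤ (u₁ + u₂ * sD D) ∧ IsIntegral ℤ (u₁ + u₂ * sD D)⁻¹ ∧
    ¬ IsIntegral ℤ ((((u₁ + u₂ * sD D) / (u₁ - u₂ * sD D)) ^ 8 - 1) / 3)

end JL
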