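import Pool.Agent.JL.H3
import Pool.Agent.JL.G1

/-!
# [JL-G3] `e³` and, for `k ≠ 0`, `e` are elements of relative norm one of `ℚ(ω, √D)`

PROOF. `n1_of_gal`: `z ≠ 0`, `s ≠ 0`; if for every `σ` with `σ w = w` there is `n = 1` or `-1` with `σ s = n s` and `σ z = z ^ n`, then `u₁ = (z + z⁻¹)/2` and `u₂ = (z - z⁻¹)/(2 s)` are fixed by all `σ`, so in `ℚ(ω)` (`CUL.fixed_KK`).
`gal_xc`: `GalU σ M g`, `4 D ∣ M`: `σ (xc D c) = xc D (g c)` (`GalU.dvd`). `xc` is periodic modulo `4 D`, even, `xc D (ω c) = w xc D c`, `xc D c ≠ 0` for `c` coprime to `4 D` (`OT_c`, CUL `u7_ne`).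
`ee_ne`. `ee3_N1`: `g` as in `GalU σ M g`, `M = 24 D`. For `c ∈ R`: there are unique `c' ∈ R`, unit `ζ` with `g c ≡ ζ c' mod 4 D`; `c ↦ c'` is a bijection of `R` (`IsR`, injective because `g` is invertible modulo `4 D`). `(xc (g c))³ = (xc (ζ c'))³ = (xc c')³` (`ζ^6 = 1`, even), `q2 c = q2 g q2 c'` (`q2_unit`). So `σ (e³) = ∏ (xc c')^{3 q2 c' q2 g} = (e³)^{q2 g}`, and `σ s = q2 g s`; `q2 g = ± 1`.
`ee_N1` (`kk ≠ 0`): let `ω^n` with `c3 g = c3 (ω^n)` (`c3 om = zw kk ≠ 1` generates the cube roots of unity), `g = ω^n g'` mod `4 D`, `c3 g' = 1`: for `c ∈ R`, `g' c ≡ ζ c'` with `c3 ζ = 1`, so `ζ = ± 1` (`c3 (± ω^l) = zw (l kk)`), `xc (g c) = w^n xc c'`. `σ e = ∏ (w^n xc c')^{q2 c} = w^{n ∑ q2 c} e^{q2 g} = e^{q2 g}` (`sum_R_q2`).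
-/

set_option autoImplicit false

open scoped Classical ComplexConjugate

namespace JL

open CM27 JZ
open CU (la eE)
open CUL (Nl ez si ta DS Cont LV IsRep rp cr mn zw OT GalU)
open Q3L (fQ Dec)

variable {D : Eis}

theorem n1_of_gal {s z : ℂ} (hs : s ≠ 0) (hz : z ≠ 0)
    (h : ∀ σ : ℂ ≃+* ℂ, σ w = w → ∃ n : ℤ, (n = 1 ∨ n = -1) ∧ σ s = (n : ℂ) * s ∧ σ z = z ^ n) : N1 s z := by
  refine ⟨(z + z⁻¹) / 2, (z - z⁻¹) / (2 * s), ?_, ?_, ?_, ?_, hz⟩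
  · refine CUL.fixed_KK _ fun σ hσ => ?_
    obtain ⟨n, rfl | rfl, h1, h2⟩ := h σ hσ
    · rw [zpow_one] at h2
      rw [map_div₀, map_add, map_inv₀, h2, map_ofNat]
    · rw [zpow_neg_one] at h2
      rw [map_div₀, map_add, map_inv₀, h2, map_ofNat, inv_inv, add_comm]
  · refine CUL.fixed_KK _ fun σ hσ => ?_
    obtain ⟨n, rfl | rfl, h1, h2⟩ := h σ hσ
    · rw [zpow_one] at h2
      rw [map_div₀, map_sub, map_inv₀, h2, map_mul, map_ofNat, h1]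
      simp
    · rw [zpow_neg_one] at h2
      rw [map_div₀, map_sub, map_inv₀, h2, map_mul, map_ofNat, h1, inv_inv]
      push_cast
      field_simp
      ring
  · field_simp
    ring
  · field_simp
    ring

theorem g3_s_ne (h : Cl0 D) {s : ℂ} (hs : s ^ 2 = emb D) : s ≠ 0 := by
  rintro rfl
  apply CUL.l2_emb_ne (cl_ne h)
  rw [← hs]; ring

theorem g3_xc_ne (h : Cl0 D) (d : Dat D) {c : Eis} (hc : IsCoprime c (4 * D)) : xc D c ≠ 0 :=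
  CUL.u7_ne (OT_c h d hc)

theorem ee_ne (h : Cl0 D) (d : Dat D) {R : Finset Eis} (hR : IsR d R) : ee d R ≠ 0 :=
  Finset.prod_ne_zero_iff.2 fun c hc => zpow_ne_zero _ (g3_xc_ne h d (hR.1 c hc))

theorem g3_unit (d : Dat D) {ζ : Eis} (hζ : IsUnit ζ) :
    ∃ t : ZMod 3, c3 d ζ = zw (t * kk d) ∧ ∀ x, xc D (ζ * x) = zw t * xc D x := by
  rcases CUL.unit_cases hζ with rfl | rfl | rfl | rfl | rfl | rfl
  · exact ⟨0, by rw [c3_one, zero_mul, CUL.zw_zero], fun x => by rw [one_mul, CUL.zw_zero, one_mul]⟩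
  · exact ⟨0, by rw [c3_neg, c3_one, zero_mul, CUL.zw_zero],
      fun x => by rw [neg_one_mul, h3_xc_neg, CUL.zw_zero, one_mul]⟩
  · exact ⟨1, by rw [c3_om, one_mul], fun x => by rw [h3_xc_om, CUL.zw_one]⟩
  · exact ⟨1, by rw [c3_neg, c3_om, one_mul], fun x => by rw [neg_mul, h3_xc_neg, h3_xc_om, CUL.zw_one]⟩
  · exact ⟨2, by rw [pow_two, c3_mul, c3_om, ← CUL.zw_add, two_mul],
      fun x => by rw [pow_two, mul_assoc, h3_xc_om, h3_xc_om, CUL.zw_two]; ring⟩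
  · exact ⟨2, by rw [c3_neg, pow_two, c3_mul, c3_om, ← CUL.zw_add, two_mul],
      fun x => by rw [neg_mul, h3_xc_neg, pow_two, mul_assoc, h3_xc_om, h3_xc_om, CUL.zw_two]; ring⟩

/-- multiplication by `g` permutes the classes represented by `R` -/
theorem g3_perm (d : Dat D) {R : Finset Eis} (hR : IsR d R) {g : Eis} (hg : IsCoprime g (4 * D)) :
    ∃ φ : Eis → Eis, (∀ c ∈ R, φ c ∈ R ∧ ∃ ζ, IsUnit ζ ∧ 4 * D ∣ g * c - ζ * φ c) ∧
      ∀ F : Eis → ℂ, ∏ c ∈ R, F (φ c) = ∏ c ∈ R, F c := by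
  have h1 : ∀ c ∈ R, ∃ c', c' ∈ R ∧ ∃ ζ, IsUnit ζ ∧ 4 * D ∣ g * c - ζ * c' := by
    intro c hc
    obtain ⟨c', ⟨h2, h3⟩, -⟩ := hR.2.1 (g * c) (hg.mul_left (hR.1 c hc))
    exact ⟨c', h2, h3⟩
  choose! φ hφ using h1
  have hinj : Set.InjOn φ (R : Set Eis) := by
    intro c hc c' hc' he
    rw [Finset.mem_coe] at hc hc'
    obtain ⟨-, ζ, hζ, t, ht⟩ := hφ c hc
    obtain ⟨-, ζ', hζ', t', ht'⟩ := hφ c' hc'
    rw [← he] at ht'
    have h2 : 4 * D ∣ g * (ζ' * c - ζ * c') := ⟨ζ' * t - ζ * t', by linear_combination ζ' * ht - ζ * ht'⟩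
    have h3 : 4 * D ∣ ζ' * c - ζ * c' := hg.symm.dvd_of_dvd_mul_left h2
    obtain ⟨c₀, -, h4⟩ := hR.2.1 c (hR.1 c hc)
    have h5 := h4 c ⟨hc, 1, isUnit_one, by rw [one_mul, sub_self]; exact dvd_zero _⟩
    obtain ⟨v, hv⟩ := hζ'.exists_left_inv
    have h6 := h4 c' ⟨hc', v * ζ, (IsUnit.of_mul_eq_one _ hv).mul hζ, by
      obtain ⟨u, hu⟩ := h3
      exact ⟨v * u, by linear_combination v * hu - c * hv⟩⟩
    rw [h5, h6]
  refine ⟨φ, hφ, fun F => ?_⟩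
  have himg : R.image φ = R := by
    apply Finset.eq_of_subset_of_card_le
    · intro x hx
      obtain ⟨c, hc, rfl⟩ := Finset.mem_image.1 hx
      exact (hφ c hc).1
    · rw [Finset.card_image_of_injOn hinj]
  conv_rhs => rw [← himg]
  rw [Finset.prod_image hinj]

theorem g3_q2 (d : Dat D) {R : Finset Eis} (hR : IsR d R) {g : Eis} (hg : q2 d g = 1 ∨ q2 d g = -1)
    {c c' ζ : Eis} (hζ : IsUnit ζ) (hd : 4 * D ∣ g * c - ζ * c') : q2 d c = q2 d c' * q2 d g := by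
  have h1 := q2_congr d hd
  rw [q2_mul, q2_mul, q2_unit d hζ, one_mul] at h1
  rw [← h1]
  rcases hg with h2 | h2 <;> rw [h2] <;> ring

theorem g3_gal (h : Cl0 D) {σ : ℂ ≃+* ℂ} {g : Eis} (hG : GalU σ (24 * D) g) (c : Eis) :
    σ (xc D c) = xc D (g * c) := by
  have hM : (24 * D : Eis) ≠ 0 := by
    have := eis_isDomain
    exact mul_ne_zero (by decide) (cl_ne h)
  have h1 := hG.dvd hM (M' := 4 * D) ⟨6, by ring⟩
  exact (h1.2.2 c).1

/-- `e ^ n` is an element of relative norm one, if the roots of unity in the action disappear -/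
theorem g3_main (h : Cl0 D) (d : Dat D) {R : Finset Eis} (hR : IsR d R) {s : ℂ} (hs : s ^ 2 = emb D) (N : ℕ)
    (hN : ∀ (g : Eis), IsCoprime g (4 * D) → ∃ μ : ℂ, μ ≠ 0 ∧ ∀ c ∈ R, ∀ c' ∈ R, ∀ ζ, IsUnit ζ →
      4 * D ∣ g * c - ζ * c' → xc D (ζ * c') ^ N = μ * xc D c' ^ N) : N1 s (ee d R ^ N) := by
  have hM : (24 * D : Eis) ≠ 0 := by
    have := eis_isDomain
    exact mul_ne_zero (by decide) (cl_ne h)
  refine n1_of_gal (g3_s_ne h hs) (pow_ne_zero _ (ee_ne h d hR)) fun σ hσ => ?_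
  obtain ⟨g, hg⟩ := CUL.exists_galU σ hσ (24 * D) hM
  have hgc : IsCoprime g (4 * D) := (hg.dvd hM (M' := 4 * D) ⟨6, by ring⟩).2.1
  have hq : q2 d g = 1 ∨ q2 d g = -1 := by
    have h1 := (q2_ne_zero_iff d g).2 hgc
    rcases q2_cases d g with h2 | h2 | h2
    · exact absurd h2 h1
    · exact Or.inl h2
    · exact Or.inr h2
  refine ⟨q2 d g, hq, gal_s d σ hσ hM dvd_rfl hg hs, ?_⟩
  obtain ⟨μ, hμ0, hμ⟩ := hN g hgc
  obtain ⟨φ, hφ, hprod⟩ := g3_perm d hR hgc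
  have e1 : ee d R ^ N = ∏ c ∈ R, (xc D c ^ N) ^ q2 d c := by
    rw [ee, ← Finset.prod_pow]
    refine Finset.prod_congr rfl fun c _ => ?_
    rw [← zpow_natCast, ← zpow_natCast, ← zpow_mul, ← zpow_mul, mul_comm]
  have e2 : σ (ee d R ^ N) = ∏ c ∈ R, (μ ^ q2 d c * (xc D (φ c) ^ N) ^ (q2 d (φ c) * q2 d g)) := by
    rw [e1, map_prod]
    refine Finset.prod_congr rfl fun c hc => ?_
    obtain ⟨h2, ζ, hζ, hd⟩ := hφ c hc
    rw [map_zpow₀, map_pow, g3_gal h hg, h3_xc_congr h hd, hμ c hc (φ c) h2 ζ hζ hd, mul_zpow,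
      ← g3_q2 d hR hq hζ hd]
  have e3 : ∏ c ∈ R, μ ^ q2 d c = 1 := by
    have h3 : ∀ S : Finset Eis, ∏ c ∈ S, μ ^ q2 d c = μ ^ ∑ c ∈ S, q2 d c := by
      intro S
      induction S using Finset.induction_on with
      | empty => simp
      | insert a S ha ih => rw [Finset.prod_insert ha, Finset.sum_insert ha, ih, zpow_add₀ hμ0]
    rw [h3, sum_R_q2 h d hR, zpow_zero]
  rw [e2, Finset.prod_mul_distrib, e3, one_mul, hprod (fun c => (xc D c ^ N) ^ (q2 d c * q2 d g)), e1,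
    ← Finset.prod_zpow]
  refine Finset.prod_congr rfl fun c _ => ?_
  rw [zpow_mul]

theorem ee3_N1 (h : Cl0 D) (d : Dat D) {R : Finset Eis} (hR : IsR d R) {s : ℂ} (hs : s ^ 2 = emb D) :
    N1 s (ee d R ^ 3) := by
  refine g3_main h d hR hs 3 fun g _ => ⟨1, one_ne_zero, fun c _ c' _ ζ hζ _ => ?_⟩
  obtain ⟨t, -, ht⟩ := g3_unit d hζ
  have h1 : zw t ^ 3 = 1 := by
    rw [CUL.zw_pow]
    have h2 : ((3 : ℕ) : ZMod 3) = 0 := by decide
    rw [h2, zero_mul, CUL.zw_zero]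
  rw [ht, mul_pow, h1]

theorem ee_N1 (h : Cl0 D) (d : Dat D) {R : Finset Eis} (hR : IsR d R) {s : ℂ} (hs : s ^ 2 = emb D)
    (hk : kk d ≠ 0) : N1 s (ee d R) := by
  have h1 := g3_main h d hR hs 1 ?_
  · rwa [pow_one] at h1
  intro g hg
  obtain ⟨l, hl⟩ := c3_zw d hg
  refine ⟨zw (l * kk d), CUL.zw_ne _, fun c hc c' hc' ζ hζ hd => ?_⟩
  obtain ⟨t, ht1, ht⟩ := g3_unit d hζ
  rw [pow_one, pow_one, ht]
  congr 1
  have h2 := c3_congr d hd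
  rw [c3_mul, c3_mul, hR.2.2 hk c hc, hR.2.2 hk c' hc', mul_one, mul_one, ht1, hl] at h2
  have h3 := CUL.zw_inj h2
  have h4 : kk d * kk d = 1 := by
    revert hk
    generalize kk d = k
    revert k
    decide
  rw [h3, mul_assoc, h4, mul_one]

end JL
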