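import Pool.Agent.JL.K1

/-!
# [JL-K2] `LX + 2 log |x|` is constant

PROOF. `Ak_deriv`: for `u > 0`: `z ↦ Ak 0 u z` has the real Fréchet derivative `h ↦ -2 π u Re(Tk 1 u z · h)` (termwise: `d exp(-π u |z+a|²)(h) = -2 π u Re(conj(z+a) h) exp(...)`; `hasFDerivAt_tsum` with the local bounds `NAB.A2d_bound` for `k = 1`).
`GX_deriv`: hence `d(GX z u / u)(h) = -2 π Re((Tk 1 u (z + ta) + Tk 1 u (z - ta) - 2 Tk 1 u z) h)`.
`LX_deriv`: `hasFDerivAt_integral_of_dominated_of_fderiv_le` on a ball around `z ∈ DX` (`DX_gap`, `Tk1_bound`: the bound `C exp(-κ(u + 1/u))` is integrable): `dLX(h) = -2 Re((E1(z + ta) + E1(z - ta) - 2 E1 z) h)` as `E1 z = π ∫ Tk 1 u z du`.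
`E1_comb`: `E1(z+ta) + E1(z-ta) - 2 E1 z = OmC yw z / xw z` (`CUL.ez_add_ta`, `ez_sub_ta`, `ez = E1/OmC`). `xw` has derivative `OmC yw z` off the lattice (`CM27`, `xw_deriv`, used in CUL/G1).
`LX_const`: `z ↦ LX z + 2 log ‖xw z‖` has real derivative `0` on `DX` (`xw z ≠ 0` there, `xw_eq_zero_iff`; `log ‖f‖` has derivative `Re(f'/f h)`), `DX` is open (`a3_isOpen_compl_range`) and preconnected (countable complement: `Set.Countable.isPathConnected_compl_of_one_lt_rank`, model CUL/E5 `e5_isPreconnected`). So it is constant (`IsOpen.is_const_of_fderiv_eq_zero`).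
-/

set_option autoImplicit false

open MeasureTheory Set Filter Topology
open scoped Classical ComplexConjugate

namespace JL

open CM27 JZ
open CU (la)
open CUL (Nl ta)

/-- `c ↦ (h ↦ Re (c h))` -/
noncomputable def k2_D (c : ℂ) : ℂ →L[ℝ] ℝ :=
  Complex.reCLM.comp ((ContinuousLinearMap.mul ℂ ℂ c).restrictScalars ℝ)

theorem k2_D_apply (c h : ℂ) : k2_D c h = (c * h).re := rfl

theorem k2_D_norm (c : ℂ) : ‖k2_D c‖ ≤ 1 * ‖c‖ := by
  refine ContinuousLinearMap.opNorm_le_bound _ (by positivity) fun h => ?_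
  rw [k2_D_apply, one_mul, Real.norm_eq_abs]
  exact (Complex.abs_re_le_norm _).trans (norm_mul_le _ _)

/-- `k2_D` as a continuous linear map -/
noncomputable def k2_L : ℂ →L[ℝ] (ℂ →L[ℝ] ℝ) :=
  LinearMap.mkContinuous
    { toFun := k2_D
      map_add' := fun c d => by
        ext h
        rw [_root_.add_apply, k2_D_apply, k2_D_apply, k2_D_apply, add_mul, Complex.add_re]
      map_smul' := fun r c => by
        ext h
        rw [_root_.smul_apply, k2_D_apply, k2_D_apply, RingHom.id_apply, smul_mul_assoc,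
          Complex.smul_re] } 1 k2_D_norm

theorem k2_L_eq (c : ℂ) : k2_L c = k2_D c := rfl

theorem k2_L_apply (c h : ℂ) : k2_L c h = (c * h).re := rfl

theorem k2_L_norm (c : ℂ) : ‖k2_L c‖ ≤ ‖c‖ := by
  have h := k2_D_norm c
  rwa [one_mul] at h

theorem k2_term {u : ℝ} (c z : ℂ) : HasFDerivAt (fun z : ℂ => ‖z + c‖ ^ 0 * Real.exp (-(Real.pi * u * ‖z + c‖ ^ 2)))
    ((-(2 * Real.pi * u) : ℝ) • k2_L (conj (z + c) ^ 1 * (Real.exp (-(Real.pi * u * ‖z + c‖ ^ 2)) : ℝ))) z := by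
  have h1 : HasFDerivAt (fun z : ℂ => z + c) (ContinuousLinearMap.id ℝ ℂ) z := (hasFDerivAt_id z).add_const c
  have h2 := ((h1.norm_sq.const_mul (Real.pi * u)).neg).exp
  have h3 : (fun z : ℂ => ‖z + c‖ ^ 0 * Real.exp (-(Real.pi * u * ‖z + c‖ ^ 2))) =
      fun z : ℂ => Real.exp (-(Real.pi * u * ‖z + c‖ ^ 2)) := by
    funext z
    rw [pow_zero, one_mul]
  rw [h3]
  refine h2.congr_fderiv ?_
  ext h
  have e1 : ((-(2 * Real.pi * u) : ℝ) • k2_L (conj (z + c) ^ 1 * (Real.exp (-(Real.pi * u * ‖z + c‖ ^ 2)) : ℝ))) h =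
      -(2 * Real.pi * u) * (Real.exp (-(Real.pi * u * ‖z + c‖ ^ 2)) * (h * conj (z + c)).re) := by
    have e2 : conj (z + c) ^ 1 * ((Real.exp (-(Real.pi * u * ‖z + c‖ ^ 2)) : ℝ) : ℂ) * h =
        ((Real.exp (-(Real.pi * u * ‖z + c‖ ^ 2)) : ℝ) : ℂ) * (h * conj (z + c)) := by ring
    rw [_root_.smul_apply, k2_L_apply, smul_eq_mul, e2, Complex.re_ofReal_mul]
  rw [e1]
  simp only [_root_.smul_apply, _root_.neg_apply, ContinuousLinearMap.comp_apply,
    innerSL_apply_apply, ContinuousLinearMap.coe_id', id_eq, smul_eq_mul, nsmul_eq_mul, Pi.neg_apply]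
  rw [Complex.inner]
  push_cast
  ring

theorem k2_E1 {z : ℂ} (hz : Nl z) : IntegrableOn (fun u : ℝ => NAB.Tk 1 u z) (Ioi 0) := by
  obtain ⟨δ, hδ, h1⟩ := NAB.a2a_gap z hz
  obtain ⟨C, κ, hC, hκ, h2⟩ := Tk1_bound hδ
  have h3 : IntegrableOn (fun u : ℝ => C * Real.exp (-κ * u)) (Ioi 0) :=
    (exp_neg_integrableOn_Ioi 0 hκ).const_mul C
  refine Integrable.mono' h3 ?_ ?_
  · refine ContinuousOn.aestronglyMeasurable ?_ measurableSet_Ioi
    exact (NAB.Tk_cont 1).comp (f := fun u : ℝ => (u, z)) (by fun_prop) (fun u hu => ⟨hu, mem_univ _⟩)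
  · refine (ae_restrict_iff' measurableSet_Ioi).2 (ae_of_all _ fun u hu => ?_)
    have hu' : 0 < u := hu
    refine (h2 z h1 u hu').trans ?_
    refine mul_le_mul_of_nonneg_left (Real.exp_le_exp.2 ?_) hC.le
    have : 0 < κ * (1 / u) := by positivity
    nlinarith

theorem Ak_deriv {u : ℝ} (hu : 0 < u) (z : ℂ) : HasFDerivAt (fun z : ℂ => NAB.Ak 0 u z)
    ((-(2 * Real.pi * u) : ℝ) • (Complex.reCLM.comp ((ContinuousLinearMap.mul ℂ ℂ (NAB.Tk 1 u z)).restrictScalars ℝ))) z := by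
  have key : HasFDerivAt (fun z : ℂ => ∑' a : Eis, ‖z + emb a‖ ^ 0 * Real.exp (-(Real.pi * u * ‖z + emb a‖ ^ 2)))
      (∑' a : Eis, (-(2 * Real.pi * u) : ℝ) • k2_L (conj (z + emb a) ^ 1 * (Real.exp (-(Real.pi * u * ‖z + emb a‖ ^ 2)) : ℝ))) z := by
    obtain ⟨v, hv, h1⟩ := NAB.A2d_bound 1 (ε := u) (R := ‖z‖ + 1) hu (by positivity)
    have hz : z ∈ Metric.ball (0 : ℂ) (‖z‖ + 1) := by
      rw [mem_ball_zero_iff]
      linarith
    refine hasFDerivAt_tsum_of_isPreconnected (u := fun a => 2 * Real.pi * u * v a) (hv.mul_left _)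
      Metric.isOpen_ball (convex_ball (0 : ℂ) (‖z‖ + 1)).isPreconnected (fun a x _ => k2_term (emb a) x) ?_ hz
      (NAB.Ak_summable 0 hu z) hz
    intro a x hx
    have hx' : ‖x‖ ≤ ‖z‖ + 1 := by
      rw [mem_ball_zero_iff] at hx
      exact hx.le
    rw [norm_smul, norm_neg, Real.norm_of_nonneg (by positivity : (0 : ℝ) ≤ 2 * Real.pi * u)]
    exact mul_le_mul_of_nonneg_left ((k2_L_norm _).trans (h1 a u x le_rfl hx')) (by positivity)
  refine key.congr_fderiv ?_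
  have h2 := (((-(2 * Real.pi * u) : ℝ) • k2_L : ℂ →L[ℝ] (ℂ →L[ℝ] ℝ))).map_tsum (NAB.Tk_summable 1 hu z)
  exact h2.symm

theorem LX_deriv {z : ℂ} (hz : z ∈ DX) : HasFDerivAt LX
    ((-2 : ℝ) • (Complex.reCLM.comp ((ContinuousLinearMap.mul ℂ ℂ
      (NAB.E1 (z + ta) + NAB.E1 (z - ta) - 2 * NAB.E1 z)).restrictScalars ℝ))) z := by
  obtain ⟨δ, ε, hδ, hε, hg⟩ := DX_gap hz
  obtain ⟨C, κ, hC, hκ, hT⟩ := Tk1_bound hδ
  have hpi := Real.pi_pos
  have hexp : ∀ u : ℝ, 0 < u → C * Real.exp (-(κ * (u + 1 / u))) ≤ C * Real.exp (-κ * u) := by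
    intro u hu
    refine mul_le_mul_of_nonneg_left (Real.exp_le_exp.2 ?_) hC.le
    have : 0 < κ * (1 / u) := by positivity
    nlinarith
  have hTc : ∀ z' : ℂ, ContinuousOn (fun u : ℝ => NAB.Tk 1 u z') (Ioi 0) := fun z' =>
    (NAB.Tk_cont 1).comp (f := fun u : ℝ => (u, z')) (by fun_prop) (fun u hu => ⟨hu, mem_univ _⟩)
  have key : HasFDerivAt (fun z' : ℂ => ∫ u in Ioi (0 : ℝ), GX z' u / u)
      (∫ u in Ioi (0 : ℝ), ((-2 * Real.pi : ℝ) • k2_L)
        (NAB.Tk 1 u (z + ta) + NAB.Tk 1 u (z - ta) - 2 * NAB.Tk 1 u z)) z := by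
    refine hasFDerivAt_integral_of_dominated_of_fderiv_le (μ := volume.restrict (Ioi (0 : ℝ)))
      (F := fun z' u => GX z' u / u)
      (F' := fun z' u => ((-2 * Real.pi : ℝ) • k2_L)
        (NAB.Tk 1 u (z' + ta) + NAB.Tk 1 u (z' - ta) - 2 * NAB.Tk 1 u z'))
      (bound := fun u => 2 * Real.pi * (4 * (C * Real.exp (-κ * u))))
      (s := Metric.closedBall z ε) (Metric.closedBall_mem_nhds z hε) ?_ (LX_int hz) ?_ ?_ ?_ ?_
    · refine Eventually.of_forall fun z' => ?_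
      refine ContinuousOn.aestronglyMeasurable ?_ measurableSet_Ioi
      exact (GX_cont z').div continuousOn_id (fun u hu => (ne_of_gt hu))
    · refine ContinuousOn.aestronglyMeasurable ?_ measurableSet_Ioi
      refine ((-2 * Real.pi : ℝ) • k2_L).continuous.comp_continuousOn ?_
      exact ((hTc _).add (hTc _)).sub (continuousOn_const.mul (hTc _))
    · refine (ae_restrict_iff' measurableSet_Ioi).2 (ae_of_all _ fun u hu z' hz' => ?_)
      have hu' : 0 < u := hu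
      rw [mem_closedBall_iff_norm] at hz'
      obtain ⟨g1, g2, g3⟩ := hg z' hz'
      have t1 := (hT z' g1 u hu').trans (hexp u hu')
      have t2 := (hT _ g2 u hu').trans (hexp u hu')
      have t3 := (hT _ g3 u hu').trans (hexp u hu')
      have h0 : ‖NAB.Tk 1 u (z' + ta) + NAB.Tk 1 u (z' - ta) - 2 * NAB.Tk 1 u z'‖ ≤
          4 * (C * Real.exp (-κ * u)) := by
        refine (norm_sub_le _ _).trans ?_
        have e1 := norm_add_le (NAB.Tk 1 u (z' + ta)) (NAB.Tk 1 u (z' - ta))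
        have e2 : ‖(2 : ℂ) * NAB.Tk 1 u z'‖ = 2 * ‖NAB.Tk 1 u z'‖ := by
          rw [norm_mul, Complex.norm_ofNat]
        rw [e2]
        linarith
      rw [_root_.smul_apply, norm_smul]
      have h3 : ‖(-2 * Real.pi : ℝ)‖ = 2 * Real.pi := by
        rw [norm_mul, norm_neg, Real.norm_of_nonneg hpi.le]
        norm_num
      rw [h3]
      exact mul_le_mul_of_nonneg_left ((k2_L_norm _).trans h0) (by positivity)
    · exact (((exp_neg_integrableOn_Ioi 0 hκ).const_mul C).const_mul 4).const_mul (2 * Real.pi)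
    · refine (ae_restrict_iff' measurableSet_Ioi).2 (ae_of_all _ fun u hu z' _ => ?_)
      have hu' : 0 < u := hu
      have d0 := Ak_deriv hu' z'
      have d1 := (hasFDerivAt_comp_add_right ta).2 (Ak_deriv hu' (z' + ta))
      have d2 := (hasFDerivAt_comp_sub ta).2 (Ak_deriv hu' (z' - ta))
      have d3 := ((d1.add d2).sub (d0.const_mul 2)).mul_const (u⁻¹)
      have d4 : HasFDerivAt (fun z' : ℂ => GX z' u / u) _ z' := d3
      refine d4.congr_fderiv ?_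
      ext h
      simp only [_root_.smul_apply, _root_.sub_apply, _root_.add_apply, smul_eq_mul, k2_L_apply]
      have e0 : ∀ c : ℂ, (Complex.reCLM.comp ((ContinuousLinearMap.mul ℂ ℂ c).restrictScalars ℝ)) h = (c * h).re :=
        fun c => rfl
      rw [e0, e0, e0]
      have e1 : (NAB.Tk 1 u (z' + ta) + NAB.Tk 1 u (z' - ta) - 2 * NAB.Tk 1 u z') * h =
          NAB.Tk 1 u (z' + ta) * h + NAB.Tk 1 u (z' - ta) * h - (2 : ℝ) * (NAB.Tk 1 u z' * h) := by
        push_cast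
        ring
      rw [e1, Complex.sub_re, Complex.add_re, Complex.re_ofReal_mul]
      field_simp
      ring
  refine key.congr_fderiv ?_
  have hi0 := k2_E1 hz.1
  have hi1 := k2_E1 hz.2.1
  have hi2 := k2_E1 hz.2.2
  have e1 := ContinuousLinearMap.integral_comp_comm (μ := volume.restrict (Ioi (0 : ℝ))) ((-2 * Real.pi : ℝ) • k2_L)
    (φ := fun u : ℝ => NAB.Tk 1 u (z + ta) + NAB.Tk 1 u (z - ta) - 2 * NAB.Tk 1 u z)
    ((hi1.add hi2).sub (hi0.const_mul 2))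
  rw [e1]
  have e2 : ∫ u in Ioi (0 : ℝ), (NAB.Tk 1 u (z + ta) + NAB.Tk 1 u (z - ta) - 2 * NAB.Tk 1 u z) =
      (∫ u in Ioi (0 : ℝ), NAB.Tk 1 u (z + ta)) + (∫ u in Ioi (0 : ℝ), NAB.Tk 1 u (z - ta)) -
        2 * ∫ u in Ioi (0 : ℝ), NAB.Tk 1 u z := by
    rw [← integral_const_mul, ← integral_add hi1 hi2]
    exact integral_sub (hi1.add hi2) (hi0.const_mul 2)
  rw [e2]
  ext h
  have e3 : (((-2 * Real.pi : ℝ) • k2_L) ((∫ u in Ioi (0 : ℝ), NAB.Tk 1 u (z + ta)) +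
      (∫ u in Ioi (0 : ℝ), NAB.Tk 1 u (z - ta)) - 2 * ∫ u in Ioi (0 : ℝ), NAB.Tk 1 u z)) h =
      (-2 * Real.pi) * (((∫ u in Ioi (0 : ℝ), NAB.Tk 1 u (z + ta)) +
      (∫ u in Ioi (0 : ℝ), NAB.Tk 1 u (z - ta)) - 2 * ∫ u in Ioi (0 : ℝ), NAB.Tk 1 u z) * h).re := rfl
  have e4 : ((-2 : ℝ) • (Complex.reCLM.comp ((ContinuousLinearMap.mul ℂ ℂ
      (NAB.E1 (z + ta) + NAB.E1 (z - ta) - 2 * NAB.E1 z)).restrictScalars ℝ))) h =
      (-2) * ((NAB.E1 (z + ta) + NAB.E1 (z - ta) - 2 * NAB.E1 z) * h).re := rfl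
  rw [e3, e4]
  have e5 : (NAB.E1 (z + ta) + NAB.E1 (z - ta) - 2 * NAB.E1 z) * h = (Real.pi : ℂ) *
      (((∫ u in Ioi (0 : ℝ), NAB.Tk 1 u (z + ta)) +
      (∫ u in Ioi (0 : ℝ), NAB.Tk 1 u (z - ta)) - 2 * ∫ u in Ioi (0 : ℝ), NAB.Tk 1 u z) * h) := by
    unfold NAB.E1
    ring
  rw [e5, Complex.re_ofReal_mul]
  ring

theorem E1_comb (z : ℂ) : NAB.E1 (z + ta) + NAB.E1 (z - ta) - 2 * NAB.E1 z = OmC * (yw z / xw z) := by
  have h1 : ∀ x : ℂ, NAB.E1 x = OmC * CUL.ez x := by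
    intro x
    unfold CUL.ez
    rw [mul_div_cancel₀ _ OmC_ne]
  rw [h1, h1, h1, CUL.ez_add_ta, CUL.ez_sub_ta]
  have h2 : yw z / xw z = (yw z - yw ta) / (2 * xw z) + (yw z + yw ta) / (2 * xw z) := by
    rw [← add_div, ← mul_div_mul_left (yw z) (xw z) (two_ne_zero : (2 : ℂ) ≠ 0)]
    congr 1
    ring
  rw [h2]
  ring

theorem LX_const : ∃ C : ℝ, ∀ z ∈ DX, LX z + 2 * Real.log ‖xw z‖ = C := by
  have hopen : IsOpen DX := by
    have h1 : DX = {z | Nl z} ∩ ({z | Nl (z + ta)} ∩ {z | Nl (z - ta)}) := by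
      ext z
      simp [DX]
    rw [h1]
    refine IsOpen.inter ?_ (IsOpen.inter ?_ ?_)
    · exact CUL.g1_nl_open
    · exact CUL.g1_nl_open.preimage (f := fun z => z + ta) (by fun_prop)
    · exact CUL.g1_nl_open.preimage (f := fun z => z - ta) (by fun_prop)
  have hcount : DXᶜ.Countable := by
    have h1 : DXᶜ ⊆ {z | ¬ Nl (z + 0)} ∪ ({z | ¬ Nl (z + ta)} ∪ {z | ¬ Nl (z + -ta)}) := by
      intro z hz
      simp only [DX, Set.mem_compl_iff, Set.mem_ofPred_eq] at hz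
      rw [not_and_or, not_and_or] at hz
      rcases hz with h | h | h
      · left
        rw [Set.mem_ofPred_eq, add_zero]
        exact h
      · exact Or.inr (Or.inl h)
      · right
        right
        rw [Set.mem_ofPred_eq, ← sub_eq_add_neg]
        exact h
    exact Set.Countable.mono h1 ((CUL.g1_nl_countable _).union ((CUL.g1_nl_countable _).union (CUL.g1_nl_countable _)))
  have hconn : IsPreconnected DX := by
    have h := hcount.isPathConnected_compl_of_one_lt_rank (E := ℂ)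
      (by rw [Complex.rank_real_complex]; exact Nat.one_lt_ofNat)
    rw [compl_compl] at h
    exact h.isConnected.isPreconnected
  have hF : ∀ z ∈ DX, HasFDerivAt (fun z => LX z + 2 * Real.log ‖xw z‖) (0 : ℂ →L[ℝ] ℝ) z := by
    intro z hz
    have hx := CUL.g1_xw_ne hz.1 hz.2.1 hz.2.2
    have h1 := (xw_deriv z hz.1).hasFDerivAt.restrictScalars ℝ
    have hn : ‖xw z‖ ^ 2 ≠ 0 := pow_ne_zero _ (norm_ne_zero_iff.2 hx)
    have h2 := h1.norm_sq.log hn
    have h3 := (LX_deriv hz).add h2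
    have h4 : (fun z => LX z + 2 * Real.log ‖xw z‖) = fun z => LX z + Real.log (‖xw z‖ ^ 2) := by
      funext z
      rw [Real.log_pow]
      norm_num
    rw [h4]
    refine h3.congr_fderiv ?_
    ext h
    rw [E1_comb]
    have e0 : ((-2 : ℝ) • (Complex.reCLM.comp ((ContinuousLinearMap.mul ℂ ℂ
        (OmC * (yw z / xw z))).restrictScalars ℝ))) h = (-2) * (OmC * (yw z / xw z) * h).re := rfl
    have e1 : (innerSL ℝ) (xw z) (h * (OmC * yw z)) = (h * (OmC * yw z) * conj (xw z)).re := by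
      rw [innerSL_apply_apply, Complex.inner]
    have e2 : (‖xw z‖ ^ 2)⁻¹ * (h * (OmC * yw z) * conj (xw z)).re = (OmC * (yw z / xw z) * h).re := by
      rw [← Complex.re_ofReal_mul]
      congr 1
      have h5 : conj (xw z) * xw z = ((‖xw z‖ ^ 2 : ℝ) : ℂ) := by
        rw [Complex.conj_mul']
        push_cast
        rfl
      have h6 : ((‖xw z‖ ^ 2 : ℝ) : ℂ) ≠ 0 := by
        rw [← h5]
        exact mul_ne_zero ((map_ne_zero _).2 hx) hx
      rw [Complex.ofReal_inv, inv_mul_eq_iff_eq_mul₀ h6, ← h5]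
      field_simp
    rw [_root_.add_apply, e0, _root_.zero_apply]
    show (-2) * (OmC * (yw z / xw z) * h).re + (‖xw z‖ ^ 2)⁻¹ * (2 • (innerSL ℝ) (xw z) (h * (OmC * yw z))) = 0
    rw [e1, nsmul_eq_mul]
    push_cast
    linear_combination 2 * e2
  by_cases hne : DX.Nonempty
  swap
  · exact ⟨0, fun z hz => absurd ⟨z, hz⟩ hne⟩
  obtain ⟨z0, hz0⟩ := hne
  refine ⟨LX z0 + 2 * Real.log ‖xw z0‖, fun z hz => ?_⟩
  refine hopen.is_const_of_fderiv_eq_zero (𝕜 := ℝ) (f := fun z => LX z + 2 * Real.log ‖xw z‖) hconn ?_ ?_ hz hz0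
  · intro y hy
    exact (hF y hy).differentiableAt.differentiableWithinAt
  · intro y hy
    exact (hF y hy).fderiv

end JL
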