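import Pool.Agent.JL.B4

/-!
# [JL-H3] the closed formula for `V`

`xc D c = xw (c / 4 D)`. `OT_c`: for `c` coprime to `4 D` the point `c / (4 D)` is not in the lattice (`4 D ∤ c`: `N(4 D) ≥ 16`) and `η 4 D` is primary, `OT`.
PROOF of `VV_eq` (`x₀ = xw si`, `x₀³ = -1`: `CUL.xw_si`; `CUL.pair_si`: `ez (P + si) + ez (-P + si) = 2 ez si + yw si / (x₀ - xw P)`):
(1) `V = ½ ∑_α (conj χ(α) (ez (α/f + si) + ez (-α/f + si)))` (`IsRep.sum_neg`, `chi_neg`); the terms with `χ(α) = 0` vanish; `∑ conj χ = 0` (`sum_chi`): `V = ½ yw si ∑_{α coprime} conj χ(α) / (x₀ - x_α)`.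
(2) the substitutions `α → ω α → ω² α` (`IsRep.sum_mul`; `xw (ω z) = ω xw z`: in CUL/U3 or Q3L/G3 `g3_xw_pow`; `conj χ(ω) = conj (zw k) = zw (-k)`, `c3_om`, `q2_unit`): `3 V = ½ yw si ∑_α conj χ(α) ∑_{n=0}^{2} zw(-k)^n / (x₀ - ω^n x_α)`.
(3) for `k = kk.val ∈ {0,1,2}`: `∑_n ω^(-k n) / (ω^n x - x₀) = 3 x^k x₀^(2-k) / (1 + x³)` if `x₀³ = -1` and `1 + x³ ≠ 0` (field_simp, `w³ = 1`, `w² = -1 - w`; three cases `k`). So `V = -½ yw si x₀^(2-k) ∑_{α coprime} conj χ(α) x_α^k / (1 + x_α³)`.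
    (`1 + x_α³ ≠ 0`: `x_α³ = -1` would give `xw (la z) = 0`, `CUL.xw_la`, excluded for `OT`; or `CUL.w_x3`.)
(4) the summand is periodic and invariant under units (`x` is even, `(ω^n x)^k conj χ(ω^n α) = x^k conj χ(α)`): `sum_R`: `V = -3 yw si x₀^(2-k) TT`.
-/

set_option autoImplicit false

open scoped Classical ComplexConjugate

namespace JL

open CM27 JZ
open CU (la eE)
open CUL (Nl ez si ta DS Cont LV IsRep rp cr mn zw OT GalU)
open Q3L (fQ Dec)

variable {D : Eis}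

theorem h3_four_ne (h : Cl0 D) : (4 * D : Eis) ≠ 0 := by
  have := eis_isDomain
  exact mul_ne_zero (by decide) (cl_ne h)

theorem h3_not_dvd {c : Eis} (hc : IsCoprime c (4 * D)) : ¬ 4 * D ∣ c := by
  intro hd
  have h1 : IsUnit (4 * D : Eis) := hc.isUnit_of_dvd' hd dvd_rfl
  have h2 : IsUnit (2 : Eis) := isUnit_of_dvd_unit ⟨2 * D, by ring⟩ h1
  exact Q3.prime_two.not_isUnit h2

theorem OT_c (h : Cl0 D) (d : Dat D) {c : Eis} (hc : IsCoprime c (4 * D)) : OT (emb c / emb (4 * D)) := by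
  have hf := h3_four_ne h
  refine ⟨(CUL.nl_div_iff hf c).2 (h3_not_dvd hc), 4 * (d.η * D), ?_, ?_⟩
  · refine CUL.primary_mul ?_ d.primary
    exact CUL.l5_prim (by simp [CUL.W3])
  · refine ⟨d.η * c, ?_⟩
    have hfe : emb (4 * D) ≠ 0 := CUL.l2_emb_ne hf
    rw [show (4 * (d.η * D) : Eis) = d.η * (4 * D) by ring, map_mul, map_mul]
    field_simp

theorem h3_xc_congr (h : Cl0 D) {x y : Eis} (hxy : 4 * D ∣ x - y) : xc D x = xc D y := by
  obtain ⟨t, ht⟩ := hxy
  have hfe : emb (4 * D) ≠ 0 := CUL.l2_emb_ne (h3_four_ne h)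
  have h1 : emb x / emb (4 * D) = emb y / emb (4 * D) + emb t := by
    have h2 : x = y + 4 * D * t := by linear_combination ht
    rw [h2, map_add, map_mul]
    field_simp
  rw [xc, xc, h1, xw_add]

theorem h3_xc_neg (x : Eis) : xc D (-x) = xc D x := by
  rw [xc, xc, map_neg, neg_div, xw_neg]

theorem h3_xc_om (x : Eis) : xc D (CU.om * x) = w * xc D x := by
  rw [xc, xc, map_mul, CUL.emb_om, mul_div_assoc, xw_w]

theorem h3_x3 (h : Cl0 D) (d : Dat D) {c : Eis} (hc : IsCoprime c (4 * D)) : xc D c ^ 3 + 1 ≠ 0 := by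
  intro h1
  have h2 := OT_c h d hc
  have h3 := CUL.u7_ne (CUL.u7_la_mul h2)
  apply h3
  rw [CUL.xw_la]
  change (xc D c ^ 3 + 1) / _ = 0
  rw [h1, zero_div]

/-- `1/(a - x) + ρ/(a - w x) + ρ²/(a - w² x)`, `a³ = -1`, `ρ = w^(-k)` -/
theorem h3_alg {a x : ℂ} (ha : a ^ 3 = -1) (hx : x ^ 3 + 1 ≠ 0) (k : ZMod 3) :
    1 / (a - x) + zw (-k) * (1 / (a - w * x)) + zw (-k) ^ 2 * (1 / (a - w ^ 2 * x)) =
      -3 * a ^ (2 - k.val) * (x ^ k.val / (1 + x ^ 3)) := by
  have hw3 := CUL.w3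
  have hw2 := CUL.w2
  have e1 : (a - x) * (a - w * x) * (a - w ^ 2 * x) = -(x ^ 3 + 1) := by
    have : (a - x) * (a - w * x) * (a - w ^ 2 * x) = a ^ 3 - x ^ 3 * w ^ 3
        - (1 + w + w ^ 2) * (a ^ 2 * x) + (1 + w + w ^ 2) * (w * a * x ^ 2) := by ring
    rw [this, ha, hw3, hw2]; ring
  have e2 : (a - x) * (a - w * x) * (a - w ^ 2 * x) ≠ 0 := by
    rw [e1]; exact neg_ne_zero.2 hx
  have n1 : a - x ≠ 0 := fun h => e2 (by rw [h]; ring)
  have n2 : a - w * x ≠ 0 := fun h => e2 (by rw [h]; ring)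
  have n3 : a - w ^ 2 * x ≠ 0 := fun h => e2 (by rw [h]; ring)
  have n4 : 1 + x ^ 3 ≠ 0 := by rwa [add_comm]
  have i1 : 1 / (a - x) = -((a - w * x) * (a - w ^ 2 * x)) / (1 + x ^ 3) := by
    rw [div_eq_div_iff n1 n4]; linear_combination e1
  have i2 : 1 / (a - w * x) = -((a - x) * (a - w ^ 2 * x)) / (1 + x ^ 3) := by
    rw [div_eq_div_iff n2 n4]; linear_combination e1
  have i3 : 1 / (a - w ^ 2 * x) = -((a - x) * (a - w * x)) / (1 + x ^ 3) := by
    rw [div_eq_div_iff n3 n4]; linear_combination e1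
  rw [i1, i2, i3]
  have hz : w ^ 2 + w + 1 = 0 := by rw [hw2]; ring
  rcases CUL.l5_zw_cases k with rfl | rfl | rfl
  · rw [neg_zero, CUL.zw_zero]
    change _ = -3 * a ^ 2 * (x ^ 0 / (1 + x ^ 3))
    field_simp
    linear_combination (-(x ^ 2 * w - 2 * a * x)) * hz
  · rw [show (-1 : ZMod 3) = 2 by decide, CUL.zw_two]
    change _ = -3 * a ^ 1 * (x ^ 1 / (1 + x ^ 3))
    field_simp
    linear_combination (-(x ^ 2 * w ^ 3 - 3 * a * x + 2 * a * x * w - a * x * w ^ 2 - a * x * w ^ 3 + a ^ 2 -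
      a ^ 2 * w + a ^ 2 * w ^ 2)) * hz
  · rw [show (-2 : ZMod 3) = 1 by decide, CUL.zw_one]
    change _ = -3 * a ^ 0 * (x ^ 2 / (1 + x ^ 3))
    field_simp
    linear_combination (-(-3 * x ^ 2 + 3 * x ^ 2 * w - 2 * a * x * w + a ^ 2)) * hz

theorem h3_unit_om : IsUnit (CU.om : Eis) := by
  refine IsUnit.of_mul_eq_one (CU.om ^ 2) ?_
  decide

theorem h3_cop {u : Eis} (hu : IsUnit u) (f : Eis) : IsCoprime u f := by
  obtain ⟨v, hv⟩ := hu.exists_left_inv
  exact ⟨v, 0, by rw [hv]; ring⟩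

theorem h3_chi_om (d : Dat D) (x : Eis) : conj (chi d (CU.om * x)) = zw (-(kk d)) * conj (chi d x) := by
  have h1 : q2 d CU.om = 1 := q2_unit d h3_unit_om
  rw [chi_mul, chi, h1, c3_om, Int.cast_one, one_mul, map_mul, CUL.zw_conj]

theorem VV_eq (h : Cl0 D) (d : Dat D) {R : Finset Eis} (hR : IsR d R) :
    VV d = -3 * yw si * xw si ^ (2 - (kk d).val) * TT d R := by
  have hf := h3_four_ne h
  have hfe : emb (4 * D) ≠ 0 := CUL.l2_emb_ne hf
  have hrep := CUL.rp_spec hf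
  have hcop : ∀ α : Eis, chi d α ≠ 0 → IsCoprime α (4 * D) := fun α hα => (chi_ne_zero_iff d α).1 hα
  -- step 1
  have s1 : 2 * VV d = yw si * ∑ α ∈ rp (4 * D), conj (chi d α) * (1 / (xw si - xc D α)) := by
    have h1 : ∑ α ∈ rp (4 * D), conj (chi d (-α)) * ez (emb (-α) / emb (4 * D) + si) = VV d := by
      refine hrep.sum_neg (fun α => conj (chi d α) * ez (emb α / emb (4 * D) + si)) ?_
      intro a b hab
      obtain ⟨t, ht⟩ := hab
      have h2 : a = b + 4 * D * t := by linear_combination ht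
      have h3 : emb a / emb (4 * D) = emb b / emb (4 * D) + emb t := by
        rw [h2, map_add, map_mul]; field_simp
      show conj (chi d a) * ez (emb a / emb (4 * D) + si) = conj (chi d b) * ez (emb b / emb (4 * D) + si)
      rw [chi_congr d (x := a) (y := b) ⟨t, ht⟩, h3, add_right_comm, CUL.ez_add_emb]
    have h2 : 2 * VV d = ∑ α ∈ rp (4 * D), (conj (chi d α) * ez (emb α / emb (4 * D) + si) +
        conj (chi d (-α)) * ez (emb (-α) / emb (4 * D) + si)) := by
      rw [Finset.sum_add_distrib, h1, two_mul]; rfl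
    have h3 : ∀ α ∈ rp (4 * D), (conj (chi d α) * ez (emb α / emb (4 * D) + si) +
        conj (chi d (-α)) * ez (emb (-α) / emb (4 * D) + si)) =
        2 * ez si * conj (chi d α) + yw si * (conj (chi d α) * (1 / (xw si - xc D α))) := by
      intro α _
      by_cases hα : chi d α = 0
      · rw [chi_neg, hα]; simp
      · have h4 := CUL.pair_si (OT_c h d (hcop α hα))
        rw [chi_neg, map_neg, neg_div]
        rw [← mul_add, h4, xc]
        ring
    rw [h2, Finset.sum_congr rfl h3, Finset.sum_add_distrib, ← Finset.mul_sum, ← Finset.mul_sum, sum_chi h d,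
      mul_zero, zero_add]
  -- step 2
  have hG : ∀ a b : Eis, 4 * D ∣ a - b → conj (chi d a) * (1 / (xw si - xc D a)) =
      conj (chi d b) * (1 / (xw si - xc D b)) := by
    intro a b hab
    rw [chi_congr d hab, h3_xc_congr h hab]
  have hom : IsCoprime (CU.om : Eis) (4 * D) := h3_cop h3_unit_om _
  have s2 : ∑ α ∈ rp (4 * D), conj (chi d (CU.om * α)) * (1 / (xw si - xc D (CU.om * α))) =
      ∑ α ∈ rp (4 * D), conj (chi d α) * (1 / (xw si - xc D α)) :=
    hrep.sum_mul hom (fun α => conj (chi d α) * (1 / (xw si - xc D α))) hG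
  have hom2 : IsCoprime (CU.om * CU.om : Eis) (4 * D) := h3_cop (h3_unit_om.mul h3_unit_om) _
  have s3 : ∑ α ∈ rp (4 * D), conj (chi d (CU.om * CU.om * α)) * (1 / (xw si - xc D (CU.om * CU.om * α))) =
      ∑ α ∈ rp (4 * D), conj (chi d α) * (1 / (xw si - xc D α)) :=
    hrep.sum_mul hom2 (fun α => conj (chi d α) * (1 / (xw si - xc D α))) hG
  have s4 : 3 * ∑ α ∈ rp (4 * D), conj (chi d α) * (1 / (xw si - xc D α)) =
      ∑ α ∈ rp (4 * D), -3 * xw si ^ (2 - (kk d).val) *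
        (conj (chi d α) * xc D α ^ (kk d).val / (1 + xc D α ^ 3)) := by
    have h5 : 3 * ∑ α ∈ rp (4 * D), conj (chi d α) * (1 / (xw si - xc D α)) =
        ∑ α ∈ rp (4 * D), (conj (chi d α) * (1 / (xw si - xc D α)) +
          conj (chi d (CU.om * α)) * (1 / (xw si - xc D (CU.om * α))) +
          conj (chi d (CU.om * CU.om * α)) * (1 / (xw si - xc D (CU.om * CU.om * α)))) := by
      rw [Finset.sum_add_distrib, Finset.sum_add_distrib, s2, s3]; ring
    rw [h5]
    refine Finset.sum_congr rfl fun α _ => ?_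
    rw [mul_assoc CU.om CU.om α, h3_chi_om d (CU.om * α), h3_chi_om d α, h3_xc_om (CU.om * α), h3_xc_om α]
    by_cases hα : chi d α = 0
    · rw [hα]; simp
    · have h6 := h3_alg CUL.xw_si (h3_x3 h d (hcop α hα)) (kk d)
      have h7 : -3 * xw si ^ (2 - (kk d).val) * (conj (chi d α) * xc D α ^ (kk d).val / (1 + xc D α ^ 3)) =
          conj (chi d α) * (-3 * xw si ^ (2 - (kk d).val) * (xc D α ^ (kk d).val / (1 + xc D α ^ 3))) := by
        ring
      rw [h7, ← h6]
      rw [show w * (w * xc D α) = w ^ 2 * xc D α by ring]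
      ring
  -- step 3
  have s5 : ∑ α ∈ rp (4 * D), -3 * xw si ^ (2 - (kk d).val) *
        (conj (chi d α) * xc D α ^ (kk d).val / (1 + xc D α ^ 3)) =
      -3 * xw si ^ (2 - (kk d).val) * (6 * TT d R) := by
    rw [← Finset.mul_sum]
    congr 1
    have h8 := sum_R h d hR (fun α => conj (chi d α) * xc D α ^ (kk d).val / (1 + xc D α ^ 3)) ?_ ?_
    · rw [TT, ← h8]
      rw [Finset.sum_filter_of_ne]
      intro α _ hne
      apply hcop
      intro h9
      apply hne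
      rw [h9]; simp
    · intro x y hxy
      show _ / _ = _ / _
      rw [chi_congr d hxy, h3_xc_congr h hxy]
    · have hneg : ∀ x : Eis, conj (chi d (-x)) * xc D (-x) ^ (kk d).val / (1 + xc D (-x) ^ 3) =
          conj (chi d x) * xc D x ^ (kk d).val / (1 + xc D x ^ 3) := by
        intro x
        rw [chi_neg, h3_xc_neg]
      have homi : ∀ x : Eis, conj (chi d (CU.om * x)) * xc D (CU.om * x) ^ (kk d).val /
          (1 + xc D (CU.om * x) ^ 3) = conj (chi d x) * xc D x ^ (kk d).val / (1 + xc D x ^ 3) := by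
        intro x
        have h9 : zw (-(kk d)) * w ^ (kk d).val = 1 := by
          change zw (-(kk d)) * zw (kk d) = 1
          rw [← CUL.zw_add, neg_add_cancel, CUL.zw_zero]
        rw [h3_chi_om, h3_xc_om, mul_pow w (xc D x) 3, CUL.w3, one_mul]
        congr 1
        rw [mul_pow]
        linear_combination (conj (chi d x) * xc D x ^ (kk d).val) * h9
      intro ζ x hζ
      show conj (chi d (ζ * x)) * xc D (ζ * x) ^ (kk d).val / (1 + xc D (ζ * x) ^ 3) =
          conj (chi d x) * xc D x ^ (kk d).val / (1 + xc D x ^ 3)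
      rcases CUL.unit_cases hζ with rfl | rfl | rfl | rfl | rfl | rfl
      · rw [one_mul]
      · rw [neg_one_mul, hneg]
      · rw [homi]
      · rw [neg_mul, hneg, homi]
      · rw [pow_two, mul_assoc, homi, homi]
      · rw [neg_mul, hneg, pow_two, mul_assoc, homi, homi]
  have s6 := s4.trans s5
  linear_combination (1 / 2) * s1 + (1 / 6 * yw si) * s6

end JL
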