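import Pool.Agent.JL.K4
import Pool.Agent.JL.K2
import Pool.Agent.JL.H3

/-!
# [JL-K5] the limit formula

Let `LJ d σ → L₁` for `σ → 1+` (Defs: `LJ σ = (1/6) ∑_b q2(b) N(b)^(-σ)`), `ε = q2 d la = ± 1`.
(1) `SGint`: `∫_0^∞ SG d u du/u = ∑_α q2(α) LX(α/f)` (finite sum; only `α` coprime to `f` contribute, for them `α/f ∈ DX`: `f ∤ α`, and `α/f ± ta ∈ ℤ[ω]` would give `la ∣ f`).
(2) with `v = 1/u`: `S(v) := SG d (1/v) / v`; `∫_0^∞ SG d u du/u = ∫_0^∞ SG d (1/v) dv/v = ∫_0^∞ S(v) dv`, and by `SG_poisson` `S(v) = (-3 gX/A₀) θ(v)`, `θ(v) = ∑_b [la ∤ b] q2(b) exp(-(4π/3) N(b) v)`.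
(3) For `σ > 1`: `∫_0^∞ v^(σ-1) θ(v) dv = Γ(σ) (4π/3)^(-σ) ∑_{la ∤ b, b ≠ 0} q2(b) N(b)^(-σ)` (Tonelli, `Real.integral_rpow_mul_exp_neg_mul_Ioi`; or Mathlib `hasMellin_...`; `∑ N(b)^(-σ)` converges: CUL `e2_norm_summable`), and `∑_{la ∤ b} q2(b) N(b)^(-σ) = 6 LJ(σ) (1 - ε 3^(-σ))` (`b = la b'`, `q2(la b') = ε q2 b'`, `N(la) = 3`).
(4) `θ(v)` is bounded by `C exp(-κ(v + 1/v))` (from `GX_bound` through (2), `θ = -A₀ S/(3 gX)`, `gX ≠ 0`), so `∫ v^(σ-1) θ → ∫ θ` as `σ → 1+` (dominated convergence). Hence `∫_0^∞ θ = (3/(4π)) · 6 L₁ (1 - ε/3)`.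
(5) So `∑_α q2(α) LX(α/f) = (-3 gX/A₀)(3/(4π)) 6 L₁ (1 - ε/3)` in `ℂ`. With `‖gX‖ = √N(4D) = 4 √N(D)`, `A₀ = √3/2`: `|∑_α q2(α) LX(α/f)| = (36 √3/π)(1 - ε/3) √N(D) |L₁|`  [`3 · (2/√3) · 3/(4π) · 6 · 4 = 108/(√3 π) = 36 √3/π`].
(6) `LX_const`, `∑ q2 = 0`: `∑_α q2(α) log ‖x_α‖ = -½ ∑_α q2(α) LX(α/f)`. `sum_R` (the function `α ↦ q2(α) log ‖xc D α‖` is periodic and invariant under units): `6 ∑_{c ∈ R} q2(c) log ‖xc D c‖`, and `∑_{c∈R} q2(c) log ‖x_c‖ = log ‖ee d R‖`. So `|log ‖e‖| = (1/12)(36√3/π)(1 - ε/3) √N(D) |L₁| = (3√3/π)(1 - ε/3) √N(D) |L₁|`.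
-/

set_option autoImplicit false

open MeasureTheory Set Filter Topology
open scoped Classical ComplexConjugate

namespace JL

open CM27 JZ
open CU (la)
open CUL (Nl ta rp IsRep)

variable {D : Eis}


theorem k5_f_ne (h : Cl0 D) : (4 * D : Eis) ≠ 0 := by
  have hdom : IsDomain Eis := emb_injective.isDomain emb
  refine mul_ne_zero ?_ (cl_ne h)
  intro h4
  have h5 := congrArg QuadraticAlgebra.re h4
  revert h5
  decide

theorem k5_emb_ne (h : Cl0 D) : emb (4 * D) ≠ 0 := CUL.l2_emb_ne (k5_f_ne h)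

theorem k5_la_ne : (la : Eis) ≠ 0 := by decide

theorem k5_la (h : Cl0 D) : ¬ la ∣ 4 * D := by
  intro h1
  refine cl_not_la h ?_
  have h3 : la ∣ 3 * D := by
    refine Dvd.dvd.mul_right ?_ D
    rw [CU.la_dvd_iff]
    decide
  have h4 := dvd_sub h1 h3
  have e : 4 * D - 3 * D = D := by ring
  rwa [e] at h4

theorem k5_not_unit : ¬ IsUnit (4 * D : Eis) := by
  intro h1
  have h2 : (2 : Eis) ∣ 4 * D := ⟨2 * D, by ring⟩
  exact Q3.prime_two.not_isUnit (isUnit_of_dvd_unit h2 h1)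

theorem k5_DX (h : Cl0 D) {α : Eis} (hα : IsCoprime α (4 * D)) : emb α / emb (4 * D) ∈ DX := by
  have hf := k5_emb_ne h
  have hl : emb la ≠ 0 := CUL.l2_emb_ne k5_la_ne
  refine ⟨?_, ?_, ?_⟩
  · rintro ⟨a, ha⟩
    rw [eq_div_iff hf, ← map_mul] at ha
    have h1 := emb_injective ha
    exact k5_not_unit (hα.isUnit_of_dvd' ⟨a, by rw [← h1]; ring⟩ dvd_rfl)
  · rintro ⟨a, ha⟩
    rw [CUL.ta, div_add_div _ _ hf hl, eq_div_iff (mul_ne_zero hf hl), mul_one, ← map_mul, ← map_mul, ← map_mul,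
      ← map_add] at ha
    have h1 := emb_injective ha
    exact k5_la h ⟨a * (4 * D) - α, by linear_combination -h1⟩
  · rintro ⟨a, ha⟩
    rw [CUL.ta, div_sub_div _ _ hf hl, eq_div_iff (mul_ne_zero hf hl), mul_one, ← map_mul, ← map_mul, ← map_mul,
      ← map_sub] at ha
    have h1 := emb_injective ha
    exact k5_la h ⟨α - a * (4 * D), by linear_combination h1⟩

/-- restriction to the coprime classes -/
theorem k5_filter (d : Dat D) (g : Eis → ℝ) :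
    ∑ α ∈ rp (4 * D), (q2 d α : ℝ) * g α =
      ∑ α ∈ (rp (4 * D)).filter (fun α => IsCoprime α (4 * D)), (q2 d α : ℝ) * g α := by
  symm
  refine Finset.sum_subset (Finset.filter_subset _ _) ?_
  intro x hx hx'
  have h1 : ¬ IsCoprime x (4 * D) := fun hc => hx' (Finset.mem_filter.2 ⟨hx, hc⟩)
  have h2 : q2 d x = 0 := by
    by_contra h3
    exact h1 ((q2_ne_zero_iff d x).1 h3)
  rw [h2, Int.cast_zero, zero_mul]

theorem k5_int_SG (h : Cl0 D) (d : Dat D) :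
    ∑ α ∈ (rp (4 * D)).filter (fun α => IsCoprime α (4 * D)), (q2 d α : ℝ) * LX (emb α / emb (4 * D)) =
      ∫ u in Ioi (0 : ℝ), SG d u / u := by
  have e : ∀ u : ℝ, SG d u / u =
      ∑ α ∈ (rp (4 * D)).filter (fun α => IsCoprime α (4 * D)), (q2 d α : ℝ) * (GX (emb α / emb (4 * D)) u / u) := by
    intro u
    rw [SG, k5_filter, Finset.sum_div]
    exact Finset.sum_congr rfl fun α _ => by rw [mul_div_assoc]
  simp only [e]
  rw [integral_finsetSum]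
  · refine Finset.sum_congr rfl fun α _ => ?_
    rw [integral_const_mul, LX]
  · intro α hα
    exact (LX_int (k5_DX h (Finset.mem_filter.1 hα).2)).const_mul _

theorem k5_abs_q2 (d : Dat D) (x : Eis) : |(q2 d x : ℝ)| ≤ 1 := by
  rcases q2_cases d x with h | h | h <;> rw [h] <;> norm_num

/-- exponential bound for a finite family -/
theorem k5_bound_SG (h : Cl0 D) (d : Dat D) : ∃ C κ : ℝ, 0 < C ∧ 0 < κ ∧ ∀ u : ℝ, 0 < u →
    |SG d u| ≤ C * Real.exp (-(κ * (u + 1 / u))) := by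
  have key : ∀ S : Finset Eis, (∀ α ∈ S, IsCoprime α (4 * D)) → ∃ C κ : ℝ, 0 < C ∧ 0 < κ ∧ ∀ u : ℝ, 0 < u →
      |∑ α ∈ S, (q2 d α : ℝ) * GX (emb α / emb (4 * D)) u| ≤ C * Real.exp (-(κ * (u + 1 / u))) := by
    intro S
    induction S using Finset.induction_on with
    | empty =>
      intro _
      refine ⟨1, 1, one_pos, one_pos, fun u _ => ?_⟩
      rw [Finset.sum_empty, abs_zero]
      positivity
    | insert a S ha ih =>
      intro hS
      obtain ⟨C, κ, hC, hκ, hb⟩ := ih fun α hα => hS α (Finset.mem_insert_of_mem hα)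
      obtain ⟨δ, ε, hδ, hε, hg⟩ := DX_gap (k5_DX h (hS a (Finset.mem_insert_self _ _)))
      obtain ⟨h1, h2, h3⟩ := hg (emb a / emb (4 * D)) (by rw [sub_self, norm_zero]; exact hε.le)
      obtain ⟨C', κ', hC', hκ', hb'⟩ := GX_bound hδ
      refine ⟨C' + C, min κ' κ, by positivity, lt_min hκ' hκ, fun u hu => ?_⟩
      have hu' : 0 < u + 1 / u := by positivity
      rw [Finset.sum_insert ha, add_mul]
      refine (abs_add_le _ _).trans (add_le_add ?_ ?_)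
      · rw [abs_mul]
        have h4 := hb' _ h1 h2 h3 u hu
        have h5 : |(q2 d a : ℝ)| * |GX (emb a / emb (4 * D)) u| ≤ 1 * (C' * Real.exp (-(κ' * (u + 1 / u)))) :=
          mul_le_mul (k5_abs_q2 d a) h4 (abs_nonneg _) zero_le_one
        refine h5.trans ?_
        rw [one_mul]
        refine mul_le_mul_of_nonneg_left (Real.exp_le_exp.2 (neg_le_neg ?_)) hC'.le
        exact mul_le_mul_of_nonneg_right (min_le_left _ _) hu'.le
      · refine (hb u hu).trans ?_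
        refine mul_le_mul_of_nonneg_left (Real.exp_le_exp.2 (neg_le_neg ?_)) hC.le
        exact mul_le_mul_of_nonneg_right (min_le_right _ _) hu'.le
  obtain ⟨C, κ, hC, hκ, hb⟩ := key ((rp (4 * D)).filter (fun α => IsCoprime α (4 * D)))
    fun α hα => (Finset.mem_filter.1 hα).2
  refine ⟨C, κ, hC, hκ, fun u hu => ?_⟩
  rw [SG, k5_filter]
  exact hb u hu

/-! ### the theta series -/

/-- the coefficients -/
noncomputable def k5_c (d : Dat D) (b : Eis) : ℝ := if la ∣ b then 0 else (q2 d b : ℝ)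

theorem k5_abs_c (d : Dat D) (b : Eis) : |k5_c d b| ≤ 1 := by
  unfold k5_c
  split_ifs
  · rw [abs_zero]; exact zero_le_one
  · exact k5_abs_q2 d b

/-- the theta series -/
noncomputable def k5_th (d : Dat D) (v : ℝ) : ℂ :=
  ∑' b : Eis, (k5_c d b : ℂ) * (Real.exp (-(4 * Real.pi / 3 * (b.norm : ℝ)) * v) : ℂ)

theorem k5_summable_exp {v : ℝ} (hv : 0 < v) :
    Summable fun b : Eis => Real.exp (-(4 * Real.pi / 3 * (b.norm : ℝ)) * v) := by
  have h1 := NAB.Ak_summable 0 (s := 4 / 3 * v) (by positivity) 0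
  refine h1.congr fun b => ?_
  rw [zero_add, pow_zero, one_mul, norm_emb_sq]
  congr 1
  ring

theorem k5_hasSum (d : Dat D) {v : ℝ} (hv : 0 < v) :
    HasSum (fun b : Eis => (k5_c d b : ℂ) * (Real.exp (-(4 * Real.pi / 3 * (b.norm : ℝ)) * v) : ℂ)) (k5_th d v) := by
  refine Summable.hasSum ?_
  refine Summable.of_norm_bounded (k5_summable_exp hv) fun b => ?_
  rw [norm_mul, Complex.norm_real, Complex.norm_real, Real.norm_of_nonneg (Real.exp_pos _).le]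
  exact mul_le_of_le_one_left (Real.exp_pos _).le (k5_abs_c d b)

theorem k5_poisson (h : Cl0 D) (d : Dat D) {u : ℝ} (hu : 0 < u) :
    ((SG d u : ℝ) : ℂ) = -3 * gX d / ((NAB.A0 : ℂ) * u) * k5_th d (1 / u) := by
  rw [SG_poisson h d hu]
  congr 1
  unfold k5_th
  refine tsum_congr fun b => ?_
  rw [← Complex.ofReal_mul]
  congr 1
  unfold k5_c
  split_ifs
  · rw [zero_mul]
  · congr 2
    ring

theorem k5_A0 : (NAB.A0 : ℂ) ≠ 0 := by
  rw [Complex.ofReal_ne_zero]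
  exact NAB.A0_pos'.ne'

theorem k5_gX (h : Cl0 D) (d : Dat D) : gX d ≠ 0 := by
  intro h0
  have h1 := gauss_norm h d
  rw [h0, norm_zero, zero_pow two_ne_zero, ← norm_emb_sq] at h1
  have h2 := norm_pos_iff.2 (k5_emb_ne h)
  have h3 : 0 < ‖emb (4 * D)‖ ^ 2 := by positivity
  linarith

/-- the theta series in terms of `SG` -/
theorem k5_th_eq (h : Cl0 D) (d : Dat D) {v : ℝ} (hv : 0 < v) :
    k5_th d v = -((NAB.A0 : ℂ) / (3 * gX d)) * (((SG d v⁻¹ : ℝ) : ℂ) * ((v⁻¹ : ℝ) : ℂ)) := by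
  have hv' : (v : ℂ) ≠ 0 := by
    rw [Complex.ofReal_ne_zero]
    exact hv.ne'
  have hA := k5_A0
  have hg := k5_gX h d
  rw [k5_poisson h d (inv_pos.2 hv), one_div, inv_inv, Complex.ofReal_inv]
  field_simp

theorem k5_SG_div (h : Cl0 D) (d : Dat D) {v : ℝ} (hv : 0 < v) :
    ((SG d v⁻¹ : ℝ) : ℂ) * ((v⁻¹ : ℝ) : ℂ) = -3 * gX d / (NAB.A0 : ℂ) * k5_th d v := by
  have hv' : (v : ℂ) ≠ 0 := by
    rw [Complex.ofReal_ne_zero]
    exact hv.ne'
  have hA := k5_A0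
  rw [k5_poisson h d (inv_pos.2 hv), one_div, inv_inv, Complex.ofReal_inv]
  field_simp

theorem k5_bound (h : Cl0 D) (d : Dat D) : ∃ C κ : ℝ, 0 < C ∧ 0 < κ ∧ ∀ v : ℝ, 0 < v →
    ‖k5_th d v‖ ≤ C * Real.exp (-(κ * (v + 1 / v))) := by
  obtain ⟨C, κ, hC, hκ, hb⟩ := k5_bound_SG h d
  have hA := k5_A0
  have hg := k5_gX h d
  have hK : 0 < ‖-((NAB.A0 : ℂ) / (3 * gX d))‖ := by
    rw [norm_neg]
    exact norm_pos_iff.2 (div_ne_zero hA (mul_ne_zero (by norm_num) hg))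
  refine ⟨‖-((NAB.A0 : ℂ) / (3 * gX d))‖ * (C * (2 / κ)), κ / 2, by positivity, by positivity, fun v hv => ?_⟩
  rw [k5_th_eq h d hv, norm_mul, norm_mul, Complex.norm_real, Complex.norm_real, mul_assoc]
  refine mul_le_mul_of_nonneg_left ?_ hK.le
  have h1 := hb v⁻¹ (inv_pos.2 hv)
  have e1 : v⁻¹ + 1 / v⁻¹ = v + 1 / v := by
    rw [one_div, inv_inv, one_div, add_comm]
  rw [e1] at h1
  have hv' : 0 < 1 / v := by positivity
  have h2 : v⁻¹ ≤ 2 / κ * Real.exp (κ / 2 * (v + 1 / v)) := by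
    have h3 : κ / 2 * (v + 1 / v) ≤ Real.exp (κ / 2 * (v + 1 / v)) := by
      have := Real.add_one_le_exp (κ / 2 * (v + 1 / v))
      linarith
    have h4 : v⁻¹ ≤ v + 1 / v := by
      rw [one_div]; linarith
    have h5 : v + 1 / v = 2 / κ * (κ / 2 * (v + 1 / v)) := by
      field_simp
    calc v⁻¹ ≤ v + 1 / v := h4
      _ = 2 / κ * (κ / 2 * (v + 1 / v)) := h5
      _ ≤ _ := mul_le_mul_of_nonneg_left h3 (by positivity)
  have h6 : ‖(v⁻¹ : ℝ)‖ = v⁻¹ := Real.norm_of_nonneg (inv_pos.2 hv).le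
  rw [h6, Real.norm_eq_abs]
  calc |SG d v⁻¹| * v⁻¹ ≤ (C * Real.exp (-(κ * (v + 1 / v)))) * (2 / κ * Real.exp (κ / 2 * (v + 1 / v))) :=
        mul_le_mul h1 h2 (inv_pos.2 hv).le (by positivity)
    _ = C * (2 / κ) * (Real.exp (-(κ * (v + 1 / v))) * Real.exp (κ / 2 * (v + 1 / v))) := by ring
    _ = C * (2 / κ) * Real.exp (-(κ / 2 * (v + 1 / v))) := by
        rw [← Real.exp_add]
        congr 2
        ring

theorem k5_cont_SG (d : Dat D) : ContinuousOn (SG d) (Ioi 0) := by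
  unfold SG
  exact continuousOn_finsetSum _ fun α _ => continuousOn_const.mul (GX_cont _)

theorem k5_cont (h : Cl0 D) (d : Dat D) : ContinuousOn (k5_th d) (Ioi 0) := by
  have h1 : ContinuousOn (fun v : ℝ => v⁻¹) (Ioi (0 : ℝ)) := continuousOn_inv₀.mono fun x hx => ne_of_gt hx
  have h2 : ContinuousOn (fun v : ℝ => SG d v⁻¹) (Ioi (0 : ℝ)) :=
    (k5_cont_SG d).comp h1 fun x hx => mem_Ioi.2 (inv_pos.2 (mem_Ioi.1 hx))
  have h3 : ContinuousOn (fun v : ℝ => -((NAB.A0 : ℂ) / (3 * gX d)) * (((SG d v⁻¹ : ℝ) : ℂ) * ((v⁻¹ : ℝ) : ℂ)))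
      (Ioi (0 : ℝ)) :=
    continuousOn_const.mul ((Complex.continuous_ofReal.comp_continuousOn h2).mul
      (Complex.continuous_ofReal.comp_continuousOn h1))
  exact h3.congr fun v hv => k5_th_eq h d hv

theorem k5_top {F : ℝ → ℂ} {C p : ℝ} (hC : 0 < C) (hp : 0 < p)
    (h : ∀ s : ℝ, 0 < s → ‖F s‖ ≤ C * Real.exp (-(p * (s + 1 / s)))) (a : ℝ) :
    F =O[atTop] (fun t : ℝ => t ^ (-a)) := by
  have h1 : F =O[atTop] (fun t : ℝ => Real.exp (-p * t)) := by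
    refine Asymptotics.IsBigO.of_bound C ?_
    filter_upwards [eventually_ge_atTop 1] with t ht
    rw [Real.norm_of_nonneg (Real.exp_pos _).le]
    have ht0 : 0 < t := by linarith
    refine (h t ht0).trans (mul_le_mul_of_nonneg_left (Real.exp_le_exp.2 ?_) hC.le)
    have h3 : 0 < 1 / t := by positivity
    nlinarith
  exact h1.trans (isLittleO_exp_neg_mul_rpow_atTop hp (-a)).isBigO

theorem k5_bot {F : ℝ → ℂ} {C p : ℝ} (hC : 0 < C) (hp : 0 < p)
    (h : ∀ s : ℝ, 0 < s → ‖F s‖ ≤ C * Real.exp (-(p * (s + 1 / s)))) (b : ℝ) :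
    F =O[𝓝[>] 0] (fun t : ℝ => t ^ (-b)) := by
  have h1 : F =O[𝓝[>] 0] (fun t : ℝ => Real.exp (-p * t⁻¹)) := by
    refine Asymptotics.IsBigO.of_bound C ?_
    filter_upwards [self_mem_nhdsWithin] with t ht
    have ht0 : (0 : ℝ) < t := ht
    rw [Real.norm_of_nonneg (Real.exp_pos _).le]
    refine (h t ht0).trans (mul_le_mul_of_nonneg_left (Real.exp_le_exp.2 ?_) hC.le)
    rw [one_div]
    have h3 : 0 < p * t := mul_pos hp ht0
    nlinarith
  have h3 : (fun t : ℝ => Real.exp (-p * t⁻¹)) =O[𝓝[>] 0] (fun t : ℝ => (t⁻¹) ^ b) :=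
    (isLittleO_exp_neg_mul_rpow_atTop hp b).isBigO.comp_tendsto tendsto_inv_nhdsGT_zero
  refine (h1.trans h3).trans (Asymptotics.IsBigO.of_bound 1 ?_)
  filter_upwards [self_mem_nhdsWithin] with t ht
  have ht' : (0 : ℝ) < t := ht
  rw [one_mul, Real.inv_rpow ht'.le, Real.rpow_neg ht'.le]

theorem k5_mellin_cont (h : Cl0 D) (d : Dat D) : ContinuousAt (mellin (k5_th d)) 1 := by
  obtain ⟨C, p, hC, hp, hb⟩ := k5_bound h d
  have h1 : DifferentiableAt ℂ (mellin (k5_th d)) 1 :=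
    mellin_differentiableAt_of_isBigO_rpow (a := (1 : ℂ).re + 1) (b := (1 : ℂ).re - 1)
      ((k5_cont h d).locallyIntegrableOn measurableSet_Ioi) (k5_top hC hp hb _) (by linarith) (k5_bot hC hp hb _)
      (by linarith)
  exact h1.continuousAt

/-- summability of the Dirichlet series -/
theorem k5_summable_dir {σ : ℝ} (hσ : 1 < σ) (f : Eis → ℝ) (hf : ∀ b, |f b| ≤ 1) :
    Summable fun b : Eis => f b * (b.norm : ℝ) ^ (-σ) := by
  have h1 := summable_norm_shift 0 (2 * σ) (by linarith)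
  refine Summable.of_norm_bounded h1 fun b => ?_
  rw [zero_add, norm_mul, Real.norm_eq_abs]
  have h2 : (0 : ℝ) ≤ (b.norm : ℝ) := by rw [← norm_emb_sq]; positivity
  have h3 : ‖(b.norm : ℝ) ^ (-σ)‖ = ‖emb b‖ ^ (-(2 * σ)) := by
    rw [Real.norm_of_nonneg (Real.rpow_nonneg h2 _), ← norm_emb_sq, ← Real.rpow_natCast,
      ← Real.rpow_mul (norm_nonneg _)]
    congr 1
    push_cast
    ring
  rw [h3]
  exact mul_le_of_le_one_left (Real.rpow_nonneg (norm_nonneg _) _) (hf b)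

theorem k5_norm_mul (a b : Eis) : ((a * b : Eis).norm : ℝ) = (a.norm : ℝ) * (b.norm : ℝ) := by
  rw [← norm_emb_sq, ← norm_emb_sq, ← norm_emb_sq, map_mul, norm_mul, mul_pow]

/-- removing the Euler factor at `la` -/
theorem k5_euler (d : Dat D) {σ : ℝ} (hσ : 1 < σ) :
    ∑' b : Eis, k5_c d b * (b.norm : ℝ) ^ (-σ) = 6 * LJ d σ * (1 - (q2 d la : ℝ) * 3 ^ (-σ)) := by
  have hdom : IsDomain Eis := emb_injective.isDomain emb
  have hs := k5_summable_dir hσ (fun b => (q2 d b : ℝ)) (k5_abs_q2 d)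
  have hc := k5_summable_dir hσ (k5_c d) (k5_abs_c d)
  have e1 : ∀ b : Eis, k5_c d b * (b.norm : ℝ) ^ (-σ) =
      (q2 d b : ℝ) * (b.norm : ℝ) ^ (-σ) - (if la ∣ b then (q2 d b : ℝ) * (b.norm : ℝ) ^ (-σ) else 0) := by
    intro b
    unfold k5_c
    split_ifs <;> ring
  have hi : Summable fun b : Eis => (if la ∣ b then (q2 d b : ℝ) * (b.norm : ℝ) ^ (-σ) else 0) := by
    have h1 := hs.sub hc
    refine h1.congr fun b => ?_
    rw [e1 b]
    ring
  have hinj : Function.Injective fun b : Eis => la * b := fun a b hab => mul_left_cancel₀ k5_la_ne hab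
  have e2 : ∑' b : Eis, (if la ∣ b then (q2 d b : ℝ) * (b.norm : ℝ) ^ (-σ) else 0) =
      ∑' b : Eis, (q2 d (la * b) : ℝ) * ((la * b : Eis).norm : ℝ) ^ (-σ) := by
    have h1 := hinj.tsum_eq (f := fun b : Eis => (if la ∣ b then (q2 d b : ℝ) * (b.norm : ℝ) ^ (-σ) else 0)) (by
      intro b hb
      rw [Function.mem_support] at hb
      by_cases h2 : la ∣ b
      · obtain ⟨c, rfl⟩ := h2
        exact ⟨c, rfl⟩
      · exact absurd (if_neg h2) hb)
    rw [← h1]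
    refine tsum_congr fun b => ?_
    rw [if_pos (dvd_mul_right _ _)]
  have e3 : ∑' b : Eis, (q2 d (la * b) : ℝ) * ((la * b : Eis).norm : ℝ) ^ (-σ) =
      (q2 d la : ℝ) * 3 ^ (-σ) * ∑' b : Eis, (q2 d b : ℝ) * (b.norm : ℝ) ^ (-σ) := by
    rw [← tsum_mul_left]
    refine tsum_congr fun b => ?_
    have h2 : (0 : ℝ) ≤ (b.norm : ℝ) := by rw [← norm_emb_sq]; positivity
    have h3 : ((la : Eis).norm : ℝ) = 3 := by
      have h4 : (la : Eis).norm = 3 := by decide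
      rw [h4]; norm_num
    rw [k5_norm_mul, h3, Real.mul_rpow (by norm_num) h2, q2_mul]
    push_cast
    ring
  rw [tsum_congr e1, hs.tsum_sub hi, e2, e3, LJ]
  ring

theorem k5_mellin (d : Dat D) {σ : ℝ} (hσ : 1 < σ) : mellin (k5_th d) (σ : ℂ) =
    ((Real.Gamma σ * (4 * Real.pi / 3) ^ (-σ) * (6 * LJ d σ * (1 - (q2 d la : ℝ) * 3 ^ (-σ))) : ℝ) : ℂ) := by
  have hpos : ∀ b : Eis, (0 : ℝ) ≤ (b.norm : ℝ) := fun b => by rw [← norm_emb_sq]; positivity
  have hpi : (0 : ℝ) < 4 * Real.pi / 3 := by positivity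
  have hcount : Countable Eis := CUL.e2_equiv.countable_iff.2 inferInstance
  have key := hasSum_mellin (a := fun b : Eis => (k5_c d b : ℂ)) (p := fun b : Eis => 4 * Real.pi / 3 * (b.norm : ℝ))
    (F := k5_th d) (s := (σ : ℂ)) ?_ (by rw [Complex.ofReal_re]; linarith) (fun t ht => ?_) ?_
  · rw [← key.tsum_eq, ← k5_euler d hσ, ← tsum_mul_left, Complex.ofReal_tsum]
    refine tsum_congr fun b => ?_
    have h1 : (((4 * Real.pi / 3 * (b.norm : ℝ) : ℝ) : ℂ)) ^ (σ : ℂ) =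
        (((4 * Real.pi / 3 * (b.norm : ℝ)) ^ σ : ℝ) : ℂ) := by
      rw [Complex.ofReal_cpow (mul_nonneg hpi.le (hpos b))]
    have h2 : (4 * Real.pi / 3 * (b.norm : ℝ)) ^ σ = ((4 * Real.pi / 3) ^ (-σ) * (b.norm : ℝ) ^ (-σ))⁻¹ := by
      rw [Real.mul_rpow hpi.le (hpos b), Real.rpow_neg hpi.le, Real.rpow_neg (hpos b), mul_inv, inv_inv, inv_inv]
    rw [h1, h2, Complex.Gamma_ofReal]
    push_cast
    rw [div_inv_eq_mul]
    ring
  · intro b
    rcases eq_or_ne b 0 with rfl | hb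
    · left
      have h1 : k5_c d 0 = 0 := by
        unfold k5_c
        rw [if_pos (dvd_zero _)]
      rw [h1, Complex.ofReal_zero]
    · right
      have h1 : 0 < ‖emb b‖ := norm_pos_iff.2 (CUL.l2_emb_ne hb)
      have h2 : (0 : ℝ) < (b.norm : ℝ) := by rw [← norm_emb_sq]; positivity
      positivity
  · exact k5_hasSum d ht
  · rw [Complex.ofReal_re]
    have h1 := (k5_summable_dir hσ (fun b => |k5_c d b|) (fun b => by rw [abs_abs]; exact k5_abs_c d b)).mul_left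
      ((4 * Real.pi / 3) ^ (-σ))
    refine h1.congr fun b => ?_
    rw [Complex.norm_real, Real.norm_eq_abs, Real.mul_rpow hpi.le (hpos b), Real.rpow_neg hpi.le,
      Real.rpow_neg (hpos b)]
    field_simp

/-- the integral of the theta series -/
theorem k5_lim (h : Cl0 D) (d : Dat D) {L₁ : ℝ} (hL : Tendsto (LJ d) (𝓝[>] 1) (𝓝 L₁)) :
    mellin (k5_th d) 1 = ((3 / (4 * Real.pi) * (6 * L₁ * (1 - (q2 d la : ℝ) / 3)) : ℝ) : ℂ) := by
  have hc := k5_mellin_cont h d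
  have h1 : Tendsto (fun σ : ℝ => mellin (k5_th d) (σ : ℂ)) (𝓝[>] 1) (𝓝 (mellin (k5_th d) 1)) := by
    have h2 : Tendsto (fun σ : ℝ => (σ : ℂ)) (𝓝[>] 1) (𝓝 1) := by
      have h3 : Tendsto (fun σ : ℝ => (σ : ℂ)) (𝓝 1) (𝓝 ((1 : ℝ) : ℂ)) := Complex.continuous_ofReal.tendsto 1
      rw [Complex.ofReal_one] at h3
      exact h3.mono_left nhdsWithin_le_nhds
    exact hc.tendsto.comp h2
  have hG : Tendsto Real.Gamma (𝓝[>] 1) (𝓝 1) := by
    have h3 : ContinuousAt Real.Gamma 1 :=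
      (Real.differentiableAt_Gamma (s := 1) fun m hm => by
        have : (0 : ℝ) ≤ (m : ℝ) := Nat.cast_nonneg m
        linarith).continuousAt
    have h4 := h3.tendsto
    rw [Real.Gamma_one] at h4
    exact h4.mono_left nhdsWithin_le_nhds
  have hpow : ∀ c : ℝ, 0 < c → Tendsto (fun σ : ℝ => c ^ (-σ)) (𝓝[>] 1) (𝓝 c⁻¹) := by
    intro c hc0
    have h3 : Continuous fun σ : ℝ => c ^ (-σ) := by
      have h4 : Continuous fun σ : ℝ => -σ := continuous_neg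
      exact continuous_const.rpow h4 fun x => Or.inl hc0.ne'
    have h5 := h3.tendsto 1
    simp only [Real.rpow_neg_one] at h5
    exact h5.mono_left nhdsWithin_le_nhds
  have h6 : Tendsto (fun σ : ℝ => Real.Gamma σ * (4 * Real.pi / 3) ^ (-σ) * (6 * LJ d σ * (1 - (q2 d la : ℝ) * 3 ^ (-σ))))
      (𝓝[>] 1) (𝓝 (1 * (4 * Real.pi / 3)⁻¹ * (6 * L₁ * (1 - (q2 d la : ℝ) * 3⁻¹)))) :=
    (hG.mul (hpow _ (by positivity))).mul ((hL.const_mul 6).mul ((((hpow 3 (by norm_num)).const_mul _)).const_sub 1))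
  have h7 : Tendsto (fun σ : ℝ => mellin (k5_th d) (σ : ℂ)) (𝓝[>] 1)
      (𝓝 ((1 * (4 * Real.pi / 3)⁻¹ * (6 * L₁ * (1 - (q2 d la : ℝ) * 3⁻¹)) : ℝ) : ℂ)) := by
    have h8 := (Complex.continuous_ofReal.tendsto _).comp h6
    refine h8.congr' ?_
    filter_upwards [self_mem_nhdsWithin] with σ hσ
    rw [k5_mellin d (mem_Ioi.1 hσ)]
    rfl
  rw [tendsto_nhds_unique h1 h7]
  congr 1
  have hpi := Real.pi_ne_zero
  field_simp

/-- the change of variables `v = 1 / u` -/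
theorem k5_subst (h : Cl0 D) (d : Dat D) :
    ((∫ u in Ioi (0 : ℝ), SG d u / u : ℝ) : ℂ) = -3 * gX d / (NAB.A0 : ℂ) * mellin (k5_th d) 1 := by
  have e1 : ((∫ u in Ioi (0 : ℝ), SG d u / u : ℝ) : ℂ) = ∫ u in Ioi (0 : ℝ), ((SG d u / u : ℝ) : ℂ) :=
    integral_ofReal.symm
  rw [e1, ← integral_comp_rpow_Ioi (fun u : ℝ => ((SG d u / u : ℝ) : ℂ)) (p := -1) (by norm_num), mellin,
    ← integral_const_mul]
  refine setIntegral_congr_fun measurableSet_Ioi fun v hv => ?_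
  have hv0 : (0 : ℝ) < v := hv
  have hv' : (v : ℂ) ≠ 0 := by
    rw [Complex.ofReal_ne_zero]
    exact hv0.ne'
  have h1 := k5_SG_div h d hv0
  simp only [sub_self, Complex.cpow_zero, one_smul]
  rw [← h1, Real.rpow_neg_one, abs_neg, abs_one, one_mul]
  have h2 : v ^ ((-1 : ℝ) - 1) = v⁻¹ * v⁻¹ := by
    rw [← Real.rpow_neg_one, ← Real.rpow_add hv0]
    congr 1
  rw [h2, Complex.real_smul]
  push_cast
  field_simp

theorem theta_lim (h : Cl0 D) (d : Dat D) {L₁ : ℝ} (hL : Tendsto (LJ d) (𝓝[>] 1) (𝓝 L₁)) :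
    ((∑ α ∈ (rp (4 * D)).filter (fun α => IsCoprime α (4 * D)), (q2 d α : ℝ) * LX (emb α / emb (4 * D)) : ℝ) : ℂ) =
      -3 * gX d / (NAB.A0 : ℂ) * ((3 / (4 * Real.pi) * (6 * L₁ * (1 - (q2 d la : ℝ) / 3)) : ℝ) : ℂ) := by
  rw [k5_int_SG h d, k5_subst h d, k5_lim h d hL]

theorem k5_xc_ne (h : Cl0 D) {α : Eis} (hα : IsCoprime α (4 * D)) : xc D α ≠ 0 := by
  obtain ⟨h1, h2, h3⟩ := k5_DX h hα
  intro h0
  rcases (CUL.xw_eq_zero_iff h1).1 h0 with h4 | h4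
  · exact h3 h4
  · exact h2 h4

theorem k5_xc_congr (h : Cl0 D) {x y : Eis} (hxy : 4 * D ∣ x - y) : xc D x = xc D y := by
  obtain ⟨a, ha⟩ := hxy
  have hf := k5_emb_ne h
  have e1 : x = y + 4 * D * a := by linear_combination ha
  have e2 : emb x / emb (4 * D) = emb y / emb (4 * D) + emb a := by
    rw [e1, map_add, map_mul (f := emb) (4 * D) a, add_div]
    congr 1
    field_simp
  rw [xc, e2, xw_add]
  rfl

theorem k5_xc_unit {ζ : Eis} (hζ : IsUnit ζ) (x : Eis) : ‖xc D (ζ * x)‖ = ‖xc D x‖ := by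
  have h1 : ‖emb ζ‖ = 1 := by
    obtain ⟨η, hη⟩ := hζ.exists_right_inv
    have h2 := k5_norm_mul ζ η
    rw [hη] at h2
    have h3 : ((1 : Eis).norm : ℝ) = 1 := by
      have h4 : (1 : Eis).norm = 1 := by decide
      rw [h4]; norm_num
    rw [h3] at h2
    have h5 : (ζ.norm : ℤ) * η.norm = 1 := by exact_mod_cast h2.symm
    have h6 := norm_nonneg' ζ
    have h7 : ζ.norm = 1 := by
      rcases Int.mul_eq_one_iff_eq_one_or_neg_one.1 h5 with h8 | h8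
      · exact h8.1
      · omega
    have h9 := norm_emb_sq ζ
    rw [h7] at h9
    have h10 := norm_nonneg (emb ζ)
    have h11 : ‖emb ζ‖ ^ 2 = 1 := by rw [h9]; norm_num
    nlinarith
  unfold xc
  rw [map_mul, mul_div_assoc, Q3L.xw_unit hζ, norm_mul, norm_pow, Complex.norm_conj, h1, one_pow, one_mul]

theorem log_ee (h : Cl0 D) (d : Dat D) {R : Finset Eis} (hR : IsR d R) {L₁ : ℝ}
    (hL : Tendsto (LJ d) (𝓝[>] 1) (𝓝 L₁)) :
    |Real.log ‖ee d R‖| = 3 * √3 / Real.pi * (1 - (q2 d la : ℝ) / 3) * √(D.norm : ℝ) * |L₁| := by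
  obtain ⟨C, hC⟩ := LX_const
  -- the sum over `R`
  have e1 : Real.log ‖ee d R‖ = ∑ c ∈ R, (q2 d c : ℝ) * Real.log ‖xc D c‖ := by
    unfold ee
    rw [norm_prod, Real.log_prod (fun c hc => by
      rw [norm_ne_zero_iff]
      exact zpow_ne_zero _ (k5_xc_ne h (hR.1 c hc)))]
    refine Finset.sum_congr rfl fun c _ => ?_
    rw [norm_zpow, Real.log_zpow]
  -- the sum over the coprime classes
  have e2 := sum_R h d hR (fun α => (((q2 d α : ℝ) * Real.log ‖xc D α‖ : ℝ) : ℂ)) (fun x y hxy => by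
    simp only [q2_congr d hxy, k5_xc_congr h hxy]) (fun ζ x hζ => by
    simp only [q2_mul, q2_unit d hζ, one_mul, k5_xc_unit hζ])
  have e3 : ∑ α ∈ (rp (4 * D)).filter (fun α => IsCoprime α (4 * D)), (q2 d α : ℝ) * Real.log ‖xc D α‖ =
      6 * ∑ c ∈ R, (q2 d c : ℝ) * Real.log ‖xc D c‖ := by
    exact_mod_cast e2
  have e4 : ∑ α ∈ (rp (4 * D)).filter (fun α => IsCoprime α (4 * D)), (q2 d α : ℝ) = 0 := by
    have h1 := k5_filter d (fun _ => (1 : ℝ))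
    simp only [mul_one] at h1
    rw [← h1]
    exact_mod_cast sum_q2 h d
  have e5 : ∑ α ∈ (rp (4 * D)).filter (fun α => IsCoprime α (4 * D)), (q2 d α : ℝ) * Real.log ‖xc D α‖ =
      -(1 / 2) * ∑ α ∈ (rp (4 * D)).filter (fun α => IsCoprime α (4 * D)),
        (q2 d α : ℝ) * LX (emb α / emb (4 * D)) := by
    have h1 : ∀ α ∈ (rp (4 * D)).filter (fun α => IsCoprime α (4 * D)), (q2 d α : ℝ) * Real.log ‖xc D α‖ =
        C / 2 * (q2 d α : ℝ) + -(1 / 2) * ((q2 d α : ℝ) * LX (emb α / emb (4 * D))) := by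
      intro α hα
      have h2 := hC _ (k5_DX h (Finset.mem_filter.1 hα).2)
      have h3 : Real.log ‖xc D α‖ = (C - LX (emb α / emb (4 * D))) / 2 := by
        unfold xc
        linarith
      rw [h3]
      ring
    rw [Finset.sum_congr rfl h1, Finset.sum_add_distrib, ← Finset.mul_sum, ← Finset.mul_sum, e4, mul_zero, zero_add]
  have e6 : Real.log ‖ee d R‖ = -(1 / 12) * ∑ α ∈ (rp (4 * D)).filter (fun α => IsCoprime α (4 * D)),
        (q2 d α : ℝ) * LX (emb α / emb (4 * D)) := by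
    rw [e1]
    linarith
  -- absolute values
  have h1 := congrArg norm (theta_lim h d hL)
  have hg : ‖gX d‖ = 4 * √(D.norm : ℝ) := by
    have h2 := gauss_norm h d
    have h3 : ((4 * D : Eis).norm : ℝ) = 16 * (D.norm : ℝ) := by
      have h4 : (4 : Eis).norm = 16 := by decide
      rw [k5_norm_mul, h4]
      norm_num
    have h5 : (0 : ℝ) ≤ (D.norm : ℝ) := by rw [← norm_emb_sq]; positivity
    have h6 : √(D.norm : ℝ) ^ 2 = (D.norm : ℝ) := Real.sq_sqrt h5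
    have h7 : ‖gX d‖ ^ 2 = (4 * √(D.norm : ℝ)) ^ 2 := by rw [h2, h3, mul_pow, h6]; norm_num
    exact (pow_left_inj₀ (norm_nonneg _) (by positivity) two_ne_zero).1 h7
  have hε : (0 : ℝ) ≤ 1 - (q2 d la : ℝ) / 3 := by
    have := (abs_le.1 (k5_abs_q2 d la)).2
    linarith
  have hA : ‖(NAB.A0 : ℂ)‖ = √3 / 2 := by
    rw [Complex.norm_real, Real.norm_of_nonneg NAB.A0_pos'.le, NAB.A0]
  rw [norm_mul, norm_div, norm_mul, hg, hA, Complex.norm_real, Complex.norm_real, Real.norm_eq_abs, Real.norm_eq_abs,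
    abs_mul, abs_mul, abs_mul, abs_of_nonneg hε] at h1
  have h8 : ‖(-3 : ℂ)‖ = 3 := by norm_num
  have h9 : |3 / (4 * Real.pi)| = 3 / (4 * Real.pi) := abs_of_pos (by positivity)
  have h10 : |(6 : ℝ)| = 6 := abs_of_pos (by norm_num)
  rw [h8, h9, h10] at h1
  rw [e6, abs_mul, h1]
  have h11 : |(-(1 / 12) : ℝ)| = 1 / 12 := by rw [abs_neg]; exact abs_of_pos (by norm_num)
  rw [h11]
  have hpi := Real.pi_ne_zero
  have h12 : √3 * √3 = 3 := Real.mul_self_sqrt (by norm_num)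
  have h13 : √3 ≠ 0 := by positivity
  have h14 : (1 : ℝ) / √3 = √3 / 3 := by
    rw [div_eq_div_iff h13 (by norm_num)]
    linarith
  have h15 : (1 : ℝ) / 12 * (3 * (4 * √(D.norm : ℝ)) / (√3 / 2) *
      (3 / (4 * Real.pi) * (6 * |L₁| * (1 - (q2 d la : ℝ) / 3)))) =
      9 / Real.pi * (1 / √3) * (1 - (q2 d la : ℝ) / 3) * √(D.norm : ℝ) * |L₁| := by
    field_simp
    ring
  rw [h15, h14]
  ring

end JL
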