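import Pool.Agent.JL.Defs

/-!
# [JL-A1] the good model: `x_z ≡ r mod λ`, `4 r³ = -1`

`A` is a valuation ring of `ℂ` with `v(3) < 1` (multiplicative valuation), `L = emb la`, `v(L)² = v(3)`.
Known (CUL/U7): for `OT z`: `w_x : v(xw z) = 1`, `w_x3 : v(xw z ^ 3 + 1) = v(3)`, `w_xk k : v(xw z + zw k) ^ 3 = v(3)`; `OT.la_mul`, `OT.exists_pow : ∃ n > 0, emb la ^ n * z - z ∈ range emb`; `xw_la : xw (la z) = (xw z ^ 3 + 1) / (la ^ 2 * xw z ^ 2)` (CUL/U4).
PROOF. `r_val`: `v(4) = v(-1) = 1`, so `v(r)³ = 1`, `v(r) = 1`. `r_one`: `(r + 1)(r² - r + 1) = r³ + 1 = 3/4`, and `r² - r + 1 = (r + 1)² - 3 r`: if `v(r + 1) = 1` then `v(r² - r + 1) = 1` (as `v(3r) < 1`), contradiction with `v(3/4) < 1`. So `v(r + 1) < 1`. (`v(r+1) ≤ 1` clear.)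
`x_close`: put `ρ n = xw (la^n z) - r`, all `n`; `ρ` is periodic (`OT.exists_pow`), let `m = max v(ρ n)`, attained at `n₀`, `z' = la^n₀ z`, `x = xw z'`, `x' = xw (la z')`. Suppose `m > v(L)`. Identity: with `r³ = -1/4`, `3 = -w² L²` (`CUL.la_sq : emb la ^ 2 = -3 w`):
`(x - r)(x - w r)(x - w² r) = x³ - r³ = (x³ + 1) - 3/4 = L² x² x' - 3/4 = L² (x² x' - w² r³)`  (`3/4 = -3 r³ = w² L² r³`).
Left: `x - w r = (x - r) + (1 - w) r`, `v((1 - w) r) = v(L) < m = v(x - r)`, so all three factors have valuation `m` (`1 - w² = (1 - w)(1 + w)`): left side `m³`. Right: `x² x' - w² r³ = (x² x' - r³) + (1 - w²) r³`; `x² x' - r³ = x²(x' - r) + r (x - r)(x + r)`, valuation `≤ m`; `v((1 - w²) r³) = v(L) < m`: right side `≤ v(L)² m`. So `m³ ≤ v(L)² m`, `m ≤ v(L)`: contradiction.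
(The ordered group `A.ValueGroup` with zero: `m ≠ 0`, `pow_le_pow_left`.)
-/

set_option autoImplicit false

open scoped Classical ComplexConjugate

namespace JL

open CM27 JZ
open CU (la eE)
open CUL (Nl ez si ta DS Cont LV IsRep rp cr mn zw OT GalU)
open Q3L (fQ Dec)

section

open CU CUL

variable (A : ValuationSubring ℂ) (hA : A.valuation 3 < 1)
include hA

theorem a1_four : A.valuation 4 = 1 := by
  have := w_int_unit A hA 4 (by decide)
  simpa using this

theorem a1_two : A.valuation 2 = 1 := by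
  have := w_int_unit A hA 2 (by decide)
  simpa using this

theorem a1_r {r : ℂ} (hr : 4 * r ^ 3 = -1) : A.valuation r = 1 := by
  have h1 : A.valuation r ^ 3 = 1 := by
    have h2 : A.valuation (4 * r ^ 3) = 1 := by rw [hr, Valuation.map_neg, map_one]
    rwa [map_mul, a1_four A hA, one_mul, map_pow] at h2
  exact (pow_eq_one_iff.1 h1).resolve_right (by norm_num)

/-- `r ≡ -1` -/
theorem a1_r_one {r : ℂ} (hr : 4 * r ^ 3 = -1) : A.valuation (r + 1) < 1 := by
  have hl := w_la_lt A hA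
  have h1 : (r + 1) * ((r + w) * (r + w ^ 2)) = 3 / 4 := by
    have h3 := w3
    have h2 := w2
    linear_combination (1 / 4) * hr + (r ^ 2 + r) * h2 + (r + 1) * h3
  have e1 : r + w = (r + 1) - emb la := by rw [emb_la]; ring
  have e2 : r + w ^ 2 = (r + 1) - emb la * (1 + w) := by rw [emb_la]; ring
  by_contra hc
  push Not at hc
  have v2 : A.valuation (emb la * (1 + w)) < 1 := by
    have : (1 : ℂ) + w = emb (1 + om) := by rw [map_add, map_one, CUL.emb_om]
    rw [this, map_mul]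
    exact lt_of_le_of_lt (mul_le_mul' le_rfl (w_emb_le A _)) (by rwa [mul_one])
  have f1 : A.valuation (r + w) = A.valuation (r + 1) := by
    rw [e1]
    exact Valuation.map_sub_eq_of_lt_left _ (lt_of_lt_of_le hl hc)
  have f2 : A.valuation (r + w ^ 2) = A.valuation (r + 1) := by
    rw [e2]
    exact Valuation.map_sub_eq_of_lt_left _ (lt_of_lt_of_le v2 hc)
  have h5 : A.valuation ((r + 1) * ((r + w) * (r + w ^ 2))) < 1 := by
    rw [h1, map_div₀, a1_four A hA, div_one]
    exact hA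
  rw [map_mul, map_mul, f1, f2] at h5
  exact absurd h5 (not_lt.2 (one_le_mul hc (one_le_mul hc hc)))

theorem a1_step {r : ℂ} (hr : 4 * r ^ 3 = -1) {z : ℂ} (h : OT z)
    (hc : A.valuation (emb la) < A.valuation (xw z - r)) :
    A.valuation (xw z - r) ^ 3 ≤ A.valuation (emb la) ^ 2 *
      max (A.valuation (xw z - r)) (A.valuation (xw (emb la * z) - r)) := by
  have vr := a1_r A hA hr
  have vx := w_x A hA h
  have vx' := w_x A hA (u7_la_mul h)
  have hx0 := u7_ne h
  have h1 : xw (emb la * z) * (emb la ^ 2 * xw z ^ 2) = xw z ^ 3 + 1 := by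
    rw [xw_la]
    exact div_mul_cancel₀ _ (mul_ne_zero (pow_ne_zero 2 la_ne) (pow_ne_zero 2 hx0))
  have hl2 := la_sq
  obtain ⟨x, hx⟩ : ∃ x, x = xw z := ⟨_, rfl⟩
  obtain ⟨x', hx'⟩ : ∃ x', x' = xw (emb la * z) := ⟨_, rfl⟩
  rw [← hx, ← hx'] at h1
  rw [← hx] at hc vx ⊢
  rw [← hx'] at vx' ⊢
  have h3 := w3
  have h2 := w2
  have e : (x - r) * ((x - w * r) * (x - w ^ 2 * r)) = emb la ^ 2 * ((x ^ 2 - r ^ 2) * x' +
      r ^ 2 * (x' - r) + (1 - w ^ 2) * r ^ 3) := by
    have e1 : (x - r) * ((x - w * r) * (x - w ^ 2 * r)) = x ^ 3 - r ^ 3 := by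
      linear_combination (-(x ^ 2 * r) + x * r ^ 2) * h2 + (x * r ^ 2 - r ^ 3) * h3
    rw [e1]
    linear_combination -h1 + w ^ 2 * r ^ 3 * hl2 - 3 * r ^ 3 * h3 - hr
  have e1 : x - w * r = (x - r) + emb la * r := by rw [emb_la]; ring
  have e2 : x - w ^ 2 * r = (x - r) + emb la * (1 + w) * r := by rw [emb_la]; ring
  have vw : A.valuation (1 + w) ≤ 1 := by
    have : (1 : ℂ) + w = emb (1 + om) := by rw [map_add, map_one, CUL.emb_om]
    rw [this]
    exact w_emb_le A _
  have f1 : A.valuation (x - w * r) = A.valuation (x - r) := by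
    rw [e1]
    apply Valuation.map_add_eq_of_lt_left
    rwa [map_mul, vr, mul_one]
  have f2 : A.valuation (x - w ^ 2 * r) = A.valuation (x - r) := by
    rw [e2]
    apply Valuation.map_add_eq_of_lt_left
    rw [map_mul, map_mul, vr, mul_one]
    exact lt_of_le_of_lt (mul_le_mul' le_rfl vw) (by rwa [mul_one])
  have e3 : A.valuation (x - r) ^ 3 = A.valuation ((x - r) * ((x - w * r) * (x - w ^ 2 * r))) := by
    rw [map_mul, map_mul, f1, f2, ← mul_assoc, ← pow_two, ← pow_succ]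
  rw [e3, e, map_mul, map_pow]
  refine mul_le_mul' le_rfl ?_
  refine (A.valuation.map_add _ _).trans (max_le ((A.valuation.map_add _ _).trans (max_le ?_ ?_)) ?_)
  · refine le_trans ?_ (le_max_left _ _)
    have e4 : (x ^ 2 - r ^ 2) * x' = (x - r) * ((x + r) * x') := by ring
    rw [e4, map_mul]
    calc A.valuation (x - r) * A.valuation ((x + r) * x') ≤ A.valuation (x - r) * 1 := by
          refine mul_le_mul' le_rfl ?_
          rw [map_mul, vx', mul_one]
          exact (A.valuation.map_add _ _).trans (max_le vx.le vr.le)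
      _ = _ := mul_one _
  · refine le_trans ?_ (le_max_right _ _)
    rw [map_mul, map_pow, vr, one_pow, one_mul]
  · refine le_trans ?_ (le_max_left _ _)
    have e4 : (1 - w ^ 2) * r ^ 3 = emb la * (1 + w) * r ^ 3 := by rw [emb_la]; ring
    rw [e4, map_mul, map_mul, map_pow, vr, one_pow, mul_one]
    calc A.valuation (emb la) * A.valuation (1 + w) ≤ A.valuation (emb la) * 1 := mul_le_mul' le_rfl vw
      _ ≤ _ := by rw [mul_one]; exact hc.le

theorem a1_x_sub_r {r : ℂ} (hr : 4 * r ^ 3 = -1) {z : ℂ} (h : OT z) :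
    A.valuation (xw z - r) ≤ A.valuation (emb la) := by
  by_contra hc
  push Not at hc
  have hl := w_la_lt A hA
  have hl0 : 0 < A.valuation (emb la) := by
    rw [Valuation.pos_iff]
    exact la_ne
  obtain ⟨N, hN, a, ha⟩ := h.exists_pow
  -- a maximum over one period
  obtain ⟨m, hm, hmax⟩ := Finset.exists_max_image (Finset.range N)
    (fun n => A.valuation (xw (emb la ^ n * z) - r)) ⟨0, Finset.mem_range.2 hN⟩
  have h0 := hmax 0 (Finset.mem_range.2 hN)
  rw [pow_zero, one_mul] at h0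
  have hOT : OT (emb la ^ m * z) := h.la_mul m
  have hbig : A.valuation (emb la) < A.valuation (xw (emb la ^ m * z) - r) := lt_of_lt_of_le hc h0
  have hnext : A.valuation (xw (emb la * (emb la ^ m * z)) - r) ≤
      A.valuation (xw (emb la ^ m * z) - r) := by
    have e : emb la * (emb la ^ m * z) = emb la ^ (m + 1) * z := by ring
    rw [e]
    by_cases hmN : m + 1 < N
    · exact hmax (m + 1) (Finset.mem_range.2 hmN)
    · have hmN' : m + 1 = N := by
        have := Finset.mem_range.1 hm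
        omega
      have e2 : emb la ^ (m + 1) * z = z + emb a := by
        rw [hmN', ha]
        ring
      rw [e2, xw_add]
      exact h0
  have h3 := a1_step A hA hr hOT hbig
  rw [max_eq_left hnext] at h3
  obtain ⟨b, hb⟩ : ∃ b, b = A.valuation (xw (emb la ^ m * z) - r) := ⟨_, rfl⟩
  rw [← hb] at h3 hbig
  have hb0 : 0 < b := lt_trans hl0 hbig
  have h4 : A.valuation (emb la) ^ 2 * b < b ^ 2 * b :=
    mul_lt_mul_of_pos_right (pow_lt_pow_left₀ hbig zero_le (by norm_num)) hb0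
  rw [← pow_succ] at h4
  exact absurd h3 (not_le.2 h4)

end

theorem exists_r : ∃ r : ℂ, 4 * r ^ 3 = -1 := by
  obtain ⟨z, hz⟩ := IsAlgClosed.exists_pow_nat_eq (-1 / 4 : ℂ) (n := 3) (by norm_num)
  exact ⟨z, by rw [hz]; norm_num⟩

theorem r_val (A : ValuationSubring ℂ) (hA : A.valuation 3 < 1) {r : ℂ} (hr : 4 * r ^ 3 = -1) :
    A.valuation r = 1 := by
  exact a1_r A hA hr

theorem r_one (A : ValuationSubring ℂ) (hA : A.valuation 3 < 1) {r : ℂ} (hr : 4 * r ^ 3 = -1) :
    A.valuation (r + 1) < 1 := by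
  exact a1_r_one A hA hr

theorem x_close (A : ValuationSubring ℂ) (hA : A.valuation 3 < 1) {r : ℂ} (hr : 4 * r ^ 3 = -1) {z : ℂ}
    (hz : OT z) : A.valuation (xw z - r) ≤ A.valuation (emb la) := by
  exact a1_x_sub_r A hA hr hz

end JL
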