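import Pool.Agent.JL.Field
import Pool.Agent.CUL.G5

/-!
# [JL-F0] elements and integers of `ℚ(ω, √D)`

`s = sD D`, `s² = emb D`, `K = CF.KK = ℚ(ω)`, `CUL.mem_KK : z ∈ KK ↔ ∃ x y : ℚ, z = x + y w`.
`sD_not_mem`: `D` is not a square in `K`: if `s ∈ K`, then `s` is integral over `ℤ`, so `s = emb m` (integers of `ℚ(ω)` are `ℤ[ω]`: `CU.eE` / `CF.exists_KK`), `D = m²`, contradiction to `CondTwo`.
`mem_KD`: `{u₁ + u₂ s}` is a subfield containing `w, s` (inverse: `(u₁ - u₂ s)/(u₁² - u₂² D)`), `KD = adjoin ℚ {w, s}` is contained in it, and conversely.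
`rep_unique`: `u₁ + u₂ s = v₁ + v₂ s`, all in `K`: equal coefficients.
`KD_int` (`Cl D`): `z = u₁ + u₂ s` integral over `ℤ`. The conjugate `u₁ - u₂ s` is integral too (there is an automorphism of `ℂ` (or of `KD D` over `K`) with `s ↦ -s`, `w ↦ w`; or: integral over `ℤ[ω]`, minimal polynomial over the integrally closed `ℤ[ω]`), so `U = 2 u₁ ∈ K` and `u₁² - u₂² D` are integral, in `emb ℤ[ω]`; `(2 u₂)² D = U² - 4 (u₁² - u₂² D)` is in `emb ℤ[ω]`; `V = 2 u₂ ∈ K`, `V² D ∈ ℤ[ω]` with `D` squarefree: `V ∈ ℤ[ω]` (write `V = a/b` coprime; a prime `q ∣ b` gives `q² ∣ D`).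
`U² - D V² = 4 n`, `n ∈ ℤ[ω]`. If `2 ∤ V`: `V` is invertible modulo `2`, hence modulo `4`: `D ≡ (U V⁻¹)² mod 4`, contradiction to `CondTwo`. So `2 ∣ V`, then `4 ∣ U²`, `2 ∣ U` (2 is prime). So `u₁, u₂ ∈ ℤ[ω]`.
`exists_tau`: the automorphism `τ` of `KD D` with `τ (u₁ + u₂ s) = u₁ - u₂ s`.
-/

set_option autoImplicit false

open NumberField IsDedekindDomain
open scoped Classical ComplexConjugate

namespace JL

open CM27 JZ

variable {D : Eis}

theorem KK_int {z : ℂ} (hz : z ∈ CF.KK) (hi : IsIntegral ℤ z) : ∃ a : Eis, z = emb a := by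
  have h1 : IsIntegral ℤ (⟨z, hz⟩ : CF.KK) :=
    (isIntegral_algHom_iff (CF.KK.val.restrictScalars ℤ) Subtype.val_injective).mp hi
  refine ⟨CU.eE.symm ⟨⟨z, hz⟩, h1⟩, ?_⟩
  rw [← CU.eE_coe, RingEquiv.apply_symm_apply]
  rfl

theorem F0_emb_mem (a : Eis) : emb a ∈ CF.KK := by
  rw [← CU.eE_coe]
  exact ((CU.eE a : 𝓞 CF.KK) : CF.KK).2

theorem sD_not_mem (h : Cl0 D) : sD D ∉ CF.KK := by
  intro hm
  obtain ⟨a, ha⟩ := KK_int hm (isIntegral_sD D)
  have h1 : D = a ^ 2 := by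
    apply emb_injective
    rw [map_pow, ← ha, sD_sq]
  exact h.2.2 a (by rw [h1, sub_self]; exact dvd_zero _)

theorem mem_KD (z : ℂ) : z ∈ KD D ↔ ∃ u₁ u₂ : ℂ, u₁ ∈ CF.KK ∧ u₂ ∈ CF.KK ∧ z = u₁ + u₂ * sD D := by
  constructor
  · intro hz
    have halg : ∀ x ∈ ({w, sD D} : Set ℂ), IsAlgebraic ℚ x := by
      intro x hx
      rcases hx with rfl | hx
      · exact (isIntegral_w.tower_top (A := ℚ)).isAlgebraic
      · rw [Set.mem_singleton_iff] at hx
        rw [hx]; exact ((isIntegral_sD D).tower_top (A := ℚ)).isAlgebraic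
    have h1 : z ∈ (IntermediateField.adjoin ℚ {w, sD D}).toSubalgebra := hz
    rw [IntermediateField.adjoin_toSubalgebra_of_isAlgebraic halg] at h1
    refine Algebra.adjoin_induction (p := fun z _ => ∃ u₁ u₂ : ℂ, u₁ ∈ CF.KK ∧ u₂ ∈ CF.KK ∧
      z = u₁ + u₂ * sD D) ?_ ?_ ?_ ?_ h1
    · intro x hx
      rcases hx with rfl | hx
      · exact ⟨w, 0, CF.d2_w_mem, zero_mem _, by ring⟩
      · rw [Set.mem_singleton_iff] at hx
        exact ⟨0, 1, zero_mem _, one_mem _, by rw [hx]; ring⟩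
    · intro r
      exact ⟨algebraMap ℚ ℂ r, 0, CF.KK.algebraMap_mem r, zero_mem _, by ring⟩
    · rintro a b - - ⟨x, y, hx, hy, rfl⟩ ⟨x', y', hx', hy', rfl⟩
      exact ⟨x + x', y + y', add_mem hx hx', add_mem hy hy', by ring⟩
    · rintro a b - - ⟨x, y, hx, hy, rfl⟩ ⟨x', y', hx', hy', rfl⟩
      refine ⟨x * x' + y * y' * emb D, x * y' + y * x', ?_, ?_, ?_⟩
      · exact add_mem (mul_mem hx hx') (mul_mem (mul_mem hy hy') (F0_emb_mem D))
      · exact add_mem (mul_mem hx hy') (mul_mem hy hx')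
      · linear_combination (y * y') * sD_sq D
  · rintro ⟨u₁, u₂, h1, h2, rfl⟩
    have hle : CF.KK ≤ KD D := by
      unfold CF.KK KD
      exact IntermediateField.adjoin.mono ℚ _ _ (Set.singleton_subset_iff.mpr (Set.mem_insert _ _))
    have hs : sD D ∈ KD D :=
      IntermediateField.subset_adjoin ℚ _ (Set.mem_insert_of_mem _ (Set.mem_singleton _))
    exact add_mem (hle h1) (mul_mem (hle h2) hs)

theorem rep_unique (h : Cl0 D) {u₁ u₂ v₁ v₂ : ℂ} (h1 : u₁ ∈ CF.KK) (h2 : u₂ ∈ CF.KK) (h3 : v₁ ∈ CF.KK)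
    (h4 : v₂ ∈ CF.KK) (he : u₁ + u₂ * sD D = v₁ + v₂ * sD D) : u₁ = v₁ ∧ u₂ = v₂ := by
  have h22 : u₂ = v₂ := by
    by_contra hne
    apply sD_not_mem h
    have h5 : sD D = (v₁ - u₁) / (u₂ - v₂) := by
      rw [eq_div_iff (sub_ne_zero.mpr hne)]
      linear_combination he
    rw [h5]
    exact div_mem (sub_mem h3 h1) (sub_mem h2 h4)
  refine ⟨?_, h22⟩
  rw [h22] at he
  exact add_right_cancel he

theorem exists_tau (h : Cl0 D) : ∃ τ : KD D ≃+* KD D, ∀ (u₁ u₂ : ℂ), u₁ ∈ CF.KK → u₂ ∈ CF.KK →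
    ∀ x : KD D, (x : ℂ) = u₁ + u₂ * sD D → ((τ x : KD D) : ℂ) = u₁ - u₂ * sD D := by
  have hx : ∀ x : KD D, ∃ u₁ u₂ : ℂ, u₁ ∈ CF.KK ∧ u₂ ∈ CF.KK ∧ (x : ℂ) = u₁ + u₂ * sD D :=
    fun x => (mem_KD (x : ℂ)).mp x.2
  choose p q hp hq hpq using hx
  have hmem : ∀ x : KD D, p x - q x * sD D ∈ KD D := fun x =>
    (mem_KD _).mpr ⟨p x, - q x, hp x, neg_mem (hq x), by ring⟩
  let f : KD D → KD D := fun x => ⟨p x - q x * sD D, hmem x⟩
  have key : ∀ (u₁ u₂ : ℂ), u₁ ∈ CF.KK → u₂ ∈ CF.KK →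
      ∀ x : KD D, (x : ℂ) = u₁ + u₂ * sD D → ((f x : KD D) : ℂ) = u₁ - u₂ * sD D := by
    intro u₁ u₂ h1 h2 x hx
    obtain ⟨h3, h4⟩ := rep_unique h (hp x) (hq x) h1 h2 (by rw [← hpq, hx])
    change p x - q x * sD D = _
    rw [h3, h4]
  have hff : ∀ x, f (f x) = x := by
    intro x
    apply Subtype.ext
    rw [key (p x) (- q x) (hp x) (neg_mem (hq x)) (f x) (by
      change p x - q x * sD D = _
      ring), hpq x]
    ring
  refine ⟨RingEquiv.mk ⟨f, f, hff, hff⟩ ?_ ?_, key⟩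
  · intro x y
    apply Subtype.ext
    rw [key (p x * p y + q x * q y * emb D) (p x * q y + q x * p y)
      (add_mem (mul_mem (hp x) (hp y)) (mul_mem (mul_mem (hq x) (hq y)) (F0_emb_mem D)))
      (add_mem (mul_mem (hp x) (hq y)) (mul_mem (hq x) (hp y))) (x * y) (by
        push_cast
        rw [hpq x, hpq y]
        linear_combination (q x * q y) * sD_sq D)]
    change _ = (p x - q x * sD D) * (p y - q y * sD D)
    linear_combination (- (q x * q y)) * sD_sq D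
  · intro x y
    apply Subtype.ext
    rw [key (p x + p y) (q x + q y) (add_mem (hp x) (hp y)) (add_mem (hq x) (hq y)) (x + y) (by
        push_cast
        rw [hpq x, hpq y]
        ring)]
    change _ = (p x - q x * sD D) + (p y - q y * sD D)
    ring

/-- integrality of the second coordinate -/
theorem F0_V (h : Cl0 D) {V : ℂ} (hV : V ∈ CF.KK) (c : Eis) (hc : V ^ 2 * emb D = emb c) :
    ∃ b : Eis, V = emb b := by
  have hdom : IsDomain Eis := eis_isDomain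
  have hpid : IsPrincipalIdealRing Eis := eis_pid
  have hD0 : D ≠ 0 := h.1.ne_zero
  have h1 : (V * emb D) ^ 2 = emb (c * D) := by
    rw [map_mul, ← hc]; ring
  have h2 : IsIntegral ℤ (V * emb D) := by
    refine IsIntegral.of_pow (n := 2) two_pos ?_
    rw [h1]; exact isIntegral_emb _
  obtain ⟨e, he⟩ := KK_int (mul_mem hV (F0_emb_mem D)) h2
  have h3 : e ^ 2 = c * D := by
    apply emb_injective
    rw [map_pow, ← he, h1]
  have h4 : D ∣ e := (h.1.dvd_pow_iff_dvd two_ne_zero).mp ⟨c, by rw [h3, mul_comm]⟩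
  obtain ⟨b, rfl⟩ := h4
  refine ⟨b, ?_⟩
  have h5 : emb D ≠ 0 := by
    rw [Ne, ← map_zero emb, emb_injective.eq_iff]; exact hD0
  apply mul_right_cancel₀ h5
  rw [he, map_mul, mul_comm]

theorem KD_int (h : Cl0 D) {z : ℂ} (hz : z ∈ KD D) : IsIntegral ℤ z ↔ ∃ a b : Eis, z = emb a + emb b * sD D := by
  constructor
  swap
  · rintro ⟨a, b, rfl⟩
    exact (isIntegral_emb a).add ((isIntegral_emb b).mul (isIntegral_sD D))
  intro hi
  have hdom : IsDomain Eis := eis_isDomain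
  have hpid : IsPrincipalIdealRing Eis := eis_pid
  obtain ⟨u₁, u₂, h1, h2, hzu⟩ := (mem_KD z).mp hz
  obtain ⟨τ, hτ⟩ := exists_tau h
  have hi1 : IsIntegral ℤ (⟨z, hz⟩ : KD D) :=
    (isIntegral_algHom_iff ((KD D).val.restrictScalars ℤ) Subtype.val_injective).mp hi
  have hi2 : IsIntegral ℤ (τ ⟨z, hz⟩) := hi1.map (τ : KD D →+* KD D).toIntAlgHom
  have hi3 : IsIntegral ℤ (u₁ - u₂ * sD D) := by
    rw [← hτ u₁ u₂ h1 h2 ⟨z, hz⟩ hzu]
    exact (isIntegral_algHom_iff ((KD D).val.restrictScalars ℤ) Subtype.val_injective).mpr hi2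
  have hU : IsIntegral ℤ (2 * u₁) := by
    have : 2 * u₁ = z + (u₁ - u₂ * sD D) := by rw [hzu]; ring
    rw [this]; exact hi.add hi3
  have hN : IsIntegral ℤ (u₁ ^ 2 - u₂ ^ 2 * emb D) := by
    have : u₁ ^ 2 - u₂ ^ 2 * emb D = z * (u₁ - u₂ * sD D) := by
      rw [hzu, ← sD_sq]; ring
    rw [this]; exact hi.mul hi3
  have h2m : (2 : ℂ) ∈ CF.KK := by
    have := F0_emb_mem 2
    rwa [map_ofNat] at this
  obtain ⟨U, hU'⟩ := KK_int (mul_mem h2m h1) hU
  obtain ⟨m, hm⟩ := KK_int (sub_mem (pow_mem h1 2) (mul_mem (pow_mem h2 2) (F0_emb_mem D))) hN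
  obtain ⟨V, hV⟩ := F0_V h (mul_mem h2m h2) (U ^ 2 - 4 * m) (by
    rw [map_sub, map_mul, map_pow, map_ofNat, ← hm, ← hU']
    ring)
  have hUV : U ^ 2 - D * V ^ 2 = 4 * m := by
    apply emb_injective
    rw [map_sub, map_mul, map_mul, map_pow, map_pow, map_ofNat, ← hm, ← hU', ← hV]
    ring
  have hp2 := Q3.prime_two
  have hV2 : (2 : Eis) ∣ V := by
    by_contra hnd
    have hco : IsCoprime V 2 := (Irreducible.coprime_iff_not_dvd hp2.irreducible).mpr hnd |>.symm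
    have hco2 : IsCoprime V (2 ^ 2) := hco.pow_right
    obtain ⟨x, y, hxy⟩ := hco2
    refine h.2.2 (U * x) ⟨y * (2 - 4 * y) * D - m * x ^ 2, ?_⟩
    have h5 : x * V = 1 - 4 * y := by linear_combination hxy
    have h6 : D * (x * V) ^ 2 = (U * x) ^ 2 - 4 * m * x ^ 2 := by
      linear_combination (- x ^ 2) * hUV
    rw [h5] at h6
    linear_combination h6
  obtain ⟨V', rfl⟩ := hV2
  have hU2 : (2 : Eis) ∣ U := by
    apply hp2.dvd_of_dvd_pow (n := 2)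
    refine ⟨2 * m + 2 * D * V' ^ 2, ?_⟩
    linear_combination hUV
  obtain ⟨U', rfl⟩ := hU2
  refine ⟨U', V', ?_⟩
  rw [hzu]
  rw [map_mul, map_ofNat] at hU' hV
  have e1 := mul_left_cancel₀ two_ne_zero hU'
  have e2 := mul_left_cancel₀ two_ne_zero hV
  rw [e1, e2]

end JL
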