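import Mathlib

/-!
# [JL-I3] extension of the place of a number field in `ℂ` to a valuation ring of `ℂ` (pure Mathlib)

`F` a number field in `ℂ` (`IntermediateField ℚ ℂ`), `w` a prime of `𝓞 F`. PROOF. The local ring at `w` is a valuation subring `A_w = {x ∈ F : w(x) ≤ 1}` of `F`; its image in `ℂ` is a local subring `(A_w, 𝔪_w)` of `ℂ`; `LocalSubring.exists_le_valuationSubring` (Mathlib, `Mathlib/RingTheory/Valuation/LocalSubring.lean`) gives a valuation ring `B` of `ℂ` dominating it.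
Then `B ∩ F = A_w`: `⊇` clear; if `x ∈ B ∩ F`, `x ∉ A_w` then `x⁻¹ ∈ 𝔪_w ⊆ 𝔪_B`, so `x⁻¹` is not a unit of `B`, contradiction to `x ∈ B`. (Compare the files with `exists_A` in CUL/Z.lean and `Pool/Agent/TR`, `EQV` for similar statements.)
`≤ 1` on both sides for `x` and `x⁻¹` gives the statements with `= 1` and `< 1`.
-/

set_option autoImplicit false

open NumberField IsDedekindDomain

namespace JL

theorem exists_ext (F : IntermediateField ℚ ℂ) [NumberField F] (w : HeightOneSpectrum (𝓞 F)) :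
    ∃ B : ValuationSubring ℂ, (∀ x : F, B.valuation (x : ℂ) ≤ 1 ↔ w.valuation F x ≤ 1) ∧
      (∀ x : F, B.valuation (x : ℂ) < 1 ↔ w.valuation F x < 1) := by
  let A : ValuationSubring F := (w.valuation F).valuationSubring
  let S : LocalSubring ℂ := LocalSubring.map (algebraMap F ℂ) A.toLocalSubring
  obtain ⟨B, hB1, hB2⟩ := S.exists_le_valuationSubring
  have h1 : ∀ x : F, w.valuation F x ≤ 1 → (x : ℂ) ∈ B := fun x hx => hB1 ⟨x, hx, rfl⟩
  have h2 : ∀ x : F, w.valuation F x < 1 → B.valuation (x : ℂ) < 1 := by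
    intro x hx
    have hxB := h1 x hx.le
    refine lt_of_le_of_ne ((B.valuation_le_one_iff _).mpr hxB) fun he => ?_
    have hu : IsUnit (⟨(x : ℂ), hxB⟩ : B) := (B.valuation_eq_one_iff ⟨(x : ℂ), hxB⟩).mpr he
    have hxS : (x : ℂ) ∈ S.toSubring := ⟨x, hx.le, rfl⟩
    have hu2 : IsUnit (⟨(x : ℂ), hxS⟩ : S.toSubring) := hB2.map_nonunit _ hu
    obtain ⟨y, hy⟩ := isUnit_iff_exists_inv.mp hu2
    obtain ⟨y', hy', hyy⟩ := y.2
    have h3 : (x : ℂ) * (y' : ℂ) = 1 := by
      have h4 := congrArg (fun t : S.toSubring => (t : ℂ)) hy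
      change (x : ℂ) * (y : ℂ) = 1 at h4
      rw [← hyy] at h4
      exact h4
    have h5 : x * y' = 1 := by
      apply Subtype.ext
      exact h3
    have h6 : w.valuation F x * w.valuation F y' = 1 := by rw [← map_mul, h5, map_one]
    have h7 : w.valuation F y' ≤ 1 := hy'
    have h8 : w.valuation F x * w.valuation F y' < 1 :=
      lt_of_le_of_lt (mul_le_of_le_one_right' h7) hx
    rw [h6] at h8
    exact lt_irrefl _ h8
  have h0 : ∀ x : F, (x : ℂ) = 0 ↔ x = 0 := fun x => by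
    rw [← ZeroMemClass.coe_zero F, Subtype.coe_inj]
  have h3 : ∀ x : F, B.valuation (x : ℂ) ≤ 1 → w.valuation F x ≤ 1 := by
    intro x hx
    by_contra hlt
    rw [not_le] at hlt
    have hx0 : x ≠ 0 := by
      rintro rfl
      rw [map_zero] at hlt
      exact not_lt_zero hlt
    have h4 : w.valuation F x⁻¹ < 1 := by
      rw [map_inv₀]
      exact inv_lt_one_of_one_lt₀ hlt
    have h5 := h2 _ h4
    have h6 : B.valuation (x : ℂ) * B.valuation ((x⁻¹ : F) : ℂ) = 1 := by
      rw [← map_mul, ← map_one B.valuation]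
      congr 1
      push_cast
      exact mul_inv_cancel₀ (fun h => hx0 ((h0 x).mp h))
    have h7 : B.valuation (x : ℂ) * B.valuation ((x⁻¹ : F) : ℂ) < 1 :=
      lt_of_le_of_lt (mul_le_of_le_one_left' hx) h5
    rw [h6] at h7
    exact lt_irrefl _ h7
  refine ⟨B, fun x => ⟨h3 x, fun hx => (B.valuation_le_one_iff _).mpr (h1 x hx)⟩,
    fun x => ⟨fun hx => ?_, h2 x⟩⟩
  by_contra hlt
  rw [not_lt] at hlt
  have hx0 : x ≠ 0 := by
    rintro rfl
    rw [map_zero] at hlt
    exact not_le_of_gt zero_lt_one hlt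
  have h4 : w.valuation F x⁻¹ ≤ 1 := by
    rw [map_inv₀]
    exact inv_le_one_of_one_le₀ hlt
  have h5 := (B.valuation_le_one_iff _).mpr (h1 _ h4)
  have h6 : B.valuation (x : ℂ) * B.valuation ((x⁻¹ : F) : ℂ) = 1 := by
    rw [← map_mul, ← map_one B.valuation]
    congr 1
    push_cast
    exact mul_inv_cancel₀ (fun h => hx0 ((h0 x).mp h))
  have h7 : B.valuation (x : ℂ) * B.valuation ((x⁻¹ : F) : ℂ) < 1 :=
    lt_of_le_of_lt (mul_le_of_le_one_right' h5) hx
  rw [h6] at h7
  exact lt_irrefl _ h7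

end JL
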