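import Pool.Agent.JL.G3
import Pool.Agent.JZ.I2
import Pool.Agent.JL.I3
import Pool.Agent.JL.F0
import Pool.Agent.JL.A1

/-!
# [JL-I4] `e³` is a unit

`x = ee d R ^ 3 ∈ KD D` (`ee3_N1`, `mem_KD`), `τ x = x⁻¹` (`exists_tau`, `N1`). To show: `w.valuation x = 1` for every prime `w` of `𝓞 (KD D)`; then `x` and `x⁻¹` are integral (`HeightOneSpectrum.mem_integers_of_valuation_le_one`, in Mathlib for fraction fields of Dedekind domains).
Let `q` be a prime of `ℤ[ω]` with `emb q ∈ w` (`w ∩ ℤ[ω]`).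
(a) `q ∣ 2 D`: `w` is stable under `τ`: there is `m ∈ ℤ[ω]` with `q ∣ m² - D` (`m = 0` if `q ∣ D`; for `q ∣ 2`, `D` odd: every element of `ℤ[ω]/2 = F₄` is a square). `(s - m)² = (D - m²) - 2 m (s - m)`: `(s-m)² + 2m(s-m) ∈ (q)`, and `q ∣ 2 m` (`q ∣ m` or `q ∣ 2`), so `(s - m)² ∈ w`, `s - m ∈ w`. By `KD_int` every integer is `a + b s = (a + b m) + b (s - m)`; it is in `w` iff `q ∣ a + b m` (as `w ∩ ℤ[ω] = (q)`). `τ (a + b s) = (a + b m) - 2 b m - b (s - m)`, `q ∣ 2 b m`: the same condition. So `τ w = w`, `w.valuation (τ x) = w.valuation x`, hence `w.valuation x = 1` (`v(x) = v(x⁻¹)`).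
(b) `w` stable under `τ` in general: the same argument.
(c) `w` not stable and `q ∤ 2 D`: choose `B` for `w` (`exists_ext`). If `q` is associated to `la`: `v_B(3) < 1`, `CUL.w_x`: `v_B(xc D c) = 1` for `c ∈ R` (`OT_c`). Otherwise replace `q` by the primary associate (`CUL.l6_prim`), `v_B(emb q) < 1`, `JZ.x_unit` (JZ/I2.lean) with `z = c / 4 D`, `m = 4 D` (coprime to `q`; `la z` is off the lattice because `la c` is not divisible by `4 D`): `v_B(xc D c) = 1`. So `v_B(x) = 1` (a product of powers), `w.valuation x = 1`. (In (c) `τ`-stability is not needed: the case distinction is `q ∣ 2 D` or not.)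
-/

set_option autoImplicit false

open NumberField IsDedekindDomain
open scoped Classical ComplexConjugate

namespace JL

open CM27 JZ
open CU (la)

variable {D : Eis}

theorem I4_emb_mem (a : Eis) : emb a ∈ KD D := by
  refine (mem_KD _).mpr ⟨emb a, 0, ?_, zero_mem _, by ring⟩
  rw [← CU.eE_coe]
  exact ((CU.eE a : 𝓞 CF.KK) : CF.KK).2

theorem I4_int {z : ℂ} (hz : z ∈ KD D) : IsIntegral ℤ (⟨z, hz⟩ : KD D) ↔ IsIntegral ℤ z :=
  (isIntegral_algHom_iff ((KD D).val.restrictScalars ℤ) Subtype.val_injective).symm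

/-- `ℤ[ω]` in the integers of `ℚ(ω, √D)` -/
noncomputable def I4_phi (D : Eis) : Eis →+* 𝓞 (KD D) where
  toFun a := ⟨⟨emb a, I4_emb_mem a⟩, (I4_int _).mpr (isIntegral_emb a)⟩
  map_one' := RingOfIntegers.ext (Subtype.ext (map_one emb))
  map_mul' a b := RingOfIntegers.ext (Subtype.ext (map_mul emb a b))
  map_zero' := RingOfIntegers.ext (Subtype.ext (map_zero emb))
  map_add' a b := RingOfIntegers.ext (Subtype.ext (map_add emb a b))

theorem I4_phi_coe (a : Eis) : (((I4_phi D a : 𝓞 (KD D)) : KD D) : ℂ) = emb a := rfl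

theorem I4_sD_mem : sD D ∈ KD D :=
  (mem_KD _).mpr ⟨0, 1, zero_mem _, one_mem _, by ring⟩

/-- `√D` -/
noncomputable def I4_s (D : Eis) : 𝓞 (KD D) := ⟨⟨sD D, I4_sD_mem⟩, (I4_int _).mpr (isIntegral_sD D)⟩

theorem I4_s_coe : (((I4_s D : 𝓞 (KD D)) : KD D) : ℂ) = sD D := rfl

theorem I4_ext {x y : 𝓞 (KD D)} (h : ((x : KD D) : ℂ) = ((y : KD D) : ℂ)) : x = y :=
  RingOfIntegers.ext (Subtype.ext h)

/-- there is a prime below -/
theorem I4_q (w : HeightOneSpectrum (𝓞 (KD D))) :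
    ∃ q : Eis, Prime q ∧ ∀ a : Eis, I4_phi D a ∈ w.asIdeal ↔ q ∣ a := by
  have hdom : IsDomain Eis := eis_isDomain
  have hpid : IsPrincipalIdealRing Eis := eis_pid
  let P : Ideal Eis := w.asIdeal.comap (I4_phi D)
  have hP : P.IsPrime := Ideal.comap_isPrime _ _
  obtain ⟨y, hy, hy0⟩ := Submodule.exists_mem_ne_zero_of_ne_bot w.ne_bot
  have h1 := Ideal.comap_ne_bot_of_integral_mem (R := ℤ) hy0 hy (RingOfIntegers.isIntegral y)
  obtain ⟨m, hm, hm0⟩ := Submodule.exists_mem_ne_zero_of_ne_bot h1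
  have hmP : (m : Eis) ∈ P := by
    change I4_phi D (m : Eis) ∈ w.asIdeal
    rw [map_intCast]
    exact hm
  have hmE : (m : Eis) ≠ 0 := by
    intro h0
    apply hm0
    have h2 := congrArg emb h0
    rw [map_intCast, map_zero] at h2
    exact_mod_cast h2
  obtain ⟨q, hq⟩ := (hpid.principal P).principal
  have hPq : P = Ideal.span {q} := hq
  have hmem : ∀ a : Eis, I4_phi D a ∈ w.asIdeal ↔ q ∣ a := by
    intro a
    rw [← Ideal.mem_span_singleton, ← hPq]
    rfl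
  have hq0 : q ≠ 0 := by
    rintro rfl
    exact hmE (zero_dvd_iff.mp ((hmem _).mp hmP))
  refine ⟨q, ?_, hmem⟩
  rw [← Ideal.span_singleton_prime hq0, ← hPq]
  exact hP

/-- every element of `ℤ[ω]` is a square modulo `2` -/
theorem I4_sq (a : Eis) : ∃ m : Eis, (2 : Eis) ∣ a - m ^ 2 := by
  obtain ⟨r, s⟩ := a
  obtain ⟨k, hk⟩ := Int.even_mul_succ_self (r - 1)
  obtain ⟨l, hl⟩ := Int.even_mul_succ_self (s - 1)
  refine ⟨⟨r + s, s⟩, ⟨-k - r * s, -l - r * s⟩, ?_⟩
  apply emb_injective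
  rw [map_sub, map_mul, map_pow, map_ofNat, emb_apply, emb_apply, emb_apply]
  have hk' : ((r : ℂ) - 1) * (r - 1 + 1) = k + k := by exact_mod_cast hk
  have hl' : ((s : ℂ) - 1) * (s - 1 + 1) = l + l := by exact_mod_cast hl
  have hw := CUL.w2
  push_cast
  linear_combination (-1 : ℂ) * hk' - w * hl' - (s : ℂ) ^ 2 * hw

/-- in the ramified case the prime is stable under the conjugation -/
theorem I4_stable (h : Cl0 D) (τ : KD D ≃+* KD D)
    (hτ : ∀ (u₁ u₂ : ℂ), u₁ ∈ CF.KK → u₂ ∈ CF.KK →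
      ∀ x : KD D, (x : ℂ) = u₁ + u₂ * sD D → ((τ x : KD D) : ℂ) = u₁ - u₂ * sD D)
    (w : HeightOneSpectrum (𝓞 (KD D))) {m : Eis} (h1 : I4_phi D (D - m ^ 2) ∈ w.asIdeal)
    (h2 : I4_phi D (2 * m) ∈ w.asIdeal) (y : 𝓞 (KD D)) (hy : y ∈ w.asIdeal) :
    RingOfIntegers.mapRingEquiv τ y ∈ w.asIdeal := by
  obtain ⟨a, b, hab⟩ := (KD_int h (y : KD D).2).mp ((I4_int _).mp y.2)
  have hKK : ∀ a : Eis, emb a ∈ CF.KK := by
    intro a
    rw [← CU.eE_coe]
    exact ((CU.eE a : 𝓞 CF.KK) : CF.KK).2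
  have ht : I4_s D - I4_phi D m ∈ w.asIdeal := by
    have h3 : (I4_s D - I4_phi D m) ^ 2 =
        I4_phi D (D - m ^ 2) - I4_phi D (2 * m) * (I4_s D - I4_phi D m) := by
      apply I4_ext
      push_cast
      rw [I4_phi_coe, I4_phi_coe, I4_phi_coe, I4_s_coe, map_sub, map_mul, map_pow, map_ofNat]
      linear_combination sD_sq D
    have h4 : (I4_s D - I4_phi D m) ^ 2 ∈ w.asIdeal := by
      rw [h3]
      exact sub_mem h1 (Ideal.mul_mem_right _ _ h2)
    exact w.isPrime.mem_of_pow_mem 2 h4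
  have h5 : RingOfIntegers.mapRingEquiv τ y =
      y - I4_phi D (2 * b) * (I4_s D - I4_phi D m) - I4_phi D b * I4_phi D (2 * m) := by
    apply I4_ext
    rw [RingOfIntegers.mapRingEquiv_apply, hτ (emb a) (emb b) (hKK a) (hKK b) _ hab]
    push_cast
    rw [I4_phi_coe, I4_phi_coe, I4_phi_coe, I4_phi_coe, I4_s_coe, map_mul, map_mul, map_ofNat, hab]
    ring
  rw [h5]
  exact sub_mem (sub_mem hy (Ideal.mul_mem_left _ _ ht)) (Ideal.mul_mem_left _ _ h2)

/-- a stable prime has value `1` on an element with `τ x = x⁻¹` -/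
theorem I4_val (τ : KD D ≃+* KD D) (hττ : ∀ x, τ (τ x) = x) (w : HeightOneSpectrum (𝓞 (KD D)))
    (hw : ∀ y ∈ w.asIdeal, RingOfIntegers.mapRingEquiv τ y ∈ w.asIdeal) {x : KD D} (hx0 : x ≠ 0)
    (hx : τ x = x⁻¹) : w.valuation (KD D) x = 1 := by
  let T := RingOfIntegers.mapRingEquiv τ
  have hTT : ∀ y, T (T y) = y := by
    intro y
    apply RingOfIntegers.ext
    rw [RingOfIntegers.mapRingEquiv_apply, RingOfIntegers.mapRingEquiv_apply, hττ]
  have hpow : ∀ (n : ℕ) (y : 𝓞 (KD D)), y ∈ w.asIdeal ^ n → T y ∈ w.asIdeal ^ n := by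
    intro n y hy
    have h1 : Ideal.map (T : 𝓞 (KD D) →+* 𝓞 (KD D)) w.asIdeal ≤ w.asIdeal :=
      Ideal.map_le_iff_le_comap.mpr hw
    have h2 : Ideal.map (T : 𝓞 (KD D) →+* 𝓞 (KD D)) (w.asIdeal ^ n) ≤ w.asIdeal ^ n := by
      rw [Ideal.map_pow]
      exact Ideal.pow_right_mono h1 n
    exact h2 (Ideal.mem_map_of_mem _ hy)
  have hle : ∀ y : 𝓞 (KD D), w.intValuation (T y) ≤ w.intValuation y := by
    intro y
    by_cases hy : y = 0
    · rw [hy, map_zero]
    · rw [w.intValuation_if_neg hy, w.intValuation_le_pow_iff_mem]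
      apply hpow
      rw [← w.intValuation_le_pow_iff_mem, w.intValuation_if_neg hy]
  have heq : ∀ y : 𝓞 (KD D), w.intValuation (T y) = w.intValuation y := by
    intro y
    refine le_antisymm (hle y) ?_
    have := hle (T y)
    rwa [hTT] at this
  have hv : w.valuation (KD D) (τ x) = w.valuation (KD D) x := by
    obtain ⟨a, b, hb, rfl⟩ := IsFractionRing.div_surjective (A := 𝓞 (KD D)) x
    rw [map_div₀, map_div₀, map_div₀]
    have h1 : ∀ y : 𝓞 (KD D), w.valuation (KD D) (τ (algebraMap (𝓞 (KD D)) (KD D) y)) =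
        w.valuation (KD D) (algebraMap (𝓞 (KD D)) (KD D) y) := by
      intro y
      have h2 : τ (algebraMap (𝓞 (KD D)) (KD D) y) = algebraMap (𝓞 (KD D)) (KD D) (T y) :=
        (RingOfIntegers.mapRingEquiv_apply τ y).symm
      rw [h2, w.valuation_of_algebraMap, w.valuation_of_algebraMap, heq]
    rw [h1, h1]
  rw [hx, map_inv₀] at hv
  have h3 : w.valuation (KD D) x ≠ 0 := (Valuation.ne_zero_iff _).mpr hx0
  have h4 : w.valuation (KD D) x * w.valuation (KD D) x = 1 := by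
    nth_rewrite 1 [← hv]
    exact inv_mul_cancel₀ h3
  rcases lt_trichotomy (w.valuation (KD D) x) 1 with h5 | h5 | h5
  · exfalso
    have h6 : w.valuation (KD D) x * w.valuation (KD D) x < 1 :=
      lt_of_le_of_lt (mul_le_of_le_one_right' h5.le) h5
    rw [h4] at h6
    exact lt_irrefl _ h6
  · exact h5
  · exfalso
    have h6 : 1 < w.valuation (KD D) x * w.valuation (KD D) x :=
      lt_of_lt_of_le h5 (le_mul_of_one_le_right' h5.le)
    rw [h4] at h6
    exact lt_irrefl _ h6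

theorem I4_la (h : Cl0 D) : ¬ la ∣ 4 * D := by
  have hla := CUL.la_prime
  have h3 : la ∣ 3 := ⟨_, CUL.u7_three⟩
  intro h4
  rcases hla.dvd_or_dvd h4 with h5 | h5
  · apply hla.not_isUnit
    apply isUnit_of_dvd_one
    have h6 : (1 : Eis) = 4 - 3 := by norm_num
    rw [h6]
    exact dvd_sub h5 h3
  · obtain ⟨η, hη, h6⟩ := h.2.1
    have h7 : la ∣ η := by
      have h8 : η = D - (D - η) := by ring
      rw [h8]
      exact dvd_sub h5 (h3.trans h6)
    apply hla.not_isUnit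
    rcases hη with rfl | rfl
    · exact isUnit_of_dvd_one h7
    · exact isUnit_of_dvd_one ((dvd_neg).mp h7)

/-- the unramified primes: `x_c` is a unit -/
theorem I4_xc (h : Cl0 D) (d : Dat D) (B : ValuationSubring ℂ) {q : Eis} (hq : Prime q)
    (hqB : B.valuation (emb q) < 1) (hqD : ¬ q ∣ 2 * D) {c : Eis} (hc : IsCoprime c (4 * D)) :
    B.valuation (xc D c) = 1 := by
  have hdom : IsDomain Eis := eis_isDomain
  have hpid : IsPrincipalIdealRing Eis := eis_pid
  have hOT := OT_c h d hc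
  by_cases h3 : q ∣ 3
  · refine CUL.w_x B ?_ hOT
    obtain ⟨e, he⟩ := h3
    have h4 : (3 : ℂ) = emb q * emb e := by rw [← map_mul, ← he, map_ofNat]
    rw [h4, map_mul]
    exact lt_of_le_of_lt (mul_le_of_le_one_right' (CUL.w_emb_le B e)) hqB
  · have h2 : ¬ q ∣ 2 := fun h => hqD (h.mul_right _)
    have h6 : ¬ q ∣ 6 := by
      intro h6
      have h7 : (6 : Eis) = 2 * 3 := by norm_num
      rw [h7] at h6
      rcases hq.dvd_or_dvd h6 with h8 | h8
      · exact h2 h8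
      · exact h3 h8
    have h4D : ¬ q ∣ 4 * D := by
      intro h4
      have h7 : (4 : Eis) * D = 2 * (2 * D) := by ring
      rw [h7] at h4
      rcases hq.dvd_or_dvd h4 with h8 | h8
      · exact h2 h8
      · exact hqD h8
    have hco : IsCoprime (4 * D) q := ((hq.irreducible.coprime_iff_not_dvd).2 h4D).symm
    have hD0 : (4 * D : Eis) ≠ 0 := fun h0 => h4D (by rw [h0]; exact dvd_zero _)
    have hD1 : emb (4 * D) ≠ 0 := by
      rw [Ne, ← map_zero emb, emb_injective.eq_iff]; exact hD0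
    refine x_unit hq h6 hqB hOT.1 (m := 4 * D) ⟨c, ?_⟩ hco (I4_la h)
    rw [mul_div_cancel₀ _ hD1]

theorem ee3_unit (h : Cl0 D) (d : Dat D) {R : Finset Eis} (hR : IsR d R) :
    IsIntegral ℤ (ee d R ^ 3) ∧ IsIntegral ℤ (ee d R ^ 3)⁻¹ := by
  obtain ⟨u₁, u₂, h1, h2, hz, hzi, hz0⟩ := ee3_N1 h d hR (sD_sq D)
  have hmem : ee d R ^ 3 ∈ KD D := (mem_KD _).mpr ⟨u₁, u₂, h1, h2, hz⟩
  let x : KD D := ⟨ee d R ^ 3, hmem⟩
  obtain ⟨τ, hτ⟩ := exists_tau h
  have hττ : ∀ y, τ (τ y) = y := by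
    intro y
    obtain ⟨v₁, v₂, k1, k2, hy⟩ := (mem_KD (y : ℂ)).mp y.2
    apply Subtype.ext
    have h3 := hτ v₁ v₂ k1 k2 y hy
    rw [hτ v₁ (-v₂) k1 (neg_mem k2) (τ y) (by rw [h3]; ring), hy]
    ring
  have hx0 : x ≠ 0 := by
    intro h0
    exact hz0 (congrArg (fun t : KD D => (t : ℂ)) h0)
  have hτx : τ x = x⁻¹ := by
    apply Subtype.ext
    rw [hτ u₁ u₂ h1 h2 x hz, ← hzi]
    rfl
  have key : ∀ w : HeightOneSpectrum (𝓞 (KD D)), w.valuation (KD D) x = 1 := by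
    intro w
    obtain ⟨q, hq, hqm⟩ := I4_q w
    by_cases hqD : q ∣ 2 * D
    · have hm : ∃ m : Eis, q ∣ D - m ^ 2 ∧ q ∣ 2 * m := by
        by_cases hD : q ∣ D
        · exact ⟨0, by simpa using hD, by simp⟩
        · have hq2 : q ∣ 2 := (hq.dvd_or_dvd hqD).resolve_right hD
          obtain ⟨m, hm⟩ := I4_sq D
          exact ⟨m, hq2.trans hm, hq2.mul_right _⟩
      obtain ⟨m, hm1, hm2⟩ := hm
      exact I4_val τ hττ w (fun y hy => I4_stable h τ hτ w ((hqm _).mpr hm1) ((hqm _).mpr hm2) y hy)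
        hx0 hτx
    · obtain ⟨B, hB1, hB2⟩ := exists_ext (KD D) w
      have hqB : B.valuation (emb q) < 1 := by
        have h3 := (hB2 (algebraMap (𝓞 (KD D)) (KD D) (I4_phi D q))).mpr
          ((w.valuation_lt_one_iff_mem (K := KD D) _).mpr ((hqm q).mpr dvd_rfl))
        exact h3
      have hval : B.valuation (ee d R ^ 3) = 1 := by
        rw [map_pow, ee, map_prod, Finset.prod_eq_one, one_pow]
        intro c hc
        rw [map_zpow₀, I4_xc h d B hq hqB hqD (hR.1 c hc), one_zpow]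
      refine le_antisymm ((hB1 x).mp hval.le) ?_
      by_contra hlt
      rw [not_le] at hlt
      have := (hB2 x).mpr hlt
      change B.valuation (ee d R ^ 3) < 1 at this
      rw [hval] at this
      exact lt_irrefl _ this
  have hfin : ∀ y : KD D, (∀ w : HeightOneSpectrum (𝓞 (KD D)), w.valuation (KD D) y = 1) →
      IsIntegral ℤ (y : ℂ) := by
    intro y hy
    obtain ⟨t, ht⟩ := HeightOneSpectrum.mem_integers_of_valuation_le_one (KD D) y
      (fun w => (hy w).le)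
    rw [← ht]
    exact (I4_int (t : KD D).2).mp t.2
  refine ⟨hfin x key, ?_⟩
  have h5 := hfin x⁻¹ (fun w => by rw [map_inv₀, key, inv_one])
  exact h5

end JL
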