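import Pool.Agent.JL.N1

/-!
# [JL-N2] places, roots of unity and units of `ℚ(ω, √D)`

`KK_complex`, `KD_complex`: a real embedding would give a real number with `x² + x + 1 = 0`. `finrank_KD`: `[KD : ℚ] = 2 · 2` (`finrank_ext`, `CF.d2_finrank_KK`). `rank_KD`: two complex places, rank `1`.
`torsion_KK`: the roots of unity of `ℚ(ω)` (units of `ℤ[ω]`: six). `torsion_KD` (`D` not a unit, `Cl D`): let `z ∈ KD` be a root of unity. `τ z` is one, `u = z / τ z = z² / N`, `N = z τ z ∈ KK` a root of unity, so `N ∈ μ₆`. `u` is a root of unity with `τ u = u⁻¹ = conj u` (`|u| = 1` in `ℂ`), so `2 u₁ = u + u⁻¹` is in `KK`, real and integral: in `ℤ`, `∈ {0, ± 1, ± 2}`.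
If `2 u₁ = 0`: `u² = -1`, `u = u₂ s`, `u₂² D = -1`, `u₂ ∈ KK`: `-D = (1/u₂)²`, `1/u₂` is integral, in `ℤ[ω]`, and `D` squarefree: `1/u₂` is a unit, `D` is a unit, contradiction. Otherwise `u` is `± 1` or a root of `X² ± X + 1`, so `u ∈ μ₆ ⊆ KK`. Then `z² = u N ∈ μ₆`, so `z² ∈ KK`, `z = z₁ + z₂ s`: `z₁ z₂ = 0` (`rep_unique`): `z = z₁ ∈ KK`: fine; or `z = z₂ s`, `z₂² D = z²` a unit: as before `D` is a unit, contradiction. So the roots of unity of `KD` are those of `KK`: six.
`fund_unit` (pure Mathlib): a totally complex number field with unit rank `1`: `ε` the fundamental system (one element, `Units.fundSystem`, `Fin (rank K)`), `regulator = |mult log|`: `Units.regulator_eq_det` / `regOfFamily_eq_det` with a `1 × 1` matrix, `mult = 2` (compare TR/A7f.lean); every infinite place gives the same absolute value (product formula `Units.sum_mult_mul_log`: two places), so for the place of `φ`. `Units.exist_unique_eq_mul_prod` for the representation.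
`log_fund_ne`: the regulator is positive.
-/

set_option autoImplicit false

open NumberField IsDedekindDomain
open scoped Classical ComplexConjugate

namespace JL

open CM27 JZ
open CU (eE)

variable {D : Eis}

open Units dirichletUnitTheorem InfinitePlace in
theorem n2_card (K : Type) [Field K] [NumberField K] (hr : Units.rank K = 1) :
    Fintype.card (InfinitePlace K) = 2 := by
  unfold Units.rank at hr
  omega

open NumberField.Units NumberField.Units.dirichletUnitTheorem in
theorem n2_abs (K : Type) [Field K] [NumberField K] [IsTotallyComplex K] (hr : Units.rank K = 1)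
    (u : (𝓞 K)ˣ) (v v' : InfinitePlace K) :
    |Real.log (v ((u : 𝓞 K) : K))| = |Real.log (v' ((u : 𝓞 K) : K))| := by
  rcases eq_or_ne v v' with rfl | hv
  · rfl
  have hc := n2_card K hr
  have hu : (Finset.univ : Finset (InfinitePlace K)) = {v, v'} := by
    symm
    rw [Finset.eq_univ_iff_forall]
    have h2 : ({v, v'} : Finset (InfinitePlace K)) = Finset.univ := by
      rw [← Finset.card_eq_iff_eq_univ, hc, Finset.card_pair hv]
    intro x
    rw [h2]
    exact Finset.mem_univ _
  have h := Units.sum_mult_mul_log (K := K) u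
  rw [hu, Finset.sum_pair hv, IsTotallyComplex.mult_eq, IsTotallyComplex.mult_eq] at h
  have h3 : Real.log (v ((u : 𝓞 K) : K)) = - Real.log (v' ((u : 𝓞 K) : K)) := by
    push_cast at h
    linarith
  rw [h3, abs_neg]

theorem fund_unit (K : Type) [Field K] [NumberField K] [IsTotallyComplex K] (hr : Units.rank K = 1) (φ : K →+* ℂ) :
    ∃ ε : (𝓞 K)ˣ, Units.regulator K = 2 * |Real.log ‖φ ((ε : 𝓞 K) : K)‖| ∧
      ∀ u : (𝓞 K)ˣ, ∃ ζ ∈ Units.torsion K, ∃ n : ℤ, u = ζ * ε ^ n := by
  have hpos : 0 < Units.rank K := by rw [hr]; norm_num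
  let i₀ : Fin (Units.rank K) := ⟨0, hpos⟩
  have hi : ∀ i : Fin (Units.rank K), i = i₀ := by
    intro i
    apply Fin.ext
    have := i.2
    change i.1 = 0
    omega
  refine ⟨Units.fundSystem K i₀, ?_, ?_⟩
  · have e := (Units.equivFinRank K).symm
    have h1 := Units.regulator_eq_det K (Units.dirichletUnitTheorem.w₀ (K := K)) e
    have hU : Unique {v : InfinitePlace K // v ≠ Units.dirichletUnitTheorem.w₀} :=
      { default := e.symm i₀
        uniq := fun a => by
          rw [Equiv.eq_symm_apply]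
          exact hi _ }
    rw [Matrix.det_unique] at h1
    simp only [Matrix.of_apply] at h1
    rw [h1, abs_mul, IsTotallyComplex.mult_eq, hi (e _)]
    rw [n2_abs K hr (Units.fundSystem K i₀) _ (InfinitePlace.mk φ)]
    rw [InfinitePlace.apply]
    push_cast
    rw [abs_of_pos (by norm_num : (0 : ℝ) < 2)]
  · intro u
    obtain ⟨⟨ζ, f⟩, h, -⟩ := Units.exist_unique_eq_mul_prod K u
    refine ⟨ζ, ζ.2, f i₀, ?_⟩
    rw [h]
    congr 1
    have : (Finset.univ : Finset (Fin (Units.rank K))) = {i₀} := by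
      ext i
      simp [hi i]
    rw [this, Finset.prod_singleton]

instance KK_complex : IsTotallyComplex CF.KK :=
  IsCyclotomicExtension.Rat.isTotallyComplex (n := 3) CF.KK (by norm_num)

instance KD_complex (D : Eis) : IsTotallyComplex (KD D) :=
  isTotallyComplex_of_algebra CF.KK (KD D)

theorem finrank_KD (h : Cl0 D) : Module.finrank ℚ (KD D) = 4 := by
  obtain ⟨e, -⟩ := exists_Ext h
  have h1 := finrank_ext e
  have h2 := CF.d2_finrank (KD D) (w_mem_KD D)
  change 2 * Module.finrank CF.KK (KD D) = Module.finrank ℚ (KD D) at h2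
  rw [h1] at h2
  exact h2.symm

theorem rank_KD (h : Cl0 D) : Units.rank (KD D) = 1 := by
  have h1 := IsTotallyComplex.finrank (K := KD D)
  rw [finrank_KD h] at h1
  have h2 := InfinitePlace.card_eq_nrRealPlaces_add_nrComplexPlaces (KD D)
  rw [IsTotallyComplex.nrRealPlaces_eq_zero] at h2
  unfold Units.rank
  omega

theorem torsion_KK : Units.torsionOrder CF.KK = 6 := by
  rw [IsCyclotomicExtension.Rat.torsionOrder_eq (n := 3)]
  decide

/-- the product of a square in `ℚ(ω)` and a nonunit `D` is not `-1` -/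
theorem n2_unit (h : Cl0 D) (hu : ¬ IsUnit D) {z : ℂ} (hz : z ∈ CF.KK) : z ^ 2 * emb D ≠ -1 := by
  intro he
  have hz0 : z ≠ 0 := by
    rintro rfl
    norm_num at he
  have h1 : (z⁻¹) ^ 2 = emb (-D) := by
    rw [map_neg, inv_pow]
    rw [inv_eq_iff_eq_inv, eq_comm, inv_eq_iff_eq_inv] 
    field_simp
    linear_combination -he
  have h2 : IsIntegral ℤ z⁻¹ := by
    refine IsIntegral.of_pow (n := 2) two_pos ?_
    rw [h1]
    exact isIntegral_emb _
  obtain ⟨a, ha⟩ := KK_int (inv_mem hz) h2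
  have h3 : a ^ 2 = -D := by
    apply emb_injective
    rw [map_pow, ← ha, h1]
  have h4 : IsUnit a := h.1 a ⟨-1, by rw [← sq, h3]; ring⟩
  apply hu
  have h5 : D = -(a ^ 2) := by rw [h3, neg_neg]
  rw [h5, IsUnit.neg_iff]
  exact h4.pow 2

/-- `-1` is not a square in `ℚ(ω)` -/
theorem n2_KK_sq (x : CF.KK) : x ^ 2 ≠ -1 := by
  intro hx
  have h1 : IsPrimitiveRoot x 4 := by
    have h2 : x ^ 4 = 1 := by
      have : x ^ 4 = (x ^ 2) ^ 2 := by ring
      rw [this, hx]; norm_num
    refine IsPrimitiveRoot.of_map_of_injective (f := RingHom.id CF.KK) ?_ (fun _ _ h => h)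
    have h3 : orderOf x = 2 ^ 2 := by
      apply orderOf_eq_prime_pow
      · rw [pow_one, hx]
        norm_num
      · simpa using h2
    have := IsPrimitiveRoot.orderOf x
    rw [h3] at this
    simpa using this
  have h2 := Units.dvd_torsionOrder_of_isPrimitiveRoot h1
  rw [torsion_KK] at h2
  revert h2
  decide

/-- `-1` is not a square in `ℚ(ω, √D)` -/
theorem n2_KD_sq (h : Cl0 D) (hu : ¬ IsUnit D) (x : KD D) : x ^ 2 ≠ -1 := by
  intro hx
  obtain ⟨u₁, u₂, h1, h2, h3⟩ := (mem_KD (D := D) (x : ℂ)).1 x.2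
  have h4 : (x : ℂ) ^ 2 = -1 := by
    have := congrArg (fun y : KD D => (y : ℂ)) hx
    simpa using this
  have h5 : (u₁ ^ 2 + u₂ ^ 2 * emb D) + (2 * u₁ * u₂) * sD D = (-1) + 0 * sD D := by
    rw [← h4, h3, ← sD_sq]
    ring
  have h7 : u₁ ^ 2 + u₂ ^ 2 * emb D ∈ CF.KK :=
    add_mem (pow_mem h1 2) (mul_mem (pow_mem h2 2) (CF.d2_emb_mem D))
  have h8 : 2 * u₁ * u₂ ∈ CF.KK := mul_mem (mul_mem (by exact_mod_cast intCast_mem CF.KK 2) h1) h2
  obtain ⟨h9, h10⟩ := rep_unique h h7 h8 (neg_mem (one_mem _)) (zero_mem _) h5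
  rcases mul_eq_zero.1 h10 with h11 | h11
  · have h12 : u₁ = 0 := by
      rcases mul_eq_zero.1 h11 with h | h
      · norm_num at h
      · exact h
    rw [h12] at h9
    exact n2_unit h hu h2 (by rw [← h9]; ring)
  · rw [h11] at h9
    apply n2_KK_sq ⟨u₁, h1⟩
    apply Subtype.ext
    have : u₁ ^ 2 = -1 := by rw [← h9]; ring
    simpa using this

theorem n2_totient (p : ℕ) (hp : p.Prime) (h2 : p ≠ 2) : 4 < Nat.totient (6 * p) := by
  rcases eq_or_ne p 3 with rfl | h3
  · decide
  have h5 : 5 ≤ p := by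
    have := hp.two_le
    by_contra hlt
    interval_cases p
    · exact h2 rfl
    · exact h3 rfl
    · revert hp; decide
  have hc : Nat.Coprime 6 p := by
    rw [Nat.coprime_comm, Nat.Prime.coprime_iff_not_dvd hp]
    intro hd
    have := Nat.le_of_dvd (by norm_num) hd
    interval_cases p
    · revert hd; decide
    · revert hp; decide
  rw [Nat.totient_mul hc, Nat.totient_prime hp]
  have : Nat.totient 6 = 2 := by decide
  rw [this]
  omega

theorem torsion_KD (h : Cl0 D) (hu : ¬ IsUnit D) : Units.torsionOrder (KD D) = 6 := by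
  set m := Units.torsionOrder (KD D) with hm
  have hm0 : m ≠ 0 := Units.torsionOrder_ne_zero (KD D)
  have h3 : 3 ∣ m := by
    have : IsPrimitiveRoot (⟨w, w_mem_KD D⟩ : KD D) 3 :=
      IsPrimitiveRoot.of_map_of_injective (f := (KD D).val) (by exact CF.d2_prim) ((KD D).val.toRingHom.injective)
    exact Units.dvd_torsionOrder_of_isPrimitiveRoot this
  have h2 : 2 ∣ m := (Units.even_torsionOrder (KD D)).two_dvd
  have h6 : 6 ∣ m := by omega
  obtain ⟨k, hk⟩ := h6
  rcases eq_or_ne k 1 with hk1 | hk1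
  · rw [hk, hk1]
  exfalso
  obtain ⟨p, hp, hpk⟩ := Nat.exists_prime_and_dvd hk1
  have hd : 6 * p ∣ m := by rw [hk]; exact mul_dvd_mul_left 6 hpk
  -- a root of unity of order `m`
  obtain ⟨μ, hμ⟩ : ∃ μ : Units.torsion (KD D), orderOf μ = m := IsCyclic.exists_ofOrder_eq_natCard
  rw [← IsPrimitiveRoot.iff_orderOf, ← IsPrimitiveRoot.coe_submonoidClass_iff,
    ← IsPrimitiveRoot.coe_units_iff] at hμ
  replace hμ := hμ.map_of_injective (FaithfulSMul.algebraMap_injective (𝓞 (KD D)) (KD D))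
  obtain ⟨j, hj⟩ := hd
  set x : KD D := algebraMap (𝓞 (KD D)) (KD D) (((μ : (𝓞 (KD D))ˣ) : 𝓞 (KD D))) with hx
  have h7 : IsPrimitiveRoot (x ^ j) (6 * p) := hμ.pow (Nat.pos_of_ne_zero hm0) (by rw [hj, mul_comm])
  rcases eq_or_ne p 2 with rfl | hp2
  · have h8 : IsPrimitiveRoot ((x ^ j) ^ 3) 4 := h7.pow (by norm_num) (by norm_num)
    have h9 : IsPrimitiveRoot (((x ^ j) ^ 3) ^ 2) 2 := h8.pow (by norm_num) (by norm_num)
    exact n2_KD_sq h hu _ (h9.eq_neg_one_of_two_right)
  · have h8 := h7.totient_le_degree_minpoly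
    have h9 : (minpoly ℤ (x ^ j)).natDegree ≤ 4 := by
      have hint : IsIntegral ℤ (x ^ j) := h7.isIntegral (by have := hp.pos; omega)
      have h10 := minpoly.isIntegrallyClosed_eq_field_fractions' ℚ hint
      have h11 : (minpoly ℚ (x ^ j)).natDegree = (minpoly ℤ (x ^ j)).natDegree := by
        rw [h10, (minpoly.monic hint).natDegree_map]
      rw [← h11, ← finrank_KD h]
      exact minpoly.natDegree_le _
    have h10 := n2_totient p hp hp2
    omega

theorem torsion_mem (h : Cl0 D) (hu : ¬ IsUnit D) {ζ : (𝓞 (KD D))ˣ} (hζ : ζ ∈ Units.torsion (KD D)) :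
    (((ζ : 𝓞 (KD D)) : KD D) : ℂ) ^ 6 = 1 := by
  rw [← Units.rootsOfUnity_eq_torsion, torsion_KD h hu, mem_rootsOfUnity] at hζ
  have h1 := congrArg (fun y : (𝓞 (KD D))ˣ => (((y : 𝓞 (KD D)) : KD D) : ℂ)) hζ
  simpa using h1

end JL
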