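import Pool.Agent.JL.N3b
import Pool.Agent.JL.N2

/-!
# [JL-N4] the value at `1` of the quadratic `L`-function

PROOF (model TR/A7b.lean, A7c.lean): `(σ - 1) ζ_M(σ) → dedekindZeta_residue M` (Mathlib `tendsto_sub_one_mul_dedekindZeta_nhdsGT`), the same for `KK`, and `zeta_ext`; `exists_Ext`. So `LJ σ → residue(KD) / residue(KK)`.
`dedekindZeta_residue K = 2^r1 (2π)^r2 R h / (w √|d|)`: `KD`: `r1 = 0, r2 = 2`, `w = 6` (`torsion_KD`), `|d| = 144 N(D)` (`discr_ext`), so `(2π)² R' h' / (6 · 12 √N(D)) = π² R' h' / (18 √N(D))`.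
`KK`: `r1 = 0, r2 = 1`, regulator `1` (rank `0`: `Units.regulator_eq_det`, empty determinant; or `regulator` of a field with unit rank `0`), `h = 1` (principal: `classNumber_eq_one_iff`), `w = 6`, `|d| = 3`: `2π / (6 √3)`.
Quotient: `π² R' h' / (18 √N) · 6 √3/(2π) = π √3 R' h' / (6 √N)`.
-/

set_option autoImplicit false

open NumberField IsDedekindDomain Filter Topology
open scoped Classical ComplexConjugate

namespace JL

open CM27 JZ
open CU (eE)

variable {D : Eis}

theorem n4_reg (K : Type) [Field K] [NumberField K] (h : Units.rank K = 0) :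
    Units.regulator K = 1 := by
  have w₀ : InfinitePlace K := Classical.arbitrary _
  have hc : Fintype.card {v : InfinitePlace K // v ≠ w₀} = 0 := by
    rw [Fintype.card_subtype_compl, Fintype.card_subtype_eq]
    exact h
  have he : IsEmpty {v : InfinitePlace K // v ≠ w₀} := Fintype.card_eq_zero_iff.1 hc
  have hf : IsEmpty (Fin (Units.rank K)) := by rw [h]; infer_instance
  rw [Units.regulator_eq_det K w₀ (Equiv.equivOfIsEmpty _ _), Matrix.det_isEmpty, abs_one]

theorem n4_h : classNumber CF.KK = 1 := by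
  have : IsPrincipalIdealRing Eis := eis_pid
  have : IsPrincipalIdealRing (𝓞 CF.KK) :=
    IsPrincipalIdealRing.of_surjective (eE : Eis →+* 𝓞 CF.KK) eE.surjective
  exact (classNumber_eq_one_iff).2 this

theorem residue_KK : dedekindZeta_residue CF.KK = Real.pi / (3 * √3) := by
  have hf := CF.d2_finrank_KK
  have c1 : InfinitePlace.nrRealPlaces CF.KK = 0 := IsTotallyComplex.nrRealPlaces_eq_zero CF.KK
  have c2 : InfinitePlace.nrComplexPlaces CF.KK = 1 := by
    have := InfinitePlace.card_add_two_mul_card_eq_rank CF.KK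
    omega
  have hr : Units.rank CF.KK = 0 := by
    rw [Units.rank, InfinitePlace.card_eq_nrRealPlaces_add_nrComplexPlaces, c1, c2]
  have hd : |((discr CF.KK : ℤ) : ℝ)| = 3 := by
    rw [← Int.cast_abs, ← Nat.cast_natAbs, discr_KK]
    norm_num
  rw [dedekindZeta_residue_def, c1, c2, n4_reg _ hr, n4_h, torsion_KK, hd]
  have h3 : (0 : ℝ) < √3 := by positivity
  field_simp
  norm_num

theorem residue_KD (h : Cl0 D) (hu : ¬ IsUnit D) : dedekindZeta_residue (KD D) =
    Real.pi ^ 2 * Units.regulator (KD D) * classNumber (KD D) / (18 * √(D.norm : ℝ)) := by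
  obtain ⟨e, -⟩ := exists_Ext h
  have hD0 : D ≠ 0 := by
    rintro rfl
    exact not_squarefree_zero h.1
  have hf := finrank_KD h
  have c1 : InfinitePlace.nrRealPlaces (KD D) = 0 := IsTotallyComplex.nrRealPlaces_eq_zero (KD D)
  have c2 : InfinitePlace.nrComplexPlaces (KD D) = 2 := by
    have := InfinitePlace.card_add_two_mul_card_eq_rank (KD D)
    omega
  have hd : |((discr (KD D) : ℤ) : ℝ)| = 144 * (D.norm : ℝ) := by
    have h1 := discr_ext hD0 e
    have h2 : (((discr (KD D)).natAbs : ℕ) : ℝ) = 144 * (D.norm : ℝ) := by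
      calc (((discr (KD D)).natAbs : ℕ) : ℝ) = ((((discr (KD D)).natAbs : ℕ) : ℤ) : ℝ) := by
            rw [Int.cast_natCast]
        _ = ((144 * D.norm : ℤ) : ℝ) := by rw [h1]
        _ = 144 * (D.norm : ℝ) := by push_cast; ring
    rw [← Int.cast_abs, ← Nat.cast_natAbs, h2]
  have hN : (0 : ℝ) < (D.norm : ℝ) := by
    have h1 : |((discr (KD D) : ℤ) : ℝ)| ≠ 0 :=
      abs_ne_zero.2 (Int.cast_ne_zero.2 (discr_ne_zero (KD D)))
    have h2 := abs_nonneg ((discr (KD D) : ℤ) : ℝ)
    rw [hd] at h1 h2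
    have h3 : (144 * (D.norm : ℝ)) > 0 := lt_of_le_of_ne h2 (Ne.symm h1)
    linarith
  have hs : √(144 * (D.norm : ℝ)) = 12 * √(D.norm : ℝ) := by
    rw [Real.sqrt_mul (by norm_num), show (144 : ℝ) = 12 ^ 2 by norm_num,
      Real.sqrt_sq (by norm_num)]
  rw [dedekindZeta_residue_def, c1, c2, torsion_KD h hu, hd, hs]
  have h4 : (0 : ℝ) < √(D.norm : ℝ) := Real.sqrt_pos.2 hN
  push_cast
  field_simp
  ring

theorem LJ_lim (h : Cl0 D) (hu : ¬ IsUnit D) (d : Dat D) : Tendsto (LJ d) (𝓝[>] 1)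
    (𝓝 (Real.pi * √3 * Units.regulator (KD D) * classNumber (KD D) / (6 * √(D.norm : ℝ)))) := by
  obtain ⟨e, -⟩ := exists_Ext h
  have hM := tendsto_sub_one_mul_dedekindZeta_nhdsGT (KD D)
  have hL := tendsto_sub_one_mul_dedekindZeta_nhdsGT CF.KK
  have hne : ((dedekindZeta_residue CF.KK : ℝ) : ℂ) ≠ 0 := by
    exact_mod_cast dedekindZeta_residue_ne_zero CF.KK
  have hdiv := hM.div hL hne
  have hval : ((dedekindZeta_residue (KD D) : ℝ) : ℂ) / ((dedekindZeta_residue CF.KK : ℝ) : ℂ) =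
      ((Real.pi * √3 * Units.regulator (KD D) * classNumber (KD D) / (6 * √(D.norm : ℝ)) : ℝ) :
        ℂ) := by
    rw [← Complex.ofReal_div]
    congr 1
    rw [residue_KK, residue_KD h hu]
    have h3 : (0 : ℝ) < √3 := by positivity
    have h3' : √3 ^ 2 = (3 : ℝ) := Real.sq_sqrt (by norm_num)
    have hpi := Real.pi_pos
    set R := Units.regulator (KD D)
    set H := (classNumber (KD D) : ℝ)
    set S := √(D.norm : ℝ)
    have hR : Real.pi ^ 2 * R * H / (18 * S) / (Real.pi / (3 * √3)) =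
        (Real.pi ^ 2 * (R * H) / (18 * S)) * (3 * √3 / Real.pi) := by
      rw [div_div_eq_mul_div]
      ring
    rw [hR]
    by_cases hS : S = 0
    · rw [hS]
      simp
    · field_simp
      ring
  rw [hval] at hdiv
  have hc : Tendsto (fun σ : ℝ => ((LJ d σ : ℝ) : ℂ)) (𝓝[>] 1)
      (𝓝 ((Real.pi * √3 * Units.regulator (KD D) * classNumber (KD D) / (6 * √(D.norm : ℝ)) : ℝ) :
        ℂ)) := by
    refine hdiv.congr' ?_
    have hev := hL.eventually_ne hne
    filter_upwards [hev, self_mem_nhdsWithin] with s hs1 hs2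
    show (s - 1) * dedekindZeta (KD D) s / ((s - 1) * dedekindZeta CF.KK s) = ((LJ d s : ℝ) : ℂ)
    rw [zeta_ext h d e hs2, ← mul_assoc, mul_div_cancel_left₀ _ hs1]
  have hre := (Complex.continuous_re.tendsto _).comp hc
  rw [Complex.ofReal_re] at hre
  exact hre

end JL
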