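import Pool.Agent.JL.N1

/-!
# [JL-N3] decomposition of the primes of `ℤ[ω]` in `M = ℚ(ω, s)`, `s² = D`

`𝓞 M = 𝓞 KK ⊕ 𝓞 KK s`. `v` a place of `KK`, `p` a prime element of it (`eE p ∈ v`, so `v = (eE p)`). Model TR/A6.lean (`Dat.split`, `Dat.inert`, `Dat.above_seven`).
PROOF. For a homomorphism `φ : 𝓞 M → k'` with restriction `𝓞 KK → k = 𝓞 KK / v ⊆ k'` and `φ(s) = c`, `c² = D̄`: kernels are the primes above `v`.
(split) `p ∤ 2 D`, `m² ≡ D mod p`: the two surjections `𝓞 M → k`, `s ↦ m`, `s ↦ -m` (`m ≢ -m` as `p ∤ 2 m`), kernels `P ≠ Q`, of norm `N(v)`; every prime above `v` contains `(s - m)(s + m) = D - m² ∈ v`, so it contains `s - m` or `s + m`, so contains (equals) `P` or `Q`.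
(inert) `D` is not a square modulo `p`: `k' = k[X]/(X² - D̄)` is a field with `N(v)²` elements; the kernel `P` of `s ↦ X` is `v 𝓞 M` (`a + b s ∈ P` iff `a, b ∈ v`), and every prime above `v` contains it.
(ramified) `p ∣ D`: `m = 0`; `p ∣ 2`: `m` with `p ∣ m² - D` (the residue field is `F₄`, every element is a square): surjection `s ↦ m`, kernel `P` of norm `N(v)`; a prime `Q` above `v` contains `(s - m)² = (D - m²) - 2 m (s - m)` as `D - m² ∈ v` and `2 m ∈ v`, so contains `s - m`, so `Q = P`.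
(No condition on `D` is needed in these arguments.)
-/

set_option autoImplicit false

open NumberField IsDedekindDomain
open scoped Classical ComplexConjugate

namespace JL

open CM27 JZ
open CU (eE)

variable {D : Eis} {M : Type} [Field M] [NumberField M] [Algebra CF.KK M]

theorem n3_hs (e : Ext D M) : e.s * e.s = algebraMap (𝓞 CF.KK) (𝓞 M) (eE D) := by
  rw [← sq, e.hs]

/-- first coordinate -/
noncomputable def n3a (e : Ext D M) (x : 𝓞 M) : 𝓞 CF.KK := (e.repr x).choose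

/-- second coordinate -/
noncomputable def n3b (e : Ext D M) (x : 𝓞 M) : 𝓞 CF.KK := (e.repr x).choose_spec.choose

theorem n3_eq (e : Ext D M) (x : 𝓞 M) :
    x = algebraMap (𝓞 CF.KK) (𝓞 M) (n3a e x) + algebraMap (𝓞 CF.KK) (𝓞 M) (n3b e x) * e.s :=
  (e.repr x).choose_spec.choose_spec

theorem n3_co (e : Ext D M) {x : 𝓞 M} {a b : 𝓞 CF.KK}
    (h : x = algebraMap (𝓞 CF.KK) (𝓞 M) a + algebraMap (𝓞 CF.KK) (𝓞 M) b * e.s) :
    n3a e x = a ∧ n3b e x = b := n1_uniq e ((n3_eq e x).symm.trans h)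

theorem n3_add (e : Ext D M) (x y : 𝓞 M) : n3a e (x + y) = n3a e x + n3a e y ∧
    n3b e (x + y) = n3b e x + n3b e y := by
  apply n3_co e
  conv_lhs => rw [n3_eq e x, n3_eq e y]
  simp only [map_add]
  ring

theorem n3_mul (e : Ext D M) (x y : 𝓞 M) :
    n3a e (x * y) = n3a e x * n3a e y + eE D * (n3b e x * n3b e y) ∧
    n3b e (x * y) = n3a e x * n3b e y + n3b e x * n3a e y := by
  apply n3_co e
  conv_lhs => rw [n3_eq e x, n3_eq e y]
  simp only [map_add, map_mul]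
  linear_combination (algebraMap (𝓞 CF.KK) (𝓞 M) (n3b e x) * algebraMap (𝓞 CF.KK) (𝓞 M) (n3b e y)) * n3_hs e

theorem n3_alg (e : Ext D M) (a : 𝓞 CF.KK) : n3a e (algebraMap (𝓞 CF.KK) (𝓞 M) a) = a ∧
    n3b e (algebraMap (𝓞 CF.KK) (𝓞 M) a) = 0 := by
  apply n3_co e
  rw [map_zero, zero_mul, add_zero]

theorem n3_s (e : Ext D M) : n3a e e.s = 0 ∧ n3b e e.s = 1 := by
  apply n3_co e
  rw [map_zero, map_one, zero_add, one_mul]

/-- evaluation `a + b s ↦ a + b c` -/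
noncomputable def n3_ev (e : Ext D M) {k : Type} [CommRing k] (g : 𝓞 CF.KK →+* k) (c : k)
    (hc : c ^ 2 = g (eE D)) : 𝓞 M →+* k where
  toFun x := g (n3a e x) + g (n3b e x) * c
  map_one' := by
    have h := n3_alg e 1
    rw [map_one] at h
    rw [h.1, h.2, map_one, map_zero, zero_mul, add_zero]
  map_zero' := by
    have h := n3_alg e 0
    rw [map_zero] at h
    rw [h.1, h.2, map_zero, zero_mul, add_zero]
  map_add' x y := by
    rw [(n3_add e x y).1, (n3_add e x y).2]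
    simp only [map_add]
    ring
  map_mul' x y := by
    rw [(n3_mul e x y).1, (n3_mul e x y).2]
    simp only [map_add, map_mul]
    linear_combination (-(g (n3b e x) * g (n3b e y))) * hc

theorem n3_ev_alg (e : Ext D M) {k : Type} [CommRing k] (g : 𝓞 CF.KK →+* k) (c : k)
    (hc : c ^ 2 = g (eE D)) (a : 𝓞 CF.KK) : n3_ev e g c hc (algebraMap (𝓞 CF.KK) (𝓞 M) a) = g a := by
  change g (n3a e (algebraMap (𝓞 CF.KK) (𝓞 M) a)) + g (n3b e (algebraMap (𝓞 CF.KK) (𝓞 M) a)) * c = _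
  rw [(n3_alg e a).1, (n3_alg e a).2, map_zero, zero_mul, add_zero]

theorem n3_ev_s (e : Ext D M) {k : Type} [CommRing k] (g : 𝓞 CF.KK →+* k) (c : k)
    (hc : c ^ 2 = g (eE D)) : n3_ev e g c hc e.s = c := by
  change g (n3a e e.s) + g (n3b e e.s) * c = _
  rw [(n3_s e).1, (n3_s e).2, map_zero, map_one, zero_add, one_mul]

omit [Algebra CF.KK M] in
theorem n3_ne_bot {I : Ideal (𝓞 M)} (h : Ideal.absNorm I ≠ 0) : I ≠ ⊥ := by
  rintro rfl
  exact h Ideal.absNorm_bot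

omit [Algebra CF.KK M] in
theorem n3_max_eq {P R : HeightOneSpectrum (𝓞 M)} (h : P.asIdeal ≤ R.asIdeal) : R = P :=
  HeightOneSpectrum.ext (P.isMaximal.eq_of_le R.isPrime.ne_top h).symm

/-- the prime above `v` given by a square root of `D` modulo `v` -/
theorem n3_root (e : Ext D M) (v : HeightOneSpectrum (𝓞 CF.KK)) (d : 𝓞 CF.KK)
    (hd : d ^ 2 - eE D ∈ v.asIdeal) : ∃ P : HeightOneSpectrum (𝓞 M),
      Ideal.absNorm P.asIdeal = Ideal.absNorm v.asIdeal ∧
      P.asIdeal.comap (algebraMap (𝓞 CF.KK) (𝓞 M)) = v.asIdeal ∧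
      e.s - algebraMap (𝓞 CF.KK) (𝓞 M) d ∈ P.asIdeal ∧
      ∀ R : HeightOneSpectrum (𝓞 M), R.asIdeal.comap (algebraMap (𝓞 CF.KK) (𝓞 M)) = v.asIdeal →
        e.s - algebraMap (𝓞 CF.KK) (𝓞 M) d ∈ R.asIdeal → R = P := by
  have hmax := v.isMaximal
  let _ : Field (𝓞 CF.KK ⧸ v.asIdeal) := Ideal.Quotient.field _
  have : Finite (𝓞 CF.KK ⧸ v.asIdeal) := Ideal.finiteQuotientOfFreeOfNeBot _ v.ne_bot
  have hcard : Nat.card (𝓞 CF.KK ⧸ v.asIdeal) = Ideal.absNorm v.asIdeal := by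
    rw [Ideal.absNorm_apply, Submodule.cardQuot_apply]
  have hq0 : Ideal.absNorm v.asIdeal ≠ 0 := by rw [← hcard]; exact Nat.card_pos.ne'
  set g := Ideal.Quotient.mk v.asIdeal with hg
  have hg0 : ∀ a, g a = 0 ↔ a ∈ v.asIdeal := fun a => Ideal.Quotient.eq_zero_iff_mem
  have hc : (g d) ^ 2 = g (eE D) := by
    rw [← hg0, map_sub, map_pow, sub_eq_zero] at hd
    exact hd
  set φ := n3_ev e g (g d) hc with hφd
  have φal : ∀ a, φ (algebraMap (𝓞 CF.KK) (𝓞 M) a) = g a := n3_ev_alg e g _ hc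
  have φs : φ e.s = g d := n3_ev_s e g _ hc
  have hφ : Function.Surjective φ := by
    intro y
    obtain ⟨a, rfl⟩ := Ideal.Quotient.mk_surjective y
    exact ⟨algebraMap (𝓞 CF.KK) (𝓞 M) a, φal a⟩
  have nP : Ideal.absNorm (RingHom.ker φ) = Ideal.absNorm v.asIdeal := by
    rw [← hcard, Ideal.absNorm_apply, Submodule.cardQuot_apply,
      Nat.card_congr (RingHom.quotientKerEquivOfSurjective hφ).toEquiv]
  refine ⟨⟨RingHom.ker φ, RingHom.ker_isPrime φ, n3_ne_bot (by rw [nP]; exact hq0)⟩, nP, ?_, ?_, ?_⟩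
  · ext a
    change φ (algebraMap (𝓞 CF.KK) (𝓞 M) a) = 0 ↔ _
    rw [φal, hg0]
  · change φ (e.s - algebraMap (𝓞 CF.KK) (𝓞 M) d) = 0
    rw [map_sub, φal, φs, sub_self]
  · intro R hR hsR
    apply n3_max_eq
    intro x hx
    have hx' : g (n3a e x) + g (n3b e x) * g d = 0 := hx
    have h3 : n3a e x + n3b e x * d ∈ v.asIdeal := by
      rw [← hg0, map_add, map_mul]
      exact hx'
    have h4 : algebraMap (𝓞 CF.KK) (𝓞 M) (n3a e x + n3b e x * d) ∈ R.asIdeal := by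
      rw [← hR] at h3
      exact h3
    have e1 : x = algebraMap (𝓞 CF.KK) (𝓞 M) (n3a e x + n3b e x * d) +
        algebraMap (𝓞 CF.KK) (𝓞 M) (n3b e x) * (e.s - algebraMap (𝓞 CF.KK) (𝓞 M) d) := by
      conv_lhs => rw [n3_eq e x]
      simp only [map_add, map_mul]
      ring
    rw [e1]
    exact add_mem h4 (Ideal.mul_mem_left _ _ hsR)

theorem n3_mem {p : Eis} (hp : Prime p) (v : HeightOneSpectrum (𝓞 CF.KK)) (hv : eE p ∈ v.asIdeal)
    (a : Eis) : eE a ∈ v.asIdeal ↔ p ∣ a := by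
  constructor
  · intro ha
    have hp1 : Prime (eE p) := (MulEquiv.prime_iff eE).2 hp
    have h1 : (Ideal.span {eE p} : Ideal (𝓞 CF.KK)).IsPrime :=
      (Ideal.span_singleton_prime hp1.ne_zero).2 hp1
    have h2 : (Ideal.span {eE p} : Ideal (𝓞 CF.KK)) ≠ ⊥ := by
      rw [Ne, Ideal.span_singleton_eq_bot]
      exact hp1.ne_zero
    have h3 := (h1.isMaximal h2).eq_of_le v.isPrime.ne_top ((Ideal.span_singleton_le_iff_mem _).2 hv)
    rw [← h3, Ideal.mem_span_singleton] at ha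
    obtain ⟨c, hc⟩ := ha
    refine ⟨eE.symm c, ?_⟩
    apply eE.injective
    rw [map_mul, eE.apply_symm_apply, hc]
  · rintro ⟨c, rfl⟩
    rw [map_mul]
    exact Ideal.mul_mem_right _ _ hv

theorem ext_ram (e : Ext D M) {p : Eis} (hp : Prime p) (hD : p ∣ 2 * D) (v : HeightOneSpectrum (𝓞 CF.KK))
    (hv : eE p ∈ v.asIdeal) : ∃ P : HeightOneSpectrum (𝓞 M),
      (∀ R : HeightOneSpectrum (𝓞 M), R.asIdeal.comap (algebraMap (𝓞 CF.KK) (𝓞 M)) = v.asIdeal ↔ R = P) ∧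
      Ideal.absNorm P.asIdeal = Ideal.absNorm v.asIdeal := by
  have hmax := v.isMaximal
  -- a square root of `D` modulo `v`
  obtain ⟨d, hd, hd2⟩ : ∃ d : 𝓞 CF.KK, d ^ 2 - eE D ∈ v.asIdeal ∧ 2 * d ∈ v.asIdeal := by
    rcases hp.dvd_or_dvd hD with h2 | h2
    · have h3 : (2 : 𝓞 CF.KK) ∈ v.asIdeal := by
        have := (n3_mem hp v hv 2).2 h2
        rwa [map_ofNat] at this
      let _ : Field (𝓞 CF.KK ⧸ v.asIdeal) := Ideal.Quotient.field _
      have : Finite (𝓞 CF.KK ⧸ v.asIdeal) := Ideal.finiteQuotientOfFreeOfNeBot _ v.ne_bot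
      have h4 : (2 : 𝓞 CF.KK ⧸ v.asIdeal) = 0 := by
        have h5 := (Ideal.Quotient.eq_zero_iff_mem (I := v.asIdeal)).2 h3
        rwa [map_ofNat] at h5
      have h5 : CharP (𝓞 CF.KK ⧸ v.asIdeal) 2 := CharTwo.of_one_ne_zero_of_two_eq_zero one_ne_zero h4
      obtain ⟨c, hc⟩ := FiniteField.isSquare_of_char_two (ringChar.eq _ 2) (Ideal.Quotient.mk v.asIdeal (eE D))
      obtain ⟨d, rfl⟩ := Ideal.Quotient.mk_surjective c
      refine ⟨d, ?_, Ideal.mul_mem_right _ _ h3⟩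
      rw [← Ideal.Quotient.eq_zero_iff_mem, map_sub, hc, sq, map_mul, sub_self]
    · refine ⟨0, ?_, ?_⟩
      · rw [zero_pow two_ne_zero, zero_sub]
        exact neg_mem ((n3_mem hp v hv D).2 h2)
      · rw [mul_zero]
        exact zero_mem _
  obtain ⟨P, h1, h2, h3, h4⟩ := n3_root e v d hd
  refine ⟨P, fun R => ⟨fun hR => h4 R hR ?_, fun hR => by rw [hR]; exact h2⟩, h1⟩
  have hRm : ∀ a, a ∈ v.asIdeal → algebraMap (𝓞 CF.KK) (𝓞 M) a ∈ R.asIdeal := by
    intro a ha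
    rw [← hR] at ha
    exact ha
  refine R.isPrime.mem_of_pow_mem 2 ?_
  have e1 : (e.s - algebraMap (𝓞 CF.KK) (𝓞 M) d) ^ 2 =
      - algebraMap (𝓞 CF.KK) (𝓞 M) (d ^ 2 - eE D) -
        algebraMap (𝓞 CF.KK) (𝓞 M) (2 * d) * (e.s - algebraMap (𝓞 CF.KK) (𝓞 M) d) := by
    simp only [map_sub, map_mul, map_pow, map_ofNat]
    linear_combination n3_hs e
  rw [e1]
  exact sub_mem (neg_mem (hRm _ hd)) (Ideal.mul_mem_right _ _ (hRm _ hd2))

theorem ext_split (e : Ext D M) {p : Eis} (hp : Prime p) (hD : ¬ p ∣ 2 * D) (hs : ∃ y : Eis, p ∣ y ^ 2 - D)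
    (v : HeightOneSpectrum (𝓞 CF.KK)) (hv : eE p ∈ v.asIdeal) : ∃ P Q : HeightOneSpectrum (𝓞 M), P ≠ Q ∧
      (∀ R : HeightOneSpectrum (𝓞 M), R.asIdeal.comap (algebraMap (𝓞 CF.KK) (𝓞 M)) = v.asIdeal ↔ R = P ∨ R = Q) ∧
      Ideal.absNorm P.asIdeal = Ideal.absNorm v.asIdeal ∧ Ideal.absNorm Q.asIdeal = Ideal.absNorm v.asIdeal := by
  obtain ⟨y, hy⟩ := hs
  have hd : (eE y) ^ 2 - eE D ∈ v.asIdeal := by
    have := (n3_mem hp v hv (y ^ 2 - D)).2 hy
    rwa [map_sub, map_pow] at this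
  have hd' : (-eE y) ^ 2 - eE D ∈ v.asIdeal := by
    rw [neg_sq]
    exact hd
  obtain ⟨P, h1, h2, h3, h4⟩ := n3_root e v (eE y) hd
  obtain ⟨Q, h1', h2', h3', h4'⟩ := n3_root e v (-eE y) hd'
  have hPQ : P ≠ Q := by
    intro hPQ
    rw [← hPQ] at h3'
    have h5 : algebraMap (𝓞 CF.KK) (𝓞 M) (2 * eE y) ∈ P.asIdeal := by
      have h6 := sub_mem h3' h3
      have e1 : e.s - algebraMap (𝓞 CF.KK) (𝓞 M) (-eE y) - (e.s - algebraMap (𝓞 CF.KK) (𝓞 M) (eE y)) =
          algebraMap (𝓞 CF.KK) (𝓞 M) (2 * eE y) := by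
        simp only [map_neg, map_mul, map_ofNat]
        ring
      rwa [e1] at h6
    have h6 : 2 * eE y ∈ v.asIdeal := by
      rw [← h2]
      exact h5
    rcases v.isPrime.mem_or_mem h6 with h7 | h7
    · apply hD
      have h8 : eE (2 : Eis) ∈ v.asIdeal := by
        rw [map_ofNat]
        exact h7
      exact ((n3_mem hp v hv 2).1 h8).mul_right D
    · apply hD
      have h8 := (n3_mem hp v hv y).1 h7
      have h9 : p ∣ D := by
        have h10 := dvd_sub (h8.mul_left y) hy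
        rw [← sq] at h10
        have e1 : y ^ 2 - (y ^ 2 - D) = D := by ring
        rwa [e1] at h10
      exact h9.mul_left 2
  refine ⟨P, Q, hPQ, fun R => ⟨fun hR => ?_, ?_⟩, h1, h1'⟩
  · have h5 : (e.s - algebraMap (𝓞 CF.KK) (𝓞 M) (eE y)) * (e.s - algebraMap (𝓞 CF.KK) (𝓞 M) (-eE y)) ∈
        R.asIdeal := by
      have e1 : (e.s - algebraMap (𝓞 CF.KK) (𝓞 M) (eE y)) * (e.s - algebraMap (𝓞 CF.KK) (𝓞 M) (-eE y)) =
          - algebraMap (𝓞 CF.KK) (𝓞 M) ((eE y) ^ 2 - eE D) := by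
        simp only [map_sub, map_neg, map_pow]
        linear_combination n3_hs e
      rw [e1]
      refine neg_mem ?_
      rw [← hR] at hd
      exact hd
    rcases R.isPrime.mem_or_mem h5 with h6 | h6
    · exact Or.inl (h4 R hR h6)
    · exact Or.inr (h4' R hR h6)
  · rintro (rfl | rfl)
    · exact h2
    · exact h2'

theorem ext_inert (e : Ext D M) {p : Eis} (hp : Prime p) (hs : ¬ ∃ y : Eis, p ∣ y ^ 2 - D)
    (v : HeightOneSpectrum (𝓞 CF.KK)) (hv : eE p ∈ v.asIdeal) : ∃ P : HeightOneSpectrum (𝓞 M),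
      (∀ R : HeightOneSpectrum (𝓞 M), R.asIdeal.comap (algebraMap (𝓞 CF.KK) (𝓞 M)) = v.asIdeal ↔ R = P) ∧
      Ideal.absNorm P.asIdeal = Ideal.absNorm v.asIdeal ^ 2 := by
  have hmax := v.isMaximal
  let _ : Field (𝓞 CF.KK ⧸ v.asIdeal) := Ideal.Quotient.field _
  have : Finite (𝓞 CF.KK ⧸ v.asIdeal) := Ideal.finiteQuotientOfFreeOfNeBot _ v.ne_bot
  have hcard : Nat.card (𝓞 CF.KK ⧸ v.asIdeal) = Ideal.absNorm v.asIdeal := by
    rw [Ideal.absNorm_apply, Submodule.cardQuot_apply]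
  have hq0 : Ideal.absNorm v.asIdeal ≠ 0 := by rw [← hcard]; exact Nat.card_pos.ne'
  set g := Ideal.Quotient.mk v.asIdeal with hg
  have hg0 : ∀ a, g a = 0 ↔ a ∈ v.asIdeal := fun a => Ideal.Quotient.eq_zero_iff_mem
  have hno : ∀ c : 𝓞 CF.KK ⧸ v.asIdeal, c ^ 2 ≠ g (eE D) := by
    intro c hc
    obtain ⟨d, rfl⟩ := Ideal.Quotient.mk_surjective c
    apply hs
    refine ⟨eE.symm d, ?_⟩
    rw [← n3_mem hp v hv, map_sub, map_pow, eE.apply_symm_apply, ← hg0, map_sub, map_pow, hc, sub_self]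
  set I := v.asIdeal.map (algebraMap (𝓞 CF.KK) (𝓞 M)) with hI
  have hmem : ∀ x : 𝓞 M, x ∈ I ↔ n3a e x ∈ v.asIdeal ∧ n3b e x ∈ v.asIdeal := by
    intro x
    constructor
    · let J : Ideal (𝓞 M) :=
        { carrier := {x | n3a e x ∈ v.asIdeal ∧ n3b e x ∈ v.asIdeal}
          add_mem' := by
            rintro x y ⟨h1, h2⟩ ⟨h3, h4⟩
            change _ ∧ _
            rw [(n3_add e x y).1, (n3_add e x y).2]
            exact ⟨add_mem h1 h3, add_mem h2 h4⟩
          zero_mem' := by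
            have h := n3_alg e 0
            rw [map_zero] at h
            change _ ∧ _
            rw [h.1, h.2]
            exact ⟨zero_mem _, zero_mem _⟩
          smul_mem' := by
            rintro y x ⟨h1, h2⟩
            change _ ∧ _
            rw [smul_eq_mul, (n3_mul e y x).1, (n3_mul e y x).2]
            exact ⟨add_mem (Ideal.mul_mem_left _ _ h1)
              (Ideal.mul_mem_left _ _ (Ideal.mul_mem_left _ _ h2)),
              add_mem (Ideal.mul_mem_left _ _ h2) (Ideal.mul_mem_left _ _ h1)⟩ }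
      have hJ : I ≤ J := by
        rw [hI, Ideal.map_le_iff_le_comap]
        intro a ha
        change _ ∧ _
        rw [(n3_alg e a).1, (n3_alg e a).2]
        exact ⟨ha, zero_mem _⟩
      exact fun hx => hJ hx
    · rintro ⟨h1, h2⟩
      rw [n3_eq e x]
      exact add_mem (Ideal.mem_map_of_mem _ h1) (Ideal.mul_mem_right _ _ (Ideal.mem_map_of_mem _ h2))
  have key : ∀ a b : 𝓞 CF.KK, a ^ 2 - eE D * b ^ 2 ∈ v.asIdeal → a ∈ v.asIdeal ∧ b ∈ v.asIdeal := by
    intro a b hab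
    rw [← hg0] at hab
    simp only [map_sub, map_mul, map_pow] at hab
    have hb : g b = 0 := by
      by_contra hb
      apply hno (g a / g b)
      rw [div_pow, div_eq_iff (pow_ne_zero 2 hb)]
      linear_combination hab
    rw [hb] at hab
    have ha : g a = 0 := by
      have : (g a) ^ 2 = 0 := by linear_combination hab
      exact pow_eq_zero_iff two_ne_zero |>.1 this
    exact ⟨(hg0 a).1 ha, (hg0 b).1 hb⟩
  have hprime : I.IsPrime := by
    refine ⟨?_, ?_⟩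
    · intro htop
      have h1 : (1 : 𝓞 M) ∈ I := by rw [htop]; exact Submodule.mem_top
      have h2 := (hmem 1).1 h1
      have h3 := n3_alg e 1
      rw [map_one] at h3
      rw [h3.1] at h2
      exact v.isPrime.ne_top ((Ideal.eq_top_iff_one _).2 h2.1)
    · intro x y hxy
      have h1 := (hmem _).1 hxy
      rw [(n3_mul e x y).1, (n3_mul e x y).2] at h1
      set a := n3a e x
      set b := n3b e x
      set a' := n3a e y
      set b' := n3b e y
      have h2 : (a ^ 2 - eE D * b ^ 2) * (a' ^ 2 - eE D * b' ^ 2) ∈ v.asIdeal := by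
        have e1 : (a ^ 2 - eE D * b ^ 2) * (a' ^ 2 - eE D * b' ^ 2) =
            (a * a' + eE D * (b * b')) * (a * a' + eE D * (b * b')) -
            (a * b' + b * a') * (eE D * (a * b' + b * a')) := by ring
        rw [e1]
        exact sub_mem (Ideal.mul_mem_right _ _ h1.1) (Ideal.mul_mem_right _ _ h1.2)
      rcases v.isPrime.mem_or_mem h2 with h3 | h3
      · exact Or.inl ((hmem x).2 (key a b h3))
      · exact Or.inr ((hmem y).2 (key a' b' h3))
  have hnorm : Ideal.absNorm I = Ideal.absNorm v.asIdeal ^ 2 := by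
    rw [hI, Ideal.absNorm_algebraMap, ← IsFractionRing.finrank_eq (𝓞 CF.KK) CF.KK (𝓞 M) M,
      finrank_ext e]
  refine ⟨⟨I, hprime, n3_ne_bot (by rw [hnorm]; exact pow_ne_zero _ hq0)⟩, ?_, hnorm⟩
  intro R
  constructor
  · intro hR
    apply n3_max_eq
    change I ≤ R.asIdeal
    rw [hI, Ideal.map_le_iff_le_comap, hR]
  · rintro rfl
    ext a
    change algebraMap (𝓞 CF.KK) (𝓞 M) a ∈ I ↔ _
    rw [hmem, (n3_alg e a).1, (n3_alg e a).2]
    exact ⟨fun h => h.1, fun h => ⟨h, zero_mem _⟩⟩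

end JL
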