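import Pool.Agent.JL.B1

/-!
# [JL-B2] the quadratic symbol: the value at `λ` and primitivity

PROOF. `q2_la`: `la` is prime, does not divide `2`; `la ∤ D`; the squares modulo `la` (field of 3 elements) are `0, 1`, `D ≡ η mod 3`: `∃ y, la ∣ y² - D` iff `η = 1`.
`q2_prim` (`D` in the class, not a unit): for a prime `p ∣ 4 D` there is `u` coprime to `4 D`, `u ≡ 1 mod 4 D / p`, with `q2 u = -1`. Write `P = ∏ T`, `4 D = 4 ω^(2i) c P`.
(a) `p ∤ 2`: `p` is associated to a `p' ∈ T` (it divides `D = ω^(2i) c P`). Chinese remainder theorem: `u ≡ 1 mod 8 ∏_{q ∈ T, q ≠ p'} q` and `u ≡ n mod p'`, `c2 p' n = -1` (`Q3L.exists_nonsq`). `u ≡ 1 mod 8`: Prim, `tt u = et u = 0`, `cx c u = 0`, `c2 q u = 1` for `q ≠ p'`: `fQ c T u = c2 p' n = -1`.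
    `4 D / p` divides `8 ∏_{q ≠ p'} q` (`4 c ∣ 8`).
(b) `p ∣ 2` (`p` associated to `2`): if `m` is `4 D / p` then `m` is associated to `2 D`.
  (b1) `c = ± 2`: `2 D` is `4 P` up to a unit. `u ≡ 1 mod P`, `u ≡ 1 + 4 ω mod 8`: `tt u = 0`, `et u = 1`, `cx c u = 1` for `c = 2` and `c = -2`, all `c2 q u = 1`: `fQ = -1`.
  (b2) `c = ± 1`: `2 D` is `2 P` up to a unit. If `tt P = 1`: `u ≡ 1 mod P`, `u ≡ -1 mod 4` (CRT); `u = (-1)(-u)`, `-u ≡ 1 mod 4` Prim, `tt = 0`, `cx c (-u) = 0`, `c2 q (-u) = c2 q (-1) = sg (tt q)`: product `sg (∑ tt q) = sg (tt P) = -1`.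
     If `tt P = 0`: then `P ≡ 1 mod 4`, `D ≡ c ω^(2i) mod 4`; `D` is not a square modulo `4` (`CondTwo`), so `c = -1`. `u ≡ 1 mod P`, `u ≡ r3 mod 4`: Prim, `tt u = 1`: `fQ = sg (cx (-1) u) ∏ sg (tt q · 1) = sg 1 · sg (tt P) = -1`. In both cases `u ≡ 1 mod 2 P` (`r3 = 1 + 2 ω`).
`q2_neg_exists`: take `p = 2` in `q2_prim`.
-/

set_option autoImplicit false

open scoped Classical ComplexConjugate

namespace JL

open CM27 JZ
open CU (la eE)
open CUL (Nl ez si ta DS Cont LV IsRep rp cr mn zw OT GalU)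
open Q3L (fQ Dec)

variable {D : Eis}

theorem b2_crt {M N : Eis} (h : IsCoprime M N) (x y : Eis) : ∃ u : Eis, M ∣ u - x ∧ N ∣ u - y := by
  obtain ⟨a, b, hab⟩ := h
  refine ⟨y * (a * M) + x * (b * N), ⟨(y - x) * a, ?_⟩, ⟨(x - y) * b, ?_⟩⟩
  · have h1 : b * N = 1 - a * M := by linear_combination hab
    rw [h1]
    ring
  · have h1 : a * M = 1 - b * N := by linear_combination hab
    rw [h1]
    ring

theorem b2_of_dec (d : Dat D) {x z g : Eis} (h : Dec x z g) (hf : fQ d.c d.T g = -1) : q2 d x = -1 := by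
  have h1 := q2_dec d h
  rw [hf] at h1
  exact_mod_cast h1

theorem b2_tt_prod (S : Finset Eis) (h : ∀ p ∈ S, Q3.Prim p) :
    Q3.Prim (∏ p ∈ S, p) ∧ Q3.tt (∏ p ∈ S, p) = ∑ p ∈ S, Q3.tt p := by
  induction S using Finset.induction_on with
  | empty =>
    rw [Finset.prod_empty, Finset.sum_empty]
    exact ⟨Q3.prim_one, Q3L.tt_one⟩
  | insert q S hq ih =>
    obtain ⟨h1, h2⟩ := ih fun p hp => h p (Finset.mem_insert_of_mem hp)
    have h3 := h q (Finset.mem_insert_self q S)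
    rw [Finset.prod_insert hq, Finset.sum_insert hq, Q3.tt_mul h3 h1, h2]
    exact ⟨h3.mul h1, rfl⟩

theorem b2_D (d : Dat D) : D = CU.om ^ (2 * d.i) * (d.c * ∏ q ∈ d.T, q) := by
  have h := d.hD'
  unfold Q3.Dd at h
  exact h

theorem b2_c (d : Dat D) : ∃ c' : Eis, d.c * c' = 2 := by
  rcases d.hT.2 with h | h | h | h
  · exact ⟨2, by rw [h]; norm_num⟩
  · exact ⟨-2, by rw [h]; norm_num⟩
  · exact ⟨1, by rw [h]; norm_num⟩
  · exact ⟨-1, by rw [h]; norm_num⟩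

theorem b2_om_pow (n : ℕ) : ∃ v : Eis, CU.om ^ n * v = 1 := by
  have h3 : CU.om ^ 3 = 1 := by decide
  refine ⟨CU.om ^ (2 * n), ?_⟩
  rw [← pow_add, show n + 2 * n = 3 * n by ring, pow_mul, h3, one_pow]

/-- the case of an odd prime -/
theorem b2_odd (d : Dat D) {p : Eis} (hp : Prime p) (h2 : ¬ p ∣ 2) (hpD : p ∣ 4 * D) :
    ∃ u : Eis, (∀ m : Eis, p * m = 4 * D → m ∣ u - 1) ∧ q2 d u = -1 := by
  have := eis_isDomain
  have := eis_pid
  obtain ⟨c', hc'⟩ := b2_c d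
  obtain ⟨v, hv⟩ := b2_om_pow (2 * d.i)
  have hp4 : ¬ p ∣ 4 := by
    intro h
    have : (4 : Eis) = 2 * 2 := by norm_num
    rw [this] at h
    exact (hp.dvd_or_dvd h).elim h2 h2
  have hpP : p ∣ ∏ q ∈ d.T, q := by
    rcases hp.dvd_or_dvd hpD with h | h
    · exact absurd h hp4
    · rw [b2_D d] at h
      rcases hp.dvd_or_dvd h with h | h
      · exact absurd (isUnit_of_dvd_unit h (IsUnit.of_mul_eq_one _ hv)) hp.not_isUnit
      · rcases hp.dvd_or_dvd h with h | h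
        · exact absurd (h.trans ⟨c', hc'.symm⟩) h2
        · exact h
  obtain ⟨p', hp', hpp⟩ := hp.exists_mem_finset_dvd hpP
  obtain ⟨hpr, hprim⟩ := d.hT.1 p' hp'
  have hass : Associated p p' := (hp.dvd_prime_iff_associated hpr).1 hpp
  obtain ⟨e, he⟩ := hass
  have hQ : p' * ∏ q ∈ d.T.erase p', q = ∏ q ∈ d.T, q := Finset.mul_prod_erase d.T (fun q => q) hp'
  set Q := ∏ q ∈ d.T.erase p', q with hQdef
  have hcop : IsCoprime (8 * Q) p' := by
    refine IsCoprime.symm ((hpr.irreducible.coprime_iff_not_dvd).2 ?_)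
    intro h
    rcases hpr.dvd_or_dvd h with h | h
    · have h8 : (8 : Eis) = 2 ^ 3 := by norm_num
      rw [h8] at h
      exact Q3.not_dvd_two hpr hprim (hpr.dvd_of_dvd_pow h)
    · obtain ⟨q, hq, hpq⟩ := hpr.exists_mem_finset_dvd h
      obtain ⟨hq1, hq2⟩ := Finset.mem_erase.1 hq
      obtain ⟨hqr, hqprim⟩ := d.hT.1 q hq2
      exact Q3L.not_dvd_of_ne hpr hprim hqr hqprim (Ne.symm hq1) hpq
  obtain ⟨n, hn1, hn2⟩ := Q3L.exists_nonsq hpr hprim
  obtain ⟨u, hu1, hu2⟩ := b2_crt hcop 1 n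
  have hu8 : (8 : Eis) ∣ u - 1 := (Dvd.intro _ rfl).trans hu1
  have huQ : Q ∣ u - 1 := (Dvd.intro_left _ rfl).trans hu1
  have hu4 : (4 : Eis) ∣ u - 1 := (show (4 : Eis) ∣ 8 from ⟨2, by norm_num⟩).trans hu8
  have hu4' : (4 : Eis) ∣ 1 - u := by
    rw [← neg_sub, dvd_neg]
    exact hu4
  have huP : Q3.Prim u := Q3L.prim_congr Q3.prim_one hu4'
  have htt : Q3.tt u = 0 := by rw [Q3L.tt_congr hu4, Q3L.tt_one]
  have hcx : Q3L.cx d.c u = 0 := by
    rw [Q3L.cx_congr d.hT.2 ((Q3L.MM_dvd_eight d.c).trans hu8), Q3L.cx_one]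
  refine ⟨u, fun m hm => ?_, ?_⟩
  · have h1 : p * m = p * (4 * CU.om ^ (2 * d.i) * d.c * (e : Eis) * Q) := by
      have h9 : D = CU.om ^ (2 * d.i) * (d.c * (p * (e : Eis) * Q)) := by
        rw [he, hQ]
        exact b2_D d
      calc p * m = 4 * D := hm
        _ = 4 * (CU.om ^ (2 * d.i) * (d.c * (p * (e : Eis) * Q))) := by rw [← h9]
        _ = _ := by ring
    have h3 : m = 4 * CU.om ^ (2 * d.i) * d.c * (e : Eis) * Q := mul_left_cancel₀ hp.ne_zero h1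
    have h4 : m ∣ 8 * Q := by
      refine ⟨c' * v * ((e⁻¹ : Eisˣ) : Eis), ?_⟩
      have h5 : (e : Eis) * ((e⁻¹ : Eisˣ) : Eis) = 1 := Units.mul_inv e
      rw [h3]
      calc 8 * Q = 4 * Q * 2 * 1 * 1 := by ring
        _ = 4 * Q * (d.c * c') * (CU.om ^ (2 * d.i) * v) * ((e : Eis) * ((e⁻¹ : Eisˣ) : Eis)) := by
          rw [hc', hv, h5]
        _ = _ := by ring
    exact h4.trans hu1
  · refine b2_of_dec d (x := u) (z := 1) (g := u) ⟨(one_mul u).symm, isUnit_one, huP⟩ ?_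
    unfold fQ
    rw [if_pos huP, hcx, Q3L.sg_zero, one_mul, ← Finset.mul_prod_erase d.T _ hp', htt, mul_zero, Q3L.sg_zero,
      one_mul, Q3L.c2_congr hpr hprim hu2, hn2, Finset.prod_eq_one, mul_one]
    intro q hq
    obtain ⟨hq1, hq2⟩ := Finset.mem_erase.1 hq
    obtain ⟨hqr, hqprim⟩ := d.hT.1 q hq2
    have h6 : q ∣ u - 1 := (Finset.dvd_prod_of_mem (fun q : Eis => q) hq).trans huQ
    rw [mul_zero, Q3L.sg_zero, one_mul, Q3L.c2_congr hqr hqprim h6, Q3L.c2_one hqr hqprim]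

/-- the case of the prime 2 -/
theorem b2_even (h : Cl0 D) (d : Dat D) : ∃ u : Eis, 2 * D ∣ u - 1 ∧ q2 d u = -1 := by
  obtain ⟨c', hc'⟩ := b2_c d
  obtain ⟨v, hv⟩ := b2_om_pow (2 * d.i)
  obtain ⟨hPr, hPt⟩ := b2_tt_prod d.T fun p hp => (d.hT.1 p hp).2
  set P := ∏ q ∈ d.T, q with hP
  have hD := b2_D d
  rw [← hP] at hD
  have hdvd : ∀ q ∈ d.T, q ∣ P := fun q hq => Finset.dvd_prod_of_mem (fun q : Eis => q) hq
  have hcop3 : IsCoprime P 8 := by
    have h8 : (8 : Eis) = 2 ^ 3 := by norm_num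
    rw [h8]
    exact Q3L.cop_two hPr.not_two_dvd 3
  have hcop2 : IsCoprime P 4 := by
    have h8 : (4 : Eis) = 2 ^ 2 := by norm_num
    rw [h8]
    exact Q3L.cop_two hPr.not_two_dvd 2
  have hcop1 : IsCoprime P 2 := by
    have h8 : (2 : Eis) = 2 ^ 1 := by norm_num
    rw [h8]
    exact Q3L.cop_two hPr.not_two_dvd 1
  by_cases hc : d.c = 2 ∨ d.c = -2
  · obtain ⟨u, hu1, hu2⟩ := b2_crt hcop3 1 (1 + 4 * Q3.om)
    have h4 : (4 : Eis) ∣ u - 1 := by
      obtain ⟨k, hk⟩ := hu2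
      exact ⟨Q3.om + 2 * k, by linear_combination hk⟩
    have h4' : (4 : Eis) ∣ 1 - u := by
      rw [← neg_sub, dvd_neg]
      exact h4
    have huP : Q3.Prim u := Q3L.prim_congr Q3.prim_one h4'
    have htt : Q3.tt u = 0 := by rw [Q3L.tt_congr h4, Q3L.tt_one]
    have hcx : Q3L.cx d.c u = 1 := by
      rw [Q3L.cx_congr d.hT.2 ((Q3L.MM_dvd_eight d.c).trans hu2)]
      have e1 : Q3.tt (1 + 4 * Q3.om) = 0 := by
        unfold Q3.tt
        rw [if_pos (by decide)]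
      have e2 : Q3L.et (1 + 4 * Q3.om) = 1 := by decide
      unfold Q3L.cx
      rw [e1, e2]
      rcases hc with hc | hc
      · rw [hc, if_neg (by decide), if_neg (by decide), if_pos rfl]
        rfl
      · rw [hc, if_neg (by decide), if_neg (by decide), if_neg (by decide)]
    refine ⟨u, ?_, ?_⟩
    · have h5 : 4 * P ∣ u - 1 := hcop2.symm.mul_dvd h4 hu1
      have h6 : 2 * D ∣ 4 * P := by
        refine ⟨v * c', ?_⟩
        calc 4 * P = 2 * P * 2 * 1 := by ring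
          _ = 2 * P * (d.c * c') * (CU.om ^ (2 * d.i) * v) := by rw [hc', hv]
          _ = 2 * (CU.om ^ (2 * d.i) * (d.c * P)) * (v * c') := by ring
          _ = _ := by rw [← hD]
      exact h6.trans h5
    · refine b2_of_dec d (x := u) (z := 1) (g := u) ⟨(one_mul u).symm, isUnit_one, huP⟩ ?_
      unfold fQ
      rw [if_pos huP, hcx, Q3L.sg_one, htt, Finset.prod_eq_one, mul_one]
      intro q hq
      obtain ⟨hqr, hqprim⟩ := d.hT.1 q hq
      rw [mul_zero, Q3L.sg_zero, one_mul, Q3L.c2_congr hqr hqprim ((hdvd q hq).trans hu1), Q3L.c2_one hqr hqprim]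
  · have hc1 : d.c = 1 ∨ d.c = -1 := by
      rcases d.hT.2 with h1 | h1 | h1 | h1
      · exact Or.inl h1
      · exact Or.inr h1
      · exact absurd (Or.inl h1) hc
      · exact absurd (Or.inr h1) hc
    have hMM : Q3L.MM d.c = 4 := by
      rcases hc1 with h1 | h1
      · rw [h1, Q3L.MM_one]
      · rw [h1, Q3L.MM_neg_one]
    have hfin : ∀ u x : Eis, P ∣ u - 1 → (4 : Eis) ∣ u - x → (2 : Eis) ∣ x - 1 → 2 * D ∣ u - 1 := by
      intro u x h1 h2 h3
      have h5 : (2 : Eis) ∣ u - 1 := by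
        have : u - 1 = (u - x) + (x - 1) := by ring
        rw [this]
        exact dvd_add ((show (2 : Eis) ∣ 4 from ⟨2, by norm_num⟩).trans h2) h3
      have h6 : 2 * P ∣ u - 1 := hcop1.symm.mul_dvd h5 h1
      have h7 : 2 * D ∣ 2 * P := by
        have hcc : d.c * d.c = 1 := by
          rcases hc1 with h1 | h1
          · rw [h1]
            norm_num
          · rw [h1]
            norm_num
        refine ⟨v * d.c, ?_⟩
        calc 2 * P = 2 * P * 1 * 1 := by ring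
          _ = 2 * P * (d.c * d.c) * (CU.om ^ (2 * d.i) * v) := by rw [hcc, hv]
          _ = 2 * (CU.om ^ (2 * d.i) * (d.c * P)) * (v * d.c) := by ring
          _ = _ := by rw [← hD]
      exact h7.trans h6
    rcases Q3L.prim_cases hPr with ⟨ht, m, hm⟩ | ⟨ht, m, hm⟩
    · have hcm : d.c = -1 := by
        rcases hc1 with h1 | h1
        · exfalso
          refine h.2.2 (CU.om ^ d.i) ⟨CU.om ^ (2 * d.i) * m, ?_⟩
          calc D - (CU.om ^ d.i) ^ 2 = CU.om ^ (2 * d.i) * (d.c * P) - (CU.om ^ d.i) ^ 2 := by rw [← hD]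
            _ = CU.om ^ (2 * d.i) * (1 * (1 + 4 * m)) - (CU.om ^ d.i) ^ 2 := by rw [h1, hm]
            _ = _ := by
              rw [← pow_mul, mul_comm d.i 2]
              ring
        · exact h1
      obtain ⟨u, hu1, hu2⟩ := b2_crt hcop2 1 Q3.r3
      have h4' : (4 : Eis) ∣ Q3.r3 - u := by
        rw [← neg_sub, dvd_neg]
        exact hu2
      have huP : Q3.Prim u := Q3L.prim_congr Q3.prim_r3 h4'
      have htt : Q3.tt u = 1 := by rw [Q3L.tt_congr hu2, Q3L.tt_r3]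
      have hcx : Q3L.cx d.c u = 1 := by
        have h5 : Q3L.MM d.c ∣ u - Q3.r3 := by
          rw [hMM]
          exact hu2
        rw [Q3L.cx_congr d.hT.2 h5, hcm]
        exact Q3L.cx_r3.2.1
      refine ⟨u, hfin u Q3.r3 hu1 hu2 ⟨Q3.om, by decide⟩, ?_⟩
      refine b2_of_dec d (x := u) (z := 1) (g := u) ⟨(one_mul u).symm, isUnit_one, huP⟩ ?_
      unfold fQ
      rw [if_pos huP, hcx, Q3L.sg_one, htt, Finset.prod_congr rfl fun q hq => by
        rw [mul_one, Q3L.c2_congr (d.hT.1 q hq).1 (d.hT.1 q hq).2 ((hdvd q hq).trans hu1),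
          Q3L.c2_one (d.hT.1 q hq).1 (d.hT.1 q hq).2, mul_one], ← Q3L.sg_sum, ← hPt, ht, Q3L.sg_zero, mul_one]
    · obtain ⟨u, hu1, hu2⟩ := b2_crt hcop2 1 (-1)
      have hg : (4 : Eis) ∣ -u - 1 := by
        have : -u - 1 = -(u - -1) := by ring
        rw [this, dvd_neg]
        exact hu2
      have hg' : (4 : Eis) ∣ 1 - -u := by
        rw [← neg_sub, dvd_neg]
        exact hg
      have huP : Q3.Prim (-u) := Q3L.prim_congr Q3.prim_one hg'
      have htt : Q3.tt (-u) = 0 := by rw [Q3L.tt_congr hg, Q3L.tt_one]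
      have hcx : Q3L.cx d.c (-u) = 0 := by
        have h5 : Q3L.MM d.c ∣ -u - 1 := by
          rw [hMM]
          exact hg
        rw [Q3L.cx_congr d.hT.2 h5, Q3L.cx_one]
      refine ⟨u, hfin u (-1) hu1 hu2 ⟨-1, by norm_num⟩, ?_⟩
      refine b2_of_dec d (x := u) (z := -1) (g := -u) ⟨by ring, isUnit_one.neg, huP⟩ ?_
      unfold fQ
      rw [if_pos huP, hcx, Q3L.sg_zero, one_mul, htt, Finset.prod_congr rfl fun q hq => by
        rw [mul_zero, Q3L.sg_zero, one_mul, Q3L.c2_congr (x := -u) (y := -1) (d.hT.1 q hq).1 (d.hT.1 q hq).2 (by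
          have h7 : -u - -1 = -(u - 1) := by ring
          rw [h7, dvd_neg]
          exact (hdvd q hq).trans hu1), Q3L.c2_neg_one (d.hT.1 q hq).1 (d.hT.1 q hq).2],
        ← Q3L.sg_sum, ← hPt, ht, Q3L.sg_one]

theorem q2_la (h : Cl0 D) (d : Dat D) : ((q2 d la : ℤ) : Eis) = d.η := by
  have hla2 : ¬ la ∣ 2 := by
    rw [CUL.la_dvd_iff]
    decide
  have h3 : la ∣ (3 : Eis) := (CUL.la_dvd_iff 3).2 (by decide)
  have h4 : la ∣ D - d.η := h3.trans d.congr
  rw [q2_prime d CUL.la_prime hla2, if_neg (cl_not_la h)]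
  rcases d.hη with he | he
  · have h5 : ∃ y : Eis, la ∣ y ^ 2 - D := by
      refine ⟨1, ?_⟩
      rw [he] at h4
      have h6 : (1 : Eis) ^ 2 - D = -(D - 1) := by ring
      rw [h6, dvd_neg]
      exact h4
    rw [if_pos h5, he, Int.cast_one]
  · have h5 : ¬ ∃ y : Eis, la ∣ y ^ 2 - D := by
      rintro ⟨y, hy⟩
      rw [he] at h4
      have h6 : la ∣ y ^ 2 + 1 := by
        have h7 : y ^ 2 + 1 = (y ^ 2 - D) + (D - -1) := by ring
        rw [h7]
        exact dvd_add hy h4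
      rw [CUL.la_dvd_iff, pow_two] at h6
      simp only [QuadraticAlgebra.re_add, QuadraticAlgebra.re_mul, QuadraticAlgebra.im_add, QuadraticAlgebra.im_mul,
        QuadraticAlgebra.re_one, QuadraticAlgebra.im_one] at h6
      have h8 : (3 : ℤ) ∣ (y.re + y.im) ^ 2 + 1 := by
        obtain ⟨k, hk⟩ := h6
        exact ⟨k + y.im ^ 2, by linear_combination hk⟩
      have h9 : (y.re + y.im) % 3 = 0 ∨ (y.re + y.im) % 3 = 1 ∨ (y.re + y.im) % 3 = 2 := by omega
      have h10 := Int.emod_emod_of_dvd ((y.re + y.im) ^ 2 + 1) (dvd_refl (3 : ℤ))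
      have h11 : ((y.re + y.im) ^ 2 + 1) % 3 = 0 := Int.emod_eq_zero_of_dvd h8
      rcases h9 with h9 | h9 | h9 <;> simp [Int.add_emod, pow_two, Int.mul_emod, h9] at h11
    rw [if_neg h5, he, Int.cast_neg, Int.cast_one]

theorem q2_prim (h : Cl0 D) (d : Dat D) {p : Eis} (hp : Prime p) (hpD : p ∣ 4 * D) :
    ∃ u : Eis, IsCoprime u (4 * D) ∧ (∀ m : Eis, p * m = 4 * D → m ∣ u - 1) ∧ q2 d u = -1 := by
  have := eis_isDomain
  by_cases h2 : p ∣ 2
  · obtain ⟨u, hu1, hu2⟩ := b2_even h d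
    obtain ⟨e, he⟩ : Associated p 2 := (hp.dvd_prime_iff_associated Q3.prime_two).1 h2
    refine ⟨u, (q2_ne_zero_iff d u).1 (by rw [hu2]; norm_num), fun m hm => ?_, hu2⟩
    have h3 : m = (e : Eis) * (2 * D) := by
      refine mul_left_cancel₀ hp.ne_zero ?_
      calc p * m = 4 * D := hm
        _ = 2 * (2 * D) := by ring
        _ = (p * (e : Eis)) * (2 * D) := by rw [he]
        _ = _ := by ring
    have h4 : m ∣ 2 * D := by
      refine ⟨((e⁻¹ : Eisˣ) : Eis), ?_⟩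
      have h5 : (e : Eis) * ((e⁻¹ : Eisˣ) : Eis) = 1 := Units.mul_inv e
      rw [h3]
      linear_combination (-(2 * D)) * h5
    exact h4.trans hu1
  · obtain ⟨u, hu1, hu2⟩ := b2_odd d hp h2 hpD
    exact ⟨u, (q2_ne_zero_iff d u).1 (by rw [hu2]; norm_num), hu1, hu2⟩

theorem q2_neg_exists (h : Cl0 D) (d : Dat D) : ∃ u : Eis, IsCoprime u (4 * D) ∧ q2 d u = -1 := by
  obtain ⟨u, h1, -, h3⟩ := q2_prim h d Q3.prime_two ((show (2 : Eis) ∣ 4 from ⟨2, by norm_num⟩).mul_right D)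
  exact ⟨u, h1, h3⟩

end JL
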