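import Pool.Agent.JL.N3
import Pool.Agent.JL.B2
import Pool.Agent.TR.A7c

/-!
# [JL-N3b] the zeta function of `ℚ(ω, √D)`

`q2I d I = q2 d (generator of I)`, a multiplicative function on ideals of `𝓞 KK` (`q2_mul`, `q2_unit`: independent of the generator; `q2I (0) = q2 d 0 = 0`).
PROOF of `idA_ext` (copy of TR/A7a.lean, `Dat.idA_oneI`, with `chI` replaced by `q2I d` and `D.split`, `D.inert`, `D.above_seven` by `ext_split`, `ext_inert`, `ext_ram`; `TR.a7a_norm`, `TR.a7a_fin`, `TR.a7a_pi`, `CM27.loc_idA`-machinery): for the place `v` with prime element `p`: `q2I d v = q2 d p`, and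
`p ∣ 2`: `q2 d p = 0` (`q2_two`; `p` associated to `2`); `p ∤ 2`: `q2_prime`.
`zeta_ext` (copy of TR/A7c.lean): for real `σ > 1` `dedekindZeta M σ = dedekindZeta KK σ · LSeries (idA KK (q2I d)) σ` (`TR.a7c_dz`, `TR.lseries_idA`, `ArithmeticFunction.LSeries_mul'`), and
`∑_I q2I d I N(I)^(-σ) = (1/6) ∑_b q2 d b N(b)^(-σ) = LJ d σ`: every nonzero ideal has exactly six generators (units of `ℤ[ω]`; the term `b = 0` is `0`; compare CUL/L6, `CM27.tsum_ideal`-type lemmas or use `Eis \ 0 → ideals` with fibres of size 6), `absNorm (span {eE b}) = N(b)`.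
-/

set_option autoImplicit false

open NumberField IsDedekindDomain Filter Topology
open scoped Classical ComplexConjugate

namespace JL

open CM27 JZ
open CU (eE)

variable {D : Eis} {M : Type} [Field M] [NumberField M] [Algebra CF.KK M]

/-- the quadratic symbol on ideals: `q2` of a generator -/
noncomputable def q2I (d : Dat D) (I : Ideal (𝓞 CF.KK)) : ℂ :=
  if h : ∃ b : Eis, I = Ideal.span {eE b} then (q2 d h.choose : ℂ) else 0

theorem q2I_span (d : Dat D) (b : Eis) : q2I d (Ideal.span {eE b}) = (q2 d b : ℂ) := by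
  have h : ∃ b' : Eis, (Ideal.span {eE b} : Ideal (𝓞 CF.KK)) = Ideal.span {eE b'} := ⟨b, rfl⟩
  have h1 : Associated (eE b) (eE h.choose) := Ideal.span_singleton_eq_span_singleton.1 h.choose_spec
  obtain ⟨u, hu⟩ := h1
  have h2 : h.choose = b * eE.symm (u : 𝓞 CF.KK) := by
    apply eE.injective
    rw [map_mul, eE.apply_symm_apply, hu]
  have h3 : IsUnit (eE.symm (u : 𝓞 CF.KK)) := u.isUnit.map eE.symm
  unfold q2I
  rw [dif_pos h, h2, q2_mul, q2_unit d h3, mul_one]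

theorem n3b_gen (I : Ideal (𝓞 CF.KK)) : ∃ b : Eis, I = Ideal.span {eE b} := by
  rcases CUL.l6_cases I with ⟨b, _, h⟩ | ⟨b, _, h⟩
  · exact ⟨b, h⟩
  · exact ⟨b, h⟩

theorem q2I_mul (d : Dat D) (I J : Ideal (𝓞 CF.KK)) : q2I d (I * J) = q2I d I * q2I d J := by
  obtain ⟨a, rfl⟩ := n3b_gen I
  obtain ⟨b, rfl⟩ := n3b_gen J
  rw [Ideal.span_singleton_mul_span_singleton, ← map_mul, q2I_span, q2I_span, q2I_span, q2_mul]
  push_cast
  ring

theorem n3b_zero (d : Dat D) : q2I d ⊥ = 0 := by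
  have h1 : (⊥ : Ideal (𝓞 CF.KK)) = Ideal.span {eE 0} := by
    rw [map_zero, Ideal.span_singleton_eq_bot.2 rfl]
  rw [h1, q2I_span, q2_two d (dvd_zero 2), Int.cast_zero]

theorem n3b_one (d : Dat D) : q2I d 1 = 1 := by
  have h1 : (1 : Ideal (𝓞 CF.KK)) = Ideal.span {eE 1} := by
    rw [map_one, Ideal.span_singleton_one, Ideal.one_eq_top]
  rw [h1, q2I_span, q2_unit d isUnit_one, Int.cast_one]

/-- `q2I` as a multiplicative map -/
noncomputable def n3b_hom (d : Dat D) : Ideal (𝓞 CF.KK) →*₀ ℂ where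
  toFun := q2I d
  map_zero' := n3b_zero d
  map_one' := n3b_one d
  map_mul' := q2I_mul d

/-- a prime element of a place -/
theorem n3b_prime (v : HeightOneSpectrum (𝓞 CF.KK)) :
    ∃ p : Eis, Prime p ∧ eE p ∈ v.asIdeal ∧ v.asIdeal = Ideal.span {eE p} := by
  obtain ⟨p, hp⟩ := n3b_gen v.asIdeal
  have h0 : eE p ≠ 0 := by
    intro h0
    apply v.ne_bot
    rw [hp, h0]
    exact Ideal.span_singleton_eq_bot.2 rfl
  have h1 : (Ideal.span {eE p} : Ideal (𝓞 CF.KK)).IsPrime := by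
    rw [← hp]
    exact v.isPrime
  have h2 : Prime (eE p) := (Ideal.span_singleton_prime h0).1 h1
  refine ⟨p, (MulEquiv.prime_iff (eE : Eis ≃* 𝓞 CF.KK)).1 h2, ?_, hp⟩
  rw [hp]
  exact Ideal.mem_span_singleton_self _

theorem n3b_fiber (d : Dat D) (e : Ext D M) {p : ℕ} (hp : p.Prime) (v : HeightOneSpectrum (𝓞 CF.KK))
    (hv : (p : 𝓞 CF.KK) ∈ v.asIdeal) (F : Finset (HeightOneSpectrum (𝓞 M)))
    (hF : ∀ P, P ∈ F ↔ TR.a7a_pi (L := CF.KK) P = v) :
    (∏ P ∈ F, (1 - PowerSeries.C (TR.oneI M P.asIdeal) *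
      PowerSeries.X ^ ((Ideal.absNorm P.asIdeal).factorization p) : PowerSeries ℂ)) =
    (1 - PowerSeries.C (TR.oneI CF.KK v.asIdeal) *
        PowerSeries.X ^ ((Ideal.absNorm v.asIdeal).factorization p)) *
      (1 - PowerSeries.C (n3b_hom d v.asIdeal) *
        PowerSeries.X ^ ((Ideal.absNorm v.asIdeal).factorization p)) := by
  classical
  have hpi : ∀ P : HeightOneSpectrum (𝓞 M), TR.a7a_pi (L := CF.KK) P = v ↔
      P.asIdeal.comap (algebraMap (𝓞 CF.KK) (𝓞 M)) = v.asIdeal := by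
    intro P
    constructor
    · intro h
      rw [← h]
      rfl
    · intro h
      exact HeightOneSpectrum.ext h
  have hM : ∀ P : HeightOneSpectrum (𝓞 M), TR.oneI M P.asIdeal = 1 := fun P => if_neg P.ne_bot
  have hL : TR.oneI CF.KK v.asIdeal = 1 := if_neg v.ne_bot
  simp only [hM, hL, map_one, one_mul]
  set k := (Ideal.absNorm v.asIdeal).factorization p with hk
  obtain ⟨q, hq, hqv, hqs⟩ := n3b_prime v
  have hval : n3b_hom d v.asIdeal = (q2 d q : ℂ) := by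
    have h1 : n3b_hom d v.asIdeal = q2I d v.asIdeal := rfl
    rw [h1, hqs, q2I_span]
  rw [hval]
  have hone : ∀ P : HeightOneSpectrum (𝓞 M),
      (∀ R : HeightOneSpectrum (𝓞 M), R.asIdeal.comap (algebraMap (𝓞 CF.KK) (𝓞 M)) =
        v.asIdeal ↔ R = P) → F = {P} := by
    intro P hR
    ext R
    rw [hF, hpi, hR, Finset.mem_singleton]
  by_cases h2D : q ∣ 2 * D
  · have hc : q2 d q = 0 := by
      have hdom := CUL.l6_domain
      by_cases h2 : q ∣ 2
      · have h3 : Associated q 2 := hq.irreducible.associated_of_dvd Q3.prime_two.irreducible h2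
        exact q2_two d h3.symm.dvd
      · rw [q2_prime d hq h2, if_pos ((hq.dvd_or_dvd h2D).resolve_left h2)]
    obtain ⟨P, hR, hP⟩ := ext_ram e hq h2D v hqv
    rw [hone P hR, Finset.prod_singleton, hP, hc, ← hk]
    simp
  · have h2 : ¬ q ∣ 2 := fun h => h2D (h.mul_right D)
    have hD : ¬ q ∣ D := fun h => h2D (h.mul_left 2)
    have hc := q2_prime d hq h2
    rw [if_neg hD] at hc
    by_cases hs : ∃ y : Eis, q ∣ y ^ 2 - D
    · rw [if_pos hs] at hc
      obtain ⟨P, Q, hPQ, hR, hP, hQ⟩ := ext_split e hq h2D hs v hqv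
      have hFR : F = {P, Q} := by
        ext R
        rw [hF, hpi, hR, Finset.mem_insert, Finset.mem_singleton]
      rw [hFR, Finset.prod_pair hPQ, hP, hQ, ← hk, hc]
      simp
    · rw [if_neg hs] at hc
      obtain ⟨P, hR, hP⟩ := ext_inert e hq hs v hqv
      rw [hone P hR, Finset.prod_singleton, hP, hc, Nat.factorization_pow]
      simp only [Finsupp.smul_apply, smul_eq_mul, ← hk]
      simp only [Int.cast_neg, Int.cast_one, map_neg, map_one]
      ring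

theorem n3b_loc (d : Dat D) (e : Ext D M) {p : ℕ} (hp : p.Prime) :
    CM27.loc p (TR.idA M (TR.oneI M)) =
      CM27.loc p (TR.idA CF.KK (TR.oneI CF.KK)) * CM27.loc p (TR.idA CF.KK (n3b_hom d)) := by
  classical
  set S : Finset (HeightOneSpectrum (𝓞 CF.KK)) := (TR.a7a_fin CF.KK hp).toFinset with hS
  set T : Finset (HeightOneSpectrum (𝓞 M)) := (TR.a7a_fin M hp).toFinset with hT
  have hS' : ∀ v : HeightOneSpectrum (𝓞 CF.KK), v ∈ S ↔ (p : 𝓞 CF.KK) ∈ v.asIdeal := by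
    intro v; simp [hS]
  have hT' : ∀ v : HeightOneSpectrum (𝓞 M), v ∈ T ↔ (p : 𝓞 M) ∈ v.asIdeal := by
    intro v; simp [hT]
  have e0 := TR.loc_idA M (TR.oneI M) hp T hT' (fun v => (Ideal.absNorm v.asIdeal).factorization p)
    (fun v hv => TR.a7a_norm M hp v ((hT' v).1 hv))
  have e1 := TR.loc_idA CF.KK (TR.oneI CF.KK) hp S hS'
    (fun v => (Ideal.absNorm v.asIdeal).factorization p)
    (fun v hv => TR.a7a_norm CF.KK hp v ((hS' v).1 hv))
  have e2 := TR.loc_idA CF.KK (n3b_hom d) hp S hS'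
    (fun v => (Ideal.absNorm v.asIdeal).factorization p)
    (fun v hv => TR.a7a_norm CF.KK hp v ((hS' v).1 hv))
  have hmem : ∀ P : HeightOneSpectrum (𝓞 M), (p : 𝓞 M) ∈ P.asIdeal ↔
      (p : 𝓞 CF.KK) ∈ (TR.a7a_pi (L := CF.KK) P).asIdeal := by
    intro P
    change _ ↔ (p : 𝓞 CF.KK) ∈ P.asIdeal.comap (algebraMap (𝓞 CF.KK) (𝓞 M))
    rw [Ideal.mem_comap, map_natCast]
  have e3 : (∏ P ∈ T, (1 - PowerSeries.C (TR.oneI M P.asIdeal) *
      PowerSeries.X ^ ((Ideal.absNorm P.asIdeal).factorization p) : PowerSeries ℂ)) =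
      (∏ v ∈ S, (1 - PowerSeries.C (TR.oneI CF.KK v.asIdeal) *
        PowerSeries.X ^ ((Ideal.absNorm v.asIdeal).factorization p))) *
      ∏ v ∈ S, (1 - PowerSeries.C (n3b_hom d v.asIdeal) *
        PowerSeries.X ^ ((Ideal.absNorm v.asIdeal).factorization p)) := by
    rw [← Finset.prod_mul_distrib, ← Finset.prod_fiberwise_of_maps_to (s := T) (t := S)
      (g := fun P => TR.a7a_pi (L := CF.KK) P)
      (fun P hP => (hS' _).2 ((hmem P).1 ((hT' P).1 hP)))]
    refine Finset.prod_congr rfl fun v hv => ?_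
    refine n3b_fiber d e hp v ((hS' v).1 hv) _ fun P => ?_
    rw [Finset.mem_filter, hT']
    constructor
    · exact fun h => h.2
    · intro h
      exact ⟨(hmem P).2 (h ▸ (hS' v).1 hv), h⟩
  rw [e3] at e0
  generalize (∏ v ∈ S, (1 - PowerSeries.C (TR.oneI CF.KK v.asIdeal) *
    PowerSeries.X ^ ((Ideal.absNorm v.asIdeal).factorization p) : PowerSeries ℂ)) = P1 at e0 e1
  generalize (∏ v ∈ S, (1 - PowerSeries.C (n3b_hom d v.asIdeal) *
    PowerSeries.X ^ ((Ideal.absNorm v.asIdeal).factorization p) : PowerSeries ℂ)) = P2 at e0 e2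
  linear_combination (CM27.loc p (TR.idA CF.KK (TR.oneI CF.KK)) *
      CM27.loc p (TR.idA CF.KK (n3b_hom d))) * e0 -
    (CM27.loc p (TR.idA M (TR.oneI M)) * CM27.loc p (TR.idA CF.KK (n3b_hom d)) * P2) * e1 -
    CM27.loc p (TR.idA M (TR.oneI M)) * e2

theorem idA_ext (h : Cl0 D) (d : Dat D) (e : Ext D M) :
    TR.idA M (TR.oneI M) = TR.idA CF.KK (TR.oneI CF.KK) * TR.idA CF.KK (q2I d) := by
  have h1 : (q2I d : Ideal (𝓞 CF.KK) → ℂ) = n3b_hom d := rfl
  rw [h1, (TR.isMultiplicative_idA M (TR.oneI M)).eq_iff_eq_on_prime_powers _ _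
    ((TR.isMultiplicative_idA CF.KK (TR.oneI CF.KK)).mul
      (TR.isMultiplicative_idA CF.KK (n3b_hom d)))]
  intro p k hp
  have h2 := n3b_loc d e hp
  rw [← CM27.loc_mul hp] at h2
  have h3 := congrArg (fun f => PowerSeries.coeff k f) h2
  simp only [CM27.coeff_loc] at h3
  exact h3

theorem n3b_le (d : Dat D) (I : Ideal (𝓞 CF.KK)) :
    ‖q2I d I‖ ≤ (Ideal.absNorm I : ℝ) ^ (0 : ℝ) := by
  rw [Real.rpow_zero]
  obtain ⟨b, rfl⟩ := n3b_gen I
  rw [q2I_span]
  rcases q2_cases d b with h | h | h <;> rw [h] <;> simp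

/-- the units of `ℤ[ω]` -/
noncomputable def n3b_S : Finset Eis := {1, -1, CU.om, -CU.om, CU.om ^ 2, -CU.om ^ 2}

abbrev n3b_U : Type := {u : Eis // u ∈ n3b_S}

theorem n3b_isUnit (u : n3b_U) : IsUnit u.1 := by
  rw [CU.unit_iff]
  have h := u.2
  simp only [n3b_S, Finset.mem_insert, Finset.mem_singleton] at h
  exact h

theorem n3b_mem {u : Eis} (hu : IsUnit u) : u ∈ n3b_S := by
  have h := (CU.unit_iff u).1 hu
  simp only [n3b_S, Finset.mem_insert, Finset.mem_singleton]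
  exact h

theorem n3b_card : Fintype.card n3b_U = 6 := by
  rw [Fintype.card_coe]
  have h1 : n3b_S = ({(1, 0), (-1, 0), (0, 1), (0, -1), (-1, -1), (1, 1)} : Finset (ℤ × ℤ)).image
      (fun x => (⟨x.1, x.2⟩ : Eis)) := by
    simp only [n3b_S, Finset.image_insert, Finset.image_singleton]
    have e1 : (1 : Eis) = ⟨1, 0⟩ := rfl
    have e2 : (-1 : Eis) = ⟨-1, 0⟩ := rfl
    have e3 : CU.om = ⟨0, 1⟩ := rfl
    have e4 : -CU.om = ⟨0, -1⟩ := rfl
    have e5 : CU.om ^ 2 = ⟨-1, -1⟩ := by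
      rw [sq, e3]
      rfl
    have e6 : -CU.om ^ 2 = ⟨1, 1⟩ := by
      rw [e5]
      rfl
    rw [e6, e5, e4, e3, e2, e1]
  rw [h1, Finset.card_image_of_injective]
  · decide
  · rintro ⟨a, b⟩ ⟨a', b'⟩ h
    have h2 := congrArg QuadraticAlgebra.re h
    have h3 := congrArg QuadraticAlgebra.im h
    exact Prod.ext h2 h3

/-- every nonzero ideal has six generators -/
theorem n3b_tsum (G : Ideal (𝓞 CF.KK) → ℂ) (hGbot : G ⊥ = 0) (hsum : Summable G) :
    ∑' b : Eis, G (Ideal.span {eE b}) = 6 * ∑' I, G I := by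
  choose gen hgen using n3b_gen
  have hgenI : ∀ I : Ideal (𝓞 CF.KK), Ideal.span {eE (gen I)} = I := fun I => (hgen I).symm
  have hdom := CUL.l6_domain
  have hgen0 : ∀ I : Ideal (𝓞 CF.KK), I ≠ ⊥ → gen I ≠ 0 := by
    intro I hI h0
    apply hI
    rw [hgen I, h0, map_zero]
    exact Ideal.span_singleton_eq_bot.2 rfl
  have hspanu : ∀ (u : n3b_U) (I : Ideal (𝓞 CF.KK)), Ideal.span {eE (u.1 * gen I)} = I := by
    intro u I
    rw [map_mul, mul_comm]
    rw [Ideal.span_singleton_mul_right_unit ((n3b_isUnit u).map eE) (eE (gen I))]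
    exact hgenI I
  have hΦinj : Function.Injective
      (fun x : n3b_U × {I : Ideal (𝓞 CF.KK) // I ≠ ⊥} => (x.1.1 * gen x.2.1 : Eis)) := by
    rintro ⟨u, I, hI⟩ ⟨u', I', hI'⟩ huI
    have h1 : u.1 * gen I = u'.1 * gen I' := huI
    have h2 : I = I' := by
      rw [← hspanu u I, h1, hspanu u' I']
    subst h2
    have h3 : u = u' := Subtype.ext (mul_right_cancel₀ (hgen0 I hI) h1)
    rw [h3]
  have hΦrange : Function.support (fun b : Eis => G (Ideal.span {eE b})) ⊆ Set.range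
      (fun x : n3b_U × {I : Ideal (𝓞 CF.KK) // I ≠ ⊥} => (x.1.1 * gen x.2.1 : Eis)) := by
    intro b hb
    have hb0 : (Ideal.span {eE b} : Ideal (𝓞 CF.KK)) ≠ ⊥ := by
      intro h0
      apply hb
      show G (Ideal.span {eE b}) = 0
      rw [h0, hGbot]
    have h1 : Associated (eE (gen (Ideal.span {eE b}))) (eE b) :=
      Ideal.span_singleton_eq_span_singleton.1 (hgenI _)
    obtain ⟨u, hu⟩ := h1
    have h2 : IsUnit (eE.symm (u : 𝓞 CF.KK)) := u.isUnit.map eE.symm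
    refine ⟨(⟨eE.symm (u : 𝓞 CF.KK), n3b_mem h2⟩, ⟨_, hb0⟩), ?_⟩
    show eE.symm (u : 𝓞 CF.KK) * gen (Ideal.span {eE b}) = b
    apply eE.injective
    rw [map_mul, eE.apply_symm_apply, mul_comm, hu]
  have hval : ∀ x : n3b_U × {I : Ideal (𝓞 CF.KK) // I ≠ ⊥},
      G (Ideal.span {eE (x.1.1 * gen x.2.1)}) = 1 * G x.2.1 := by
    intro x
    rw [hspanu x.1 x.2.1, one_mul]
  have hs1 : Summable fun I : {I : Ideal (𝓞 CF.KK) // I ≠ ⊥} => G I.1 := hsum.subtype _
  have hs2 : Summable fun x : n3b_U × {I : Ideal (𝓞 CF.KK) // I ≠ ⊥} => (1 : ℂ) * G x.2.1 :=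
    summable_mul_of_summable_norm (f := fun _ : n3b_U => (1 : ℂ)) Summable.of_finite hs1.norm
  have hs3 : ∑' I : {I : Ideal (𝓞 CF.KK) // I ≠ ⊥}, G I.1 = ∑' I, G I := by
    refine tsum_subtype_eq_of_support_subset (s := {I : Ideal (𝓞 CF.KK) | I ≠ ⊥}) ?_
    intro I hI h0
    apply hI
    rw [h0, hGbot]
  rw [← hΦinj.tsum_eq hΦrange, tsum_congr hval, hs2.tsum_prod, tsum_fintype]
  simp only [one_mul]
  rw [Finset.sum_const, Finset.card_univ, n3b_card, hs3, nsmul_eq_mul]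
  norm_num

theorem LJ_ideals (h : Cl0 D) (d : Dat D) {σ : ℝ} (hσ : 1 < σ) :
    ∑' I : Ideal (𝓞 CF.KK), q2I d I * (Ideal.absNorm I : ℂ) ^ (-(σ : ℂ)) = ((LJ d σ : ℝ) : ℂ) := by
  obtain ⟨hsum, -, -⟩ := TR.lseries_idA CF.KK (q2I d) 0 le_rfl (n3b_le d)
    (s := (σ : ℂ)) (by simpa using hσ)
  have hGbot : q2I d ⊥ * (Ideal.absNorm (⊥ : Ideal (𝓞 CF.KK)) : ℂ) ^ (-(σ : ℂ)) = 0 := by
    rw [n3b_zero, zero_mul]
  have hmain := n3b_tsum
    (fun I : Ideal (𝓞 CF.KK) => q2I d I * (Ideal.absNorm I : ℂ) ^ (-(σ : ℂ))) hGbot hsum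
  have hLJ : ((LJ d σ : ℝ) : ℂ) = (1 / 6) * ∑' b : Eis,
      (q2I d (Ideal.span {eE b}) * (Ideal.absNorm (Ideal.span {eE b}) : ℂ) ^ (-(σ : ℂ))) := by
    unfold LJ
    rw [Complex.ofReal_mul, Complex.ofReal_tsum]
    congr 1
    · norm_num
    · refine tsum_congr fun b => ?_
      rw [q2I_span, CUL.l6_absNorm, Complex.ofReal_mul,
        Complex.ofReal_cpow (by exact_mod_cast CM27.norm_nonneg' b)]
      have h1 : ((b.norm.natAbs : ℕ) : ℤ) = b.norm := Int.natAbs_of_nonneg (CM27.norm_nonneg' b)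
      have h2 : ((b.norm : ℤ) : ℝ) = ((b.norm.natAbs : ℕ) : ℝ) := by
        conv_lhs => rw [← h1]
        exact Int.cast_natCast _
      rw [h2, Complex.ofReal_natCast, Complex.ofReal_intCast, Complex.ofReal_neg]
  rw [hLJ, hmain]
  ring

theorem zeta_ext (h : Cl0 D) (d : Dat D) (e : Ext D M) {σ : ℝ} (hσ : 1 < σ) :
    dedekindZeta M σ = dedekindZeta CF.KK σ * ((LJ d σ : ℝ) : ℂ) := by
  have hs' : (0 : ℝ) + 1 < (σ : ℂ).re := by simpa using hσ
  obtain ⟨-, h1, -⟩ := TR.lseries_idA CF.KK (TR.oneI CF.KK) 0 le_rfl (TR.a7c_one_le CF.KK) hs'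
  obtain ⟨-, h2, h3⟩ := TR.lseries_idA CF.KK (q2I d) 0 le_rfl (n3b_le d) hs'
  rw [← TR.a7c_dz, ← TR.a7c_dz, idA_ext h d e, ArithmeticFunction.LSeries_mul' h1 h2, h3,
    LJ_ideals h d hσ]

end JL
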