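import Pool.Agent.JL.Defs
import Pool.Agent.Q3.SQ

/-!
# [JL-B0] the factorizations of `D` and the class condition

PROOF. `D ≠ 0`, `D` squarefree, `λ ∤ D` (`λ ∣ 3 ∣ D - η`).
(1) `D = η (-2)^j ∏ S`: every prime not dividing `3` is associated to exactly one prime `p ≡ 1 mod 3` (`CUL.l6_prim`: `∃ u`, unit, `Primary (u b)`; `CUL.primary_assoc`).
Factor `D` (`UniqueFactorizationMonoid`, or `WfDvdMonoid.induction_on_irreducible` / `CUL.primary_induction`, compare `Pool/Agent/CU/SQ`-type files, `PP3/SQ.lean`, `Q3/SQ.lean`); squarefree: all primes occur once; `-2` is a primary prime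
(`4 ∤ D` from `CondTwo` with `m = 0`, or squarefree). `D = u (-2)^j ∏ S` with a unit `u`; all of `-2`, `p ∈ S` are `≡ 1 mod 3`, so `u ≡ D ≡ η mod 3` and the unit `u` is `η` (`CUL.unit_cases`; the six units are different mod 3).
(2) `D = ω^(2i) c ∏ T`: `Q3.sq_eis` gives `D = w² Dd c T` with `w ≠ 0`; as `D` is squarefree `w² ∣ D` makes `w` a unit (`w² ∣ D`), `w = ± ω^i`. So `D = ω^(2i) Dd c T`.
`Dat.congr`: mod 3, `-2 ≡ 1`, `p ≡ 1`. `Dat.primary`: `η D ≡ η² = 1`. `Dat.ne`.
`Dat.kk_cases`: `η D = 1 + 3 (m + n ω)`, `mn (η D) = m + n` (definition `CUL.mn`), `3 ω ≡ 3 mod λ³` and `3 ≡ -λ² mod λ³` (`3 + λ² = 3 - 3 ω = 3 λ`), so `η D ≡ 1 - λ² (m + n) mod λ³` and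
`D ≡ η - η λ² mn mod λ³`. `CondLa` for the same `η` (the `η'` of `CondLa` is `η`, as `1 ≢ -1 mod 3`): `D ≢ η + λ² mod λ³`, that is `mn (η D) ≠ -η` in `ZMod 3`. `kk = 2 + 2 mn`: `η = -1`: `mn ≠ 1`, `kk ∈ {2, 0}`; `η = 1`: `mn ≠ -1`, `kk ∈ {2, 1}`.
`Dat.two`: `2 ∤ p` for odd primes. `Dat.r3`: `r3 ∣ D` would give `λ ∣ D` (`r3 = √-3` is associated to `λ`).
-/

set_option autoImplicit false

open scoped Classical ComplexConjugate

namespace JL

open CM27 JZ
open CU (la eE)
open CUL (Nl ez si ta DS Cont LV IsRep rp cr mn zw OT GalU)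
open Q3L (fQ Dec)

theorem b0_three {D η k : Eis} (h : D - η = 3 * k) : D.re - η.re = 3 * k.re ∧ D.im - η.im = 3 * k.im := by
  have t3 : (3 : Eis) = ⟨3, 0⟩ := rfl
  rw [t3] at h
  have e1 := congrArg QuadraticAlgebra.re h
  have e2 := congrArg QuadraticAlgebra.im h
  simp only [QuadraticAlgebra.re_sub, QuadraticAlgebra.im_sub, QuadraticAlgebra.re_mul,
    QuadraticAlgebra.im_mul] at e1 e2
  constructor
  · linarith
  · linarith

theorem cl_not_la {D : Eis} (h : Cl0 D) : ¬ la ∣ D := by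
  obtain ⟨-, ⟨η, hη, ⟨k, hk⟩⟩, -⟩ := h
  rw [CUL.la_dvd_iff]
  obtain ⟨e1, e2⟩ := b0_three hk
  rcases hη with rfl | rfl
  · have h1 : (1 : Eis).re = 1 := rfl
    have h2 : (1 : Eis).im = 0 := rfl
    rw [h1] at e1
    rw [h2] at e2
    omega
  · have h1 : (-1 : Eis).re = -1 := rfl
    have h2 : (-1 : Eis).im = 0 := rfl
    rw [h1] at e1
    rw [h2] at e2
    omega

theorem cl_ne {D : Eis} (h : Cl0 D) : D ≠ 0 := by
  rintro rfl
  exact cl_not_la h (dvd_zero _)

theorem b0_primary_neg_two : Primary (-2) := by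
  rw [primary_iff]
  decide

theorem b0_sq_eta {η : Eis} (h : η = 1 ∨ η = -1) : η * η = 1 := by
  rcases h with rfl | rfl <;> ring

theorem b0_prod {b : Eis} (hb : Primary b) (hs : Squarefree b) :
    ∃ (j : ℕ) (S : Finset Eis), (j = 0 ∨ j = 1) ∧ (∀ p ∈ S, Prime p ∧ Primary p ∧ p ≠ -2) ∧
      b = (-2) ^ j * ∏ p ∈ S, p := by
  revert hs
  refine CUL.primary_induction (P := fun b => Squarefree b →
    ∃ (j : ℕ) (S : Finset Eis), (j = 0 ∨ j = 1) ∧ (∀ p ∈ S, Prime p ∧ Primary p ∧ p ≠ -2) ∧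
      b = (-2) ^ j * ∏ p ∈ S, p) ?_ ?_ hb
  · intro _
    exact ⟨0, ∅, Or.inl rfl, fun p hp => absurd hp (Finset.notMem_empty p), by simp⟩
  · intro p c hp hP hc ih hs
    obtain ⟨j, S, hj, hS, hcS⟩ := ih (hs.of_mul_right)
    by_cases h2 : p = -2
    · rcases hj with rfl | rfl
      · refine ⟨1, S, Or.inr rfl, hS, ?_⟩
        rw [h2, hcS]
        ring
      · exfalso
        refine hp.not_isUnit (hs p ⟨∏ q ∈ S, q, ?_⟩)
        rw [hcS, h2]
        ring
    · by_cases hpS : p ∈ S
      · exfalso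
        refine hp.not_isUnit (hs p ⟨(-2) ^ j * ∏ q ∈ S.erase p, q, ?_⟩)
        rw [hcS, ← Finset.mul_prod_erase S (fun q => q) hpS]
        ring
      · refine ⟨j, insert p S, hj, fun q hq => ?_, ?_⟩
        · rcases Finset.mem_insert.1 hq with rfl | hq
          · exact ⟨hp, hP, h2⟩
          · exact hS q hq
        · rw [Finset.prod_insert hpS, hcS]
          ring

theorem b0_prod_primary {S : Finset Eis} (hS : ∀ p ∈ S, Prime p ∧ Primary p ∧ p ≠ -2) (j : ℕ) :
    Primary ((-2) ^ j * ∏ p ∈ S, p) := by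
  have h1 : Primary ((-2 : Eis) ^ j) := by
    induction j with
    | zero => rw [pow_zero]; exact CUL.primary_one
    | succ n ih => rw [pow_succ]; exact CUL.primary_mul ih b0_primary_neg_two
  refine CUL.primary_mul h1 ?_
  induction S using Finset.induction_on with
  | empty => rw [Finset.prod_empty]; exact CUL.primary_one
  | insert q T hq ih =>
    rw [Finset.prod_insert hq]
    exact CUL.primary_mul (hS q (Finset.mem_insert_self q T)).2.1
      (ih fun p hp => hS p (Finset.mem_insert_of_mem hp))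

theorem b0_eta {D : Eis} {η : Eis} (hη : η = 1 ∨ η = -1) (h3 : (3 : Eis) ∣ D - η) :
    Primary (η * D) := by
  unfold Primary
  have h : η * D - 1 = η * (D - η) := by
    have := b0_sq_eta hη
    linear_combination this
  rw [h]
  exact h3.mul_left η

theorem exists_dat {D : Eis} (h : Cl0 D) : Nonempty (Dat D) := by
  have h0 := h
  obtain ⟨hsq, ⟨η, hη, h3⟩, -⟩ := h
  have hP := b0_eta hη h3
  have hηu : IsUnit η := by
    rcases hη with rfl | rfl
    · exact isUnit_one
    · exact isUnit_one.neg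
  have hsq2 : Squarefree (η * D) := by
    obtain ⟨u, rfl⟩ := hηu
    intro x hx
    exact hsq x (Units.dvd_mul_left.1 hx)
  obtain ⟨j, S, hj, hS, hD⟩ := b0_prod hP hsq2
  obtain ⟨c, T, v, hA, hv, hm⟩ := Q3.sq_eis D (cl_ne h0)
  have hvu : IsUnit v := by
    refine hsq v ⟨Q3.Dd c T, ?_⟩
    rw [hm]
    ring
  obtain ⟨i, hi⟩ : ∃ i : ℕ, v ^ 2 = CU.om ^ (2 * i) := by
    rcases CUL.unit_cases hvu with rfl | rfl | rfl | rfl | rfl | rfl
    · exact ⟨0, by ring⟩
    · exact ⟨0, by ring⟩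
    · exact ⟨1, by ring⟩
    · exact ⟨1, by ring⟩
    · exact ⟨2, by ring⟩
    · exact ⟨2, by ring⟩
  refine ⟨⟨η, j, S, c, T, i, hη, hj, hS, ?_, hA, ?_⟩⟩
  · have h1 : D = η * (η * D) := by
      rw [← mul_assoc, b0_sq_eta hη, one_mul]
    rw [h1, hD]
    ring
  · rw [← hi]
    exact hm

variable {D : Eis}

theorem b0_etaD (d : Dat D) : d.η * D = (-2) ^ d.j * ∏ p ∈ d.S, p := by
  have h1 := b0_sq_eta d.hη
  have h2 := d.hD
  linear_combination d.η * h2 + ((-2) ^ d.j * ∏ p ∈ d.S, p) * h1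

theorem Dat.congr (d : Dat D) : (3 : Eis) ∣ D - d.η := by
  have h1 : Primary (d.η * D) := by
    rw [b0_etaD d]
    exact b0_prod_primary d.hS d.j
  have h2 : D - d.η = d.η * (d.η * D - 1) := by
    have := b0_sq_eta d.hη
    linear_combination (-D) * this
  rw [h2]
  exact Dvd.dvd.mul_left h1 d.η

theorem Dat.primary (d : Dat D) : Primary (d.η * D) := by
  rw [b0_etaD d]
  exact b0_prod_primary d.hS d.j

theorem Dat.kk_cases (h : Cl D) (d : Dat D) :
    (d.η = -1 ∧ (kk d = 0 ∨ kk d = 2)) ∨ (d.η = 1 ∧ (kk d = 1 ∨ kk d = 2)) := by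
  have h1 : Primary (d.η * D) := d.primary
  obtain ⟨-, ⟨η, hη, h3, hn⟩, -⟩ := h
  obtain ⟨k, hk⟩ := h3
  obtain ⟨e1, e2⟩ := b0_three hk
  have r1 : (1 : Eis).re = 1 := rfl
  have i1 : (1 : Eis).im = 0 := rfl
  have r2 : (-1 : Eis).re = -1 := rfl
  have i2 : (-1 : Eis).im = 0 := rfl
  have hla : ∀ x : Eis, (3 : ℤ) ∣ x.re + x.im → la ^ 3 ∣ 3 * x := by
    intro x hx
    obtain ⟨y, hy⟩ := (CUL.la_dvd_iff x).2 hx
    refine ⟨y * (-CU.om ^ 2), ?_⟩
    have h4 : la ^ 2 * (-CU.om ^ 2) = 3 := by decide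
    rw [hy]
    linear_combination (-(la * y)) * h4
  have hmn : ∀ (b : Eis) (t : ℤ), b.re - 1 + b.im = 3 * t → mn b = (t : ZMod 3) := by
    intro b t ht
    unfold CUL.mn
    rw [ht, Int.mul_ediv_cancel_left _ (by norm_num)]
  have hcast : ∀ t : ℤ, (t : ZMod 3) = 0 ∨ (t : ZMod 3) = 1 ∨ (t : ZMod 3) = 2 := by
    intro t
    generalize (t : ZMod 3) = s
    revert s
    decide
  unfold kk
  rcases d.hη with hd | hd
  · right
    refine ⟨hd, ?_⟩
    rw [hd, one_mul] at h1 ⊢
    rw [primary_iff] at h1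
    rcases hη with rfl | rfl
    · have e3 : D.re - 1 + D.im = 3 * (k.re + k.im) := by
        rw [r1] at e1
        rw [i1] at e2
        omega
      rw [hmn D _ e3]
      rcases hcast (k.re + k.im) with h5 | h5 | h5
      · right; rw [h5]; decide
      · left; rw [h5]; decide
      · exfalso
        apply hn
        have h6 : D - 1 - la ^ 2 = 3 * (k + CU.om) := by
          rw [hk, CUL.x1_la_sq]
          ring
        rw [h6]
        apply hla
        have h7 : ((k.re + k.im + 1 : ℤ) : ZMod 3) = 0 := by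
          push_cast
          push_cast at h5
          rw [h5]
          decide
        have h8 := (ZMod.intCast_zmod_eq_zero_iff_dvd (k.re + k.im + 1) 3).1 h7
        have h9 : (k + CU.om).re + (k + CU.om).im = k.re + k.im + 1 := by
          have o1 : CU.om.re = 0 := rfl
          have o2 : CU.om.im = 1 := rfl
          rw [QuadraticAlgebra.re_add, QuadraticAlgebra.im_add, o1, o2]
          ring
        rw [h9]
        exact h8
    · exfalso
      rw [r2] at e1
      rw [i2] at e2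
      omega
  · left
    refine ⟨hd, ?_⟩
    rw [hd] at h1 ⊢
    rw [primary_iff] at h1
    have m1 : (-1 * D).re = -D.re := by
      rw [neg_one_mul, QuadraticAlgebra.re_neg]
    have m2 : (-1 * D).im = -D.im := by
      rw [neg_one_mul, QuadraticAlgebra.im_neg]
    rw [m1, m2] at h1
    rcases hη with rfl | rfl
    · exfalso
      rw [r1] at e1
      rw [i1] at e2
      omega
    · have e3 : (-1 * D).re - 1 + (-1 * D).im = 3 * (-(k.re + k.im)) := by
        rw [r2] at e1
        rw [i2] at e2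
        rw [m1, m2]
        omega
      rw [hmn (-1 * D) _ e3]
      rcases hcast (k.re + k.im) with h5 | h5 | h5
      · right
        rw [Int.cast_neg, h5]; decide
      · left
        rw [Int.cast_neg, h5]; decide
      · exfalso
        apply hn
        have h6 : D - -1 - la ^ 2 = 3 * (k + CU.om) := by
          rw [hk, CUL.x1_la_sq]
          ring
        rw [h6]
        apply hla
        have h7 : ((k.re + k.im + 1 : ℤ) : ZMod 3) = 0 := by
          push_cast
          push_cast at h5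
          rw [h5]
          decide
        have h8 := (ZMod.intCast_zmod_eq_zero_iff_dvd (k.re + k.im + 1) 3).1 h7
        have h9 : (k + CU.om).re + (k + CU.om).im = k.re + k.im + 1 := by
          have o1 : CU.om.re = 0 := rfl
          have o2 : CU.om.im = 1 := rfl
          rw [QuadraticAlgebra.re_add, QuadraticAlgebra.im_add, o1, o2]
          ring
        rw [h9]
        exact h8

theorem Dat.two (d : Dat D) : (2 : Eis) ∣ D ↔ d.j = 1 := by
  have := eis_isDomain
  constructor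
  · intro h2
    rcases d.hj with hj | hj
    · exfalso
      rw [d.hD, hj, pow_zero, mul_one] at h2
      have hp2 := Q3.prime_two
      rcases hp2.dvd_or_dvd h2 with h3 | h3
      · apply hp2.not_isUnit
        rcases d.hη with h4 | h4
        · rw [h4] at h3
          exact isUnit_of_dvd_one h3
        · rw [h4] at h3
          exact isUnit_of_dvd_unit h3 isUnit_one.neg
      · obtain ⟨p, hp, h4⟩ := (Prime.dvd_finsetProd_iff hp2 _).1 h3
        obtain ⟨h5, h6, h7⟩ := d.hS p hp
        apply h7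
        have h8 : Associated (-2) p :=
          ((Associated.refl (2 : Eis)).neg_left).trans ((hp2.dvd_prime_iff_associated h5).1 h4)
        exact (CUL.primary_assoc b0_primary_neg_two h6 h8).symm
    · exact hj
  · intro hj
    rw [d.hD, hj]
    exact ⟨-(d.η * ∏ p ∈ d.S, p), by ring⟩

theorem Dat.r3 (h : Cl0 D) (d : Dat D) : Q3.r3 ∉ d.T := by
  intro hT
  apply cl_not_la h
  have h1 : la ∣ Q3.r3 := by
    rw [CUL.la_dvd_iff]
    exact ⟨1, by decide⟩
  have h2 : Q3.r3 ∣ Q3.Dd d.c d.T := by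
    unfold Q3.Dd
    exact (Finset.dvd_prod_of_mem (fun p => p) hT).mul_left _
  rw [d.hD']
  exact (h1.trans h2).mul_left _

end JL
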