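import Pool.Agent.JL.B0

/-!
# [JL-B1] the quadratic symbol `q2`

PROOF. `Q3L.exists_dec`: an odd `x` is `z g`, `z` a unit, `g` Prim (unique: `Q3.prim_unique`). `fQ_unit`, `fQ_norm`, `fQ_prime`, `fQ_mul`, `fQ_congr` (Q3L/K3.lean): `fQ c T g` is `1`, `-1` (g coprime to `∏ T`) or `0`.
`q2_dec`: by uniqueness of the decomposition. `q2_mul`: `x y = (z z') (g g')`, `Prim.mul`; if `x` or `y` is even both sides are `0` (`Prim` is odd; `2` is prime: `Q3.prime_two`).
`q2_unit`: `fQ_one`. `q2_ne_zero_iff`: coprime to `2` and to all `p ∈ T`, and `4 D = 4 ω^(2i) c ∏ T`, `c = ± 1, ± 2`; for `x` coprime to `p` for all `p ∈ T` use `fQ_unit`; if some `p ∈ T` divides `g`: `c2 p g = 0`.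
`q2_congr`: `4 D ∣ x - y`, `x` odd: then `y` is odd; `x = z g`, `y = z (z⁻¹ y)` with `z⁻¹ y ≡ g mod 4 D`, so `z⁻¹ y` is Prim (`Q3L.prim_congr`), `MM c * pr T ∣ 4 D` up to a unit (`c = ± 1`: `MM = 4`; `c = ± 2`: `MM = 8`, `4 c = ± 8`), `fQ_congr`. `x` even: both `0`.
`q2_prime`: `p = z g` with `g` Prim prime; `fQ_prime`: `fQ c T g = c2 g (Dd c T)`; `c2 g x = 0` if `g ∣ x`, `sg (sy x g)` otherwise; `D = ω^(2i) Dd c T`, `Q3.sy_mul_sq` / directly: `∃ y, p ∣ y² - D` iff the same for `Dd c T` (multiply `y` by `ω^i`, `ω^(-i) = ω^(2i)`).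
-/

set_option autoImplicit false

open scoped Classical ComplexConjugate

namespace JL

open CM27 JZ
open CU (la eE)
open CUL (Nl ez si ta DS Cont LV IsRep rp cr mn zw OT GalU)
open Q3L (fQ Dec)

variable {D : Eis}

theorem B1_c2_cases (p b : Eis) : Q3L.c2 p b = 0 ∨ Q3L.c2 p b = 1 ∨ Q3L.c2 p b = -1 := by
  unfold Q3L.c2
  split_ifs
  · exact Or.inl rfl
  · exact Or.inr (Q3L.sg_cases _)

/-- the set `{0, 1, -1}` is closed under products -/
theorem B1_cases_mul {x y : ℂ} (hx : x = 0 ∨ x = 1 ∨ x = -1) (hy : y = 0 ∨ y = 1 ∨ y = -1) :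
    x * y = 0 ∨ x * y = 1 ∨ x * y = -1 := by
  rcases hx with rfl | rfl | rfl
  · left
    rw [zero_mul]
  · rw [one_mul]
    exact hy
  · rcases hy with rfl | rfl | rfl
    · left
      rw [mul_zero]
    · right
      right
      rw [mul_one]
    · right
      left
      norm_num

theorem B1_fQ_cases (c : Eis) (T : Finset Eis) (g : Eis) :
    fQ c T g = 0 ∨ fQ c T g = 1 ∨ fQ c T g = -1 := by
  unfold Q3L.fQ
  split_ifs
  · apply B1_cases_mul
    · exact Or.inr (Q3L.sg_cases _)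
    · induction T using Finset.induction_on with
      | empty =>
        right
        left
        rw [Finset.prod_empty]
      | insert a T ha ih =>
        rw [Finset.prod_insert ha]
        exact B1_cases_mul (B1_cases_mul (Or.inr (Q3L.sg_cases _)) (B1_c2_cases _ _)) ih
  · exact Or.inl rfl

theorem B1_dec_unique {x z g z' g' : Eis} (h : Dec x z g) (h' : Dec x z' g') : g = g' := by
  obtain ⟨u, hu⟩ := h.2.1
  obtain ⟨u', hu'⟩ := h'.2.1
  apply Q3.prim_unique h.2.2 h'.2.2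
  have h1 : Associated g x := ⟨u, by rw [h.1, hu, mul_comm]⟩
  have h2 : Associated g' x := ⟨u', by rw [h'.1, hu', mul_comm]⟩
  exact h1.trans h2.symm

theorem q2_dec (d : Dat D) {x z g : Eis} (h : Dec x z g) : ((q2 d x : ℤ) : ℂ) = fQ d.c d.T g := by
  have h1 : ∀ r : ℂ, (∃ z g, Dec x z g ∧ fQ d.c d.T g = r) ↔ fQ d.c d.T g = r := by
    intro r
    constructor
    · rintro ⟨z', g', h', h2⟩
      rw [B1_dec_unique h h']
      exact h2
    · intro h2
      exact ⟨z, g, h, h2⟩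
  unfold q2
  simp only [h1]
  rcases B1_fQ_cases d.c d.T g with h2 | h2 | h2
  · rw [if_neg (by rw [h2]; norm_num), if_neg (by rw [h2]; norm_num), h2, Int.cast_zero]
  · rw [if_pos h2, h2, Int.cast_one]
  · rw [if_neg (by rw [h2]; norm_num), if_pos h2, h2]
    norm_num

theorem q2_cases (d : Dat D) (x : Eis) : q2 d x = 0 ∨ q2 d x = 1 ∨ q2 d x = -1 := by
  unfold q2
  split_ifs
  · exact Or.inr (Or.inl rfl)
  · exact Or.inr (Or.inr rfl)
  · exact Or.inl rfl

theorem B1_two (d : Dat D) {x : Eis} (h : (2 : Eis) ∣ x) : q2 d x = 0 := by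
  have h1 : ∀ z g, ¬ Dec x z g := by
    rintro z g ⟨h2, h3, h4⟩
    rw [h2] at h
    rcases Q3.prime_two.dvd_or_dvd h with h5 | h5
    · exact Q3.prime_two.not_isUnit (isUnit_of_dvd_unit h5 h3)
    · exact h4.not_two_dvd h5
  unfold q2
  rw [if_neg (fun ⟨z, g, h2, _⟩ => h1 z g h2), if_neg (fun ⟨z, g, h2, _⟩ => h1 z g h2)]

theorem q2_mul (d : Dat D) (x y : Eis) : q2 d (x * y) = q2 d x * q2 d y := by
  by_cases hx : (2 : Eis) ∣ x
  · rw [B1_two d hx, B1_two d (hx.mul_right y), zero_mul]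
  · by_cases hy : (2 : Eis) ∣ y
    · rw [B1_two d hy, B1_two d (hy.mul_left x), mul_zero]
    · obtain ⟨z, g, h1⟩ := Q3L.exists_dec hx
      obtain ⟨z', g', h2⟩ := Q3L.exists_dec hy
      have h3 : Dec (x * y) (z * z') (g * g') := by
        refine ⟨?_, h1.2.1.mul h2.2.1, h1.2.2.mul h2.2.2⟩
        rw [h1.1, h2.1]
        ring
      have h4 : ((q2 d (x * y) : ℤ) : ℂ) = ((q2 d x * q2 d y : ℤ) : ℂ) := by
        rw [Int.cast_mul, q2_dec d h1, q2_dec d h2, q2_dec d h3, Q3L.fQ_mul d.hT h1.2.2]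
      exact_mod_cast h4

theorem q2_unit (d : Dat D) {u : Eis} (hu : IsUnit u) : q2 d u = 1 := by
  have h1 : Dec u u 1 := ⟨(mul_one u).symm, hu, Q3.prim_one⟩
  have h2 := q2_dec d h1
  rw [Q3L.fQ_one d.hT] at h2
  exact_mod_cast h2

theorem B1_om (i : ℕ) : IsUnit (CU.om ^ (2 * i)) := CU.om_unit.pow _

/-- `4 D` is a unit times `4 c ∏ T` -/
theorem B1_four (d : Dat D) : 4 * D = CU.om ^ (2 * d.i) * (4 * d.c * CUL.pr d.T) := by
  conv_lhs => rw [d.hD']
  unfold Q3.Dd CUL.pr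
  ring

theorem B1_MM (d : Dat D) : Q3L.MM d.c * CUL.pr d.T ∣ 4 * D := by
  rw [B1_four d]
  apply Dvd.dvd.mul_left
  apply mul_dvd_mul_right
  unfold Q3L.MM
  have h8 : (8 : Eis) = 4 * 2 := by norm_num
  split_ifs with h
  · rw [h8]
    exact mul_dvd_mul_left 4 h
  · exact Dvd.intro _ rfl

theorem B1_cop_pr (d : Dat D) {g : Eis} (h : ∀ p ∈ d.T, ¬ p ∣ g) : IsCoprime g (CUL.pr d.T) := by
  have hdom := eis_isDomain
  have hpid : IsPrincipalIdealRing Eis := eis_pid
  unfold CUL.pr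
  apply IsCoprime.prod_right
  intro p hp
  exact (((d.hT.1 p hp).1.irreducible.coprime_iff_not_dvd).2 (h p hp)).symm

theorem q2_ne_zero_iff (d : Dat D) (x : Eis) : q2 d x ≠ 0 ↔ IsCoprime x (4 * D) := by
  by_cases hx : (2 : Eis) ∣ x
  · constructor
    · intro h
      exact absurd (B1_two d hx) h
    · intro h
      exfalso
      have h4 : (4 : Eis) = 2 * 2 := by norm_num
      have h2 : (2 : Eis) ∣ 4 * D := by
        rw [h4, mul_assoc]
        exact Dvd.intro _ rfl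
      exact Q3.prime_two.not_isUnit (h.isUnit_of_dvd' hx h2)
  · obtain ⟨z, g, hd⟩ := Q3L.exists_dec hx
    have h1 := q2_dec d hd
    have h2 : q2 d x ≠ 0 ↔ fQ d.c d.T g ≠ 0 := by
      rw [← h1]
      exact Int.cast_ne_zero.symm
    rw [h2]
    constructor
    · intro h
      have hp : ∀ p ∈ d.T, ¬ p ∣ g := by
        intro p hp hpg
        apply h
        unfold Q3L.fQ
        rw [if_pos hd.2.2, Finset.prod_eq_zero hp (by rw [Q3L.c2_zero hpg, mul_zero]), mul_zero]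
      have h3 := B1_cop_pr d hp
      have h4 : IsCoprime g (4 * d.c) := by
        have h5 : IsCoprime g ((2 : Eis) ^ 3) := Q3L.cop_two hd.2.2.not_two_dvd 3
        apply h5.of_isCoprime_of_dvd_right
        have h6 : (2 : Eis) ^ 3 = 4 * 2 := by norm_num
        rw [h6]
        apply mul_dvd_mul_left
        rcases d.hT.2 with h7 | h7 | h7 | h7
        · rw [h7]
          exact one_dvd _
        · rw [h7]
          exact neg_dvd.2 (one_dvd _)
        · rw [h7]
        · rw [h7]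
          exact neg_dvd.2 dvd_rfl
      have h5 : IsCoprime g (4 * D) := by
        rw [B1_four d]
        exact IsCoprime.mul_right
          ((isCoprime_mul_unit_left_right (B1_om d.i) g 1).2 isCoprime_one_right |>.of_mul_right_left)
          (h4.mul_right h3)
      rw [hd.1]
      exact (isCoprime_mul_unit_left_left hd.2.1 g (4 * D)).2 h5
    · intro h
      have h3 : IsCoprime g (4 * D) := by
        rw [hd.1] at h
        exact h.of_mul_left_right
      have h4 : IsCoprime g (CUL.pr d.T) := by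
        rw [B1_four d] at h3
        exact h3.of_mul_right_right.of_mul_right_right
      intro h0
      have h5 := Q3L.fQ_unit d.hT hd.2.2 h4
      rw [h0, mul_zero] at h5
      exact zero_ne_one h5

theorem q2_congr (d : Dat D) {x y : Eis} (h : 4 * D ∣ x - y) : q2 d x = q2 d y := by
  have h44 : (4 : Eis) ∣ x - y := (Dvd.intro _ rfl).trans h
  have h4 : (4 : Eis) = 2 * 2 := by norm_num
  have h2 : (2 : Eis) ∣ x - y := (Dvd.intro _ h4.symm).trans h44
  by_cases hx : (2 : Eis) ∣ x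
  · rw [B1_two d hx, B1_two d ((dvd_iff_dvd_of_dvd_sub h2).1 hx)]
  · obtain ⟨z, g, hd⟩ := Q3L.exists_dec hx
    obtain ⟨v, hv⟩ := hd.2.1.exists_right_inv
    have h5 : x - y = z * (g - v * y) := by
      rw [hd.1]
      linear_combination y * hv
    have h6 : g - v * y = v * (x - y) := by
      rw [h5]
      linear_combination (-(g - v * y)) * hv
    have h7 : 4 * D ∣ g - v * y := by
      rw [h6]
      exact h.mul_left v
    have h8 : Q3.Prim (v * y) := Q3L.prim_congr hd.2.2 ((Dvd.intro _ rfl).trans h7)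
    have h9 : Dec y z (v * y) := by
      refine ⟨?_, hd.2.1, h8⟩
      linear_combination (-y) * hv
    have h10 : ((q2 d x : ℤ) : ℂ) = ((q2 d y : ℤ) : ℂ) := by
      rw [q2_dec d hd, q2_dec d h9]
      exact Q3L.fQ_congr d.hT ((B1_MM d).trans h7)
    exact_mod_cast h10

theorem q2_prime (d : Dat D) {p : Eis} (hp : Prime p) (h2 : ¬ p ∣ 2) :
    q2 d p = if p ∣ D then 0 else if ∃ y : Eis, p ∣ y ^ 2 - D then 1 else -1 := by
  have hdom := eis_isDomain
  have hodd : ¬ (2 : Eis) ∣ p := by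
    intro h
    exact h2 ((Q3.prime_two.dvd_prime_iff_associated hp).1 h).symm.dvd
  obtain ⟨z, g, hd⟩ := Q3L.exists_dec hodd
  have hass : Associated g p := by
    obtain ⟨u, hu⟩ := hd.2.1
    exact ⟨u, by rw [hd.1, hu, mul_comm]⟩
  have hg : Prime g := hass.symm.prime hp
  have h1 := q2_dec d hd
  rw [Q3L.fQ_prime d.hT hg hd.2.2] at h1
  have ho : CU.om ^ 3 = 1 := CU.om_cube
  have e1 : CU.om ^ (2 * d.i) * CU.om ^ (4 * d.i) = 1 := by
    rw [← pow_add, show 2 * d.i + 4 * d.i = 3 * (2 * d.i) by ring, pow_mul, ho, one_pow]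
  have hDd : Q3.Dd d.c d.T = CU.om ^ (4 * d.i) * D := by
    have h3 := d.hD'
    calc Q3.Dd d.c d.T = (CU.om ^ (2 * d.i) * CU.om ^ (4 * d.i)) * Q3.Dd d.c d.T := by
          rw [e1, one_mul]
      _ = CU.om ^ (4 * d.i) * (CU.om ^ (2 * d.i) * Q3.Dd d.c d.T) := by ring
      _ = CU.om ^ (4 * d.i) * D := by rw [← h3]
  have hA : g ∣ Q3.Dd d.c d.T ↔ p ∣ D := by
    rw [hass.dvd_iff_dvd_left, hDd]
    constructor
    · intro h
      rcases hp.dvd_or_dvd h with h3 | h3
      · exact absurd (isUnit_of_dvd_unit h3 (CU.om_unit.pow _)) hp.not_isUnit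
      · exact h3
    · intro h
      exact h.mul_left _
  have hB : (∃ y : Eis, g ∣ y ^ 2 - Q3.Dd d.c d.T) ↔ ∃ y : Eis, p ∣ y ^ 2 - D := by
    constructor
    · rintro ⟨y, hy⟩
      refine ⟨CU.om ^ d.i * y, ?_⟩
      rw [hass.dvd_iff_dvd_left] at hy
      have h3 : (CU.om ^ d.i * y) ^ 2 - D = CU.om ^ (2 * d.i) * (y ^ 2 - Q3.Dd d.c d.T) := by
        rw [mul_sub, ← d.hD', mul_pow, ← pow_mul, mul_comm d.i 2]
      rw [h3]
      exact hy.mul_left _
    · rintro ⟨y, hy⟩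
      refine ⟨CU.om ^ (2 * d.i) * y, ?_⟩
      rw [hass.dvd_iff_dvd_left]
      have h3 : (CU.om ^ (2 * d.i) * y) ^ 2 - Q3.Dd d.c d.T = CU.om ^ (4 * d.i) * (y ^ 2 - D) := by
        rw [hDd, mul_sub, mul_pow, ← pow_mul, show 2 * d.i * 2 = 4 * d.i by ring]
      rw [h3]
      exact hy.mul_left _
  have h4 : ((q2 d p : ℤ) : ℂ) =
      ((if p ∣ D then 0 else if ∃ y : Eis, p ∣ y ^ 2 - D then 1 else -1 : ℤ) : ℂ) := by
    rw [h1]
    unfold Q3L.c2 Q3L.sg Q3.sy
    rw [← hB]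
    by_cases hpD : p ∣ D
    · rw [if_pos (hA.2 hpD), if_pos hpD, Int.cast_zero]
    · rw [if_neg (fun h => hpD (hA.1 h)), if_neg hpD]
      by_cases hy : ∃ y : Eis, g ∣ y ^ 2 - Q3.Dd d.c d.T
      · rw [if_pos hy, if_pos rfl, if_pos hy, Int.cast_one]
      · rw [if_neg hy, if_neg (by decide), if_neg hy]
        norm_num
  exact_mod_cast h4

theorem q2_two (d : Dat D) {x : Eis} (h : (2 : Eis) ∣ x) : q2 d x = 0 := B1_two d h

end JL
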