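import Pool.Agent.JL.B1

/-!
# [JL-B3] the cubic character `c3`, the character `chi`

PROOF. CUL/X1.lean: `cr_mul`, `cr_congr`, `cr_neg`, `cr_cases`, `cr_one`, `cr_pow`; `-2` is a primary prime. `4 D = η (-2)^(2+j) ∏ S` (`d.hD`, `4 = (-2)²`).
`c3_mul`, `c3_congr` (`-2 ∣ 4 D`, `p ∣ 4 D`), `c3_ne_zero_iff`: `c3 x ≠ 0` iff no prime of `S ∪ {-2}` divides `x` iff `x` is coprime to `4 D`. `c3_zw`: then all factors are `zw`, so `c3 x = zw k`.
`c3_om`: `cr p om = zw (2 mn p)` for a primary prime (`CUL.cu_prime` with `u = om` or the definition: `cu om p = zw (1 * (2 * mn p)) = zw (sy om p)`, `us om = 1`), `mn (-2) = -1`, `mn` is additive on primary elements (`CUL.x1_mn_mul`), `η D = (-2)^j ∏ S`: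
`c3 om = zw ((2 + j)(2 · (-1)) + ∑ 2 mn p)`; `∑ mn p = mn (η D) + j`; exponent `-2(2 + j) + 2 mn (η D) + 2 j = -4 + 2 mn(η D) = 2 + 2 mn (η D)` in `ZMod 3`.
`chi_*`: from `q2` (B1) and `c3`.
-/

set_option autoImplicit false

open scoped Classical ComplexConjugate

namespace JL

open CM27 JZ
open CU (la eE)
open CUL (Nl ez si ta DS Cont LV IsRep rp cr mn zw OT GalU)
open Q3L (fQ Dec)

variable {D : Eis}

theorem b3_two : Prime (-2 : Eis) := Q3.prime_two.neg

theorem b3_twoP : Primary (-2 : Eis) := by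
  unfold Primary
  exact ⟨-1, by norm_num⟩

theorem b3_dvd (d : Dat D) {p : Eis} (hp : p ∈ d.S) : p ∣ 4 * D := by
  have h1 : p ∣ d.η * (-2) ^ d.j * ∏ p ∈ d.S, p := (Finset.dvd_prod_of_mem (fun q : Eis => q) hp).mul_left _
  rw [← d.hD] at h1
  exact h1.mul_left _

theorem b3_two_dvd : (-2 : Eis) ∣ 4 * D := ⟨-2 * D, by ring⟩

theorem b3_cop_iff (d : Dat D) (x : Eis) :
    IsCoprime x (4 * D) ↔ ¬ (-2 : Eis) ∣ x ∧ ∀ p ∈ d.S, ¬ p ∣ x := by
  have := eis_isDomain
  have := eis_pid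
  constructor
  · intro h
    exact ⟨fun h1 => b3_two.not_isUnit (h.isUnit_of_dvd' h1 b3_two_dvd),
      fun p hp h1 => (d.hS p hp).1.not_isUnit (h.isUnit_of_dvd' h1 (b3_dvd d hp))⟩
  · rintro ⟨h1, h2⟩
    have e1 : IsCoprime x (-2) := ((b3_two.irreducible.coprime_iff_not_dvd).2 h1).symm
    have e0 : IsCoprime x d.η := by
      rcases d.hη with h | h
      · rw [h]
        exact isCoprime_one_right
      · rw [h]
        exact isCoprime_one_right.neg_right
    have e2 : IsCoprime x (d.η * (-2) ^ d.j * ∏ p ∈ d.S, p) :=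
      IsCoprime.mul_right (IsCoprime.mul_right e0 e1.pow_right) (IsCoprime.prod_right fun p hp =>
        (((d.hS p hp).1.irreducible.coprime_iff_not_dvd).2 (h2 p hp)).symm)
    rw [← d.hD] at e2
    have e3 : (4 : Eis) = (-2) ^ 2 := by norm_num
    rw [e3]
    exact (e1.pow_right).mul_right e2

theorem b3_cr_ne {p x : Eis} : cr p x ≠ 0 ↔ ¬ p ∣ x := by
  rcases CUL.cr_cases p x with ⟨h1, h2⟩ | ⟨h1, h2⟩
  · rw [h1]
    exact ⟨fun h => absurd rfl h, fun h => absurd h2 h⟩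
  · rw [h1]
    exact ⟨fun _ => h2, fun _ => CUL.zw_ne _⟩

theorem b3_prod (S : Finset Eis) (f : Eis → ZMod 3) : ∏ p ∈ S, zw (f p) = zw (∑ p ∈ S, f p) := by
  induction S using Finset.induction_on with
  | empty => rw [Finset.prod_empty, Finset.sum_empty, CUL.zw_zero]
  | insert q S hq ih => rw [Finset.prod_insert hq, Finset.sum_insert hq, ih, CUL.zw_add]

theorem b3_mn_prod (S : Finset Eis) (h : ∀ p ∈ S, Primary p) :
    Primary (∏ p ∈ S, p) ∧ mn (∏ p ∈ S, p) = ∑ p ∈ S, mn p := by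
  induction S using Finset.induction_on with
  | empty =>
    rw [Finset.prod_empty, Finset.sum_empty]
    exact ⟨CUL.primary_one, by decide⟩
  | insert q S hq ih =>
    obtain ⟨h1, h2⟩ := ih fun p hp => h p (Finset.mem_insert_of_mem hp)
    have h3 := h q (Finset.mem_insert_self q S)
    rw [Finset.prod_insert hq, Finset.sum_insert hq, CUL.x1_mn_mul h3 h1, h2]
    exact ⟨CUL.primary_mul h3 h1, rfl⟩

theorem c3_mul (d : Dat D) (x y : Eis) : c3 d (x * y) = c3 d x * c3 d y := by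
  unfold c3
  rw [CUL.cr_mul b3_two b3_twoP, mul_pow, Finset.prod_congr rfl fun p hp =>
    CUL.cr_mul (d.hS p hp).1 (d.hS p hp).2.1 x y, Finset.prod_mul_distrib]
  ring

theorem c3_one (d : Dat D) : c3 d 1 = 1 := by
  unfold c3
  rw [CUL.cr_one b3_two b3_twoP, one_pow, one_mul]
  exact Finset.prod_eq_one fun p hp => CUL.cr_one (d.hS p hp).1 (d.hS p hp).2.1

theorem c3_neg (d : Dat D) (x : Eis) : c3 d (-x) = c3 d x := by
  unfold c3
  rw [CUL.cr_neg b3_two b3_twoP, Finset.prod_congr rfl fun p hp => CUL.cr_neg (d.hS p hp).1 (d.hS p hp).2.1 x]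

theorem c3_congr (d : Dat D) {x y : Eis} (h : 4 * D ∣ x - y) : c3 d x = c3 d y := by
  unfold c3
  rw [CUL.cr_congr b3_two b3_twoP (b3_two_dvd.trans h), Finset.prod_congr rfl fun p hp =>
    CUL.cr_congr (d.hS p hp).1 (d.hS p hp).2.1 ((b3_dvd d hp).trans h)]

theorem c3_ne_zero_iff (d : Dat D) (x : Eis) : c3 d x ≠ 0 ↔ IsCoprime x (4 * D) := by
  rw [b3_cop_iff d x]
  unfold c3
  rw [mul_ne_zero_iff, Finset.prod_ne_zero_iff, pow_ne_zero_iff (by omega), b3_cr_ne]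
  exact and_congr_right fun _ => forall₂_congr fun p _ => b3_cr_ne

theorem c3_zw (d : Dat D) {x : Eis} (h : IsCoprime x (4 * D)) : ∃ k : ZMod 3, c3 d x = zw k := by
  obtain ⟨h1, h2⟩ := (b3_cop_iff d x).1 h
  have e1 : ∀ p : Eis, ¬ p ∣ x → cr p x = zw (CU.sy x p) := by
    intro p hp
    rcases CUL.cr_cases p x with ⟨-, h3⟩ | ⟨h3, -⟩
    · exact absurd h3 hp
    · exact h3
  refine ⟨((2 + d.j : ℕ) : ZMod 3) * CU.sy x (-2) + ∑ p ∈ d.S, CU.sy x p, ?_⟩
  unfold c3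
  rw [e1 _ h1, CUL.zw_pow, Finset.prod_congr rfl fun p hp => e1 p (h2 p hp), b3_prod, CUL.zw_add]

theorem c3_om (d : Dat D) : c3 d CU.om = zw (kk d) := by
  have h0 : IsUnit CU.om := IsUnit.of_pow_eq_one (n := 3) (by decide) (by norm_num)
  have h1 : ∀ p : Eis, Prime p → Primary p → cr p CU.om = zw (2 * mn p) := by
    intro p hp hP
    rcases CUL.cr_cases p CU.om with ⟨-, h3⟩ | ⟨h3, -⟩
    · exact absurd (isUnit_of_dvd_unit h3 h0) hp.not_isUnit
    · rw [h3, CUL.sy_om hp hP]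
  obtain ⟨h2, h3⟩ := b3_mn_prod d.S fun p hp => (d.hS p hp).2.1
  have h4 : d.η * D = (-2) ^ d.j * ∏ p ∈ d.S, p := by
    have h5 : d.η * d.η = 1 := by
      rcases d.hη with h | h
      · rw [h]
        norm_num
      · rw [h]
        norm_num
    calc d.η * D = d.η * (d.η * (-2) ^ d.j * ∏ p ∈ d.S, p) := by rw [← d.hD]
      _ = (d.η * d.η) * ((-2) ^ d.j * ∏ p ∈ d.S, p) := by ring
      _ = _ := by rw [h5, one_mul]
  have h6 : mn (-2) = -1 := by decide
  have h7 : mn (d.η * D) = (d.j : ZMod 3) * (-1) + ∑ p ∈ d.S, mn p := by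
    rw [h4]
    rcases d.hj with h | h
    · rw [h, pow_zero, one_mul, h3, Nat.cast_zero, zero_mul, zero_add]
    · rw [h, pow_one, CUL.x1_mn_mul b3_twoP h2, h3, h6, Nat.cast_one, one_mul]
  unfold c3 kk
  rw [h1 _ b3_two b3_twoP, CUL.zw_pow, Finset.prod_congr rfl fun p hp => h1 p (d.hS p hp).1 (d.hS p hp).2.1,
    b3_prod, ← CUL.zw_add, h7, h6, ← Finset.mul_sum]
  congr 1
  rcases d.hj with h | h
  · rw [h]
    generalize (∑ p ∈ d.S, mn p) = t
    revert t
    decide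
  · rw [h]
    generalize (∑ p ∈ d.S, mn p) = t
    revert t
    decide

theorem c3_norm (d : Dat D) (x : Eis) : ‖c3 d x‖ ≤ 1 := by
  unfold c3
  rw [norm_mul, norm_pow, norm_prod]
  refine mul_le_one₀ (pow_le_one₀ (norm_nonneg _) (CUL.cr_norm _ _)) (Finset.prod_nonneg fun _ _ => norm_nonneg _)
    (Finset.prod_le_one (fun _ _ => norm_nonneg _) fun p _ => CUL.cr_norm p x)

theorem c3_sigma (d : Dat D) (σ : ℂ ≃+* ℂ) (hσ : σ w = w) (x : Eis) : σ (c3 d x) = c3 d x ∧ σ (conj (c3 d x)) = conj (c3 d x) := by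
  by_cases h : IsCoprime x (4 * D)
  · obtain ⟨k, hk⟩ := c3_zw d h
    rw [hk, CUL.zw_conj, CUL.sigma_zw σ hσ, CUL.sigma_zw σ hσ]
    exact ⟨rfl, rfl⟩
  · have h1 : c3 d x = 0 := by
      by_contra h2
      exact h ((c3_ne_zero_iff d x).1 h2)
    rw [h1, map_zero, map_zero, map_zero]
    exact ⟨rfl, rfl⟩

theorem chi_mul (d : Dat D) (x y : Eis) : chi d (x * y) = chi d x * chi d y := by
  unfold chi
  rw [q2_mul, c3_mul]
  push_cast
  ring

theorem chi_congr (d : Dat D) {x y : Eis} (h : 4 * D ∣ x - y) : chi d x = chi d y := by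
  unfold chi
  rw [q2_congr d h, c3_congr d h]

theorem chi_ne_zero_iff (d : Dat D) (x : Eis) : chi d x ≠ 0 ↔ IsCoprime x (4 * D) := by
  unfold chi
  rw [mul_ne_zero_iff, Int.cast_ne_zero, q2_ne_zero_iff, c3_ne_zero_iff, and_self]

theorem chi_norm (d : Dat D) (x : Eis) : ‖chi d x‖ ≤ 1 := by
  unfold chi
  rw [norm_mul]
  have h1 : ‖((q2 d x : ℤ) : ℂ)‖ ≤ 1 := by
    rcases q2_cases d x with h | h | h
    · rw [h]
      norm_num
    · rw [h]
      norm_num
    · rw [h]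
      norm_num
  exact mul_le_one₀ h1 (norm_nonneg _) (c3_norm d x)

theorem chi_conj (d : Dat D) {x : Eis} (h : IsCoprime x (4 * D)) : chi d x * conj (chi d x) = 1 := by
  obtain ⟨k, hk⟩ := c3_zw d h
  have h1 : ((q2 d x : ℤ) : ℂ) = 1 ∨ ((q2 d x : ℤ) : ℂ) = -1 := by
    rcases q2_cases d x with h2 | h2 | h2
    · exact absurd h2 ((q2_ne_zero_iff d x).2 h)
    · left
      rw [h2]
      norm_num
    · right
      rw [h2]
      norm_num
  have h3 : zw k * zw (-k) = 1 := by rw [← CUL.zw_add, add_neg_cancel, CUL.zw_zero]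
  unfold chi
  rw [hk, map_mul, CUL.zw_conj]
  rcases h1 with h1 | h1
  · rw [h1, map_one, one_mul, one_mul, h3]
  · rw [h1, map_neg, map_one]
    linear_combination h3

theorem chi_neg (d : Dat D) (x : Eis) : chi d (-x) = chi d x := by
  unfold chi
  rw [c3_neg]
  have h1 : q2 d (-x) = q2 d x := by
    have h2 := q2_mul d (-1) x
    rw [q2_unit d (isUnit_one.neg), one_mul, neg_one_mul] at h2
    exact h2
  rw [h1]

end JL
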