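import Pool.Agent.JL.B2
import Pool.Agent.JL.B3

/-!
# [JL-B4] representatives modulo the units, orthogonality

Throughout `f = 4 D`, `D` in the class.
`units_free`: if `ζ, ζ'` are units, `c` coprime to `4 D` and `4 D ∣ ζ c - ζ' c` then `ζ = ζ'`: `4 D ∣ ζ - ζ'`, `N(ζ - ζ') ≤ 4 < 16 ≤ N(4 D)`.
`exists_R`: case `k = kk ≠ 0`: `c3 om = zw k ≠ 1`, so for every `α` coprime to `f` exactly one of `α, ω α, ω² α` (up to sign) is in the kernel of `c3`. Choose from every class modulo `μ₆` (finite: `rp (4 D)` is a system of representatives modulo `4 D`, CUL/L1) one element of the kernel: e.g. let `U` be the finite set of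
`α ∈ rp (4 D)`, coprime to `4 D`, with `c3 α = 1` if `k ≠ 0`; the relation `α ~ β :⟺ ∃ unit ζ, 4 D ∣ α - ζ β` is an equivalence relation; choose one representative in each class (`Quotient.out`, `Finset.image`, or: strong induction / `Finset.filter` of the elements minimal for an injection `Eis → ℕ`).
`sum_R`: `∑_{α ∈ rp f, coprime} g α = ∑_{c ∈ R} ∑_{ζ ∈ μ₆} g (ζ c) = 6 ∑_R g c`: the map `R × μ₆ → classes`, `(c, ζ) ↦ ζ c` is a bijection onto the coprime classes (`units_free`, `IsR`). The six units: `±1, ±ω, ±ω²` (`CUL.unit_cases`).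
`sum_q2`: `∑_{α ∈ rp f} q2 α = 0`: multiply by `u` with `q2 u = -1` (`q2_neg_exists`, `IsRep.sum_mul`). `sum_R_q2`: `sum_R` with `g = q2` (invariant under units).
`sum_chi`: `χ(u)³ = q2(u)³ c3(u)³ = -1` for this `u`, so `conj χ(u) ≠ 1` and `∑ conj χ = 0`. `sum_R_chi` (`k = 0`: `chi` is invariant under all units: `c3 om = 1`).
-/

set_option autoImplicit false

open scoped Classical ComplexConjugate

namespace JL

open CM27 JZ
open CU (la eE)
open CUL (Nl ez si ta DS Cont LV IsRep rp cr mn zw OT GalU)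
open Q3L (fQ Dec)

variable {D : Eis}

/-- the six units -/
def b4U : Finset Eis := {1, -1, CU.om, -CU.om, CU.om ^ 2, -CU.om ^ 2}

theorem b4_card : b4U.card = 6 := by decide

theorem b4_om : IsUnit CU.om := IsUnit.of_pow_eq_one (n := 3) (by decide) (by norm_num)

theorem b4_mem {ζ : Eis} : ζ ∈ b4U ↔ IsUnit ζ := by
  unfold b4U
  simp only [Finset.mem_insert, Finset.mem_singleton]
  constructor
  · rintro (rfl | rfl | rfl | rfl | rfl | rfl)
    · exact isUnit_one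
    · exact isUnit_one.neg
    · exact b4_om
    · exact b4_om.neg
    · exact b4_om.pow 2
    · exact (b4_om.pow 2).neg
  · exact fun h => CUL.unit_cases h

theorem b4_coord {ζ : Eis} (h : IsUnit ζ) : -1 ≤ ζ.re ∧ ζ.re ≤ 1 ∧ -1 ≤ ζ.im ∧ ζ.im ≤ 1 := by
  rcases CUL.unit_cases h with rfl | rfl | rfl | rfl | rfl | rfl <;> decide

theorem b4_M_ne (h : Cl0 D) : (4 : Eis) * D ≠ 0 := by
  have := eis_isDomain
  exact mul_ne_zero (by decide) (cl_ne h)

theorem b4_cop (d : Dat D) {x y : Eis} (h : 4 * D ∣ x - y) (hx : IsCoprime x (4 * D)) : IsCoprime y (4 * D) := by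
  rw [← q2_ne_zero_iff d] at hx ⊢
  rwa [← q2_congr d h]

/-- the relation: equal modulo `4 D` up to a unit -/
def b4R (D α β : Eis) : Prop := ∃ ζ : Eis, IsUnit ζ ∧ 4 * D ∣ α - ζ * β

theorem b4R_refl (α : Eis) : b4R D α α := ⟨1, isUnit_one, by rw [one_mul, sub_self]; exact dvd_zero _⟩

theorem b4R_symm {α β : Eis} (h : b4R D α β) : b4R D β α := by
  obtain ⟨ζ, hζ, t, ht⟩ := h
  obtain ⟨v, rfl⟩ := hζ
  refine ⟨((v⁻¹ : Eisˣ) : Eis), Units.isUnit _, -((v⁻¹ : Eisˣ) : Eis) * t, ?_⟩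
  have h1 : ((v⁻¹ : Eisˣ) : Eis) * (v : Eis) = 1 := Units.inv_mul v
  linear_combination (-((v⁻¹ : Eisˣ) : Eis)) * ht - β * h1

theorem b4R_trans {α β γ : Eis} (h : b4R D α β) (h' : b4R D β γ) : b4R D α γ := by
  obtain ⟨ζ, hζ, t, ht⟩ := h
  obtain ⟨ξ, hξ, s, hs⟩ := h'
  exact ⟨ζ * ξ, hζ.mul hξ, t + ζ * s, by linear_combination ht + ζ * hs⟩

theorem b4R_eq {α β : Eis} (h : b4R D α β) : b4R D α = b4R D β := by
  funext γ
  exact propext ⟨fun h' => b4R_trans (b4R_symm h) h', fun h' => b4R_trans h h'⟩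

/-- the system of classes -/
noncomputable def b4S (d : Dat D) : Finset Eis :=
  (rp (4 * D)).filter fun α => IsCoprime α (4 * D) ∧ (kk d ≠ 0 → c3 d α = 1)

noncomputable def b4pick (d : Dat D) (P : Eis → Prop) : Eis := if h : ∃ β, β ∈ b4S d ∧ P β then h.choose else 0

theorem b4pick_spec (d : Dat D) {P : Eis → Prop} (h : ∃ β, β ∈ b4S d ∧ P β) :
    b4pick d P ∈ b4S d ∧ P (b4pick d P) := by
  unfold b4pick
  rw [dif_pos h]
  exact h.choose_spec

theorem b4_chi_unit (d : Dat D) (hk : kk d = 0) {ζ : Eis} (hζ : IsUnit ζ) : chi d ζ = 1 := by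
  have h1 : c3 d CU.om = 1 := by rw [c3_om, hk, CUL.zw_zero]
  have h2 : c3 d (CU.om ^ 2) = 1 := by rw [pow_two, c3_mul, h1, one_mul]
  unfold chi
  rw [q2_unit d hζ, Int.cast_one, one_mul]
  rcases CUL.unit_cases hζ with rfl | rfl | rfl | rfl | rfl | rfl
  · exact c3_one d
  · rw [c3_neg, c3_one]
  · exact h1
  · rw [c3_neg, h1]
  · exact h2
  · rw [c3_neg, h2]

theorem b4_exists (h : Cl0 D) (d : Dat D) {α : Eis} (hα : IsCoprime α (4 * D)) : ∃ β ∈ b4S d, b4R D α β := by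
  have hrep := CUL.rp_spec (b4_M_ne h)
  by_cases hk : kk d = 0
  · obtain ⟨β, ⟨hβ, hd⟩, -⟩ := hrep α
    refine ⟨β, Finset.mem_filter.2 ⟨hβ, b4_cop d hd hα, fun h' => absurd hk h'⟩, 1, isUnit_one, ?_⟩
    rw [one_mul]
    exact hd
  · obtain ⟨m, hm⟩ := c3_zw d hα
    have h3 : CU.om ^ 3 = 1 := by decide
    set n : ℕ := (-m * kk d).val with hn
    have hc : c3 d (CU.om ^ n * α) = 1 := by
      have h4 : ∀ n : ℕ, c3 d (CU.om ^ n) = zw (n * kk d) := by
        intro n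
        induction n with
        | zero => rw [pow_zero, c3_one, Nat.cast_zero, zero_mul, CUL.zw_zero]
        | succ n ih =>
          rw [pow_succ, c3_mul, ih, c3_om, ← CUL.zw_add]
          congr 1
          push_cast
          ring
      rw [c3_mul, h4, hm, ← CUL.zw_add, ← CUL.zw_zero]
      congr 1
      have h5 : ((n : ℕ) : ZMod 3) = -m * kk d := by
        rw [hn, ZMod.natCast_val, ZMod.cast_id]
      rw [h5]
      have h6 : ∀ k m : ZMod 3, k ≠ 0 → -m * k * k + m = 0 := by decide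
      exact h6 _ _ hk
    have hcop : IsCoprime (CU.om ^ n * α) (4 * D) := by
      refine (c3_ne_zero_iff d _).1 ?_
      rw [hc]
      exact one_ne_zero
    obtain ⟨β, ⟨hβ, hd⟩, -⟩ := hrep (CU.om ^ n * α)
    refine ⟨β, Finset.mem_filter.2 ⟨hβ, b4_cop d hd hcop, fun _ => ?_⟩, CU.om ^ (2 * n), b4_om.pow _, ?_⟩
    · rw [← c3_congr d hd, hc]
    · have h6 : CU.om ^ (2 * n) * CU.om ^ n = 1 := by
        rw [← pow_add, show 2 * n + n = 3 * n by ring, pow_mul, h3, one_pow]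
      have h7 : α - CU.om ^ (2 * n) * β = CU.om ^ (2 * n) * (CU.om ^ n * α - β) := by
        linear_combination (-α) * h6
      rw [h7]
      exact hd.mul_left _

theorem b4_sum_filter (g : Eis → ℂ) (h : ∀ α : Eis, ¬ IsCoprime α (4 * D) → g α = 0) :
    ∑ α ∈ (rp (4 * D)).filter (fun α => IsCoprime α (4 * D)), g α = ∑ α ∈ rp (4 * D), g α := by
  rw [Finset.sum_filter]
  refine Finset.sum_congr rfl fun α _ => ?_
  split_ifs with h1
  · rfl
  · exact (h α h1).symm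

theorem units_free (h : Cl0 D) {ζ ζ' c : Eis} (hζ : IsUnit ζ) (hζ' : IsUnit ζ') (hc : IsCoprime c (4 * D))
    (hd : 4 * D ∣ ζ * c - ζ' * c) : ζ = ζ' := by
  have h1 : 4 * D ∣ ζ - ζ' := by
    have h2 : ζ * c - ζ' * c = (ζ - ζ') * c := by ring
    rw [h2] at hd
    exact hc.symm.dvd_of_dvd_mul_right hd
  have h2 : (4 : Eis) ∣ ζ - ζ' := (Dvd.intro _ rfl).trans h1
  obtain ⟨h3, h4⟩ := (Q3L.k1_dvd 4 Q3L.k1_four _).1 h2
  obtain ⟨a1, a2, a3, a4⟩ := b4_coord hζ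
  obtain ⟨b1, b2, b3, b4⟩ := b4_coord hζ'
  rw [QuadraticAlgebra.re_sub] at h3
  rw [QuadraticAlgebra.im_sub] at h4
  ext
  · omega
  · omega

theorem exists_R (h : Cl0 D) (d : Dat D) : ∃ R, IsR d R := by
  refine ⟨(b4S d).image fun β => b4pick d (b4R D β), ?_, ?_, ?_⟩
  · intro c hc
    obtain ⟨β, hβ, rfl⟩ := Finset.mem_image.1 hc
    obtain ⟨h1, -⟩ := b4pick_spec d (P := b4R D β) ⟨β, hβ, b4R_refl β⟩
    exact (Finset.mem_filter.1 h1).2.1
  · intro α hα
    obtain ⟨β, hβ, hαβ⟩ := b4_exists h d hα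
    have hsp := b4pick_spec d (P := b4R D β) ⟨β, hβ, b4R_refl β⟩
    refine ⟨b4pick d (b4R D β), ⟨Finset.mem_image_of_mem _ hβ, b4R_trans hαβ hsp.2⟩, ?_⟩
    rintro c ⟨hc, hαc⟩
    obtain ⟨γ, hγ, rfl⟩ := Finset.mem_image.1 hc
    have hsp' := b4pick_spec d (P := b4R D γ) ⟨γ, hγ, b4R_refl γ⟩
    have h1 : b4R D β γ := b4R_trans (b4R_symm hαβ) (b4R_trans hαc (b4R_symm hsp'.2))
    show b4pick d (b4R D γ) = b4pick d (b4R D β)
    rw [b4R_eq h1]
  · intro hk c hc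
    obtain ⟨β, hβ, rfl⟩ := Finset.mem_image.1 hc
    obtain ⟨h1, -⟩ := b4pick_spec d (P := b4R D β) ⟨β, hβ, b4R_refl β⟩
    exact (Finset.mem_filter.1 h1).2.2 hk

theorem sum_R (h : Cl0 D) (d : Dat D) {R : Finset Eis} (hR : IsR d R) (g : Eis → ℂ)
    (hg : ∀ x y, 4 * D ∣ x - y → g x = g y) (hu : ∀ ζ x, IsUnit ζ → g (ζ * x) = g x) :
    ∑ α ∈ (rp (4 * D)).filter (fun α => IsCoprime α (4 * D)), g α = 6 * ∑ c ∈ R, g c := by
  have hrep := CUL.rp_spec (b4_M_ne h)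
  choose rep hrep1 hrep2 using fun a => (hrep a).exists
  have h1 : ∑ q ∈ b4U ×ˢ R, g (q.1 * q.2) =
      ∑ α ∈ (rp (4 * D)).filter (fun α => IsCoprime α (4 * D)), g α := by
    refine Finset.sum_bij (fun q _ => rep (q.1 * q.2)) ?_ ?_ ?_ ?_
    · intro q hq
      obtain ⟨hq1, hq2⟩ := Finset.mem_product.1 hq
      refine Finset.mem_filter.2 ⟨hrep1 _, b4_cop d (hrep2 _) ?_⟩
      exact (isCoprime_mul_unit_left_left (b4_mem.1 hq1) _ _).2 (hR.1 _ hq2)
    · intro q hq q' hq' he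
      obtain ⟨hq1, hq2⟩ := Finset.mem_product.1 hq
      obtain ⟨hq1', hq2'⟩ := Finset.mem_product.1 hq'
      have he' : rep (q.1 * q.2) = rep (q'.1 * q'.2) := he
      have h2 : 4 * D ∣ q.1 * q.2 - q'.1 * q'.2 := by
        have e1 := hrep2 (q.1 * q.2)
        have e2 := hrep2 (q'.1 * q'.2)
        rw [← he'] at e2
        have e3 : q.1 * q.2 - q'.1 * q'.2 = (q.1 * q.2 - rep (q.1 * q.2)) - (q'.1 * q'.2 - rep (q.1 * q.2)) := by
          ring
        rw [e3]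
        exact dvd_sub e1 e2
      have hcop : IsCoprime (q.1 * q.2) (4 * D) :=
        (isCoprime_mul_unit_left_left (b4_mem.1 hq1) _ _).2 (hR.1 _ hq2)
      have h3 : q.2 = q'.2 := (hR.2.1 _ hcop).unique
        ⟨hq2, q.1, b4_mem.1 hq1, by rw [sub_self]; exact dvd_zero _⟩ ⟨hq2', q'.1, b4_mem.1 hq1', h2⟩
      rw [← h3] at h2
      have h4 : q.1 = q'.1 := units_free h (b4_mem.1 hq1) (b4_mem.1 hq1') (hR.1 _ hq2) h2
      exact Prod.ext h4 h3
    · intro α hα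
      obtain ⟨hα1, hα2⟩ := Finset.mem_filter.1 hα
      obtain ⟨c, ⟨hc, ζ, hζ, hd⟩, -⟩ := hR.2.1 α hα2
      refine ⟨(ζ, c), Finset.mem_product.2 ⟨b4_mem.2 hζ, hc⟩, ?_⟩
      refine CUL.l1_eq hrep (hrep1 _) hα1 ?_
      have e1 := hrep2 (ζ * c)
      have e2 : rep (ζ * c) - α = -((ζ * c - rep (ζ * c)) + (α - ζ * c)) := by ring
      show 4 * D ∣ rep (ζ * c) - α
      rw [e2, dvd_neg]
      exact dvd_add e1 hd
    · intro q hq
      exact hg _ _ (hrep2 _)
  rw [← h1, Finset.sum_product]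
  have h2 : ∀ ζ ∈ b4U, ∑ c ∈ R, g (ζ * c) = ∑ c ∈ R, g c := fun ζ hζ =>
    Finset.sum_congr rfl fun c _ => hu ζ c (b4_mem.1 hζ)
  rw [Finset.sum_congr rfl h2, Finset.sum_const, b4_card, nsmul_eq_mul]
  norm_num

theorem sum_q2 (h : Cl0 D) (d : Dat D) : ∑ α ∈ rp (4 * D), q2 d α = 0 := by
  obtain ⟨u, hu1, hu2⟩ := q2_neg_exists h d
  have h1 := (CUL.rp_spec (b4_M_ne h)).sum_mul hu1 (fun α => ((q2 d α : ℤ) : ℂ)) fun a b hab => by
    rw [q2_congr d hab]
  have h2 : ∀ α : Eis, ((q2 d (u * α) : ℤ) : ℂ) = -((q2 d α : ℤ) : ℂ) := by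
    intro α
    rw [q2_mul, hu2]
    push_cast
    ring
  have h3 : ((∑ α ∈ rp (4 * D), q2 d α : ℤ) : ℂ) = 0 := by
    push_cast
    have h4 : ∑ α ∈ rp (4 * D), ((q2 d (u * α) : ℤ) : ℂ) = -∑ α ∈ rp (4 * D), ((q2 d α : ℤ) : ℂ) := by
      rw [← Finset.sum_neg_distrib]
      exact Finset.sum_congr rfl fun α _ => h2 α
    rw [h4] at h1
    linear_combination (-1 / 2 : ℂ) * h1
  exact_mod_cast h3

theorem sum_R_q2 (h : Cl0 D) (d : Dat D) {R : Finset Eis} (hR : IsR d R) : ∑ c ∈ R, q2 d c = 0 := by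
  have h1 := sum_R h d hR (fun α => ((q2 d α : ℤ) : ℂ)) (fun x y hxy => by rw [q2_congr d hxy]) (fun ζ x hζ => by
    rw [q2_mul, q2_unit d hζ, one_mul])
  have h2 : ∑ α ∈ (rp (4 * D)).filter (fun α => IsCoprime α (4 * D)), ((q2 d α : ℤ) : ℂ) = 0 := by
    rw [b4_sum_filter (fun α => ((q2 d α : ℤ) : ℂ)) fun α hα => by
      by_contra h3
      exact hα ((q2_ne_zero_iff d α).1 fun h4 => h3 (by simp only [h4, Int.cast_zero]))]
    exact_mod_cast sum_q2 h d
  have h3 : ∑ c ∈ R, ((q2 d c : ℤ) : ℂ) = 0 := by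
    rw [h2] at h1
    linear_combination (-1 / 6 : ℂ) * h1
  exact_mod_cast h3

theorem sum_chi (h : Cl0 D) (d : Dat D) : ∑ α ∈ rp (4 * D), conj (chi d α) = 0 := by
  obtain ⟨u, hu1, hu2⟩ := q2_neg_exists h d
  have h1 := (CUL.rp_spec (b4_M_ne h)).sum_mul hu1 (fun α => conj (chi d α)) fun a b hab => by
    rw [chi_congr d hab]
  have h2 : ∑ α ∈ rp (4 * D), conj (chi d (u * α)) = conj (chi d u) * ∑ α ∈ rp (4 * D), conj (chi d α) := by
    rw [Finset.mul_sum]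
    exact Finset.sum_congr rfl fun α _ => by rw [chi_mul, map_mul]
  have h3 : conj (chi d u) ≠ 1 := by
    intro h4
    have h5 : chi d u = 1 := by
      have h6 := congrArg conj h4
      rwa [Complex.conj_conj, map_one] at h6
    obtain ⟨k, hk⟩ := c3_zw d hu1
    have h7 : zw k ^ 3 = 1 := by
      rw [CUL.zw_pow]
      have h8 : ((3 : ℕ) : ZMod 3) = 0 := rfl
      rw [h8, zero_mul, CUL.zw_zero]
    have h9 : chi d u ^ 3 = -1 := by
      unfold chi
      rw [mul_pow, hk, h7, hu2]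
      norm_num
    rw [h5] at h9
    norm_num at h9
  have h4 : (conj (chi d u) - 1) * ∑ α ∈ rp (4 * D), conj (chi d α) = 0 := by
    have h5 : conj (chi d u) * ∑ α ∈ rp (4 * D), conj (chi d α) = ∑ α ∈ rp (4 * D), conj (chi d α) := by
      rw [← h2]
      exact h1
    linear_combination h5
  rcases mul_eq_zero.1 h4 with h5 | h5
  · exact absurd (sub_eq_zero.1 h5) h3
  · exact h5

theorem sum_R_chi (h : Cl0 D) (d : Dat D) {R : Finset Eis} (hR : IsR d R) (hk : kk d = 0) :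
    ∑ c ∈ R, conj (chi d c) = 0 := by
  have h1 := sum_R h d hR (fun α => conj (chi d α)) (fun x y hxy => by rw [chi_congr d hxy]) (fun ζ x hζ => by
    rw [chi_mul, b4_chi_unit d hk hζ, one_mul])
  have h2 : ∑ α ∈ (rp (4 * D)).filter (fun α => IsCoprime α (4 * D)), conj (chi d α) = 0 := by
    rw [b4_sum_filter (fun α => conj (chi d α)) fun α hα => by
      by_contra h3
      exact hα ((chi_ne_zero_iff d α).1 fun h4 => h3 (by simp only [h4, map_zero]))]
    exact sum_chi h d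
  rw [h2] at h1
  linear_combination (-1 / 6 : ℂ) * h1

end JL
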