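import Pool.Agent.JL.B3

/-!
# [JL-B5] the Hecke character on primary elements (cubic reciprocity)

PROOF (model CUL/X2.lean: `x2_mem`, `cs_eq`, `x2_exists_v`, `x2_psv`, `Psi_span`, `Psi_la`, `primary_induction`). `Psi6 D = NAB.cm (psv6 D)` is multiplicative. For a primary prime `p` and the place `v = (p)`: `h.choose = p` (uniqueness of the primary generator), so
`psv6 (eE D) v = qs (eE D) v · cs (4 eE D) v · p`.
`qs (eE D) v`: `0` if `p ∣ D`, `1` if `D` is a square modulo `p`, `-1` otherwise: equals `q2 d p` for `p ∤ 2` (`q2_prime`). `cs (4 D) v` in `ℂ` is `cr p (4 D)` (`CUL.cs_eq`, `eE` is a ring isomorphism). `cr p (4 D) = cr p (η (-2)^(2+j) ∏ S) = cr p (-2)^(2+j) ∏_{q ∈ S} cr p q` (`cr_mul`, `cr p (-1) = 1`)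
and by cubic reciprocity `CUL.cr_symm` (`cr p q = cr q p`) `= cr (-2) p^(2+j) ∏ cr q p = c3 p`. For `p = -2`: `cs (4 D) v = 0` and `c3 (-2) = 0`.
`Psi6_la`: `la ∣ b`: the place `(la)` has no primary generator, value `0` (`CUL.Psi_la`).
`Psi6_norm`: `|Psi6 I| ≤ N(I)^(1/2)` as in `CUL.Psi_norm`.
-/

set_option autoImplicit false

open NumberField IsDedekindDomain
open scoped Classical ComplexConjugate

namespace JL

open CM27 JZ
open CU (la eE)
open CUL (Nl ez si ta DS Cont LV IsRep rp cr mn zw OT GalU)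
open Q3L (fQ Dec)

variable {D : Eis}

theorem b5_qs {p : Eis} (x : Eis) (v : HeightOneSpectrum (𝓞 CF.KK))
    (hv : v.asIdeal = Ideal.span {eE p}) :
    Q3.qs (eE x) v = if p ∣ x then 0 else if ∃ y : Eis, p ∣ y ^ 2 - x then 1 else -1 := by
  have e0 : eE x ∈ v.asIdeal ↔ p ∣ x := CUL.x2_mem hv x
  have e1 : (∃ y : 𝓞 CF.KK, y ^ 2 - eE x ∈ v.asIdeal) ↔ ∃ y : Eis, p ∣ y ^ 2 - x := by
    constructor
    · rintro ⟨y, hy⟩
      obtain ⟨z, rfl⟩ := eE.surjective y
      rw [← map_pow, ← map_sub, CUL.x2_mem hv] at hy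
      exact ⟨z, hy⟩
    · rintro ⟨y, hy⟩
      refine ⟨eE y, ?_⟩
      rw [← map_pow, ← map_sub, CUL.x2_mem hv]
      exact hy
  unfold Q3.qs
  by_cases h0 : p ∣ x
  · rw [if_pos (e0.2 h0), if_pos h0]
  · rw [if_neg (fun hh => h0 (e0.1 hh)), if_neg h0]
    by_cases h1 : ∃ y : Eis, p ∣ y ^ 2 - x
    · rw [if_pos (e1.2 h1), if_pos h1]
    · rw [if_neg (fun hh => h1 (e1.1 hh)), if_neg h1]

theorem b5_cr_prod {p : Eis} (hp : Prime p) (hP : Primary p) (S : Finset Eis) :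
    cr p (∏ q ∈ S, q) = ∏ q ∈ S, cr p q := by
  induction S using Finset.induction_on with
  | empty => rw [Finset.prod_empty, Finset.prod_empty, CUL.cr_one hp hP]
  | insert b S hb ih => rw [Finset.prod_insert hb, Finset.prod_insert hb, CUL.cr_mul hp hP, ih]

theorem b5_cr (d : Dat D) {p : Eis} (hp : Prime p) (hP : Primary p) : cr p (4 * D) = c3 d p := by
  have h0 : cr p d.η = 1 := by
    rcases d.hη with h | h
    · rw [h, CUL.cr_one hp hP]
    · rw [h, CUL.cr_neg hp hP, CUL.cr_one hp hP]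
  have h1 : (4 : Eis) * D = (-2) ^ (2 + d.j) * (d.η * ∏ q ∈ d.S, q) := by
    calc (4 : Eis) * D = 4 * (d.η * (-2) ^ d.j * ∏ q ∈ d.S, q) := by rw [← d.hD]
      _ = _ := by
        rw [pow_add]
        ring
  unfold c3
  rw [h1, CUL.cr_mul hp hP, CUL.cr_mul hp hP, h0, one_mul, CUL.cr_pow hp hP, b5_cr_prod hp hP,
    CUL.cr_symm hp hP b3_two b3_twoP]
  congr 1
  exact Finset.prod_congr rfl fun q hq => CUL.cr_symm hp hP (d.hS q hq).1 (d.hS q hq).2.1

theorem b5_psv (d : Dat D) {p : Eis} (hp : Prime p) (hP : Primary p) (v : HeightOneSpectrum (𝓞 CF.KK))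
    (hv : v.asIdeal = Ideal.span {eE p}) : emb (psv6 (eE D) v) = chi d p * emb p := by
  have hex : ∃ b : Eis, Primary b ∧ Prime b ∧ eE b ∈ v.asIdeal := ⟨p, hP, hp, (CUL.x2_mem hv p).2 dvd_rfl⟩
  have h5 : (4 : 𝓞 CF.KK) * eE D = eE (4 * D) := by
    rw [map_mul, map_ofNat]
  unfold psv6
  rw [dif_pos hex, map_mul, map_mul, h5, CUL.cs_eq hp hP (4 * D) v hv, b5_qs D v hv, b5_cr d hp hP, map_intCast]
  obtain ⟨h1, h2, h3⟩ := hex.choose_spec
  rw [CUL.x2_mem hv] at h3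
  have := eis_isDomain
  have h4 : Associated p hex.choose := hp.associated_of_dvd h2 h3
  rw [← CUL.primary_assoc hP h1 h4]
  congr 1
  unfold chi
  by_cases h2' : p ∣ 2
  · have h6 : c3 d p = 0 := by
      by_contra h7
      have h8 := (c3_ne_zero_iff d p).1 h7
      refine hp.not_isUnit (h8.isUnit_of_dvd' dvd_rfl ?_)
      exact (h2'.trans ⟨2, by norm_num⟩ : p ∣ 4).mul_right D
    rw [h6, mul_zero, mul_zero]
  · rw [q2_prime d hp h2']

theorem Psi6_span (d : Dat D) {b : Eis} (hb : Primary b) :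
    emb (Psi6 (eE D) (Ideal.span {eE b})) = chi d b * emb b := by
  refine CUL.primary_induction (P := fun b => emb (Psi6 (eE D) (Ideal.span {eE b})) =
    chi d b * emb b) ?_ ?_ hb
  · have h1 : (Ideal.span {eE 1} : Ideal (𝓞 CF.KK)) = 1 := by
      rw [map_one, Ideal.span_singleton_one, Ideal.one_eq_top]
    have h2 : chi d 1 = 1 := by
      unfold chi
      rw [q2_unit d isUnit_one, c3_one, Int.cast_one, one_mul]
    show emb (Psi6 (eE D) (Ideal.span {eE 1})) = chi d 1 * emb 1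
    unfold Psi6
    rw [h1, NAB.cm_one, map_one, mul_one, h2]
  · intro p c hp hP _ ih
    obtain ⟨v, hv⟩ := CUL.x2_exists_v hp
    show emb (Psi6 (eE D) (Ideal.span {eE (p * c)})) = chi d (p * c) * emb (p * c)
    have h2 : emb (Psi6 (eE D) (Ideal.span {eE p})) = chi d p * emb p := by
      rw [← hv]
      unfold Psi6
      rw [NAB.cm_prime, b5_psv d hp hP v hv]
    have h3 : Psi6 (eE D) (Ideal.span {eE p} * Ideal.span {eE c}) =
        Psi6 (eE D) (Ideal.span {eE p}) * Psi6 (eE D) (Ideal.span {eE c}) := by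
      unfold Psi6
      rw [NAB.cm_mul]
    rw [CUL.x2_span_mul, h3, map_mul, h2, ih, chi_mul, map_mul]
    ring

theorem Psi6_la (D : 𝓞 CF.KK) {b : Eis} (hb : la ∣ b) : Psi6 D (Ideal.span {eE b}) = 0 := by
  obtain ⟨c, rfl⟩ := hb
  obtain ⟨v, hv⟩ := CUL.x2_exists_v CUL.la_prime
  have h1 : psv6 D v = 0 := by
    unfold psv6
    rw [dif_neg]
    rintro ⟨b, hb1, -, hb3⟩
    rw [CUL.x2_mem hv] at hb3
    exact CUL.primary_not_la hb1 hb3
  rw [CUL.x2_span_mul, ← hv]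
  unfold Psi6
  rw [NAB.cm_mul, NAB.cm_prime, h1, zero_mul]

end JL
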