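import Pool.Agent.JZ.Defs
import Pool.Agent.CUL.Z
import Pool.Agent.Q3L.G4
import Pool.Agent.Q3L.K3

/-!
# [JL] the central value of `y² = x³ + D` over `ℚ(ω)` at the prime `λ`: definitions

The mathematics is in `JZ_L.md` (team-store). Generic parts of `Pool/Agent/CUL` and `Pool/Agent/Q3L` are used.
`x = xw`, `y = yw`, `y² = 4 x³ + 1`, `ez = E1 / OmC`, `si = 1/λ²`, `ta = 1/λ`, `la = 1 - ω`, `f = 4 D`.
-/

set_option autoImplicit false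

open NumberField IsDedekindDomain
open scoped Classical ComplexConjugate

namespace JL

open CM27 JZ
open CU (la eE)
open CUL (Nl ez si ta DS Cont LV IsRep rp cr mn zw OT GalU)
open Q3L (fQ Dec)

/-- Factorizations of `D`: `D = η (-2) ^ j ∏_{p ∈ S} p` with `η = ± 1`, `j = 0, 1` and primes `p ≡ 1 mod 3`
different from `-2`, and `D = ω ^ (2 i) c ∏_{p ∈ T} p` with `c = ± 1, ± 2` and primes `p ≡ 1, √-3 mod 4`. -/
structure Dat (D : Eis) where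
  η : Eis
  j : ℕ
  S : Finset Eis
  c : Eis
  T : Finset Eis
  i : ℕ
  hη : η = 1 ∨ η = -1
  hj : j = 0 ∨ j = 1
  hS : ∀ p ∈ S, Prime p ∧ Primary p ∧ p ≠ -2
  hD : D = η * (-2) ^ j * ∏ p ∈ S, p
  hT : Q3.Adm c T
  hD' : D = CU.om ^ (2 * i) * Q3.Dd c T

/-- `D` is squarefree, `≡ ± 1 mod 3` and not a square modulo `4`. -/
def Cl0 (D : Eis) : Prop := Squarefree D ∧ (∃ η : Eis, (η = 1 ∨ η = -1) ∧ (3 : Eis) ∣ D - η) ∧ CondTwo D

theorem cl0 {D : Eis} (h : Cl D) : Cl0 D := by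
  obtain ⟨h1, ⟨η, h2, h3, -⟩, h4⟩ := h
  exact ⟨h1, ⟨η, h2, h3⟩, h4⟩

variable {D : Eis}

/-- The quadratic symbol `(D / x)`, an integer `0, 1, -1`; `0` if `x` is not coprime to `2 D`. -/
noncomputable def q2 (d : Dat D) (x : Eis) : ℤ :=
  if ∃ z g, Dec x z g ∧ fQ d.c d.T g = 1 then 1
  else if ∃ z g, Dec x z g ∧ fQ d.c d.T g = -1 then -1 else 0

/-- The cubic character `(x / 2)_3 ^ (2 + j) ∏_{p ∈ S} (x / p)_3`. For `x ≡ 1 mod 3` it is `(4 D / x)_3`. -/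
noncomputable def c3 (d : Dat D) (x : Eis) : ℂ := cr (-2) x ^ (2 + d.j) * ∏ p ∈ d.S, cr p x

/-- The character modulo `4 D`. -/
noncomputable def chi (d : Dat D) (x : Eis) : ℂ := (q2 d x : ℂ) * c3 d x

/-- the exponent `k` with `c3 ω = ω ^ k` -/
noncomputable def kk (d : Dat D) : ZMod 3 := 2 + 2 * mn (d.η * D)

/-- `x(c / (4 D))` -/
noncomputable def xc (D c : Eis) : ℂ := xw (emb c / emb (4 * D))

/-- `R` represents the classes of `(O / 4 D)*` modulo the units `μ₆`, and `R` is contained in the kernel of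
`c3` if `k ≠ 0`. -/
def IsR (d : Dat D) (R : Finset Eis) : Prop :=
  (∀ c ∈ R, IsCoprime c (4 * D)) ∧
  (∀ α : Eis, IsCoprime α (4 * D) → ∃! c, c ∈ R ∧ ∃ ζ : Eis, IsUnit ζ ∧ 4 * D ∣ α - ζ * c) ∧
  (kk d ≠ 0 → ∀ c ∈ R, c3 d c = 1)

/-- The function on `ℤ[ω]` whose Dirichlet series is the `L`-function. -/
noncomputable def Ff (d : Dat D) (x : Eis) : ℂ := if Primary x then conj (chi d x) else 0

/-- `V = ∑_{α mod 4 D} conj χ(α) e(α / 4 D + 1/λ²)` -/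
noncomputable def VV (d : Dat D) : ℂ :=
  ∑ α ∈ rp (4 * D), conj (chi d α) * ez (emb α / emb (4 * D) + si)

/-- `T = ∑_{c ∈ R} conj χ(c) x_c ^ k / (1 + x_c ^ 3)` -/
noncomputable def TT (d : Dat D) (R : Finset Eis) : ℂ :=
  ∑ c ∈ R, conj (chi d c) * xc D c ^ (kk d).val / (1 + xc D c ^ 3)

/-- `e = ∏_{c ∈ R} x_c ^ χ₂(c)` -/
noncomputable def ee (d : Dat D) (R : Finset Eis) : ℂ := ∏ c ∈ R, xc D c ^ q2 d c

/-- `L(σ, χ₂) = (1/6) ∑_b χ₂(b) N(b) ^ (-σ)`, `σ > 1`. -/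
noncomputable def LJ (d : Dat D) (σ : ℝ) : ℝ := (1 / 6) * ∑' b : Eis, (q2 d b : ℝ) * (b.norm : ℝ) ^ (-σ)

/-- The value of the Hecke character of `y² = x³ + D` at a prime: `(D / v)_2 (4 D / v)_3` times the primary
generator of `v`; `0` if `v` divides `6 D`. -/
noncomputable def psv6 (D : 𝓞 CF.KK) (v : HeightOneSpectrum (𝓞 CF.KK)) : Eis :=
  if h : ∃ b : Eis, Primary b ∧ Prime b ∧ eE b ∈ v.asIdeal then (Q3.qs D v : Eis) * CU.cs (4 * D) v * h.choose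
  else 0

/-- The Hecke character of `y² = x³ + D` on the ideals of `ℤ[ω]`, with values in `ℤ[ω]`. -/
noncomputable def Psi6 (D : 𝓞 CF.KK) (I : Ideal (𝓞 CF.KK)) : Eis := NAB.cm (psv6 D) I

/-- `z = u₁ + u₂ s` and `z⁻¹ = u₁ - u₂ s` with `u₁, u₂ ∈ ℚ(ω)`: for `s² = D` these are the elements of
`ℚ(ω, √D)` of relative norm `1`. -/
def N1 (s z : ℂ) : Prop := ∃ u₁ u₂ : ℂ, u₁ ∈ CF.KK ∧ u₂ ∈ CF.KK ∧ z = u₁ + u₂ * s ∧ z⁻¹ = u₁ - u₂ * s ∧ z ≠ 0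

/-- The field `ℚ(ω, s)`. -/
noncomputable def KS (s : ℂ) : IntermediateField ℚ ℂ := IntermediateField.adjoin ℚ {w, s}

end JL
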