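import Pool.Agent.JL.Defs

/-!
# [JL-K1] the integrand of the limit formula: bounds

`T₀(u, z) = NAB.Ak 0 u z = ∑_{a} exp(-π u |z + a|²)` (real). `GX z u = T₀(u, z + ta) + T₀(u, z - ta) - 2 T₀(u, z)`, `LX z = ∫_{0}^{∞} GX z u du / u`.
PROOF. `Ak_gap`: uniform version of `NAB.Ak_bound_off` (NAB/A2a.lean, copy its proof with the given gap `δ` instead of `a2a_gap`): `Ak k u z ≤ C (1 + 1/u)^(k+1) exp(-κ u)` with `C, κ` depending only on `k, δ`.
`GX_bound`: for `u ≥ 1` three times `Ak_gap`. For `u ≤ 1`: `NAB.T0_small : ‖u Tk 0 u z - 1/A0‖ ≤ C (1 + u) exp(-κ/u)` for all `z` (`Tk 0 u z = (Ak 0 u z : ℂ)`: `GX_Tk`), the main terms cancel: `|u GX| ≤ 4 C (1 + u) exp(-κ / u)`, and `(1/u) exp(-κ/u) ≤ C' exp(-κ/(2u))`. Combine: `≤ C exp(-κ' (u + 1/u))` (for `u ≥ 1`: `u ≥ (u + 1/u)/2`, `(1+1/u)^(..)` bounded; for `u ≤ 1` symmetric).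
`Tk1_bound`: the same for `Tk 1` (`NAB.norm_Tk_le`, `NAB.Tk_small 1`).
`GX_cont`: continuity in `u` (`NAB.Tk_cont 0`). `LX_int`: integrability of `GX z u / u` on `(0, ∞)`.
-/

set_option autoImplicit false

open MeasureTheory Set Filter Topology
open scoped Classical ComplexConjugate

namespace JL

open CM27 JZ
open CU (la)
open CUL (Nl ta)

/-- `T₀(u, z + ta) + T₀(u, z - ta) - 2 T₀(u, z)` -/
noncomputable def GX (z : ℂ) (u : ℝ) : ℝ := NAB.Ak 0 u (z + ta) + NAB.Ak 0 u (z - ta) - 2 * NAB.Ak 0 u z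

/-- `∫ GX z u du / u` -/
noncomputable def LX (z : ℂ) : ℝ := ∫ u in Ioi (0 : ℝ), GX z u / u

/-- the domain: `z`, `z + ta`, `z - ta` are off the lattice -/
def DX : Set ℂ := {z | Nl z ∧ Nl (z + ta) ∧ Nl (z - ta)}

theorem Ak_gap (k : ℕ) {δ : ℝ} (hδ : 0 < δ) : ∃ C κ : ℝ, 0 < C ∧ 0 < κ ∧ ∀ z : ℂ,
    (∀ a : Eis, δ ≤ ‖z + emb a‖) → ∀ u : ℝ, 0 < u → NAB.Ak k u z ≤ C * (1 + 1 / u) ^ (k + 1) * Real.exp (-(κ * u)) := by
  obtain ⟨C, hC, hb⟩ := NAB.Ak_bound k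
  refine ⟨C * 2 ^ (k + 1), Real.pi / 2 * δ ^ 2, by positivity, by positivity, fun z hgap s hs => ?_⟩
  have hs2 : 0 < s / 2 := by positivity
  have h1 : NAB.Ak k s z ≤ Real.exp (-(Real.pi / 2 * δ ^ 2 * s)) * NAB.Ak k (s / 2) z := by
    unfold NAB.Ak
    rw [← tsum_mul_left]
    refine Summable.tsum_le_tsum (fun a => ?_) (NAB.Ak_summable k hs z)
      ((NAB.Ak_summable k hs2 z).mul_left _)
    have h2 : Real.exp (-(Real.pi * s * ‖z + emb a‖ ^ 2)) ≤ Real.exp (-(Real.pi / 2 * δ ^ 2 * s))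
        * Real.exp (-(Real.pi * (s / 2) * ‖z + emb a‖ ^ 2)) := by
      rw [← Real.exp_add]
      apply Real.exp_le_exp.2
      have h3 : δ ^ 2 ≤ ‖z + emb a‖ ^ 2 := pow_le_pow_left₀ hδ.le (hgap a) 2
      have h4 := mul_le_mul_of_nonneg_left h3 (mul_pos Real.pi_pos hs).le
      nlinarith
    calc ‖z + emb a‖ ^ k * Real.exp (-(Real.pi * s * ‖z + emb a‖ ^ 2))
        ≤ ‖z + emb a‖ ^ k * (Real.exp (-(Real.pi / 2 * δ ^ 2 * s))
          * Real.exp (-(Real.pi * (s / 2) * ‖z + emb a‖ ^ 2))) :=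
          mul_le_mul_of_nonneg_left h2 (by positivity)
      _ = _ := by ring
  have h5 := hb (s / 2) hs2 z
  have h6 : 1 + 1 / (s / 2) ≤ 2 * (1 + 1 / s) := by
    have : 1 / (s / 2) = 2 * (1 / s) := by field_simp
    rw [this]; linarith
  have h7 : (1 + 1 / (s / 2)) ^ (k + 1) ≤ 2 ^ (k + 1) * (1 + 1 / s) ^ (k + 1) := by
    rw [← mul_pow]
    exact pow_le_pow_left₀ (by positivity) h6 _
  calc NAB.Ak k s z ≤ Real.exp (-(Real.pi / 2 * δ ^ 2 * s)) * NAB.Ak k (s / 2) z := h1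
    _ ≤ Real.exp (-(Real.pi / 2 * δ ^ 2 * s)) * (C * (2 ^ (k + 1) * (1 + 1 / s) ^ (k + 1))) :=
        mul_le_mul_of_nonneg_left (le_trans h5 (mul_le_mul_of_nonneg_left h7 hC.le))
          (Real.exp_pos _).le
    _ = _ := by ring

theorem GX_Tk {u : ℝ} (hu : 0 < u) (z : ℂ) : NAB.Tk 0 u z = (NAB.Ak 0 u z : ℂ) := by
  unfold NAB.Tk NAB.Ak
  rw [Complex.ofReal_tsum]
  refine tsum_congr fun a => ?_
  rw [pow_zero, pow_zero, one_mul, one_mul]

theorem k1_large {κ κ1 u : ℝ} (h1 : κ ≤ κ1 / 2) (h0 : 0 < κ) (hu : 1 ≤ u) :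
    Real.exp (-(κ1 * u)) ≤ Real.exp (-(κ * (u + 1 / u))) := by
  apply Real.exp_le_exp.2
  have hu0 : 0 < u := by linarith
  have h2 : 1 / u ≤ u := by
    rw [div_le_iff₀ hu0]
    nlinarith
  have h3 : κ * (u + 1 / u) ≤ κ * (2 * u) := mul_le_mul_of_nonneg_left (by linarith) h0.le
  have h4 : κ * (2 * u) ≤ κ1 / 2 * (2 * u) := mul_le_mul_of_nonneg_right h1 (by positivity)
  linarith

theorem k1_small {κ κ1 u : ℝ} (h1 : κ ≤ κ1 / 2) (h0 : 0 < κ) (hu0 : 0 < u) (hu : u ≤ 1) :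
    Real.exp (-(κ1 / u)) ≤ Real.exp (-(κ * (u + 1 / u))) := by
  apply Real.exp_le_exp.2
  have h2 : u ≤ 1 / u := by
    rw [le_div_iff₀ hu0]
    nlinarith
  have h5 : 0 < 1 / u := by positivity
  have h3 : κ * (u + 1 / u) ≤ κ * (2 * (1 / u)) := mul_le_mul_of_nonneg_left (by linarith) h0.le
  have h4 : κ * (2 * (1 / u)) ≤ κ1 / 2 * (2 * (1 / u)) := mul_le_mul_of_nonneg_right h1 (by positivity)
  have h6 : κ1 / u = κ1 / 2 * (2 * (1 / u)) := by ring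
  rw [h6]
  linarith

theorem k1_inv {c u : ℝ} (hc : 0 < c) (hu : 0 < u) :
    1 / u * Real.exp (-(c / u)) ≤ 1 / c := by
  have h1 : c / u ≤ Real.exp (c / u) := by
    have := Real.add_one_le_exp (c / u)
    linarith
  have h2 : 0 < Real.exp (-(c / u)) := Real.exp_pos _
  have h3 : c / u * Real.exp (-(c / u)) ≤ 1 := by
    calc c / u * Real.exp (-(c / u)) ≤ Real.exp (c / u) * Real.exp (-(c / u)) :=
        mul_le_mul_of_nonneg_right h1 h2.le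
      _ = 1 := by rw [← Real.exp_add]; simp
  rw [le_div_iff₀ hc]
  calc 1 / u * Real.exp (-(c / u)) * c = c / u * Real.exp (-(c / u)) := by ring
    _ ≤ 1 := h3

theorem GX_bound {δ : ℝ} (hδ : 0 < δ) : ∃ C κ : ℝ, 0 < C ∧ 0 < κ ∧ ∀ z : ℂ, (∀ a : Eis, δ ≤ ‖z + emb a‖) →
    (∀ a : Eis, δ ≤ ‖z + ta + emb a‖) → (∀ a : Eis, δ ≤ ‖z - ta + emb a‖) → ∀ u : ℝ, 0 < u →
    |GX z u| ≤ C * Real.exp (-(κ * (u + 1 / u))) := by
  obtain ⟨C1, κ1, hC1, hκ1, h1⟩ := Ak_gap 0 hδ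
  obtain ⟨C2, κ2, hC2, hκ2, h2⟩ := NAB.T0_small
  refine ⟨8 * C1 + 16 * C2 / κ2, min (κ1 / 2) (κ2 / 4), by positivity,
    lt_min (by positivity) (by positivity), fun z hz hz1 hz2 u hu => ?_⟩
  set κ := min (κ1 / 2) (κ2 / 4) with hκ
  have hκ0 : 0 < κ := lt_min (by positivity) (by positivity)
  have hκa : κ ≤ κ1 / 2 := min_le_left _ _
  have hκb : κ ≤ κ2 / 4 := min_le_right _ _
  have hE : 0 < Real.exp (-(κ * (u + 1 / u))) := Real.exp_pos _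
  rcases le_or_gt 1 u with hu1 | hu1
  · have hb : ∀ z' : ℂ, (∀ a : Eis, δ ≤ ‖z' + emb a‖) →
        NAB.Ak 0 u z' ≤ 2 * C1 * Real.exp (-(κ1 * u)) := by
      intro z' hz'
      have h3 := h1 z' hz' u hu
      have h4 : (1 + 1 / u) ^ (0 + 1) ≤ 2 := by
        have : 1 / u ≤ 1 := by
          rw [div_le_iff₀ hu]
          linarith
        rw [zero_add, pow_one]
        linarith
      have h5 : C1 * (1 + 1 / u) ^ (0 + 1) ≤ C1 * 2 := mul_le_mul_of_nonneg_left h4 hC1.le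
      have h6 := mul_le_mul_of_nonneg_right h5 (Real.exp_pos (-(κ1 * u))).le
      linarith
    have p0 := NAB.Ak_nonneg 0 u z
    have p1 := NAB.Ak_nonneg 0 u (z + ta)
    have p2 := NAB.Ak_nonneg 0 u (z - ta)
    have q0 := hb z hz
    have q1 := hb (z + ta) hz1
    have q2 := hb (z - ta) hz2
    have h7 := k1_large hκa hκ0 hu1
    have h8 : |GX z u| ≤ 8 * C1 * Real.exp (-(κ1 * u)) := by
      unfold GX
      rw [abs_le]
      constructor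
      · linarith
      · linarith
    calc |GX z u| ≤ 8 * C1 * Real.exp (-(κ1 * u)) := h8
      _ ≤ 8 * C1 * Real.exp (-(κ * (u + 1 / u))) := mul_le_mul_of_nonneg_left h7 (by positivity)
      _ ≤ (8 * C1 + 16 * C2 / κ2) * Real.exp (-(κ * (u + 1 / u))) := by
          apply mul_le_mul_of_nonneg_right _ hE.le
          have : 0 < 16 * C2 / κ2 := by positivity
          linarith
  · have h3 : (u : ℂ) * (GX z u : ℂ) = ((u : ℂ) * NAB.Tk 0 u (z + ta) - 1 / (NAB.A0 : ℂ)) +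
        ((u : ℂ) * NAB.Tk 0 u (z - ta) - 1 / (NAB.A0 : ℂ)) -
        2 * ((u : ℂ) * NAB.Tk 0 u z - 1 / (NAB.A0 : ℂ)) := by
      rw [GX_Tk hu, GX_Tk hu, GX_Tk hu]
      unfold GX
      push_cast
      ring
    have h4 : ‖(u : ℂ) * (GX z u : ℂ)‖ ≤ 4 * (C2 * (1 + u) * Real.exp (-(κ2 / u))) := by
      rw [h3]
      refine le_trans (norm_sub_le _ _) ?_
      have e1 := norm_add_le ((u : ℂ) * NAB.Tk 0 u (z + ta) - 1 / (NAB.A0 : ℂ))
        ((u : ℂ) * NAB.Tk 0 u (z - ta) - 1 / (NAB.A0 : ℂ))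
      have e2 := h2 u hu (z + ta)
      have e3 := h2 u hu (z - ta)
      have e4 := h2 u hu z
      have e5 : ‖2 * ((u : ℂ) * NAB.Tk 0 u z - 1 / (NAB.A0 : ℂ))‖ =
          2 * ‖(u : ℂ) * NAB.Tk 0 u z - 1 / (NAB.A0 : ℂ)‖ := by
        rw [norm_mul, Complex.norm_ofNat]
      rw [e5]
      linarith
    have h5 : ‖(u : ℂ) * (GX z u : ℂ)‖ = u * |GX z u| := by
      rw [norm_mul, Complex.norm_real, Complex.norm_real, Real.norm_of_nonneg hu.le,
        Real.norm_eq_abs]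
    rw [h5] at h4
    have h6 : 4 * (C2 * (1 + u) * Real.exp (-(κ2 / u))) ≤ 8 * C2 * Real.exp (-(κ2 / u)) := by
      have : C2 * (1 + u) ≤ C2 * 2 := mul_le_mul_of_nonneg_left (by linarith) hC2.le
      have := mul_le_mul_of_nonneg_right this (Real.exp_pos (-(κ2 / u))).le
      linarith
    have h7 : |GX z u| ≤ 1 / u * (8 * C2 * Real.exp (-(κ2 / u))) := by
      rw [one_div, ← div_eq_inv_mul, le_div_iff₀ hu]
      linarith
    have h8 : Real.exp (-(κ2 / u)) = Real.exp (-(κ2 / 2 / u)) * Real.exp (-(κ2 / 2 / u)) := by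
      rw [← Real.exp_add]
      congr 1
      ring
    have h9 := k1_inv (c := κ2 / 2) (by positivity) hu
    have h10 : Real.exp (-(κ2 / 2 / u)) ≤ Real.exp (-(κ * (u + 1 / u))) :=
      k1_small (by linarith) hκ0 hu hu1.le
    calc |GX z u| ≤ 1 / u * (8 * C2 * Real.exp (-(κ2 / u))) := h7
      _ = 8 * C2 * (1 / u * Real.exp (-(κ2 / 2 / u))) * Real.exp (-(κ2 / 2 / u)) := by
          rw [h8]; ring
      _ ≤ 8 * C2 * (1 / (κ2 / 2)) * Real.exp (-(κ2 / 2 / u)) :=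
          mul_le_mul_of_nonneg_right (mul_le_mul_of_nonneg_left h9 (by positivity))
            (Real.exp_pos _).le
      _ = 16 * C2 / κ2 * Real.exp (-(κ2 / 2 / u)) := by
          congr 1
          field_simp
          ring
      _ ≤ 16 * C2 / κ2 * Real.exp (-(κ * (u + 1 / u))) :=
          mul_le_mul_of_nonneg_left h10 (by positivity)
      _ ≤ (8 * C1 + 16 * C2 / κ2) * Real.exp (-(κ * (u + 1 / u))) := by
          apply mul_le_mul_of_nonneg_right _ hE.le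
          linarith

theorem Tk1_bound {δ : ℝ} (hδ : 0 < δ) : ∃ C κ : ℝ, 0 < C ∧ 0 < κ ∧ ∀ z : ℂ, (∀ a : Eis, δ ≤ ‖z + emb a‖) →
    ∀ u : ℝ, 0 < u → ‖NAB.Tk 1 u z‖ ≤ C * Real.exp (-(κ * (u + 1 / u))) := by
  obtain ⟨C1, κ1, hC1, hκ1, h1⟩ := NAB.Tk_small 1 (Or.inl rfl)
  obtain ⟨C2, κ2, hC2, hκ2, h2⟩ := Ak_gap 1 hδ
  refine ⟨C1 + 4 * C2, min (κ1 / 2) (κ2 / 2), by positivity,
    lt_min (by positivity) (by positivity), fun z hz u hu => ?_⟩
  set κ := min (κ1 / 2) (κ2 / 2) with hκ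
  have hκ0 : 0 < κ := lt_min (by positivity) (by positivity)
  have hκa : κ ≤ κ1 / 2 := min_le_left _ _
  have hκb : κ ≤ κ2 / 2 := min_le_right _ _
  have hE : 0 < Real.exp (-(κ * (u + 1 / u))) := Real.exp_pos _
  rcases le_or_gt 1 u with hu1 | hu1
  · have h3 := (NAB.norm_Tk_le 1 hu z).trans (h2 z hz u hu)
    have h4 : (1 + 1 / u) ^ (1 + 1) ≤ 4 := by
      have h5 : 1 / u ≤ 1 := by
        rw [div_le_iff₀ hu]
        linarith
      have h6 : 0 < 1 / u := by positivity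
      nlinarith
    have h7 := k1_large hκb hκ0 hu1
    calc ‖NAB.Tk 1 u z‖ ≤ C2 * (1 + 1 / u) ^ (1 + 1) * Real.exp (-(κ2 * u)) := h3
      _ ≤ C2 * 4 * Real.exp (-(κ2 * u)) :=
          mul_le_mul_of_nonneg_right (mul_le_mul_of_nonneg_left h4 hC2.le) (Real.exp_pos _).le
      _ ≤ C2 * 4 * Real.exp (-(κ * (u + 1 / u))) := mul_le_mul_of_nonneg_left h7 (by positivity)
      _ ≤ (C1 + 4 * C2) * Real.exp (-(κ * (u + 1 / u))) := by
          apply mul_le_mul_of_nonneg_right _ hE.le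
          linarith
  · have h3 := h1 u hu z
    have h7 := k1_small hκa hκ0 hu hu1.le
    calc ‖NAB.Tk 1 u z‖ ≤ C1 * Real.exp (-(κ1 / u)) := h3
      _ ≤ C1 * Real.exp (-(κ * (u + 1 / u))) := mul_le_mul_of_nonneg_left h7 hC1.le
      _ ≤ (C1 + 4 * C2) * Real.exp (-(κ * (u + 1 / u))) := by
          apply mul_le_mul_of_nonneg_right _ hE.le
          linarith

theorem k1_cont (z : ℂ) : ContinuousOn (fun u : ℝ => NAB.Ak 0 u z) (Ioi 0) := by
  have h1 : ContinuousOn (fun u : ℝ => (u, z)) (Ioi 0) := by fun_prop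
  have h2 : MapsTo (fun u : ℝ => (u, z)) (Ioi (0 : ℝ)) (Ioi (0 : ℝ) ×ˢ (univ : Set ℂ)) :=
    fun u hu => ⟨hu, mem_univ _⟩
  have h4 := ContinuousOn.comp (g := fun p : ℝ × ℂ => NAB.Tk 0 p.1 p.2) (NAB.Tk_cont 0) h1 h2
  have h5 : ContinuousOn (fun u : ℝ => (NAB.Tk 0 u z).re) (Ioi 0) :=
    Complex.continuous_re.comp_continuousOn h4
  refine h5.congr fun u hu => ?_
  have h6 : (NAB.Tk 0 u z).re = NAB.Ak 0 u z := by
    rw [GX_Tk hu, Complex.ofReal_re]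
  exact h6.symm

theorem GX_cont (z : ℂ) : ContinuousOn (GX z) (Ioi 0) := by
  unfold GX
  exact ((k1_cont _).add (k1_cont _)).sub (continuousOn_const.mul (k1_cont _))

theorem k1_gap {z : ℂ} (hz : z ∈ DX) : ∃ δ ε : ℝ, 0 < δ ∧ 0 < ε ∧ ∀ z' : ℂ, ‖z' - z‖ ≤ ε →
    (∀ a : Eis, δ ≤ ‖z' + emb a‖) ∧ (∀ a : Eis, δ ≤ ‖z' + ta + emb a‖) ∧ (∀ a : Eis, δ ≤ ‖z' - ta + emb a‖) := by
  obtain ⟨h0, h1, h2⟩ := hz
  obtain ⟨d0, hd0, g0⟩ := NAB.a2a_gap z h0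
  obtain ⟨d1, hd1, g1⟩ := NAB.a2a_gap (z + ta) h1
  obtain ⟨d2, hd2, g2⟩ := NAB.a2a_gap (z - ta) h2
  have hm : 0 < min d0 (min d1 d2) := lt_min hd0 (lt_min hd1 hd2)
  have m0 : min d0 (min d1 d2) ≤ d0 := min_le_left _ _
  have m1 : min d0 (min d1 d2) ≤ d1 := (min_le_right _ _).trans (min_le_left _ _)
  have m2 : min d0 (min d1 d2) ≤ d2 := (min_le_right _ _).trans (min_le_right _ _)
  have key : ∀ (x y : ℂ) (d : ℝ), min d0 (min d1 d2) ≤ d → ‖y - x‖ ≤ min d0 (min d1 d2) / 2 →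
      d ≤ ‖x‖ → min d0 (min d1 d2) / 2 ≤ ‖y‖ := by
    intro x y d h3 h4 h5
    have h6 : ‖x‖ ≤ ‖y‖ + ‖y - x‖ := by
      have : x = y - (y - x) := by ring
      calc ‖x‖ = ‖y - (y - x)‖ := by rw [← this]
        _ ≤ _ := norm_sub_le _ _
    linarith
  refine ⟨min d0 (min d1 d2) / 2, min d0 (min d1 d2) / 2, by positivity, by positivity,
    fun z' hz' => ⟨fun a => ?_, fun a => ?_, fun a => ?_⟩⟩
  · refine key (z + emb a) (z' + emb a) d0 m0 ?_ (g0 a)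
    have : z' + emb a - (z + emb a) = z' - z := by ring
    rw [this]
    exact hz'
  · refine key (z + ta + emb a) (z' + ta + emb a) d1 m1 ?_ (g1 a)
    have : z' + ta + emb a - (z + ta + emb a) = z' - z := by ring
    rw [this]
    exact hz'
  · refine key (z - ta + emb a) (z' - ta + emb a) d2 m2 ?_ (g2 a)
    have : z' - ta + emb a - (z - ta + emb a) = z' - z := by ring
    rw [this]
    exact hz'

theorem LX_int {z : ℂ} (hz : z ∈ DX) : IntegrableOn (fun u : ℝ => GX z u / u) (Ioi 0) := by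
  obtain ⟨δ, ε, hδ, hε, hg⟩ := k1_gap hz
  obtain ⟨C, κ, hC, hκ, hb⟩ := GX_bound hδ
  have hz0 : ‖z - z‖ ≤ ε := by
    rw [sub_self, norm_zero]
    exact hε.le
  obtain ⟨g0, g1, g2⟩ := hg z hz0
  have hb' := hb z g0 g1 g2
  have hcont : ContinuousOn (fun u : ℝ => GX z u / u) (Ioi 0) :=
    (GX_cont z).div continuousOn_id fun u hu => ne_of_gt hu
  have hint : IntegrableOn (fun u : ℝ => C / κ * Real.exp (-κ * u)) (Ioi 0) :=
    (exp_neg_integrableOn_Ioi 0 hκ).const_mul _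
  refine Integrable.mono' hint (hcont.aestronglyMeasurable measurableSet_Ioi) ?_
  refine (ae_restrict_iff' measurableSet_Ioi).2 (Filter.Eventually.of_forall fun u hu => ?_)
  have hu0 : 0 < u := hu
  rw [norm_div, Real.norm_eq_abs, Real.norm_of_nonneg hu0.le]
  have h1 := hb' u hu0
  have h2 : Real.exp (-(κ * (u + 1 / u))) = Real.exp (-κ * u) * Real.exp (-(κ / u)) := by
    rw [← Real.exp_add]
    congr 1
    ring
  have h3 := k1_inv hκ hu0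
  calc |GX z u| / u ≤ C * Real.exp (-(κ * (u + 1 / u))) / u :=
        div_le_div_of_nonneg_right h1 hu0.le
    _ = C * Real.exp (-κ * u) * (1 / u * Real.exp (-(κ / u))) := by
        rw [h2]; ring
    _ ≤ C * Real.exp (-κ * u) * (1 / κ) := mul_le_mul_of_nonneg_left h3 (by positivity)
    _ = C / κ * Real.exp (-κ * u) := by ring

theorem DX_gap {z : ℂ} (hz : z ∈ DX) : ∃ δ ε : ℝ, 0 < δ ∧ 0 < ε ∧ ∀ z' : ℂ, ‖z' - z‖ ≤ ε →
    (∀ a : Eis, δ ≤ ‖z' + emb a‖) ∧ (∀ a : Eis, δ ≤ ‖z' + ta + emb a‖) ∧ (∀ a : Eis, δ ≤ ‖z' - ta + emb a‖) := by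
  exact k1_gap hz

end JL
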