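import Pool.Agent.JL.B2
import Pool.Agent.JL.B3

/-!
# [JL-K3] Gauss sums

`psX x = exp(2 π i Re(2 i x / √3))`, an additive character of `ℂ`. `psX_emb`: `psX (emb a) = 1` (`Re(2 i ω/√3) = -1`). `psX_dual`: if `psX (x emb b) = 1` for all `b` then `x ∈ range emb` (`x = p + q ω`, `p, q` real: `b = 1` gives `q ∈ ℤ`, `b = ω`: `x ω = -q + (p - q) ω`: `p - q ∈ ℤ`).
`orth`: `∑_{b ∈ rp f} psX (c b / f) = N(f)` if `f ∣ c`, `0` otherwise (`f = 4 D`; if `f ∤ c` some `b₀` has `psX(c b₀/f) ≠ 1`; shift `b → b + b₀`, `IsRep`), `IsRep.card`.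
`gauss`: `G(b) := ∑_{α ∈ rp f} q2(α) psX(α b / f) = q2(b) G(1)` for all `b`: if `b` is coprime to `f`: substitute `α → b⁻¹ α` (`IsRep.sum_mul`). If a prime `p` divides `b` and `f`: `u` from `q2_prim` (`u ≡ 1 mod f/p`, coprime to `f`, `q2 u = -1`): `α u b / f ≡ α b / f` mod `ℤ[ω]` (`f ∣ (u - 1) b`), so `G(b) = q2(u) G(b) = -G(b)`, `G(b) = 0`.
`gauss_norm`: `∑_{b ∈ rp f} |G(b)|² = ∑_{α, β} q2 α q2 β ∑_b psX((α - β) b/f) = N(f) ∑_α q2(α)²` and `= |G(1)|² ∑_b q2(b)²`; `∑ q2² > 0` (`α ≡ 1`): `|G(1)|² = N(f)`.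
-/

set_option autoImplicit false

open scoped Classical ComplexConjugate

namespace JL

open CM27 JZ
open CU (la)
open CUL (Nl ta rp IsRep)

variable {D : Eis}

/-- the additive character -/
noncomputable def psX (x : ℂ) : ℂ := Complex.exp (2 * Real.pi * Complex.I * ((2 * Complex.I * x / (√3 : ℝ)).re : ℂ))

theorem K3_sqrt : (√3 : ℝ) ≠ 0 := by positivity

theorem K3_re (x : ℂ) : (2 * Complex.I * x / (√3 : ℝ)).re = -(2 * x.im / √3) := by
  rw [Complex.div_ofReal_re]
  have h1 : (2 * Complex.I * x).re = -(2 * x.im) := by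
    simp [Complex.mul_re, Complex.mul_im]
  rw [h1, neg_div]

theorem psX_add (x y : ℂ) : psX (x + y) = psX x * psX y := by
  unfold psX
  rw [← Complex.exp_add]
  congr 1
  rw [K3_re, K3_re, K3_re, Complex.add_im]
  push_cast
  ring

theorem K3_emb_im (a : Eis) : (emb a).im = a.im * (√3 / 2) := by
  rw [emb_apply]
  simp [w]

theorem K3_emb_re (a : Eis) : (emb a).re = a.re - a.im / 2 := by
  rw [emb_apply]
  simp [w]
  ring

theorem psX_emb (a : Eis) : psX (emb a) = 1 := by
  unfold psX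
  rw [K3_re, K3_emb_im]
  have h1 : -(2 * ((a.im : ℝ) * (√3 / 2)) / √3) = ((-a.im : ℤ) : ℝ) := by
    have := K3_sqrt
    push_cast
    field_simp
  rw [h1, Complex.exp_eq_one_iff]
  refine ⟨-a.im, ?_⟩
  push_cast
  ring

theorem psX_norm (x : ℂ) : ‖psX x‖ = 1 := by
  unfold psX
  have h1 : 2 * Real.pi * Complex.I * ((2 * Complex.I * x / (√3 : ℝ)).re : ℂ) =
      ((2 * Real.pi * (2 * Complex.I * x / (√3 : ℝ)).re : ℝ) : ℂ) * Complex.I := by
    push_cast
    ring
  rw [h1, Complex.norm_exp_ofReal_mul_I]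

theorem K3_zero : psX 0 = 1 := by
  have h := psX_emb 0
  rwa [map_zero] at h

theorem K3_conj (x : ℂ) : conj (psX x) = psX (-x) := by
  have h1 : psX x * psX (-x) = 1 := by rw [← psX_add, add_neg_cancel, K3_zero]
  have h2 : psX x * conj (psX x) = 1 := by
    rw [Complex.mul_conj, Complex.normSq_eq_norm_sq, psX_norm]
    norm_num
  have h3 : psX x ≠ 0 := by
    intro h0
    rw [h0, zero_mul] at h1
    exact zero_ne_one h1
  exact mul_left_cancel₀ h3 (h2.trans h1.symm)

theorem K3_int {x : ℂ} (h : psX x = 1) : ∃ n : ℤ, 2 * x.im / √3 = n := by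
  unfold psX at h
  rw [Complex.exp_eq_one_iff, K3_re] at h
  obtain ⟨n, hn⟩ := h
  have h1 : (2 * Real.pi * Complex.I : ℂ) ≠ 0 := by
    simp [Real.pi_ne_zero]
  have h2 : (((-(2 * x.im / √3) : ℝ)) : ℂ) = ((n : ℝ) : ℂ) := by
    apply mul_left_cancel₀ h1
    rw [hn]
    push_cast
    ring
  have h3 : -(2 * x.im / √3) = (n : ℝ) := Complex.ofReal_injective h2
  refine ⟨-n, ?_⟩
  push_cast
  linarith

theorem psX_dual {x : ℂ} (h : ∀ b : Eis, psX (x * emb b) = 1) : x ∈ Set.range emb := by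
  have h1 := h 1
  rw [map_one, mul_one] at h1
  obtain ⟨n, hn⟩ := K3_int h1
  obtain ⟨m, hm⟩ := K3_int (h ⟨0, 1⟩)
  have hs := K3_sqrt
  have hs2 : √3 * √3 = 3 := Real.mul_self_sqrt (by norm_num)
  have him : x.im = n * (√3 / 2) := by
    field_simp at hn
    linarith
  have h2 : (x * emb ⟨0, 1⟩).im = x.re * (√3 / 2) + x.im * (-1 / 2) := by
    rw [Complex.mul_im, K3_emb_im, K3_emb_re]
    push_cast
    ring
  rw [h2, him] at hm
  have h3 : 2 * (x.re * (√3 / 2) + n * (√3 / 2) * (-1 / 2)) / √3 = x.re - n / 2 := by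
    field_simp
    ring
  rw [h3] at hm
  refine ⟨⟨m + n, n⟩, ?_⟩
  apply Complex.ext
  · rw [K3_emb_re]
    push_cast
    linarith
  · rw [K3_emb_im, him]

/-- the Gauss sum -/
noncomputable def gX (d : Dat D) : ℂ := ∑ α ∈ rp (4 * D), (q2 d α : ℂ) * psX (emb α / emb (4 * D))

theorem K3_ne (h : Cl0 D) : (4 * D : Eis) ≠ 0 := by
  have hdom := eis_isDomain
  have h4 : (4 : Eis) ≠ 0 := by decide
  exact mul_ne_zero h4 (cl_ne h)

theorem K3_shift {f : Eis} (hf : emb f ≠ 0) {a b c : Eis} (hab : f ∣ (a - b) * c) :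
    psX (emb a * emb c / emb f) = psX (emb b * emb c / emb f) := by
  obtain ⟨k, hk⟩ := hab
  have h1 : emb a * emb c / emb f = emb b * emb c / emb f + emb k := by
    have h2 : (emb a - emb b) * emb c = emb f * emb k := by
      rw [← map_sub, ← map_mul, ← map_mul, hk]
    rw [eq_comm, div_add' _ _ _ hf]
    congr 1
    linear_combination -h2
  rw [h1, psX_add, psX_emb, mul_one]

theorem K3_per (h : Cl0 D) (d : Dat D) (c : Eis) (a b : Eis) (hab : 4 * D ∣ a - b) :
    (q2 d a : ℂ) * psX (emb a * emb c / emb (4 * D)) =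
      (q2 d b : ℂ) * psX (emb b * emb c / emb (4 * D)) := by
  have hf : emb (4 * D) ≠ 0 := fun h0 => K3_ne h (emb_injective (by rw [h0, map_zero]))
  rw [q2_congr d hab, K3_shift hf (hab.mul_right c)]

theorem gauss (h : Cl0 D) (d : Dat D) (b : Eis) :
    ∑ α ∈ rp (4 * D), (q2 d α : ℂ) * psX (emb α * emb b / emb (4 * D)) = (q2 d b : ℂ) * gX d := by
  have hdom := eis_isDomain
  have hpid : IsPrincipalIdealRing Eis := eis_pid
  have hf0 := K3_ne h
  have hf : emb (4 * D) ≠ 0 := fun h0 => hf0 (emb_injective (by rw [h0, map_zero]))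
  have hR := CUL.rp_spec hf0
  by_cases hb : IsCoprime b (4 * D)
  · have h1 : gX d = ∑ α ∈ rp (4 * D), (q2 d (b * α) : ℂ) *
        psX (emb (b * α) * emb 1 / emb (4 * D)) := by
      rw [IsRep.sum_mul hR hb (fun α => (q2 d α : ℂ) * psX (emb α * emb 1 / emb (4 * D)))
        (K3_per h d 1)]
      unfold gX
      apply Finset.sum_congr rfl
      intro α _
      rw [map_one, mul_one]
    have hq : (q2 d b : ℂ) * (q2 d b : ℂ) = 1 := by
      have h2 := (q2_ne_zero_iff d b).2 hb
      rcases q2_cases d b with h3 | h3 | h3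
      · exact absurd h3 h2
      · rw [h3]
        norm_num
      · rw [h3]
        norm_num
    have h2 : ∀ α, (q2 d (b * α) : ℂ) * psX (emb (b * α) * emb 1 / emb (4 * D)) =
        (q2 d b : ℂ) * ((q2 d α : ℂ) * psX (emb α * emb b / emb (4 * D))) := by
      intro α
      rw [q2_mul, map_one, mul_one, map_mul, mul_comm (emb b) (emb α)]
      push_cast
      ring
    rw [h1, Finset.sum_congr rfl fun α _ => h2 α, ← Finset.mul_sum, ← mul_assoc, hq, one_mul]
  · obtain ⟨p, hp, hpb, hpf⟩ : ∃ p : Eis, Prime p ∧ p ∣ b ∧ p ∣ 4 * D := by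
      by_contra hcon
      push Not at hcon
      apply hb
      exact isCoprime_of_prime_dvd (fun h0 => hf0 h0.2) hcon
    obtain ⟨u, hu, hum, hqu⟩ := q2_prim h d hp hpf
    obtain ⟨m, hm⟩ := hpf
    have h1 := IsRep.sum_mul hR hu (fun α => (q2 d α : ℂ) * psX (emb α * emb b / emb (4 * D)))
      (K3_per h d b)
    have h2 : ∀ α, (q2 d (u * α) : ℂ) * psX (emb (u * α) * emb b / emb (4 * D)) =
        -((q2 d α : ℂ) * psX (emb α * emb b / emb (4 * D))) := by
      intro α
      have h3 : 4 * D ∣ (u * α - α) * b := by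
        obtain ⟨k, hk⟩ := hum m hm.symm
        obtain ⟨l, hl⟩ := hpb
        refine ⟨k * l * α, ?_⟩
        have h4 : u * α - α = (u - 1) * α := by ring
        rw [h4, hk, hl, hm]
        ring
      rw [q2_mul, hqu, K3_shift hf h3]
      push_cast
      ring
    rw [Finset.sum_congr rfl fun α _ => h2 α, Finset.sum_neg_distrib] at h1
    have hq0 : q2 d b = 0 := by
      by_contra hne
      exact hb ((q2_ne_zero_iff d b).1 hne)
    rw [hq0, Int.cast_zero, zero_mul]
    have h5 : (2 : ℂ) * ∑ α ∈ rp (4 * D), (q2 d α : ℂ) * psX (emb α * emb b / emb (4 * D)) = 0 := by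
      linear_combination -h1
    rcases mul_eq_zero.1 h5 with h6 | h6
    · norm_num at h6
    · exact h6

/-- translates of systems of representatives -/
theorem K3_translate {f : Eis} {R : Finset Eis} (hR : IsRep f R) (b : Eis) :
    IsRep f (R.image fun c => c + b) := by
  intro a
  obtain ⟨c, ⟨hc, hd⟩, huniq⟩ := hR (a - b)
  refine ⟨c + b, ⟨Finset.mem_image_of_mem _ hc, ?_⟩, ?_⟩
  · have h1 : a - (c + b) = a - b - c := by ring
    rw [h1]
    exact hd
  · rintro y ⟨hy, hy2⟩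
    obtain ⟨c', hc', rfl⟩ := Finset.mem_image.1 hy
    have h1 : a - b - c' = a - (c' + b) := by ring
    have h2 := huniq c' ⟨hc', by rw [h1]; exact hy2⟩
    show c' + b = c + b
    rw [h2]

theorem K3_orth {f : Eis} (hf0 : f ≠ 0) (c : Eis) :
    ∑ b ∈ rp f, psX (emb c * emb b / emb f) = if f ∣ c then ((f.norm : ℤ) : ℂ) else 0 := by
  have hf : emb f ≠ 0 := fun h0 => hf0 (emb_injective (by rw [h0, map_zero]))
  have hR := CUL.rp_spec hf0
  split_ifs with hc
  · have h1 : ∀ b ∈ rp f, psX (emb c * emb b / emb f) = 1 := by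
      intro b _
      obtain ⟨k, hk⟩ := hc
      have h2 : emb c * emb b / emb f = emb (k * b) := by
        rw [hk, map_mul, map_mul]
        field_simp
      rw [h2, psX_emb]
    rw [Finset.sum_congr rfl h1, Finset.sum_const, nsmul_eq_mul, mul_one, ← IsRep.card hf0 hR,
      Int.cast_natCast]
  · have hex : ∃ b0 : Eis, psX (emb c * emb b0 / emb f) ≠ 1 := by
      by_contra hcon
      push Not at hcon
      apply hc
      obtain ⟨k, hk⟩ := psX_dual (x := emb c / emb f) (fun b => by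
        rw [div_mul_eq_mul_div]
        exact hcon b)
      refine ⟨k, ?_⟩
      apply emb_injective
      rw [map_mul, hk]
      field_simp
    obtain ⟨b0, hb0⟩ := hex
    have hper : ∀ a b, f ∣ a - b → psX (emb c * emb a / emb f) = psX (emb c * emb b / emb f) := by
      intro a b hab
      rw [mul_comm (emb c), mul_comm (emb c)]
      exact K3_shift hf (hab.mul_right c)
    have h1 := IsRep.sum_eq (K3_translate hR b0) hR (fun b => psX (emb c * emb b / emb f)) hper
    rw [Finset.sum_image (fun x _ y _ hxy => add_right_cancel hxy)] at h1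
    have h2 : ∀ b ∈ rp f, psX (emb c * emb (b + b0) / emb f) =
        psX (emb c * emb b0 / emb f) * psX (emb c * emb b / emb f) := by
      intro b _
      rw [← psX_add]
      congr 1
      rw [map_add]
      ring
    rw [Finset.sum_congr rfl h2, ← Finset.mul_sum] at h1
    have h3 : (psX (emb c * emb b0 / emb f) - 1) * ∑ b ∈ rp f, psX (emb c * emb b / emb f) = 0 := by
      linear_combination h1
    rcases mul_eq_zero.1 h3 with h4 | h4
    · exact absurd (sub_eq_zero.1 h4) hb0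
    · exact h4

theorem gauss_norm (h : Cl0 D) (d : Dat D) : ‖gX d‖ ^ 2 = ((4 * D : Eis).norm : ℝ) := by
  have hf0 := K3_ne h
  have hf : emb (4 * D) ≠ 0 := fun h0 => hf0 (emb_injective (by rw [h0, map_zero]))
  have hR := CUL.rp_spec hf0
  obtain ⟨f, hfd⟩ : ∃ f : Eis, f = 4 * D := ⟨_, rfl⟩
  set Q : ℂ := ∑ α ∈ rp (4 * D), (q2 d α : ℂ) * (q2 d α : ℂ) with hQ
  set G : Eis → ℂ := fun b => ∑ α ∈ rp (4 * D), (q2 d α : ℂ) * psX (emb α * emb b / emb (4 * D))
    with hG
  have h1 : ∑ b ∈ rp (4 * D), G b * conj (G b) = Q * (gX d * conj (gX d)) := by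
    rw [hQ, Finset.sum_mul]
    apply Finset.sum_congr rfl
    intro b _
    have h2 : G b = (q2 d b : ℂ) * gX d := gauss h d b
    rw [h2, map_mul]
    have h3 : conj (q2 d b : ℂ) = (q2 d b : ℂ) := map_intCast (starRingEnd ℂ) _
    rw [h3]
    ring
  have h2 : ∑ b ∈ rp (4 * D), G b * conj (G b) = (((4 * D : Eis).norm : ℤ) : ℂ) * Q := by
    have h3 : ∀ b, G b * conj (G b) = ∑ α ∈ rp (4 * D), ∑ β ∈ rp (4 * D),
        ((q2 d α : ℂ) * (q2 d β : ℂ)) * psX (emb (α - β) * emb b / emb (4 * D)) := by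
      intro b
      show (∑ α ∈ rp (4 * D), (q2 d α : ℂ) * psX (emb α * emb b / emb (4 * D))) *
        conj (∑ α ∈ rp (4 * D), (q2 d α : ℂ) * psX (emb α * emb b / emb (4 * D))) = _
      rw [map_sum, Finset.sum_mul_sum]
      apply Finset.sum_congr rfl
      intro α _
      apply Finset.sum_congr rfl
      intro β _
      have h4 : psX (emb (α - β) * emb b / emb (4 * D)) =
          psX (emb α * emb b / emb (4 * D)) * psX (-(emb β * emb b / emb (4 * D))) := by
        rw [← psX_add]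
        congr 1
        rw [map_sub]
        ring
      have h5 : conj (q2 d β : ℂ) = (q2 d β : ℂ) := map_intCast (starRingEnd ℂ) _
      rw [h4, map_mul (starRingEnd ℂ), h5, K3_conj]
      ring
    rw [Finset.sum_congr rfl fun b _ => h3 b, Finset.sum_comm]
    have h4 : ∀ α ∈ rp (4 * D), ∑ b ∈ rp (4 * D), ∑ β ∈ rp (4 * D),
        ((q2 d α : ℂ) * (q2 d β : ℂ)) * psX (emb (α - β) * emb b / emb (4 * D)) =
        (((4 * D : Eis).norm : ℤ) : ℂ) * ((q2 d α : ℂ) * (q2 d α : ℂ)) := by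
      intro α hα
      rw [Finset.sum_comm]
      have h5 : ∀ β ∈ rp (4 * D), ∑ b ∈ rp (4 * D),
          ((q2 d α : ℂ) * (q2 d β : ℂ)) * psX (emb (α - β) * emb b / emb (4 * D)) =
          if β = α then (((4 * D : Eis).norm : ℤ) : ℂ) * ((q2 d α : ℂ) * (q2 d α : ℂ)) else 0 := by
        intro β hβ
        rw [← Finset.mul_sum, K3_orth hf0]
        by_cases hab : β = α
        · rw [if_pos hab, hab, sub_self, if_pos (dvd_zero _)]
          ring
        · rw [if_neg hab, if_neg (fun hd => hab (CUL.l1_eq hR hα hβ hd).symm), mul_zero]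
      rw [Finset.sum_congr rfl h5, Finset.sum_ite_eq' (rp (4 * D)) α, if_pos hα]
    rw [Finset.sum_congr rfl h4, ← Finset.mul_sum]
  have hQne : Q ≠ 0 := by
    obtain ⟨c, ⟨hc, hcd⟩, -⟩ := hR 1
    have h3 : q2 d c = 1 := by rw [← q2_congr d hcd, q2_unit d isUnit_one]
    have h4 : (0 : ℤ) < ∑ α ∈ rp (4 * D), q2 d α * q2 d α := by
      apply Finset.sum_pos'
      · intro α _
        exact mul_self_nonneg _
      · exact ⟨c, hc, by rw [h3]; norm_num⟩
    have h5 : Q = ((∑ α ∈ rp (4 * D), q2 d α * q2 d α : ℤ) : ℂ) := by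
      rw [hQ]
      push_cast
      rfl
    rw [h5]
    exact_mod_cast h4.ne'
  have h3 : gX d * conj (gX d) = (((4 * D : Eis).norm : ℤ) : ℂ) := by
    apply mul_left_cancel₀ hQne
    rw [← h1, h2]
    ring
  rw [Complex.mul_conj, Complex.normSq_eq_norm_sq] at h3
  exact_mod_cast h3

end JL
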