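import Pool.Agent.JL.K1
import Pool.Agent.JL.K3

/-!
# [JL-K4] the Poisson formula for the twisted sum

`SG d u = ∑_{α ∈ rp f} q2(α) GX(α/f, u)`, `f = 4 D`.
`SG_poisson`: for `u > 0`: `SG d u = (1/(A₀ u)) · (-3) gX · ∑_{b} [la ∤ b] q2(b) exp(-(4π/3) N(b)/u)` (in `ℂ`).
PROOF. `NAB.Tk_poisson 0`, `GX_Tk`: `T₀(u, z) = (1/(A₀ u)) ∑_b exp(-π ‖du b‖²/u) exp(2πi Re(z conj(du b)))`, `‖du b‖² = (4/3) ‖emb b‖² = (4/3) N(b)` (`NAB.A2c_norm_du_sq`), and `conj(du b) = 2 conj(emb b)/(-i √3) = 2 i conj(emb b)/√3`, so the exponential is `psX(z conj(emb b)) = psX(z emb (star b))`.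
`GX z u = (1/(A₀ u)) ∑_b exp(-(4π/3) N(b)/u) psX(z emb(star b)) (psX(ta emb(star b)) + psX(-ta emb(star b)) - 2)`. `ta = 1/la`: if `la ∣ b` then `la ∣ star b` (`star la = 1 - ω² ` is associated to `la`) and the bracket is `1 + 1 - 2 = 0`; if `la ∤ b`: `psX(ta c)` with `c = star b` not divisible by `la` is a cube root of unity (`3 ta ∈ ℤ[ω]`) different from `1`
(`c ≡ ± 1 mod la`, `psX(± ta) ≠ 1`: `ta = (1 - ω²)/3 = (2 + ω)/3`, `Re(2 i ta/√3) = -1/3`), so the bracket is `-1 - 2 = -3`.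
Sum over `α` with `q2(α)` and use `gauss` with `b` replaced by `star b`: `∑_α q2(α) psX(α emb(star b)/f) = q2(star b) gX`. Finally re-index `b → star b` (an involution; `N(star b) = N(b)`, `la ∣ b ⟺ la ∣ star b`).
All series converge absolutely (`NAB.du_summable`).
-/

set_option autoImplicit false

open MeasureTheory Set Filter Topology
open scoped Classical ComplexConjugate

namespace JL

open CM27 JZ
open CU (la)
open CUL (Nl ta rp IsRep)

variable {D : Eis}

/-- the twisted sum of `GX` -/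
noncomputable def SG (d : Dat D) (u : ℝ) : ℝ := ∑ α ∈ rp (4 * D), (q2 d α : ℝ) * GX (emb α / emb (4 * D)) u

theorem K4_sqrt : (√3 : ℝ) ≠ 0 := by positivity

theorem K4_re (x : ℂ) : (2 * Complex.I * x / (√3 : ℝ)).re = -(2 * x.im / √3) := by
  rw [Complex.div_ofReal_re]
  have h1 : (2 * Complex.I * x).re = -(2 * x.im) := by
    simp [Complex.mul_re, Complex.mul_im]
  rw [h1, neg_div]

theorem K4_int_iff (x : ℂ) : psX x = 1 ↔ ∃ n : ℤ, 2 * x.im / √3 = n := by
  unfold psX
  rw [Complex.exp_eq_one_iff, K4_re]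
  have h1 : (2 * Real.pi * Complex.I : ℂ) ≠ 0 := by
    simp [Real.pi_ne_zero]
  constructor
  · rintro ⟨n, hn⟩
    have h2 : (((-(2 * x.im / √3) : ℝ)) : ℂ) = ((n : ℝ) : ℂ) := by
      apply mul_left_cancel₀ h1
      rw [hn]
      push_cast
      ring
    have h3 : -(2 * x.im / √3) = (n : ℝ) := Complex.ofReal_injective h2
    refine ⟨-n, ?_⟩
    push_cast
    linarith
  · rintro ⟨n, hn⟩
    refine ⟨-n, ?_⟩
    rw [hn]
    push_cast
    ring

theorem K4_zero : psX 0 = 1 := by
  have h := psX_emb 0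
  rwa [map_zero] at h

theorem K4_neg (x : ℂ) : psX x * psX (-x) = 1 := by
  rw [← psX_add, add_neg_cancel, K4_zero]

theorem K4_int_mul {x : ℂ} (h : psX x = 1) (n : ℤ) : psX ((n : ℂ) * x) = 1 := by
  rw [K4_int_iff] at h ⊢
  obtain ⟨m, hm⟩ := h
  refine ⟨n * m, ?_⟩
  have h1 : ((n : ℂ) * x).im = n * x.im := by simp
  rw [h1]
  push_cast
  rw [← hm]
  ring

theorem K4_la_ne : emb la ≠ 0 := by
  intro h0
  have h1 : la = 0 := emb_injective (by rw [h0, map_zero])
  have h2 : ¬ (la = 0) := by decide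
  exact h2 h1

theorem K4_three : 3 * ta = emb (2 + CU.om) := by
  have h1 : (3 : Eis) = la * (2 + CU.om) := by decide
  have h2 := congrArg emb h1
  rw [map_mul, map_ofNat] at h2
  unfold CUL.ta
  rw [h2]
  have := K4_la_ne
  field_simp

theorem K4_bracket (c : Eis) : psX (ta * emb c) + psX (-(ta * emb c)) - 2 =
    if la ∣ c then 0 else -3 := by
  split_ifs with hc
  · obtain ⟨k, hk⟩ := hc
    have h1 : ta * emb c = emb k := by
      unfold CUL.ta
      rw [hk, map_mul]
      have := K4_la_ne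
      field_simp
    rw [h1, ← map_neg, psX_emb, psX_emb]
    norm_num
  · have h3 : psX (ta * emb c) ^ 3 = 1 := by
      have h4 : psX (3 * (ta * emb c)) = 1 := by
        rw [← mul_assoc, K4_three, ← map_mul, psX_emb]
      have h5 : (3 : ℂ) * (ta * emb c) = ta * emb c + (ta * emb c + ta * emb c) := by ring
      rw [h5, psX_add, psX_add] at h4
      rw [← h4]
      ring
    have hne : psX (ta * emb c) ≠ 1 := by
      intro h1
      apply hc
      have h2 : ta * emb c ∈ Set.range emb := by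
        apply psX_dual
        intro b
        have h4 : b = ((b.re + b.im : ℤ) : Eis) + la * ((-b.im : ℤ) : Eis) := by
          apply QuadraticAlgebra.ext
          · simp [la]
          · simp [la]
        have h5 : ta * emb c * emb b = ((b.re + b.im : ℤ) : ℂ) * (ta * emb c) +
            emb (c * ((-b.im : ℤ) : Eis)) := by
          conv_lhs => rw [h4]
          rw [map_add, map_mul, map_mul, map_intCast]
          unfold CUL.ta
          have := K4_la_ne
          field_simp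
        rw [h5, psX_add, psX_emb, mul_one]
        exact K4_int_mul h1 _
      obtain ⟨k, hk⟩ := h2
      refine ⟨k, ?_⟩
      apply emb_injective
      rw [map_mul, hk]
      unfold CUL.ta
      have := K4_la_ne
      field_simp
    have h4 := K4_neg (ta * emb c)
    set ζ := psX (ta * emb c) with hζ
    have h5 : ζ ^ 2 + ζ + 1 = 0 := by
      have h6 : (ζ - 1) * (ζ ^ 2 + ζ + 1) = 0 := by linear_combination h3
      rcases mul_eq_zero.1 h6 with h7 | h7
      · exact absurd (sub_eq_zero.1 h7) hne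
      · exact h7
    have h6 : psX (-(ta * emb c)) = ζ ^ 2 := by
      have hz : ζ ≠ 0 := by
        intro h0
        rw [h0] at h3
        norm_num at h3
      apply mul_left_cancel₀ hz
      rw [h4]
      linear_combination -h3
    rw [h6]
    linear_combination h5

/-- the Gaussian weight -/
noncomputable def K4_E (u : ℝ) (b : Eis) : ℝ := Real.exp (-(4 * Real.pi / 3 * (b.norm : ℝ) / u))

theorem K4_norm_star (b : Eis) : (star b).norm = b.norm := by
  have h1 := norm_emb_sq (star b)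
  have h2 := norm_emb_sq b
  rw [emb_star, Complex.norm_conj, h2] at h1
  exact_mod_cast h1.symm

theorem K4_E_du (u : ℝ) (b : Eis) : Real.exp (-(Real.pi * ‖NAB.du b‖ ^ 2 / u)) = K4_E u b := by
  unfold K4_E
  rw [NAB.A2c_norm_du_sq, norm_emb_sq]
  congr 1
  ring

theorem K4_summable {u : ℝ} (hu : 0 < u) : Summable (K4_E u) := by
  have h := NAB.du_summable 0 hu
  refine h.congr fun b => ?_
  rw [pow_zero, one_mul, K4_E_du]

theorem K4_E_nonneg (u : ℝ) (b : Eis) : 0 ≤ K4_E u b := (Real.exp_pos _).le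

theorem K4_summableC {u : ℝ} (hu : 0 < u) (g : Eis → ℂ) (C : ℝ) (hg : ∀ b, ‖g b‖ ≤ C) :
    Summable (fun b : Eis => (K4_E u b : ℂ) * g b) := by
  refine Summable.of_norm_bounded ((K4_summable hu).mul_right C) fun b => ?_
  rw [norm_mul, Complex.norm_real, Real.norm_of_nonneg (K4_E_nonneg u b)]
  exact mul_le_mul_of_nonneg_left (hg b) (K4_E_nonneg u b)

theorem K4_Ak {u : ℝ} (hu : 0 < u) (z : ℂ) : (NAB.Ak 0 u z : ℂ) =
    1 / ((NAB.A0 : ℂ) * u) * ∑' b : Eis, (K4_E u b : ℂ) * psX (z * emb b) := by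
  rw [← GX_Tk hu z, NAB.Tk_poisson 0 (by norm_num) hu z]
  rw [pow_zero, mul_one]
  congr 1
  have h1 : ∀ b : Eis, conj (NAB.du b) ^ 0 *
      ((Real.exp (-(Real.pi * ‖NAB.du b‖ ^ 2 / u)) : ℝ) : ℂ) *
      Complex.exp (2 * Real.pi * Complex.I * ((z * conj (NAB.du b)).re : ℂ)) =
      (K4_E u (star b) : ℂ) * psX (z * emb (star b)) := by
    intro b
    have h2 : K4_E u (star b) = K4_E u b := by
      unfold K4_E
      rw [K4_norm_star]
    have h3 : z * conj (NAB.du b) = 2 * Complex.I * (z * emb (star b)) / (√3 : ℝ) := by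
      unfold NAB.du
      rw [map_div₀, map_mul, map_mul, Complex.conj_I, Complex.conj_ofReal, emb_star, map_ofNat]
      have h4 : ((√3 : ℝ) : ℂ) ≠ 0 := by exact_mod_cast K4_sqrt
      have h5 := Complex.I_ne_zero
      field_simp
      rw [Complex.I_sq]
      ring
    rw [pow_zero, one_mul, K4_E_du, h2, h3]
    rfl
  rw [tsum_congr h1]
  exact (Function.Involutive.toPerm (star : Eis → Eis) star_involutive).tsum_eq
    (fun b : Eis => (K4_E u b : ℂ) * psX (z * emb b))

theorem K4_GX {u : ℝ} (hu : 0 < u) (z : ℂ) : (GX z u : ℂ) =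
    1 / ((NAB.A0 : ℂ) * u) * ∑' b : Eis, (K4_E u b : ℂ) *
      (psX (z * emb b) * (if la ∣ b then 0 else -3)) := by
  unfold GX
  push_cast
  rw [K4_Ak hu, K4_Ak hu, K4_Ak hu]
  have hs : ∀ y : ℂ, Summable (fun b : Eis => (K4_E u b : ℂ) * psX (y * emb b)) := fun y =>
    K4_summableC hu _ 1 fun b => (psX_norm _).le
  have h1 : ∑' b : Eis, (K4_E u b : ℂ) * (psX (z * emb b) * (if la ∣ b then 0 else -3)) =
      ∑' b : Eis, (K4_E u b : ℂ) * psX ((z + ta) * emb b) +
        ∑' b : Eis, (K4_E u b : ℂ) * psX ((z - ta) * emb b) -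
        2 * ∑' b : Eis, (K4_E u b : ℂ) * psX (z * emb b) := by
    rw [← tsum_mul_left, ← (hs (z + ta)).tsum_add (hs (z - ta)),
      ← ((hs (z + ta)).add (hs (z - ta))).tsum_sub ((hs z).mul_left 2)]
    refine tsum_congr fun b => ?_
    rw [← K4_bracket]
    have h2 : (z + ta) * emb b = z * emb b + ta * emb b := by ring
    have h3 : (z - ta) * emb b = z * emb b + -(ta * emb b) := by ring
    rw [h2, h3, psX_add, psX_add]
    ring
  rw [h1]
  ring

theorem SG_poisson (h : Cl0 D) (d : Dat D) {u : ℝ} (hu : 0 < u) : ((SG d u : ℝ) : ℂ) =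
    -3 * gX d / ((NAB.A0 : ℂ) * u) *
      ∑' b : Eis, ((if la ∣ b then 0 else (q2 d b : ℝ) * Real.exp (-(4 * Real.pi / 3 * (b.norm : ℝ) / u)) : ℝ) : ℂ) := by
  have h1 : ((SG d u : ℝ) : ℂ) = ∑ α ∈ rp (4 * D), (q2 d α : ℂ) *
      (1 / ((NAB.A0 : ℂ) * u) * ∑' b : Eis, (K4_E u b : ℂ) *
      (psX (emb α / emb (4 * D) * emb b) * (if la ∣ b then 0 else -3))) := by
    unfold SG
    rw [Complex.ofReal_sum]
    apply Finset.sum_congr rfl
    intro α _
    rw [Complex.ofReal_mul, K4_GX hu, Complex.ofReal_intCast]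
  have hb3 : ∀ b : Eis, ‖(if la ∣ b then (0 : ℂ) else -3)‖ ≤ 3 := by
    intro b
    split_ifs
    · rw [norm_zero]
      norm_num
    · rw [norm_neg]
      norm_num
  have h2 : ((SG d u : ℝ) : ℂ) = 1 / ((NAB.A0 : ℂ) * u) * ∑' b : Eis, ∑ α ∈ rp (4 * D),
      (q2 d α : ℂ) * ((K4_E u b : ℂ) *
      (psX (emb α / emb (4 * D) * emb b) * (if la ∣ b then 0 else -3))) := by
    rw [Summable.tsum_finsetSum, Finset.mul_sum, h1]
    · apply Finset.sum_congr rfl
      intro α _
      rw [tsum_mul_left]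
      ring
    · intro α _
      apply Summable.mul_left
      refine K4_summableC hu _ 3 fun b => ?_
      rw [norm_mul, psX_norm, one_mul]
      exact hb3 b
  have h3 : ∀ b : Eis, ∑ α ∈ rp (4 * D), (q2 d α : ℂ) * ((K4_E u b : ℂ) *
      (psX (emb α / emb (4 * D) * emb b) * (if la ∣ b then 0 else -3))) =
      (-3 * gX d) * ((if la ∣ b then 0 else (q2 d b : ℝ) *
        Real.exp (-(4 * Real.pi / 3 * (b.norm : ℝ) / u)) : ℝ) : ℂ) := by
    intro b
    have h4 := gauss h d b
    have h5 : ∀ α : Eis, (q2 d α : ℂ) * ((K4_E u b : ℂ) *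
        (psX (emb α / emb (4 * D) * emb b) * (if la ∣ b then 0 else -3))) =
        ((K4_E u b : ℂ) * (if la ∣ b then 0 else -3)) *
          ((q2 d α : ℂ) * psX (emb α * emb b / emb (4 * D))) := by
      intro α
      rw [div_mul_eq_mul_div]
      ring
    rw [Finset.sum_congr rfl fun α _ => h5 α, ← Finset.mul_sum, h4]
    unfold K4_E
    split_ifs
    · rw [Complex.ofReal_zero, mul_zero, zero_mul, mul_zero]
    · rw [Complex.ofReal_mul, Complex.ofReal_intCast]
      ring
  rw [h2, tsum_congr h3, tsum_mul_left]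
  ring

end JL
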