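import Pool.Agent.JL.F0

/-!
# [JL-N0] the extension `ℚ(ω, √D) / ℚ(ω)`

`CF.algK F hw : Algebra KK F` for an intermediate field `F` containing `w` (CF/D2.lean; `algebraMap` is the inclusion).
`Ext D M`: `M` a number field over `KK` with `𝓞 M = 𝓞 KK ⊕ 𝓞 KK s`, `s² = D`.
PROOF of `exists_Ext`: `s = ⟨sD D, isIntegral⟩`; `repr` from `KD_int` (F0.lean), `uniq` from `rep_unique`.
-/

set_option autoImplicit false

open NumberField IsDedekindDomain
open scoped Classical ComplexConjugate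

namespace JL

open CM27 JZ
open CU (eE)

theorem w_mem_KD (D : Eis) : w ∈ KD D := by
  unfold KD
  exact IntermediateField.subset_adjoin ℚ _ (by simp)

/-- `ℚ(ω) ⊆ ℚ(ω, √D)` -/
noncomputable instance algKD (D : Eis) : Algebra CF.KK (KD D) := CF.algK (KD D) (w_mem_KD D)

/-- The ring of integers of `M` is `ℤ[ω][s]`, `s² = D`. -/
structure Ext (D : Eis) (M : Type) [Field M] [NumberField M] [Algebra CF.KK M] where
  s : 𝓞 M
  hs : s ^ 2 = algebraMap (𝓞 CF.KK) (𝓞 M) (eE D)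
  repr : ∀ x : 𝓞 M, ∃ a b : 𝓞 CF.KK, x = algebraMap (𝓞 CF.KK) (𝓞 M) a + algebraMap (𝓞 CF.KK) (𝓞 M) b * s
  uniq : ∀ a b : 𝓞 CF.KK, algebraMap (𝓞 CF.KK) (𝓞 M) a + algebraMap (𝓞 CF.KK) (𝓞 M) b * s = 0 → a = 0 ∧ b = 0

variable {D : Eis}

theorem algKD_coe (D : Eis) (x : CF.KK) : ((algebraMap CF.KK (KD D) x : KD D) : ℂ) = (x : ℂ) := by
  have h : algebraMap CF.KK (KD D) x = IntermediateField.inclusion (CF.KK_le (KD D) (w_mem_KD D)) x := by
    with_reducible_and_instances rfl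
  rw [h]
  exact IntermediateField.coe_inclusion _ x

theorem n0_mem (D : Eis) : sD D ∈ KD D := by
  unfold KD
  exact IntermediateField.subset_adjoin ℚ _ (by simp)

theorem n0_coe (D : Eis) (a : 𝓞 CF.KK) :
    (((algebraMap (𝓞 CF.KK) (𝓞 (KD D)) a : 𝓞 (KD D)) : KD D) : ℂ) = ((a : CF.KK) : ℂ) :=
  algKD_coe D (a : CF.KK)

theorem n0_ext {D : Eis} {x y : 𝓞 (KD D)} (h : ((x : KD D) : ℂ) = ((y : KD D) : ℂ)) : x = y :=
  RingOfIntegers.ext (Subtype.ext h)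

theorem n0_int (D : Eis) : IsIntegral ℤ (⟨sD D, n0_mem D⟩ : KD D) := by
  have h := isIntegral_sD D
  have h1 : sD D = algebraMap (KD D) ℂ ⟨sD D, n0_mem D⟩ := rfl
  rw [h1] at h
  exact (isIntegral_algebraMap_iff (algebraMap (KD D) ℂ).injective).1 h

theorem n0_lift (D : Eis) (x : 𝓞 (KD D)) : IsIntegral ℤ ((x : KD D) : ℂ) := by
  have h := x.isIntegral_coe
  exact (isIntegral_algebraMap_iff (algebraMap (KD D) ℂ).injective).2 h

theorem exists_Ext (h : Cl0 D) : ∃ e : Ext D (KD D), ((e.s : KD D) : ℂ) = sD D := by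
  set s : 𝓞 (KD D) := ⟨⟨sD D, n0_mem D⟩, n0_int D⟩ with hs
  have hsc : ((s : KD D) : ℂ) = sD D := rfl
  have hadd : ∀ x y : 𝓞 (KD D), (((x + y : 𝓞 (KD D)) : KD D) : ℂ) = ((x : KD D) : ℂ) + ((y : KD D) : ℂ) :=
    fun x y => rfl
  have hmul : ∀ x y : 𝓞 (KD D), (((x * y : 𝓞 (KD D)) : KD D) : ℂ) = ((x : KD D) : ℂ) * ((y : KD D) : ℂ) :=
    fun x y => rfl
  refine ⟨⟨s, ?_, ?_, ?_⟩, hsc⟩
  · apply n0_ext
    rw [sq, hmul, hsc, n0_coe, CU.eE_coe, ← sq, sD_sq]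
  · intro x
    obtain ⟨a, b, hab⟩ := (KD_int h (x : KD D).2).1 (n0_lift D x)
    refine ⟨eE a, eE b, ?_⟩
    apply n0_ext
    rw [hadd, hmul, hsc, n0_coe, n0_coe, CU.eE_coe, CU.eE_coe]
    exact hab
  · intro a b hab
    have h1 : ((a : CF.KK) : ℂ) + ((b : CF.KK) : ℂ) * sD D = 0 + 0 * sD D := by
      have h2 := congrArg (fun x : 𝓞 (KD D) => ((x : KD D) : ℂ)) hab
      simp only [hadd, hmul, hsc, n0_coe] at h2
      rw [h2, zero_mul, add_zero]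
      rfl
    obtain ⟨h3, h4⟩ := rep_unique h (a : CF.KK).2 (b : CF.KK).2 (zero_mem _) (zero_mem _) h1
    exact ⟨RingOfIntegers.ext (Subtype.ext h3), RingOfIntegers.ext (Subtype.ext h4)⟩

end JL
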