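import Pool.Agent.JL.N0

/-!
# [JL-N1] the discriminant

PROOF (copy of TR/A7e.lean): `NumberField.natAbs_discr_eq_absNorm_differentIdeal_mul_natAbs_discr_pow KK (𝓞 KK) M (𝓞 M)`; `𝓞 M = 𝓞 KK[s]` (`Ext.repr`), minimal polynomial `X² - D` (`Ext.uniq`), so `differentIdeal (𝓞 KK) (𝓞 M) = span {2 s}`.
`absNorm (span {2 s}) = |Norm_{M/ℚ}(2 s)|`: `(2 s)² = 4 D`, so `absNorm (span {2 s})² = absNorm (span {4 D} : Ideal (𝓞 M)) = (absNorm (span {4 D} : Ideal (𝓞 KK)))² = (16 N(D))²` (`Algebra.norm_norm`/`Ideal.absNorm_algebraMap`-type: for `a ∈ 𝓞 KK`, `[M : KK] = 2`). `absNorm (span {eE a}) = N(a)` for `a ∈ ℤ[ω]`: CUL/CU have it (`absNorm_span`-type lemma; search `absNorm (Ideal.span {eE`).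
`|discr KK| = 3` (`KK_cyc`, `IsCyclotomicExtension.Rat.discr_prime'`-type, or `discr` of the basis `1, ω`). So `|discr M| = 16 N(D) · 3² = 144 N(D)`.
`finrank_ext`: `M = Frac(𝓞 M)` has the basis `1, s` over `KK` (`TR.Dat.finrank_eq_two`).
-/

set_option autoImplicit false

open NumberField IsDedekindDomain
open scoped Classical ComplexConjugate

namespace JL

open CM27 JZ
open CU (eE)

variable {D : Eis}

section
variable {M : Type} [Field M] [NumberField M] [Algebra CF.KK M]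

theorem n1_uniq (e : Ext D M) {a b a' b' : 𝓞 CF.KK}
    (h : algebraMap (𝓞 CF.KK) (𝓞 M) a + algebraMap (𝓞 CF.KK) (𝓞 M) b * e.s =
      algebraMap (𝓞 CF.KK) (𝓞 M) a' + algebraMap (𝓞 CF.KK) (𝓞 M) b' * e.s) : a = a' ∧ b = b' := by
  have h1 : algebraMap (𝓞 CF.KK) (𝓞 M) (a - a') + algebraMap (𝓞 CF.KK) (𝓞 M) (b - b') * e.s = 0 := by
    rw [map_sub, map_sub]
    linear_combination h
  obtain ⟨h2, h3⟩ := e.uniq _ _ h1
  exact ⟨sub_eq_zero.1 h2, sub_eq_zero.1 h3⟩

theorem n1_integral (e : Ext D M) : IsIntegral (𝓞 CF.KK) e.s := by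
  refine ⟨Polynomial.X ^ 2 - Polynomial.C (eE D), by monicity!, ?_⟩
  rw [Polynomial.eval₂_sub, Polynomial.eval₂_X_pow, Polynomial.eval₂_C, e.hs, sub_self]

theorem n1_minpoly (e : Ext D M) :
    minpoly (𝓞 CF.KK) e.s = Polynomial.X ^ 2 - Polynomial.C (eE D) := by
  have hint := n1_integral e
  have hmonic : (Polynomial.X ^ 2 - Polynomial.C (eE D) : Polynomial (𝓞 CF.KK)).Monic := by monicity!
  have hdeg : (Polynomial.X ^ 2 - Polynomial.C (eE D) : Polynomial (𝓞 CF.KK)).natDegree = 2 := by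
    compute_degree!
  have hdvd : minpoly (𝓞 CF.KK) e.s ∣ (Polynomial.X ^ 2 - Polynomial.C (eE D)) := by
    apply minpoly.isIntegrallyClosed_dvd hint
    rw [map_sub, map_pow, Polynomial.aeval_X, Polynomial.aeval_C, e.hs, sub_self]
  have h2 : 2 ≤ (minpoly (𝓞 CF.KK) e.s).natDegree := by
    rw [minpoly.two_le_natDegree_iff hint]
    rintro ⟨a, ha⟩
    have h3 : algebraMap (𝓞 CF.KK) (𝓞 M) a + algebraMap (𝓞 CF.KK) (𝓞 M) 0 * e.s =
        algebraMap (𝓞 CF.KK) (𝓞 M) 0 + algebraMap (𝓞 CF.KK) (𝓞 M) 1 * e.s := by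
      rw [ha, map_zero, map_one]
      ring
    have h4 := (n1_uniq e h3).2
    exact zero_ne_one h4
  exact (Polynomial.eq_of_monic_of_dvd_of_natDegree_le (minpoly.monic hint) hmonic hdvd
    (by rw [hdeg]; exact h2)).symm

theorem n1_adjoin (e : Ext D M) : Algebra.adjoin (𝓞 CF.KK) {e.s} = ⊤ := by
  rw [eq_top_iff]
  intro x _
  obtain ⟨a, b, rfl⟩ := e.repr x
  exact add_mem (algebraMap_mem _ a) (mul_mem (algebraMap_mem _ b)
    (Algebra.subset_adjoin rfl))

theorem n1_gen (e : Ext D M) (x : M) :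
    ∃ a b : CF.KK, x = algebraMap CF.KK M a + algebraMap CF.KK M b * (e.s : M) := by
  obtain ⟨m, hm, hx⟩ := ((IsFractionRing.isAlgebraic_iff ℤ ℚ M).2
    (Algebra.IsAlgebraic.isAlgebraic x)).exists_integral_multiple
  obtain ⟨a, b, hab⟩ := e.repr ⟨m • x, hx⟩
  have h1 : (m : M) * x = algebraMap CF.KK M (a : CF.KK) + algebraMap CF.KK M (b : CF.KK) * (e.s : M) := by
    have h2 := congrArg (fun y : 𝓞 M => (y : M)) hab
    have h3 : (m : M) * x = m • x := by rw [zsmul_eq_mul]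
    rw [h3]
    exact h2
  have hm0 : (m : M) ≠ 0 := by exact_mod_cast hm
  refine ⟨(a : CF.KK) / m, (b : CF.KK) / m, ?_⟩
  rw [map_div₀, map_div₀, map_intCast]
  field_simp
  linear_combination h1

theorem n1_unique (e : Ext D M) {a b : CF.KK}
    (h : algebraMap CF.KK M a + algebraMap CF.KK M b * (e.s : M) = 0) : a = 0 ∧ b = 0 := by
  obtain ⟨y, hy, hya, hyb⟩ : ∃ y : ℤ, y ≠ 0 ∧ IsIntegral ℤ (y • a) ∧ IsIntegral ℤ (y • b) := by
    obtain ⟨m, hm, hx⟩ := ((IsFractionRing.isAlgebraic_iff ℤ ℚ CF.KK).2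
      (Algebra.IsAlgebraic.isAlgebraic a)).exists_integral_multiple
    obtain ⟨n, hn, hy⟩ := ((IsFractionRing.isAlgebraic_iff ℤ ℚ CF.KK).2
      (Algebra.IsAlgebraic.isAlgebraic b)).exists_integral_multiple
    refine ⟨m * n, mul_ne_zero hm hn, ?_, ?_⟩
    · rw [mul_comm, mul_smul]
      exact hx.smul n
    · rw [mul_smul]
      exact hy.smul m
  have h1 : algebraMap (𝓞 CF.KK) (𝓞 M) ⟨y • a, hya⟩ + algebraMap (𝓞 CF.KK) (𝓞 M) ⟨y • b, hyb⟩ * e.s = 0 := by
    apply RingOfIntegers.ext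
    change algebraMap CF.KK M (y • a) + algebraMap CF.KK M (y • b) * (e.s : M) = 0
    rw [zsmul_eq_mul, zsmul_eq_mul, map_mul, map_mul, map_intCast]
    linear_combination (y : M) * h
  obtain ⟨h2, h3⟩ := e.uniq _ _ h1
  have h4 : y • a = 0 := congrArg (fun z : 𝓞 CF.KK => (z : CF.KK)) h2
  have h5 : y • b = 0 := congrArg (fun z : 𝓞 CF.KK => (z : CF.KK)) h3
  exact ⟨(smul_eq_zero.1 h4).resolve_left hy, (smul_eq_zero.1 h5).resolve_left hy⟩

theorem finrank_ext (e : Ext D M) : Module.finrank CF.KK M = 2 := by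
  let f : (CF.KK × CF.KK) →ₗ[CF.KK] M :=
    (LinearMap.fst CF.KK CF.KK CF.KK).smulRight (1 : M) + (LinearMap.snd CF.KK CF.KK CF.KK).smulRight (e.s : M)
  have hf : ∀ a b : CF.KK, f (a, b) = algebraMap CF.KK M a + algebraMap CF.KK M b * (e.s : M) := by
    intro a b
    simp [f, Algebra.smul_def]
  have hbij : Function.Bijective f := by
    constructor
    · rw [← LinearMap.ker_eq_bot, LinearMap.ker_eq_bot']
      rintro ⟨a, b⟩ h
      rw [hf] at h
      obtain ⟨h1, h2⟩ := n1_unique e h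
      rw [h1, h2]
      rfl
    · intro x
      obtain ⟨a, b, h⟩ := n1_gen e x
      exact ⟨(a, b), by rw [hf, h]⟩
  have e' := LinearEquiv.finrank_eq (LinearEquiv.ofBijective f hbij)
  rw [← e', Module.finrank_prod, Module.finrank_self]

theorem n1_different (e : Ext D M) : differentIdeal (𝓞 CF.KK) (𝓞 M) = Ideal.span {2 * e.s} := by
  have hL : Algebra.adjoin CF.KK {algebraMap (𝓞 M) M e.s} = ⊤ := by
    rw [eq_top_iff]
    intro x _
    obtain ⟨a, b, hx⟩ := n1_gen e x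
    rw [hx]
    exact add_mem (algebraMap_mem _ _) (mul_mem (algebraMap_mem _ _)
      (Algebra.subset_adjoin rfl))
  have h := conductor_mul_differentIdeal (𝓞 CF.KK) CF.KK M e.s hL
  rw [conductor_eq_top_of_adjoin_eq_top (n1_adjoin e), ← Ideal.one_eq_top, one_mul,
    n1_minpoly e] at h
  rw [h]
  congr 2
  rw [Polynomial.derivative_sub, Polynomial.derivative_X_pow, Polynomial.derivative_C, sub_zero,
    map_mul, map_pow, Polynomial.aeval_X, Polynomial.aeval_C]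
  simp
  left
  exact map_ofNat _ 2

theorem n1_norm_nonneg (D : Eis) : 0 ≤ D.norm := by
  have h : 4 * D.norm = (2 * D.re - D.im) ^ 2 + 3 * D.im ^ 2 := by
    rw [QuadraticAlgebra.norm_def]
    ring
  nlinarith [sq_nonneg (2 * D.re - D.im), sq_nonneg D.im]

theorem n1_discr_KK : (discr CF.KK).natAbs = 3 := by
  have : Fact (Nat.Prime 3) := ⟨Nat.prime_three⟩
  have h := IsCyclotomicExtension.Rat.discr_prime 3 CF.KK
  rw [h]
  norm_num

theorem discr_ext (hD : D ≠ 0) (e : Ext D M) : (((discr M).natAbs : ℕ) : ℤ) = 144 * D.norm := by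
  have h1 := NumberField.natAbs_discr_eq_absNorm_differentIdeal_mul_natAbs_discr_pow CF.KK (𝓞 CF.KK) M (𝓞 M)
  rw [n1_different e, n1_discr_KK, finrank_ext e] at h1
  have h2 : Ideal.absNorm (Ideal.span {2 * e.s}) ^ 2 = (16 * D.norm.natAbs) ^ 2 := by
    have h3 : Ideal.span {2 * e.s} ^ 2 = (Ideal.span {eE (4 * D)}).map (algebraMap (𝓞 CF.KK) (𝓞 M)) := by
      rw [Ideal.span_singleton_pow, Ideal.map_span, Set.image_singleton]
      congr 2
      rw [map_mul, map_mul, mul_pow, e.hs, map_ofNat, map_ofNat]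
      norm_num
    have h4 := Ideal.absNorm_algebraMap (R := 𝓞 CF.KK) (𝓞 M) (Ideal.span {eE (4 * D)})
    rw [← h3, map_pow, CUL.l6_absNorm] at h4
    have h5 : Module.finrank (𝓞 CF.KK) (𝓞 M) = 2 := by
      rw [← IsFractionRing.finrank_eq (𝓞 CF.KK) CF.KK (𝓞 M) M, finrank_ext e]
    rw [h5] at h4
    rw [h4]
    congr 1
    have h6 : (4 * D).norm = 16 * D.norm := by
      rw [map_mul]
      rfl
    rw [h6, Int.natAbs_mul]
    rfl
  have h3 : Ideal.absNorm (Ideal.span {2 * e.s}) = 16 * D.norm.natAbs :=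
    Nat.pow_left_injective (n := 2) (by norm_num) h2
  rw [h3] at h1
  have h4 : 0 ≤ D.norm := n1_norm_nonneg D
  rw [h1]
  push_cast
  rw [abs_of_nonneg h4]
  ring

end

theorem discr_KK : (discr CF.KK).natAbs = 3 := by
  exact n1_discr_KK

end JL
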