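import Pool.Agent.JL.N4
import Pool.Agent.JL.K5
import Pool.Agent.JL.I4

/-!
# [JL-N5] `e` as a power of the fundamental unit

PROOF. (1) `log_ee`, `LJ_lim`: `|log ‖e‖| = (3√3/π)(1 - η/3) √N · π √3 R' h' / (6 √N) = (3/2)(1 - η/3) R' h'`, `η = q2 d la = ± 1` (`q2_la`), `R' = 2 |log ‖ε‖|` (`fund_unit` for `K = KD D`, `φ` the inclusion; `R' > 0`: `Units.regulator_pos`): `|log ‖e‖| = (3 - η) h' |log ‖ε‖|`, `log ‖ε‖ ≠ 0`.
(2) `e³ ∈ KD` is a unit (`ee3_unit`, `ee3_N1`, `mem_KD`): `e³ = ζ ε^N`, `ζ^6 = 1` (`torsion_mem`). Absolute values: `3 log ‖e‖ = N log ‖ε‖`, so `|N| = 3 (3 - η) h'`, `3 - η ∈ {2, 4}`: `6 ∣ N`, `N = 3 n`, `|n| = 2 h'` or `4 h'`, `n` even.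
(3) `τ` (`exists_tau`), `τ(e³) = (e³)⁻¹` (`ee3_N1`, uniqueness), `τ ζ = ζ` (`ζ ∈ KK`: `ζ^6 = 1`, roots are `± w^i`). `1 = e³ τ(e³) = ζ² (ε τε)^N`, `ν = ε τε ∈ KK` (fixed by `τ`) is a unit of `ℤ[ω]`: `ν^6 = 1`, `6 ∣ N`: `ζ² = 1`, `ζ = ± 1 = ζ³`. So `e³ = (ζ ε^n)³`, `e = w^{m₀} ζ ε^n`.
(4) `kk ≠ 0`: `m = 0`, `z = w^{m₀} ζ`, `N1` by `ee_N1`. `kk = 0`: `N(ζ ε^n) = ν^n` with `n` even is a cube root of unity `= w^{-2i}` for some `i`; `e' := w^i ζ ε^n = w^{i - m₀} e` has norm `1`, is in `KD`: `N1 (sD D) e'` (`e' = u₁ + u₂ s`, `e'⁻¹ = τ e' = u₁ - u₂ s`), `m = i - m₀`, `z = w^i ζ`.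
(5) the last statement: `fund_unit`, `torsion_mem`.
-/

set_option autoImplicit false

open NumberField IsDedekindDomain Filter Topology
open scoped Classical ComplexConjugate

namespace JL

open CM27 JZ
open CU (la eE)
open CUL (zw)

variable {D : Eis}

/-- cube roots of unity -/
theorem n5_three {t : ℂ} (ht : t ^ 3 = 1) : ∃ k : ZMod 3, t = zw k := by
  have hw := CUL.w2
  have h1 : (t - 1) * ((t - w) * (t - w ^ 2)) = 0 := by
    have hw3 := CUL.w3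
    linear_combination ht + (-(t ^ 2) + t) * hw + (t - 1) * hw3
  rcases mul_eq_zero.mp h1 with h2 | h2
  · exact ⟨0, by rw [CUL.zw_zero]; linear_combination h2⟩
  · rcases mul_eq_zero.mp h2 with h4 | h4
    · exact ⟨1, by rw [CUL.zw_one]; linear_combination h4⟩
    · exact ⟨2, by rw [CUL.zw_two]; linear_combination h4⟩

/-- sixth roots of unity -/
theorem n5_six {z : ℂ} (hz : z ^ 6 = 1) : ∃ k : ZMod 3, z = zw k ∨ z = - zw k := by
  have h3 : ∀ t : ℂ, t ^ 3 = 1 → ∃ k : ZMod 3, t = zw k := fun t ht => n5_three ht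
  have h1 : (z ^ 3 - 1) * (z ^ 3 + 1) = 0 := by linear_combination hz
  rcases mul_eq_zero.mp h1 with h2 | h2
  · obtain ⟨k, hk⟩ := h3 z (by linear_combination h2)
    exact ⟨k, Or.inl hk⟩
  · obtain ⟨k, hk⟩ := h3 (-z) (by linear_combination -h2)
    exact ⟨k, Or.inr (by rw [← hk, neg_neg])⟩

theorem n5_w_mem : w ∈ CF.KK := by
  rw [CUL.mem_KK]
  exact ⟨0, 1, by push_cast; ring⟩

theorem n5_zw_mem (k : ZMod 3) : zw k ∈ CF.KK := pow_mem n5_w_mem _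

theorem n5_emb_mem (a : Eis) : emb a ∈ CF.KK := by
  rw [CUL.mem_KK]
  exact ⟨a.re, a.im, by rw [emb_apply]; push_cast; ring⟩

theorem n5_zw_six (k : ZMod 3) : zw k ^ 6 = 1 := by
  unfold zw
  rw [← pow_mul, show k.val * 6 = 3 * (k.val * 2) by ring, pow_mul, CUL.w3, one_pow]

/-- the complex value of a unit -/
noncomputable def n5_v (D : Eis) : (𝓞 (KD D))ˣ →* ℂ :=
  (((algebraMap (KD D) ℂ).comp (algebraMap (𝓞 (KD D)) (KD D)) : 𝓞 (KD D) →+* ℂ) :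
    𝓞 (KD D) →* ℂ).comp (Units.coeHom _)

theorem n5_v_apply (u : (𝓞 (KD D))ˣ) : n5_v D u = (((u : 𝓞 (KD D)) : KD D) : ℂ) := rfl

/-- the complex value of the conjugate of a unit -/
noncomputable def n5_t (τ : KD D ≃+* KD D) : (𝓞 (KD D))ˣ →* ℂ :=
  ((((algebraMap (KD D) ℂ).comp (τ : KD D →+* KD D)).comp (algebraMap (𝓞 (KD D)) (KD D)) :
    𝓞 (KD D) →+* ℂ) : 𝓞 (KD D) →* ℂ).comp (Units.coeHom _)

theorem n5_t_apply (τ : KD D ≃+* KD D) (u : (𝓞 (KD D))ˣ) :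
    n5_t τ u = ((τ ((u : 𝓞 (KD D)) : KD D) : KD D) : ℂ) := rfl

theorem n5_v_int (u : (𝓞 (KD D))ˣ) : IsIntegral ℤ (n5_v D u) := by
  rw [n5_v_apply]
  exact map_isIntegral_int (algebraMap (KD D) ℂ) (u : 𝓞 (KD D)).isIntegral_coe

theorem n5_t_int (τ : KD D ≃+* KD D) (u : (𝓞 (KD D))ˣ) : IsIntegral ℤ (n5_t τ u) := by
  rw [n5_t_apply]
  exact map_isIntegral_int ((algebraMap (KD D) ℂ).comp (τ : KD D →+* KD D))
    (u : 𝓞 (KD D)).isIntegral_coe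

/-- The relative norm of a unit is a sixth root of unity. -/
theorem n5_norm (τ : KD D ≃+* KD D)
    (hτ : ∀ (u₁ u₂ : ℂ), u₁ ∈ CF.KK → u₂ ∈ CF.KK →
      ∀ x : KD D, (x : ℂ) = u₁ + u₂ * sD D → ((τ x : KD D) : ℂ) = u₁ - u₂ * sD D)
    (u : (𝓞 (KD D))ˣ) : (n5_v D u * n5_t τ u) ^ 6 = 1 := by
  have h1 : ∀ u : (𝓞 (KD D))ˣ, ∃ a : Eis, n5_v D u * n5_t τ u = emb a := by
    intro u
    apply KK_int _ ((n5_v_int u).mul (n5_t_int τ u))
    obtain ⟨a, b, ha, hb, hab⟩ := (mem_KD (D := D) (n5_v D u)).mp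
      (((u : 𝓞 (KD D)) : KD D)).2
    have h2 : n5_t τ u = a - b * sD D := hτ a b ha hb _ hab
    rw [hab, h2]
    have h3 : (a + b * sD D) * (a - b * sD D) = a ^ 2 - b ^ 2 * emb D := by
      linear_combination (-(b ^ 2)) * sD_sq D
    rw [h3]
    exact sub_mem (pow_mem ha 2) (mul_mem (pow_mem hb 2) (n5_emb_mem D))
  obtain ⟨a, ha⟩ := h1 u
  obtain ⟨b, hb⟩ := h1 u⁻¹
  have h2 : a * b = 1 := by
    apply emb_injective
    rw [map_mul, map_one, ← ha, ← hb, mul_mul_mul_comm, ← map_mul, ← map_mul, mul_inv_cancel,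
      map_one, map_one, mul_one]
  obtain ⟨k, hk⟩ := Q3L.unit_cases (IsUnit.of_mul_eq_one b h2)
  rw [ha]
  have hom : emb Q3.om = w := by
    rw [emb_apply]
    simp [Q3.om]
  have h4 : (w ^ k) ^ 6 = 1 := by
    rw [← pow_mul, show k * 6 = 3 * (k * 2) by ring, pow_mul, CUL.w3, one_pow]
  rcases hk with hk | hk
  · rw [hk, map_pow, hom, h4]
  · rw [hk, map_neg, map_pow, hom, neg_pow, h4]
    norm_num

/-- sixth roots of unity are fixed by the conjugation -/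
theorem n5_fix (τ : KD D ≃+* KD D)
    (hτ : ∀ (u₁ u₂ : ℂ), u₁ ∈ CF.KK → u₂ ∈ CF.KK →
      ∀ x : KD D, (x : ℂ) = u₁ + u₂ * sD D → ((τ x : KD D) : ℂ) = u₁ - u₂ * sD D)
    (u : (𝓞 (KD D))ˣ) (hu : n5_v D u ^ 6 = 1) : n5_t τ u = n5_v D u := by
  have h1 : n5_v D u ∈ CF.KK := by
    obtain ⟨k, hk | hk⟩ := n5_six hu
    · rw [hk]; exact n5_zw_mem k
    · rw [hk]; exact neg_mem (n5_zw_mem k)
  have h2 := hτ (n5_v D u) 0 h1 (zero_mem _) ((u : 𝓞 (KD D)) : KD D) (by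
    rw [zero_mul, add_zero]; rfl)
  rw [zero_mul, sub_zero] at h2
  exact h2

/-- a unit from integral elements -/
theorem n5_unit {x : ℂ} (hx : x ∈ KD D) (h0 : x ≠ 0) (h1 : IsIntegral ℤ x) (h2 : IsIntegral ℤ x⁻¹) :
    ∃ u : (𝓞 (KD D))ˣ, n5_v D u = x := by
  have hi : ∀ y : KD D, IsIntegral ℤ (y : ℂ) → IsIntegral ℤ y := fun y hy =>
    (isIntegral_algebraMap_iff (A := KD D) (B := ℂ) (algebraMap (KD D) ℂ).injective).mp hy
  have hx' : x⁻¹ ∈ KD D := inv_mem hx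
  let a : 𝓞 (KD D) := ⟨⟨x, hx⟩, hi ⟨x, hx⟩ h1⟩
  let b : 𝓞 (KD D) := ⟨⟨x⁻¹, hx'⟩, hi ⟨x⁻¹, hx'⟩ h2⟩
  have hab : a * b = 1 := by
    apply NumberField.RingOfIntegers.ext
    apply Subtype.ext
    exact mul_inv_cancel₀ h0
  exact ⟨Units.mkOfMulEqOne a b hab, rfl⟩

theorem n5_q (h : Cl0 D) (d : Dat D) : q2 d la = 1 ∨ q2 d la = -1 := by
  have h1 := congrArg emb (q2_la h d)
  rw [map_intCast] at h1
  rcases d.hη with h2 | h2
  · left
    rw [h2, map_one] at h1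
    exact_mod_cast h1
  · right
    rw [h2, map_neg, map_one] at h1
    exact_mod_cast h1

/-- the absolute value of `e` -/
theorem n5_log (h : Cl0 D) (hu : ¬ IsUnit D) (d : Dat D) {R : Finset Eis} (hR : IsR d R) {r : ℝ}
    (hr : Units.regulator (KD D) = 2 * r) (hr0 : 0 < r) :
    |Real.log ‖ee d R‖| = (3 - (q2 d la : ℝ)) * classNumber (KD D) * r := by
  rw [log_ee h d hR (LJ_lim h hu d), hr]
  have hD0 : D ≠ 0 := by
    intro h0
    have h1 := h.1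
    rw [h0] at h1
    exact not_squarefree_zero h1
  have hN : 0 < (D.norm : ℝ) := by
    rw [← norm_emb_sq]
    have h2 : emb D ≠ 0 := fun h3 => hD0 (emb_injective (h3.trans (map_zero emb).symm))
    positivity
  have hs : 0 < √(D.norm : ℝ) := Real.sqrt_pos.mpr hN
  have hh : (0 : ℝ) ≤ (classNumber (KD D) : ℝ) := Nat.cast_nonneg _
  have hpi := Real.pi_pos
  have h3 : √3 ^ 2 = (3 : ℝ) := Real.sq_sqrt (by norm_num)
  rw [abs_of_nonneg (by positivity)]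
  have hs' := hs.ne'
  have hpi' := hpi.ne'
  field_simp
  rw [h3]
  ring

theorem ee_pow (h : Cl0 D) (hu : ¬ IsUnit D) (d : Dat D) {R : Finset Eis} (hR : IsR d R) :
    ∃ (m : ZMod 3) (ε : (𝓞 (KD D))ˣ) (n : ℤ) (z : ℂ), (kk d ≠ 0 → m = 0) ∧ z ^ 6 = 1 ∧
      N1 (sD D) (zw m * ee d R) ∧ zw m * ee d R = z * (((ε : 𝓞 (KD D)) : KD D) : ℂ) ^ n ∧
      (n.natAbs = 2 * classNumber (KD D) ∨ n.natAbs = 4 * classNumber (KD D)) ∧
      ∀ u : (𝓞 (KD D))ˣ, ∃ (y : ℂ) (j : ℤ), y ^ 6 = 1 ∧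
        (((u : 𝓞 (KD D)) : KD D) : ℂ) = y * (((ε : 𝓞 (KD D)) : KD D) : ℂ) ^ j := by
  obtain ⟨ε, hε, hun⟩ := fund_unit (KD D) (rank_KD h) (algebraMap (KD D) ℂ)
  have hnε : ‖(algebraMap (KD D) ℂ) (((ε : 𝓞 (KD D)) : KD D))‖ = ‖n5_v D ε‖ := rfl
  rw [hnε] at hε
  have hreg : 0 < Units.regulator (KD D) := Units.regulator_pos (KD D)
  have hr0 : 0 < |Real.log ‖n5_v D ε‖| := by linarith
  have hlog := n5_log h hu d hR hε hr0
  obtain ⟨τ, hτ⟩ := exists_tau h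
  have hN1 := ee3_N1 h d hR (sD_sq D)
  obtain ⟨a₁, a₂, ha₁, ha₂, hae, hai, hae0⟩ := hN1
  have hmem : ee d R ^ 3 ∈ KD D := (mem_KD _).mpr ⟨a₁, a₂, ha₁, ha₂, hae⟩
  obtain ⟨hi1, hi2⟩ := ee3_unit h d hR
  obtain ⟨x, hx⟩ := n5_unit hmem hae0 hi1 hi2
  have htx : n5_t τ x = (ee d R ^ 3)⁻¹ := by
    rw [hai]
    exact hτ a₁ a₂ ha₁ ha₂ _ (by rw [← hae, ← hx]; rfl)
  obtain ⟨ζ, hζ, N, hxN⟩ := hun x
  have hζ6 : n5_v D ζ ^ 6 = 1 := torsion_mem h hu hζ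
  have hζn : ‖n5_v D ζ‖ = 1 := by
    have h1 : ‖n5_v D ζ‖ ^ 6 = 1 := by rw [← norm_pow, hζ6, norm_one]
    exact (pow_eq_one_iff_of_nonneg (norm_nonneg _) (by norm_num)).mp h1
  have hv : ee d R ^ 3 = n5_v D ζ * n5_v D ε ^ N := by
    rw [← hx, hxN, map_mul, map_zpow]
  have hq := n5_q h d
  -- the exponent
  have hNabs : (N.natAbs : ℝ) = 3 * ((3 - (q2 d la : ℝ)) * classNumber (KD D)) := by
    have h1 := congrArg (fun z : ℂ => |Real.log ‖z‖|) hv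
    simp only [norm_mul, norm_pow, norm_zpow, hζn, one_mul, Real.log_pow, Real.log_zpow, abs_mul] at h1
    rw [hlog] at h1
    rw [Nat.cast_natAbs, Int.cast_abs]
    have h2 : |((3 : ℕ) : ℝ)| = 3 := by norm_num
    rw [h2] at h1
    apply mul_right_cancel₀ hr0.ne'
    rw [← h1]
    ring
  obtain ⟨t, ht, htN⟩ : ∃ t : ℕ, (t = 2 * classNumber (KD D) ∨ t = 4 * classNumber (KD D)) ∧
      N.natAbs = 3 * t := by
    rcases hq with hq | hq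
    · refine ⟨2 * classNumber (KD D), Or.inl rfl, ?_⟩
      rw [hq] at hNabs
      have h1 : (N.natAbs : ℝ) = ((3 * (2 * classNumber (KD D)) : ℕ) : ℝ) := by
        rw [hNabs]; push_cast; ring
      exact_mod_cast h1
    · refine ⟨4 * classNumber (KD D), Or.inr rfl, ?_⟩
      rw [hq] at hNabs
      have h1 : (N.natAbs : ℝ) = ((3 * (4 * classNumber (KD D)) : ℕ) : ℝ) := by
        rw [hNabs]; push_cast; ring
      exact_mod_cast h1
  obtain ⟨n, hn⟩ : ∃ n : ℤ, N = 3 * n := by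
    have h1 : (3 : ℤ) ∣ N := by
      rw [← Int.natAbs_dvd_natAbs, htN]
      exact ⟨t, rfl⟩
    exact h1
  have hnt : n.natAbs = t := by
    rw [hn, Int.natAbs_mul] at htN
    have h1 : Int.natAbs 3 = 3 := rfl
    rw [h1] at htN
    omega
  have hn2 : ∃ l : ℤ, n = 2 * l := by
    have h1 : (2 : ℤ) ∣ n := by
      rw [← Int.natAbs_dvd_natAbs, hnt]
      rcases ht with h2 | h2
      · exact ⟨_, h2⟩
      · exact ⟨2 * classNumber (KD D), by rw [h2]; show _ = 2 * _; ring⟩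
    exact h1
  obtain ⟨l, hl⟩ := hn2
  -- the norm of `ε`
  have hνε := n5_norm τ hτ ε
  set ν := n5_v D ε * n5_t τ ε with hν
  have hζt := n5_fix τ hτ ζ hζ6
  have hζ2 : n5_v D ζ ^ 2 = 1 := by
    have h1 : n5_v D x * n5_t τ x = 1 := by
      rw [hx, htx, mul_inv_cancel₀ hae0]
    have h2 : n5_v D x * n5_t τ x = n5_v D ζ ^ 2 * ν ^ N := by
      rw [hxN, map_mul, map_mul, map_zpow, map_zpow, hζt, hν, mul_zpow]
      ring
    have h3 : ν ^ N = 1 := by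
      rw [hn, hl, show 3 * (2 * l) = (6 : ℤ) * l by ring, zpow_mul]
      have h4 : ν ^ (6 : ℤ) = 1 := by exact_mod_cast hνε
      rw [h4, one_zpow]
    rw [h2, h3, mul_one] at h1
    exact h1
  -- `e` up to a cube root of unity
  set y := n5_v D ζ * n5_v D ε ^ n with hy
  have hvne : ∀ u : (𝓞 (KD D))ˣ, n5_v D u ≠ 0 := by
    intro u h0
    have h1 : n5_v D u * n5_v D u⁻¹ = 1 := by rw [← map_mul, mul_inv_cancel, map_one]
    rw [h0, zero_mul] at h1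
    exact zero_ne_one h1
  have hy0 : y ≠ 0 := mul_ne_zero (hvne ζ) (zpow_ne_zero _ (hvne ε))
  have hy3 : y ^ 3 = ee d R ^ 3 := by
    rw [hv, hy, mul_pow, hn, mul_comm (3 : ℤ) n, zpow_mul]
    have h1 : n5_v D ζ ^ 3 = n5_v D ζ := by rw [pow_succ, hζ2, one_mul]
    rw [h1]
    rfl
  obtain ⟨m₀, hm₀⟩ : ∃ m₀ : ZMod 3, ee d R = zw m₀ * y := by
    have h1 : (ee d R / y) ^ 3 = 1 := by
      rw [div_pow, hy3, div_self]
      rw [← hy3]
      exact pow_ne_zero _ hy0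
    obtain ⟨k, hk⟩ := n5_three h1
    exact ⟨k, by rw [← hk, div_mul_cancel₀ _ hy0]⟩
  have hlast : ∀ u : (𝓞 (KD D))ˣ, ∃ (y : ℂ) (j : ℤ), y ^ 6 = 1 ∧
        (((u : 𝓞 (KD D)) : KD D) : ℂ) = y * (((ε : 𝓞 (KD D)) : KD D) : ℂ) ^ j := by
    intro u
    obtain ⟨ζ', hζ', j, huj⟩ := hun u
    refine ⟨n5_v D ζ', j, torsion_mem h hu hζ', ?_⟩
    have h1 := congrArg (n5_v D) huj
    rw [map_mul, map_zpow] at h1
    exact h1
  have hnn : n.natAbs = 2 * classNumber (KD D) ∨ n.natAbs = 4 * classNumber (KD D) := by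
    rw [hnt]; exact ht
  by_cases hk : kk d = 0
  · -- the norm of `y`
    have hyN : ∃ j : ZMod 3, y * n5_t τ (ζ * ε ^ n) = zw j := by
      apply n5_three
      have h1 : y * n5_t τ (ζ * ε ^ n) = n5_v D ζ ^ 2 * ν ^ n := by
        rw [hy, map_mul, map_zpow, hζt, hν, mul_zpow]
        ring
      rw [h1, hζ2, one_mul, ← zpow_natCast, ← zpow_mul, hl,
        show 2 * l * ((3 : ℕ) : ℤ) = (6 : ℤ) * l by push_cast; ring, zpow_mul]
      have h4 : ν ^ (6 : ℤ) = 1 := by exact_mod_cast hνε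
      rw [h4, one_zpow]
    obtain ⟨j, hj⟩ := hyN
    have hvy : n5_v D (ζ * ε ^ n) = y := by rw [map_mul, map_zpow]
    refine ⟨j - m₀, ε, n, zw j * n5_v D ζ, fun h0 => absurd hk h0, ?_, ?_, ?_, hnn, hlast⟩
    · rw [mul_pow, n5_zw_six, hζ6, one_mul]
    · have h1 : zw (j - m₀) * ee d R = zw j * y := by
        rw [hm₀, ← mul_assoc, ← CUL.zw_add, sub_add_cancel]
      rw [h1]
      obtain ⟨b₁, b₂, hb₁, hb₂, hb⟩ := (mem_KD (D := D) (n5_v D (ζ * ε ^ n))).mp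
        (((ζ * ε ^ n : (𝓞 (KD D))ˣ) : 𝓞 (KD D)) : KD D).2
      have hbt : n5_t τ (ζ * ε ^ n) = b₁ - b₂ * sD D := hτ b₁ b₂ hb₁ hb₂ _ hb
      rw [hvy] at hb
      refine ⟨zw j * b₁, zw j * b₂, mul_mem (n5_zw_mem j) hb₁, mul_mem (n5_zw_mem j) hb₂, ?_, ?_,
        mul_ne_zero (CUL.zw_ne j) hy0⟩
      · rw [hb]; ring
      · have h2 : zw j * b₁ - zw j * b₂ * sD D = zw j * n5_t τ (ζ * ε ^ n) := by
          rw [hbt]; ring
        rw [h2]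
        apply inv_eq_of_mul_eq_one_right
        have h3 : zw j * y * (zw j * n5_t τ (ζ * ε ^ n)) = zw j * zw j * (y * n5_t τ (ζ * ε ^ n)) := by
          ring
        rw [h3, hj, ← CUL.zw_add, ← CUL.zw_add]
        have h4 : ∀ j : ZMod 3, j + j + j = 0 := by decide
        rw [h4 j, CUL.zw_zero]
    · have h1 : zw (j - m₀) * ee d R = zw j * y := by
        rw [hm₀, ← mul_assoc, ← CUL.zw_add, sub_add_cancel]
      rw [h1, hy, ← mul_assoc]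
      rfl
  · refine ⟨0, ε, n, zw m₀ * n5_v D ζ, fun _ => rfl, ?_, ?_, ?_, hnn, hlast⟩
    · rw [mul_pow, n5_zw_six, hζ6, one_mul]
    · rw [CUL.zw_zero, one_mul]
      exact ee_N1 h d hR (sD_sq D) hk
    · rw [CUL.zw_zero, one_mul, hm₀, hy, ← mul_assoc]
      rfl

end JL
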